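import Pool.Agent.Helper799.Single

set_option autoImplicit false

namespace Pool.Agent.Helper799.Cotype

open Finset
open Pool.Agent.Helper799.Khin Pool.Agent.Helper799.Single

lemma pow4_add (u v : ℝ) : (u + v) ^ 4 ≤ 8 * (u ^ 4 + v ^ 4) := by
  have h1 : (u + v) ^ 2 ≤ 2 * (u ^ 2 + v ^ 2) := by nlinarith [sq_nonneg (u - v)]
  have h2 : (u ^ 2 + v ^ 2) ^ 2 ≤ 2 * (u ^ 4 + v ^ 4) := by nlinarith [sq_nonneg (u ^ 2 - v ^ 2)]
  calc (u + v) ^ 4 = ((u + v) ^ 2) ^ 2 := by ring
    _ ≤ (2 * (u ^ 2 + v ^ 2)) ^ 2 := by gcongr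
    _ = 4 * (u ^ 2 + v ^ 2) ^ 2 := by ring
    _ ≤ _ := by linarith

lemma sum_sq_le_sq_sum {ι : Type*} (s : Finset ι) (a : ι → ℝ) (ha : ∀ i ∈ s, 0 ≤ a i) :
    ∑ i ∈ s, a i ^ 2 ≤ (∑ i ∈ s, a i) ^ 2 := by
  rw [sq, Finset.sum_mul]
  apply Finset.sum_le_sum
  intro i hi
  rw [sq]
  exact mul_le_mul_of_nonneg_left (Finset.single_le_sum ha hi) (ha i hi)

/-- Uniform cotype 4 for the transportation cost norm of sparse expanders. -/
theorem cotype4 (Δ h C : ℝ) (hΔ : 1 ≤ Δ) (hh : 0 < h) (hC : 0 ≤ C) :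
    ∃ K : ℝ, 0 < K ∧ ∀ (V : Type) [Fintype V] [DecidableEq V] (R : V → V → Prop)
      [DecidableRel R] (E : Finset (V × V)),
      (∀ x y, R x y → R y x) →
      (∀ e ∈ E, e.1 ≠ e.2 ∧ R e.1 e.2) →
      (∀ x y, R x y → (x, y) ∈ E ∨ (y, x) ∈ E) →
      (∀ x, ((Finset.univ.filter (fun y => R x y)).card : ℝ) ≤ Δ) →
      (∀ S : Finset V, 2 * S.card ≤ Fintype.card V →
        ∃ T : Finset V, Disjoint S T ∧ (∀ y ∈ T, ∃ x ∈ S, R x y) ∧ h * S.card ≤ T.card) →
      (∀ U : Finset V, U.Nonempty →
        ((E.filter (fun e => e.1 ∈ U ∧ e.2 ∈ U)).card : ℝ)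
          ≤ U.card + C * U.card / (1 + Real.log (Fintype.card V / U.card))) →
      ∀ (ν : (V → ℝ) → ℝ),
      (∀ f g : V → ℝ, ∑ v, f v = 0 → (∀ x y, R x y → |g x - g y| ≤ 1) →
        ∑ v, f v * g v ≤ ν f) →
      (∀ (f : V → ℝ) (k : ℝ), ∑ v, f v = 0 →
        (∀ g : V → ℝ, (∀ x y, R x y → |g x - g y| ≤ 1) → ∑ v, f v * g v ≤ k) → ν f ≤ k) →
      ∀ (m : ℕ) (x : Fin m → V → ℝ), (∀ i, ∑ v, x i v = 0) →
        ∑ i, ν (x i) ^ 4 ≤
          K * ((1 / 2 ^ m) * ∑ s : Finset (Fin m), ν (fun v => ∑ i, sg s i * x i v)) ^ 4 := by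
  classical
  -- constants
  set lam : ℝ := Real.log (1 + h) / 2 with hlam
  have hlog : 0 < Real.log (1 + h) := Real.log_pos (by linarith)
  have hlam0 : 0 < lam := by positivity
  have hexp2 : Real.exp (2 * lam) - 1 = h := by
    rw [hlam, mul_div_cancel₀ _ (by norm_num : (2:ℝ) ≠ 0), Real.exp_log (by linarith)]; ring
  obtain ⟨C1, hC1, hmoment⟩ := Conc.moment lam hlam0
  have hlogΔ : 0 < Real.log (2 * Δ) := Real.log_pos (by linarith)
  set b : ℝ := 1 / (2 * Real.log (2 * Δ)) with hb
  have hb0 : 0 < b := by positivity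
  set B : ℝ := max 1 (1 / (b * lam)) with hB
  have hB1 : 1 ≤ B := le_max_left _ _
  have hB0 : 0 < B := by linarith
  have hBlam : 1 / (b * B) ≤ lam := by
    have h1 : 1 / (b * lam) ≤ B := le_max_right _ _
    rw [div_le_iff₀ (by positivity)] at h1 ⊢
    linarith
  set C' : ℝ := C * (1 + 2 * b) with hC'
  have hC'0 : 0 ≤ C' := by positivity
  set C2 : ℝ := 4 + 5 * (C' + 1) with hC2
  have hC20 : 0 < C2 := by positivity
  refine ⟨8 * ((5 / 2 * B * (16 / 9 * C2)) ^ 4 + C1 ^ 2 * 4 ^ 4), by positivity, ?_⟩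
  intro V _ _ R _ E hsymm hE1 hE2 hdeg hexp hsparse ν hν1 hν2 m x hx
  -- notation
  set A : ℝ := (1 / 2 ^ m) * ∑ s : Finset (Fin m), ν (fun v => ∑ i, sg s i * x i v) with hA
  have hzs : ∀ s : Finset (Fin m), ∑ v, (∑ i, sg s i * x i v) = 0 := by
    intro s
    rw [Finset.sum_comm]
    apply Finset.sum_eq_zero
    intro i _
    rw [← Finset.mul_sum, hx i, mul_zero]
  have hν0 : ∀ f : V → ℝ, ∑ v, f v = 0 → 0 ≤ ν f := by
    intro f hf
    have := hν1 f (fun _ => 0) hf (by intro x y _; simp)
    simpa using this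
  have hA0 : 0 ≤ A := by
    apply mul_nonneg (by positivity)
    exact Finset.sum_nonneg fun s _ => hν0 _ (hzs s)
  set S : V → ℝ := fun z => Real.sqrt (∑ i, x i z ^ 2) with hS
  have hS0 : ∀ z, 0 ≤ S z := fun z => Real.sqrt_nonneg _
  have hxS : ∀ i z, |x i z| ≤ S z := by
    intro i z
    rw [← Real.sqrt_sq_eq_abs]
    apply Real.sqrt_le_sqrt
    exact Finset.single_le_sum (f := fun i => x i z ^ 2) (fun j _ => sq_nonneg _)
      (Finset.mem_univ i)
  set Sg : ℝ := ∑ z, S z with hSg
  have hSg0 : 0 ≤ Sg := Finset.sum_nonneg fun z _ => hS0 z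
  rcases hSg0.eq_or_lt with hz | hpos
  · -- degenerate case
    have hSz : ∀ z, S z = 0 := by
      intro z
      have := (Finset.sum_eq_zero_iff_of_nonneg (fun z _ => hS0 z)).1 hz.symm z (Finset.mem_univ z)
      exact this
    have hxz : ∀ i z, x i z = 0 := by
      intro i z
      have := hxS i z
      rw [hSz z] at this
      exact abs_nonpos_iff.1 this
    have hνz : ∀ i, ν (x i) = 0 := by
      intro i
      apply le_antisymm _ (hν0 _ (hx i))
      apply hν2 _ _ (hx i)
      intro g _
      simp [hxz]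
    simp only [hνz]
    simp
    positivity
  · -- main case
    have hVne : Nonempty V := by
      by_contra hcon
      rw [not_nonempty_iff] at hcon
      rw [hSg] at hpos
      simp at hpos
    set N : ℝ := (Fintype.card V : ℝ) with hN
    have hN0 : 0 < N := by
      rw [hN]; exact_mod_cast Fintype.card_pos
    set M : ℝ := Sg / N with hM
    have hM0 : 0 < M := by positivity
    have hMN : M * N = Sg := by rw [hM]; field_simp
    obtain ⟨w, hw0, hw1, hw2, hw3⟩ := Pot.exists_pot R hsymm Δ hΔ hdeg (fun z => S z / M)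
      (fun z => div_nonneg (hS0 z) hM0.le)
    have hsumS : ∑ z, S z / M = N := by
      rw [← Finset.sum_div, ← hSg, div_eq_iff hM0.ne', mul_comm]; exact hMN.symm
    rw [hsumS] at hw3
    set EE : V → ℝ := fun z => 1 + w z with hEE
    have hEE1 : ∀ z, 1 ≤ EE z := fun z => by simp only [hEE]; linarith [hw0 z]
    have hEEsum : ∑ z, EE z ≤ 3 * Fintype.card V := by
      simp only [hEE, Finset.sum_add_distrib, Finset.sum_const, Finset.card_univ, nsmul_eq_mul,
        mul_one]
      rw [← hN]; linarith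
    set κ : V → ℝ := fun z => 1 + b * Real.log (EE z) with hκ
    have hκ1 : ∀ z, 1 ≤ κ z := by
      intro z
      have := mul_nonneg hb0.le (Real.log_nonneg (hEE1 z))
      simp only [hκ]; linarith
    have hκstep : ∀ y z, R y z → κ z ≤ κ y + 1 / 2 := by
      intro y z hyz
      have h1 : EE z ≤ (2 * Δ) * EE y := by
        simp only [hEE]
        have := hw2 y z hyz
        nlinarith
      have h2 : Real.log (EE z) ≤ Real.log (2 * Δ) + Real.log (EE y) := by
        rw [← Real.log_mul (by positivity) (by linarith [hEE1 y])]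
        exact Real.log_le_log (by linarith [hEE1 z]) h1
      have h3 : b * Real.log (EE z) ≤ b * (Real.log (2 * Δ) + Real.log (EE y)) :=
        mul_le_mul_of_nonneg_left h2 hb0.le
      have h4 : b * Real.log (2 * Δ) = 1 / 2 := by rw [hb]; field_simp
      simp only [hκ]; linarith
    have hκlip : ∀ y z, R y z → |κ y - κ z| ≤ 1 / 2 := by
      intro y z hyz
      rw [abs_le]
      constructor
      · linarith [hκstep y z hyz]
      · linarith [hκstep z y (hsymm _ _ hyz)]
    have hweighted : ∀ U : Finset V, ((E.filter (fun e => e.1 ∈ U ∧ e.2 ∈ U)).card : ℝ)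
        ≤ ∑ z ∈ U, (1 + C' / κ z) := by
      intro U
      rcases U.eq_empty_or_nonempty with rfl | hU
      · simp
      · exact Pot.weighted EE hEE1 hEEsum b hb0 C hC U hU _ (hsparse U hU)
    obtain ⟨wt, hwt0, hwt1, hwt2⟩ := Orient.exists_dist E (fun e he => (hE1 e he).1) κ hκ1 C'
      hC'0 hweighted
    have hpR : ∀ σ z, Orient.pmap E σ z = z ∨ R z (Orient.pmap E σ z) := by
      intro σ z
      rcases Orient.pmap_spec E σ z with h1 | h1 | h1
      · left; exact h1
      · right; exact (hE1 _ h1).2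
      · right; exact hsymm _ _ (hE1 _ h1).2
    have hLex := fun σ : Equiv.Perm (↥E ⊕ V) =>
      Disc.exists_L (Orient.pmap E σ) κ hκ1 (by
        intro z
        rcases hpR σ z with h1 | h1
        · rw [h1]; linarith
        · exact hκstep _ _ h1)
    choose L hLa hLb hLc using hLex
    -- bound for differences of adjacent points
    have hsingle : ∀ z : V, ∑ y, 2 * κ y * |(Pi.single z (1:ℝ) : V → ℝ) y| = 2 * κ z := by
      intro z
      rw [Finset.sum_eq_single z]
      · simp
      · intro y _ hy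
        rw [Pi.single_eq_of_ne hy]; simp
      · intro h; exact absurd (Finset.mem_univ _) h
    have hflip : ∀ σ (y z : V), ∑ v, |L σ (Pi.single y 1 - Pi.single z 1) v|
        = ∑ v, |L σ (Pi.single z 1 - Pi.single y 1) v| := by
      intro σ y z
      apply Finset.sum_congr rfl
      intro v _
      rw [← neg_sub (Pi.single z (1:ℝ) : V → ℝ), map_neg, Pi.neg_apply, abs_neg]
    have hgen : ∀ σ (y z : V), ∑ v, |L σ (Pi.single y 1 - Pi.single z 1) v|
        ≤ 2 * κ y + 2 * κ z := by
      intro σ y z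
      calc ∑ v, |L σ (Pi.single y 1 - Pi.single z 1) v|
          ≤ ∑ v, (|L σ (Pi.single y 1) v| + |L σ (Pi.single z 1) v|) := by
            apply Finset.sum_le_sum
            intro v _
            rw [map_sub, Pi.sub_apply]
            exact abs_sub _ _
        _ = ∑ v, |L σ (Pi.single y 1) v| + ∑ v, |L σ (Pi.single z 1) v| :=
            Finset.sum_add_distrib
        _ ≤ 2 * κ y + 2 * κ z := by
            have h1 := hLa σ (Pi.single y 1)
            have h2 := hLa σ (Pi.single z 1)
            rw [hsingle] at h1 h2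
            linarith
    have hedgeE : ∀ e ∈ E, ∑ σ, wt σ * ∑ v, |L σ (Pi.single e.1 1 - Pi.single e.2 1) v| ≤ C2 := by
      intro e he
      set r := min (κ e.1) (κ e.2) with hr
      have hr0 : 0 < r := lt_min (by linarith [hκ1 e.1]) (by linarith [hκ1 e.2])
      have hr1 : 1 ≤ r := le_min (hκ1 e.1) (hκ1 e.2)
      have hbig : 2 * κ e.1 + 2 * κ e.2 ≤ 5 * r := by
        have h1 := hκstep _ _ (hE1 e he).2
        have h2 := hκstep _ _ (hsymm _ _ (hE1 e he).2)
        rcases le_total (κ e.1) (κ e.2) with h3 | h3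
        · have : r = κ e.1 := min_eq_left h3
          linarith
        · have : r = κ e.2 := min_eq_right h3
          linarith
      have hpt : ∀ σ, wt σ * ∑ v, |L σ (Pi.single e.1 1 - Pi.single e.2 1) v|
          ≤ 4 * wt σ + 5 * r * (if Orient.pmap E σ e.1 = e.2 ∨ Orient.pmap E σ e.2 = e.1
              then 0 else wt σ) := by
        intro σ
        have h0 := hwt0 σ
        split_ifs with hcov
        · have h4 : ∑ v, |L σ (Pi.single e.1 1 - Pi.single e.2 1) v| ≤ 4 := by
            rcases hcov with h5 | h5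
            · have := hLb σ e.1
              rwa [h5] at this
            · have := hLb σ e.2
              rw [h5] at this
              rw [hflip]; exact this
          nlinarith
        · have h4 := (hgen σ e.1 e.2).trans hbig
          have := mul_le_mul_of_nonneg_left h4 h0
          linarith
      calc ∑ σ, wt σ * ∑ v, |L σ (Pi.single e.1 1 - Pi.single e.2 1) v|
          ≤ ∑ σ, (4 * wt σ + 5 * r * (if Orient.pmap E σ e.1 = e.2 ∨ Orient.pmap E σ e.2 = e.1
              then 0 else wt σ)) := Finset.sum_le_sum fun σ _ => hpt σ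
        _ = 4 + 5 * r * ∑ σ, (if Orient.pmap E σ e.1 = e.2 ∨ Orient.pmap E σ e.2 = e.1
              then 0 else wt σ) := by
            rw [Finset.sum_add_distrib, ← Finset.mul_sum, hwt1, ← Finset.mul_sum, mul_one]
        _ ≤ 4 + 5 * r * ((C' + 1) / r) := by
            have := hwt2 e he r hr0 (min_le_left _ _) (min_le_right _ _)
            gcongr
        _ = C2 := by rw [hC2]; field_simp
    have hedge : ∀ y z, R y z →
        ∑ σ, wt σ * ∑ v, |L σ (Pi.single y 1 - Pi.single z 1) v| ≤ C2 := by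
      intro y z hyz
      rcases hE2 y z hyz with h1 | h1
      · exact hedgeE (y, z) h1
      · have := hedgeE (z, y) h1
        simp only at this
        calc ∑ σ, wt σ * ∑ v, |L σ (Pi.single y 1 - Pi.single z 1) v|
            = ∑ σ, wt σ * ∑ v, |L σ (Pi.single z 1 - Pi.single y 1) v| :=
              Finset.sum_congr rfl fun σ _ => by rw [hflip]
          _ ≤ C2 := this
    have hNν := norm_le_nu R wt hwt0 L C2 hC20 hedge ν hν1
    -- the averaged Khintchine bound
    set RR : Equiv.Perm (↥E ⊕ V) → ℝ := fun σ =>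
      Real.sqrt (∑ i, (∑ z, |L σ (x i) z|) ^ 2) with hRR
    have hp2 : (0:ℝ) < 2 ^ m := by positivity
    have hsumR : ∑ σ, wt σ * RR σ ≤ 16 / 9 * C2 * A := by
      have h1 : ∑ σ, wt σ * ((9 / 16) * (2 ^ m * RR σ))
          ≤ ∑ s : Finset (Fin m), C2 * ν (fun v => ∑ i, sg s i * x i v) := by
        calc ∑ σ, wt σ * ((9 / 16) * (2 ^ m * RR σ))
            ≤ ∑ σ, wt σ * ∑ s : Finset (Fin m), ∑ z, |L σ (fun v => ∑ i, sg s i * x i v) z| := by
              apply Finset.sum_le_sum
              intro σ _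
              exact mul_le_mul_of_nonneg_left (khin_lin (L σ) x) (hwt0 σ)
          _ = ∑ s : Finset (Fin m), ∑ σ, wt σ * ∑ z, |L σ (fun v => ∑ i, sg s i * x i v) z| := by
              rw [Finset.sum_comm]
              exact Finset.sum_congr rfl fun σ _ => by rw [Finset.mul_sum]
          _ ≤ _ := Finset.sum_le_sum fun s _ => hNν _ (hzs s)
      have h2 : ∑ σ, wt σ * ((9 / 16) * (2 ^ m * RR σ)) = (9 / 16) * 2 ^ m * ∑ σ, wt σ * RR σ := by
        rw [Finset.mul_sum]
        exact Finset.sum_congr rfl fun σ _ => by ring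
      have h3 : ∑ s : Finset (Fin m), C2 * ν (fun v => ∑ i, sg s i * x i v) = C2 * (2 ^ m * A) := by
        rw [← Finset.mul_sum, hA]
        congr 1
        field_simp
      rw [h2, h3] at h1
      have h4 : (2:ℝ) ^ m * ((9 / 16) * ∑ σ, wt σ * RR σ) ≤ 2 ^ m * (C2 * A) := by linarith
      have h5 := le_of_mul_le_mul_left h4 hp2
      linarith
    obtain ⟨σ, hσ⟩ : ∃ σ, RR σ ≤ 16 / 9 * C2 * A := by
      by_contra hcon
      push Not at hcon
      have h1 : ∑ σ, wt σ * (16 / 9 * C2 * A) = 16 / 9 * C2 * A := by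
        rw [← Finset.sum_mul, hwt1, one_mul]
      have h2 : ∑ σ, wt σ * (16 / 9 * C2 * A) < ∑ σ, wt σ * RR σ := by
        apply Finset.sum_lt_sum
        · intro σ _
          exact mul_le_mul_of_nonneg_left (hcon σ).le (hwt0 σ)
        · by_contra hcon2
          push Not at hcon2
          have hz : ∀ σ, wt σ = 0 := by
            intro σ
            by_contra hne
            have hp : 0 < wt σ := lt_of_le_of_ne (hwt0 σ) (Ne.symm hne)
            have := hcon2 σ (Finset.mem_univ _)
            have h5 := mul_lt_mul_of_pos_left (hcon σ) hp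
            linarith
          simp [hz] at hwt1
      linarith
    -- the ℓ_1 bound
    have hSgA : Sg ≤ 4 * A := by
      have hl1 : ∀ f : V → ℝ, ∑ v, f v = 0 → ∑ v, |f v| ≤ 2 * ν f := by
        intro f hf
        have h1 := hν1 f (fun v => if 0 ≤ f v then 1 / 2 else -(1 / 2)) hf (by
          intro y z _
          split_ifs <;> norm_num)
        have h2 : ∑ v, f v * (if 0 ≤ f v then 1 / 2 else -(1 / 2)) = (∑ v, |f v|) / 2 := by
          rw [Finset.sum_div]
          apply Finset.sum_congr rfl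
          intro v _
          split_ifs with h
          · rw [abs_of_nonneg h]; ring
          · rw [abs_of_neg (not_le.1 h)]; ring
        rw [h2] at h1
        linarith
      have h2 : (9 / 16) * (2 ^ m * Sg)
          ≤ ∑ s : Finset (Fin m), ∑ z, |∑ i, sg s i * x i z| := by
        rw [Finset.sum_comm]
        calc (9 / 16) * (2 ^ m * Sg) = ∑ z, (9 / 16) * (2 ^ m * S z) := by
              rw [hSg, Finset.mul_sum, Finset.mul_sum]
          _ ≤ _ := by
              apply Finset.sum_le_sum
              intro z _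
              have := khintchine (Finset.univ : Finset (Fin m)) (fun i => x i z)
              simpa using this
      have h3 : ∑ s : Finset (Fin m), ∑ z, |∑ i, sg s i * x i z| ≤ 2 * (2 ^ m * A) := by
        calc ∑ s : Finset (Fin m), ∑ z, |∑ i, sg s i * x i z|
            ≤ ∑ s : Finset (Fin m), 2 * ν (fun v => ∑ i, sg s i * x i v) :=
              Finset.sum_le_sum fun s _ => hl1 _ (hzs s)
          _ = 2 * (2 ^ m * A) := by
              rw [← Finset.mul_sum, hA]
              congr 1
              field_simp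
      have h4 : (2:ℝ) ^ m * ((9 / 16) * Sg) ≤ 2 ^ m * (2 * A) := by linarith
      have h5 := le_of_mul_le_mul_left h4 hp2
      linarith
    -- upper bound for each `ν (x i)`
    set l : Fin m → ℝ := fun i => ∑ z, |L σ (x i) z| with hl
    set a : Fin m → ℝ := fun i => ∑ z, |x i z| with ha
    have hl0 : ∀ i, 0 ≤ l i := fun i => Finset.sum_nonneg fun _ _ => abs_nonneg _
    have ha0 : ∀ i, 0 ≤ a i := fun i => Finset.sum_nonneg fun _ _ => abs_nonneg _
    have hupper : ∀ i, ν (x i) ≤ 5 / 2 * B * l i + Real.sqrt (a i * (C1 * Sg)) := by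
      intro i
      apply hν2 _ _ (hx i)
      intro g hg
      obtain ⟨c, hc1, hc2⟩ := Conc.exists_median g
      have h1 : ∑ v, x i v * g v = ∑ v, x i v * (g v - c) := by
        have : ∑ v, x i v * (g v - c) = ∑ v, x i v * g v - c * ∑ v, x i v := by
          rw [Finset.mul_sum, ← Finset.sum_sub_distrib]
          exact Finset.sum_congr rfl fun v _ => by ring
        rw [this, hx i]; ring
      rw [h1]
      have hφ : ∀ y z, R y z → |(fun v => g v - c) y - (fun v => g v - c) z| ≤ 1 := by
        intro y z hyz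
        have := hg y z hyz
        simpa using this
      have hmom := hmoment V R (by rw [hexp2]; exact hexp) (fun v => g v - c) hφ
        (by
          have h2 : (Finset.univ.filter (fun v => 0 < g v - c))
              = Finset.univ.filter (fun v => c < g v) := by
            ext v; simp
          rw [h2]; exact hc1)
        (by
          have h2 : (Finset.univ.filter (fun v => g v - c < 0))
              = Finset.univ.filter (fun v => g v < c) := by
            ext v; simp
          rw [h2]; exact hc2)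
      have hfb : ∀ v, |x i v| ≤ M * Real.exp ((κ v - 1) / b) := by
        intro v
        have h2 : (κ v - 1) / b = Real.log (EE v) := by
          simp only [hκ]; field_simp; ring
        rw [h2, Real.exp_log (by linarith [hEE1 v])]
        have h3 := hw1 v
        rw [div_le_iff₀ hM0] at h3
        have h4 := hxS i v
        simp only [hEE]
        nlinarith
      obtain ⟨ψ, hψ1, hψ2, hψ3⟩ := trunc R κ hκ1 hκlip b B lam C1 M N hb0 hB1 hBlam hM0.le
        (fun v => g v - c) hφ hmom (x i) hfb
      refine hψ3.trans ?_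
      rw [hMN]
      have h5 := hLc σ (x i) ψ (by
        intro z
        rcases hpR σ z with h6 | h6
        · rw [h6]; simp
        · exact hψ1 _ _ h6) hψ2
      have h6 : B * ∑ z, x i z * ψ z ≤ B * (5 / 2 * l i) := mul_le_mul_of_nonneg_left h5 hB0.le
      have h7 : B * (5 / 2 * l i) = 5 / 2 * B * l i := by ring
      rw [← h7]
      exact add_le_add h6 (le_refl _)
    -- final summation
    have hsuml : ∑ i, l i ^ 2 = RR σ ^ 2 := by
      rw [hRR]; simp only
      rw [Real.sq_sqrt (Finset.sum_nonneg fun _ _ => sq_nonneg _)]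
    have hsuml4 : ∑ i, l i ^ 4 ≤ (16 / 9 * C2 * A) ^ 4 := by
      calc ∑ i, l i ^ 4 = ∑ i, (l i ^ 2) ^ 2 := Finset.sum_congr rfl fun i _ => by ring
        _ ≤ (∑ i, l i ^ 2) ^ 2 := sum_sq_le_sq_sum _ _ fun i _ => sq_nonneg _
        _ = RR σ ^ 4 := by rw [hsuml]; ring
        _ ≤ _ := by
            have : 0 ≤ RR σ := Real.sqrt_nonneg _
            gcongr
    have hsuma : ∑ i, a i ^ 2 ≤ Sg ^ 2 := by
      have h1 := minkowski (Finset.univ : Finset (Fin m)) (Finset.univ : Finset V) x
      have h2 : 0 ≤ ∑ i, a i ^ 2 := Finset.sum_nonneg fun _ _ => sq_nonneg _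
      calc ∑ i, a i ^ 2 = Real.sqrt (∑ i, a i ^ 2) ^ 2 := (Real.sq_sqrt h2).symm
        _ ≤ Sg ^ 2 := by
            have h3 : 0 ≤ Real.sqrt (∑ i, a i ^ 2) := Real.sqrt_nonneg _
            gcongr
    calc ∑ i, ν (x i) ^ 4
        ≤ ∑ i, 8 * ((5 / 2 * B * l i) ^ 4 + C1 ^ 2 * Sg ^ 2 * a i ^ 2) := by
          apply Finset.sum_le_sum
          intro i _
          have h1 : ν (x i) ^ 4 ≤ (5 / 2 * B * l i + Real.sqrt (a i * (C1 * Sg))) ^ 4 := by
            have := hν0 _ (hx i)
            gcongr
            exact hupper i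
          have h2 : Real.sqrt (a i * (C1 * Sg)) ^ 4 = C1 ^ 2 * Sg ^ 2 * a i ^ 2 := by
            have h3 : 0 ≤ a i * (C1 * Sg) := by
              have := ha0 i
              positivity
            calc Real.sqrt (a i * (C1 * Sg)) ^ 4 = (Real.sqrt (a i * (C1 * Sg)) ^ 2) ^ 2 := by ring
              _ = (a i * (C1 * Sg)) ^ 2 := by rw [Real.sq_sqrt h3]
              _ = _ := by ring
          calc ν (x i) ^ 4 ≤ _ := h1
            _ ≤ _ := pow4_add _ _
            _ = _ := by rw [h2]
      _ = 8 * ((5 / 2 * B) ^ 4 * ∑ i, l i ^ 4 + C1 ^ 2 * Sg ^ 2 * ∑ i, a i ^ 2) := by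
          rw [← Finset.mul_sum, Finset.sum_add_distrib, Finset.mul_sum, Finset.mul_sum]
          congr 2
          exact Finset.sum_congr rfl fun i _ => by ring
      _ ≤ 8 * ((5 / 2 * B) ^ 4 * (16 / 9 * C2 * A) ^ 4 + C1 ^ 2 * (4 * A) ^ 2 * (4 * A) ^ 2) := by
          have h1 : Sg ^ 2 ≤ (4 * A) ^ 2 := by gcongr
          have h2 : ∑ i, a i ^ 2 ≤ (4 * A) ^ 2 := hsuma.trans h1
          gcongr
      _ = _ := by ring

end Pool.Agent.Helper799.Cotype
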