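import Pool.Agent.Helper799.Graph
import Pool.Agent.Helper799.Cotype

set_option autoImplicit false

namespace Pool.Agent.Helper799.Assemble

open Finset
open Pool.Agent.Helper799.Khin

/-- the transportation cost norm, by Kantorovich duality -/
noncomputable def nu {V : Type} [Fintype V] (G : SimpleGraph V) (f : V → ℝ) : ℝ :=
  sSup {r : ℝ | ∃ g : V → ℝ, (∀ u v, |g u - g v| ≤ (G.dist u v : ℝ)) ∧ r = ∑ v, f v * g v}

section
variable {V : Type} [Fintype V] (G : SimpleGraph V)

lemma walk_lip (g : V → ℝ) (hg : ∀ x y, G.Adj x y → |g x - g y| ≤ 1) {u v : V}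
    (p : G.Walk u v) : |g u - g v| ≤ (p.length : ℝ) := by
  induction p with
  | nil => simp
  | @cons a b c h p ih =>
    rw [SimpleGraph.Walk.length_cons]
    push_cast
    have h1 := hg _ _ h
    calc |g a - g c| = |(g a - g b) + (g b - g c)| := by ring_nf
      _ ≤ |g a - g b| + |g b - g c| := abs_add_le _ _
      _ ≤ _ := by linarith

lemma edge_to_dist (hconn : G.Connected) (g : V → ℝ)
    (hg : ∀ x y, G.Adj x y → |g x - g y| ≤ 1) (u v : V) : |g u - g v| ≤ (G.dist u v : ℝ) := by
  obtain ⟨p, hp⟩ := hconn.exists_walk_length_eq_dist u v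
  rw [← hp]
  exact walk_lip G g hg p

lemma dist_to_edge (g : V → ℝ) (hg : ∀ u v, |g u - g v| ≤ (G.dist u v : ℝ)) (x y : V)
    (h : G.Adj x y) : |g x - g y| ≤ 1 := by
  have := hg x y
  rw [SimpleGraph.dist_eq_one_iff_adj.2 h] at this
  simpa using this

lemma nu_ge (hconn : G.Connected) (f g : V → ℝ) (hf : ∑ v, f v = 0)
    (hg : ∀ x y, G.Adj x y → |g x - g y| ≤ 1) : ∑ v, f v * g v ≤ nu G f := by
  unfold nu
  apply le_csSup
  · haveI := hconn.nonempty
    obtain ⟨x0⟩ := hconn.nonempty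
    refine ⟨∑ v, |f v| * (G.dist v x0 : ℝ), ?_⟩
    rintro r ⟨g', hg', rfl⟩
    have h1 : ∑ v, f v * g' v = ∑ v, f v * (g' v - g' x0) := by
      have : ∑ v, f v * (g' v - g' x0) = ∑ v, f v * g' v - (∑ v, f v) * g' x0 := by
        rw [Finset.sum_mul, ← Finset.sum_sub_distrib]
        exact Finset.sum_congr rfl fun v _ => by ring
      rw [this, hf]; ring
    rw [h1]
    apply Finset.sum_le_sum
    intro v _
    calc f v * (g' v - g' x0) ≤ |f v * (g' v - g' x0)| := le_abs_self _
      _ = |f v| * |g' v - g' x0| := abs_mul _ _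
      _ ≤ _ := by
        have := hg' v x0
        gcongr
  · exact ⟨g, edge_to_dist G hconn g hg, rfl⟩

lemma nu_le (f : V → ℝ) (k : ℝ)
    (h : ∀ g : V → ℝ, (∀ x y, G.Adj x y → |g x - g y| ≤ 1) → ∑ v, f v * g v ≤ k) :
    nu G f ≤ k := by
  unfold nu
  apply csSup_le
  · exact ⟨_, fun _ => 0, by intro u v; simp, rfl⟩
  · rintro r ⟨g, hg, rfl⟩
    exact h g (dist_to_edge G g hg)

lemma nu_nonneg (hconn : G.Connected) (f : V → ℝ) (hf : ∑ v, f v = 0) : 0 ≤ nu G f := by
  have := nu_ge G hconn f (fun _ => 0) hf (by intro x y _; simp)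
  simpa using this

lemma nu_comb (hconn : G.Connected) {m : ℕ} (x : Fin m → V → ℝ) (hx : ∀ i, ∑ v, x i v = 0)
    (s : Finset (Fin m)) :
    nu G (fun v => ∑ i, sg s i * x i v) ≤ ∑ i, nu G (x i) := by
  apply nu_le
  intro g hg
  have h1 : ∑ v, (∑ i, sg s i * x i v) * g v = ∑ i, sg s i * ∑ v, x i v * g v := by
    simp_rw [Finset.sum_mul, Finset.mul_sum]
    rw [Finset.sum_comm]
    apply Finset.sum_congr rfl
    intro i _
    exact Finset.sum_congr rfl fun v _ => by ring
  rw [h1]
  apply Finset.sum_le_sum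
  intro i _
  unfold sg
  split_ifs
  · rw [one_mul]
    exact nu_ge G hconn _ g (hx i) hg
  · have := nu_ge G hconn (x i) (fun v => - g v) (hx i) (by
      intro a b hab
      have := hg a b hab
      rwa [show -g a - -g b = -(g a - g b) by ring, abs_neg])
    have h2 : ∑ v, x i v * - g v = -1 * ∑ v, x i v * g v := by
      rw [Finset.mul_sum]
      exact Finset.sum_congr rfl fun v _ => by ring
    rwa [h2] at this

end

/-- the family of graphs -/
theorem exists_family : ∃ G : ∀ n : ℕ, SimpleGraph (Fin (n + 2)),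
    (∀ n, (G n).Connected) ∧
    (∀ n x (A : Finset (Fin (n + 2))), (∀ y ∈ A, (G n).Adj x y) → A.card ≤ 48) ∧
    (∀ n (S : Finset (Fin (n + 2))), 2 * S.card ≤ n + 2 →
      ∃ T : Finset (Fin (n + 2)), Disjoint S T ∧ (∀ y ∈ T, ∃ x ∈ S, (G n).Adj x y) ∧
        (1 / 2 : ℝ) * S.card ≤ T.card) ∧
    ∃ K : ℝ, 0 < K ∧ ∀ n (m : ℕ) (x : Fin m → Fin (n + 2) → ℝ), (∀ i, ∑ v, x i v = 0) →
      ∑ i, nu (G n) (x i) ^ 4 ≤
        K * ((1 / 2 ^ m) * ∑ s : Finset (Fin m), nu (G n) (fun v => ∑ i, sg s i * x i v)) ^ 4 := by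
  classical
  have hex := fun n : ℕ => Graph.exists_graph (n + 2) (Nat.succ_pos _)
  choose R hR1 hR2 hR3 hR4 hR5 using hex
  let G : ∀ n : ℕ, SimpleGraph (Fin (n + 2)) := fun n =>
    { Adj := R n
      symm := ⟨fun x y h => hR1 n x y h⟩
      loopless := ⟨fun x h => hR2 n x h⟩ }
  have hconn : ∀ n, (G n).Connected := by
    intro n
    haveI : Nonempty (Fin (n + 2)) := ⟨0⟩
    refine SimpleGraph.Connected.mk ?_
    intro u v
    by_contra hcon
    set S : Finset (Fin (n + 2)) := Finset.univ.filter (fun w => (G n).Reachable u w) with hS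
    have hu : u ∈ S := by rw [hS, Finset.mem_filter]; exact ⟨Finset.mem_univ _, SimpleGraph.Reachable.refl u⟩
    have hv : v ∉ S := by rw [hS, Finset.mem_filter]; exact fun h => hcon h.2
    have hcard : S.card + Sᶜ.card = n + 2 := by
      rw [Finset.card_add_card_compl, Fintype.card_fin]
    rcases le_total (2 * S.card) (n + 2) with h | h
    · obtain ⟨T, hT1, hT2, hT3⟩ := hR4 n S h
      have hTe : T = ∅ := by
        rw [Finset.eq_empty_iff_forall_notMem]
        intro y hy
        obtain ⟨x, hx, hxy⟩ := hT2 y hy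
        have hyS : y ∈ S := by
          rw [hS, Finset.mem_filter] at hx ⊢
          exact ⟨Finset.mem_univ _, hx.2.trans (SimpleGraph.Adj.reachable hxy)⟩
        exact Finset.disjoint_left.1 hT1 hyS hy
      rw [hTe] at hT3
      simp only [Finset.card_empty, Nat.cast_zero] at hT3
      have : (0:ℝ) < S.card := by exact_mod_cast Finset.card_pos.2 ⟨u, hu⟩
      linarith
    · have h' : 2 * Sᶜ.card ≤ n + 2 := by omega
      obtain ⟨T, hT1, hT2, hT3⟩ := hR4 n Sᶜ h'
      have hTe : T = ∅ := by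
        rw [Finset.eq_empty_iff_forall_notMem]
        intro y hy
        obtain ⟨x, hx, hxy⟩ := hT2 y hy
        have hyS : y ∈ S := by
          by_contra hyS
          exact Finset.disjoint_left.1 hT1 (Finset.mem_compl.2 hyS) hy
        rw [Finset.mem_compl] at hx
        apply hx
        rw [hS, Finset.mem_filter] at hyS ⊢
        exact ⟨Finset.mem_univ _, hyS.2.trans (SimpleGraph.Adj.reachable (hR1 n _ _ hxy))⟩
      rw [hTe] at hT3
      simp only [Finset.card_empty, Nat.cast_zero] at hT3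
      have : (0:ℝ) < Sᶜ.card := by
        exact_mod_cast Finset.card_pos.2 ⟨v, Finset.mem_compl.2 hv⟩
      linarith
  refine ⟨G, hconn, fun n x A hA => hR3 n x A hA, fun n S hS => hR4 n S hS, ?_⟩
  obtain ⟨K, hK, hcot⟩ := Cotype.cotype4 48 (1 / 2) 1000 (by norm_num) (by norm_num) (by norm_num)
  refine ⟨K, hK, ?_⟩
  intro n m x hx
  apply hcot (Fin (n + 2)) (fun x y => (G n).Adj x y)
    (Finset.univ.filter (fun e : Fin (n + 2) × Fin (n + 2) => e.1 < e.2 ∧ (G n).Adj e.1 e.2))
  · intro x y h; exact h.symm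
  · intro e he
    rw [Finset.mem_filter] at he
    exact ⟨he.2.1.ne, he.2.2⟩
  · intro x y hxy
    simp only [Finset.mem_filter, Finset.mem_univ, true_and]
    rcases lt_or_gt_of_ne hxy.ne with h | h
    · left; exact ⟨h, hxy⟩
    · right; exact ⟨h, hxy.symm⟩
  · intro x
    have := hR3 n x (Finset.univ.filter (fun y => (G n).Adj x y)) (by
      intro y hy
      rw [Finset.mem_filter] at hy
      exact hy.2)
    exact_mod_cast this
  · intro S hS
    rw [Fintype.card_fin] at hS
    exact hR4 n S hS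
  · intro U hU
    rw [Fintype.card_fin]
    have := hR5 n U (((Finset.univ.filter (fun e : Fin (n + 2) × Fin (n + 2) =>
      e.1 < e.2 ∧ (G n).Adj e.1 e.2))).filter (fun e => e.1 ∈ U ∧ e.2 ∈ U)) hU (by
      intro e he
      simp only [Finset.mem_filter, Finset.mem_univ, true_and] at he
      exact ⟨he.1.1, he.1.2, he.2.1, he.2.2⟩)
    exact this
  · intro f g hf hg
    exact nu_ge (G n) (hconn n) f g hf hg
  · intro f k _ h
    exact nu_le (G n) f k h
  · exact hx

end Pool.Agent.Helper799.Assemble
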