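import Mathlib

set_option autoImplicit false

namespace Pool.Helper799.Balls

open Finset

/-! ### Greedy subset sums -/

theorem greedy {ι : Type*} [DecidableEq ι] (s : Finset ι) (f : ι → ℝ) (δ x : ℝ)
    (hδ : 0 ≤ δ) (hf0 : ∀ i ∈ s, 0 ≤ f i) (hf : ∀ i ∈ s, f i ≤ δ) (hx0 : 0 ≤ x)
    (hx : x ≤ ∑ i ∈ s, f i) :
    ∃ t ⊆ s, x ≤ ∑ i ∈ t, f i ∧ ∑ i ∈ t, f i ≤ x + δ := by
  induction s using Finset.induction_on with
  | empty =>
    refine ⟨∅, Finset.Subset.refl _, by simpa using hx, ?_⟩
    simp; linarith
  | @insert a s ha ih =>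
    by_cases h : x ≤ ∑ i ∈ s, f i
    · obtain ⟨t, ht, h1, h2⟩ := ih (fun i hi => hf0 i (Finset.mem_insert_of_mem hi))
        (fun i hi => hf i (Finset.mem_insert_of_mem hi)) h
      exact ⟨t, ht.trans (Finset.subset_insert _ _), h1, h2⟩
    · refine ⟨insert a s, Finset.Subset.refl _, hx, ?_⟩
      rw [Finset.sum_insert ha]
      have := hf a (Finset.mem_insert_self _ _)
      push Not at h
      linarith

/-! ### Geodesic ancestors -/

section Tree

variable {V : Type*} (G : SimpleGraph V) (hG : G.Connected) (o : V)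

include hG in
theorem exists_parent (z : V) (hz : z ≠ o) :
    ∃ y, G.Adj z y ∧ G.dist o y + 1 = G.dist o z := by
  obtain ⟨p, hp⟩ := hG.exists_walk_length_eq_dist z o
  cases p with
  | nil => exact absurd rfl hz
  | @cons _ y _ h p' =>
    refine ⟨y, h, ?_⟩
    rw [SimpleGraph.Walk.length_cons] at hp
    have h1 : G.dist y o ≤ p'.length := SimpleGraph.dist_le p'
    have h2 : G.dist o z ≤ G.dist o y + G.dist y z := hG.dist_triangle
    have h3 : G.dist y z = 1 := SimpleGraph.dist_eq_one_iff_adj.mpr h.symm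
    have h4 : G.dist y o = G.dist o y := SimpleGraph.dist_comm
    have h5 : G.dist z o = G.dist o z := SimpleGraph.dist_comm
    omega

/-- parent in the geodesic tree rooted at `o` -/
noncomputable def par (z : V) : V :=
  haveI := Classical.propDecidable
  if h : z = o then o else (exists_parent G hG o z h).choose

theorem par_adj (z : V) (hz : z ≠ o) : G.Adj z (par G hG o z) := by
  classical
  unfold par
  rw [dif_neg hz]
  exact (exists_parent G hG o z hz).choose_spec.1

theorem par_dist (z : V) (hz : z ≠ o) : G.dist o (par G hG o z) + 1 = G.dist o z := by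
  classical
  unfold par
  rw [dif_neg hz]
  exact (exists_parent G hG o z hz).choose_spec.2

theorem iter_dist (i : ℕ) : ∀ z : V, i ≤ G.dist o z →
    G.dist o ((par G hG o)^[i] z) = G.dist o z - i ∧
      G.dist ((par G hG o)^[i] z) z ≤ i := by
  induction i with
  | zero => intro z _; simp
  | succ i ih =>
    intro z hz
    obtain ⟨h1, h2⟩ := ih z (by omega)
    rw [Function.iterate_succ_apply']
    set y := (par G hG o)^[i] z with hy
    have hyo : y ≠ o := by
      intro h
      rw [h, SimpleGraph.dist_self] at h1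
      omega
    have h3 := par_dist G hG o y hyo
    have h4 := par_adj G hG o y hyo
    have h5 : G.dist (par G hG o y) y = 1 := SimpleGraph.dist_eq_one_iff_adj.mpr h4.symm
    have h6 : G.dist (par G hG o y) z ≤ G.dist (par G hG o y) y + G.dist y z :=
      hG.dist_triangle
    constructor <;> omega

/-- ancestor at level `k` -/
noncomputable def anc (k : ℕ) (z : V) : V := (par G hG o)^[G.dist o z - k] z

theorem anc_lev (k : ℕ) (z : V) (h : k ≤ G.dist o z) : G.dist o (anc G hG o k z) = k := by
  unfold anc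
  have := (iter_dist G hG o (G.dist o z - k) z (by omega)).1
  omega

theorem anc_dist (k : ℕ) (z : V) : G.dist (anc G hG o k z) z ≤ G.dist o z - k := by
  unfold anc
  exact (iter_dist G hG o (G.dist o z - k) z (by omega)).2

theorem anc_anc (k k' : ℕ) (z : V) (h : k ≤ k') (h' : k' ≤ G.dist o z) :
    anc G hG o k (anc G hG o k' z) = anc G hG o k z := by
  have h1 := anc_lev G hG o k' z h'
  conv_lhs => unfold anc
  rw [show G.dist o ((par G hG o)^[G.dist o z - k'] z) = k' from h1,
    ← Function.iterate_add_apply]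
  unfold anc
  congr 1
  omega

end Tree

/-! ### Growth of sets in an expander -/

theorem grow {V : Type*} [DecidableEq V] (G : SimpleGraph V) (hG : G.Connected) (B : Finset V)
    (c : ℝ) (hc : 0 < c)
    (hexp : ∀ S ⊆ B, S.Nonempty → 2 * S.card ≤ B.card →
      ∃ P ⊆ B, Disjoint S P ∧ (∀ u ∈ P, ∃ s ∈ S, G.Adj s u) ∧ c * S.card ≤ P.card)
    (S : Finset V) (hS : S ⊆ B) (hne : S.Nonempty) (m : ℕ) :
    ∃ N ⊆ B, S ⊆ N ∧ (∀ x ∈ N, ∃ s ∈ S, G.dist s x ≤ m) ∧
      (B.card < 2 * N.card ∨ (1 + c) ^ m * S.card ≤ N.card) := by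
  induction m with
  | zero =>
    exact ⟨S, hS, Finset.Subset.refl _, fun x hx => ⟨x, hx, by simp⟩, Or.inr (by simp)⟩
  | succ m ih =>
    obtain ⟨N, hN, hSN, hd, hor⟩ := ih
    by_cases hbig : B.card < 2 * N.card
    · exact ⟨N, hN, hSN, fun x hx => by
        obtain ⟨s, hs, h⟩ := hd x hx
        exact ⟨s, hs, by omega⟩, Or.inl hbig⟩
    · have hor' : (1 + c) ^ m * S.card ≤ N.card := by
        rcases hor with h | h
        · exact absurd h hbig
        · exact h
      obtain ⟨P, hP, hdis, hadj, hcard⟩ := hexp N hN (hne.mono hSN) (by omega)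
      refine ⟨N ∪ P, Finset.union_subset hN hP, hSN.trans Finset.subset_union_left, ?_, Or.inr ?_⟩
      · intro x hx
        rcases Finset.mem_union.mp hx with hx | hx
        · obtain ⟨s, hs, h⟩ := hd x hx
          exact ⟨s, hs, by omega⟩
        · obtain ⟨y, hy, hyx⟩ := hadj x hx
          obtain ⟨s, hs, h⟩ := hd y hy
          refine ⟨s, hs, ?_⟩
          have h1 : G.dist s x ≤ G.dist s y + G.dist y x := hG.dist_triangle
          have h2 : G.dist y x = 1 := SimpleGraph.dist_eq_one_iff_adj.mpr hyx
          omega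
      · rw [Finset.card_union_of_disjoint hdis]
        push_cast
        calc (1 + c) ^ (m + 1) * (S.card : ℝ) = (1 + c) * ((1 + c) ^ m * S.card) := by ring
          _ ≤ (1 + c) * N.card := by gcongr
          _ = N.card + c * N.card := by ring
          _ ≤ _ := by linarith

end Pool.Helper799.Balls
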