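import Mathlib
import Pool.Agent.Helper799.Balls

set_option autoImplicit false

namespace Pool.Helper799.Balls

open Finset

variable {V : Type*} [DecidableEq V] (G : SimpleGraph V) (hG : G.Connected)

/-- the set of points of `B(o,n)` separated, inside the window `[k,k+j]` of levels, from a point
at distance at most `2m` -/
noncomputable def pairs (o : V) (T : Finset V) (k j m : ℕ) : Finset (V × V) :=
  haveI := Classical.propDecidable
  (T ×ˢ T).filter (fun p => G.dist p.1 p.2 ≤ 2 * m ∧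
    anc G hG o k p.1 = anc G hG o k p.2 ∧ anc G hG o (k + j) p.1 ≠ anc G hG o (k + j) p.2 ∧
    k + j ≤ G.dist o p.1 ∧ k + j ≤ G.dist o p.2)

theorem mem_pairs (o : V) (T : Finset V) (k j m : ℕ) (p : V × V) :
    p ∈ pairs G hG o T k j m ↔ (p.1 ∈ T ∧ p.2 ∈ T) ∧ G.dist p.1 p.2 ≤ 2 * m ∧
    anc G hG o k p.1 = anc G hG o k p.2 ∧ anc G hG o (k + j) p.1 ≠ anc G hG o (k + j) p.2 ∧
    k + j ≤ G.dist o p.1 ∧ k + j ≤ G.dist o p.2 := by
  classical
  unfold pairs
  simp only [Finset.mem_filter, Finset.mem_product]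

/-- one heavy cone -/
theorem cone (B : V → ℕ → Finset V) (hB : ∀ v r w, w ∈ B v r ↔ G.dist v w ≤ r)
    (lam A c : ℝ) (hlam : 1 < lam) (hA : 1 ≤ A) (hc : 0 < c)
    (n j m r k : ℕ) (o w : V) (hk : k + r = n) (hr : 2 * j ≤ r)
    (hup : ∀ v s, s ≤ n → ((B v s).card : ℝ) ≤ A * lam ^ s)
    (hj : 32 * A ^ 3 ≤ lam ^ j) (hm : 16 * A ^ 3 < (1 + c) ^ m)
    (hexp : ∀ S ⊆ B w r, S.Nonempty → 2 * S.card ≤ (B w r).card →
      ∃ P ⊆ B w r, Disjoint S P ∧ (∀ u ∈ P, ∃ s ∈ S, G.Adj s u) ∧ c * S.card ≤ P.card)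
    (D : Finset V) (hD : ∀ z ∈ D, z ∈ B o n ∧ k ≤ G.dist o z ∧ anc G hG o k z = w)
    (hDbig : lam ^ r ≤ 4 * A ^ 2 * D.card) :
    ∃ D' ⊆ D, (D.card : ℝ) ≤ 8 * D'.card ∧
      ∀ z ∈ D', ∃ z', (z, z') ∈ pairs G hG o (B o n) k j m := by
  classical
  have hlam0 : (0 : ℝ) < lam := by linarith
  have hA0 : (0 : ℝ) < A := by linarith
  have hA2 : (0 : ℝ) < A ^ 2 := by positivity
  have hDpos : (0 : ℝ) < D.card := by
    have : 0 < lam ^ r := by positivity
    nlinarith
  set N : ℝ := (D.card : ℝ) with hN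
  -- short part
  set Ds := D.filter (fun z => ¬ (k + j ≤ G.dist o z)) with hDs
  set Dl := D.filter (fun z => k + j ≤ G.dist o z) with hDl
  have hsplit : (Dl.card : ℝ) + Ds.card = N := by
    rw [hN, ← Finset.card_filter_add_card_filter_not (s := D) (fun z => k + j ≤ G.dist o z)]
    push_cast
    rfl
  have hjpow : lam ^ r = lam ^ j * lam ^ (r - j) := by
    rw [← pow_add]; congr 1; omega
  have hjpow2 : lam ^ j ≤ lam ^ (r - j) := pow_le_pow_right₀ hlam.le (by omega)
  have hDs_card : (Ds.card : ℝ) ≤ N / 8 := by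
    have h1 : Ds ⊆ B w j := by
      intro z hz
      rw [hDs, Finset.mem_filter] at hz
      obtain ⟨_, h2, h3⟩ := hD z hz.1
      rw [hB, ← h3]
      have := anc_dist G hG o k z
      omega
    have h2 : (Ds.card : ℝ) ≤ A * lam ^ j :=
      le_trans (by exact_mod_cast Finset.card_le_card h1) (hup w j (by omega))
    have h3 : 32 * A ^ 3 * lam ^ j ≤ 4 * A ^ 2 * N := by
      calc 32 * A ^ 3 * lam ^ j ≤ lam ^ j * lam ^ (r - j) := by
            apply mul_le_mul hj hjpow2 (by positivity) (by positivity)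
        _ ≤ 4 * A ^ 2 * N := by rw [← hjpow]; exact hDbig
    have h4 : 8 * (A * lam ^ j) ≤ N := by
      have : 4 * A ^ 2 * (8 * (A * lam ^ j)) ≤ 4 * A ^ 2 * N := by
        calc 4 * A ^ 2 * (8 * (A * lam ^ j)) = 32 * A ^ 3 * lam ^ j := by ring
          _ ≤ _ := h3
      exact le_of_mul_le_mul_left this (by positivity)
    linarith
  -- the pieces
  set U := Dl.image (anc G hG o (k + j)) with hU
  set f : V → ℝ := fun u => ((Dl.filter (fun z => anc G hG o (k + j) z = u)).card : ℝ) with hf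
  have hfsum : ∑ u ∈ U, f u = Dl.card := by
    rw [Finset.card_eq_sum_card_image (anc G hG o (k + j)) Dl]
    push_cast
    rfl
  have hfle : ∀ u ∈ U, f u ≤ N / 8 := by
    intro u hu
    have h1 : Dl.filter (fun z => anc G hG o (k + j) z = u) ⊆ B u (r - j) := by
      intro z hz
      rw [Finset.mem_filter, hDl, Finset.mem_filter] at hz
      obtain ⟨⟨hz1, hz2⟩, hz3⟩ := hz
      obtain ⟨h4, _, _⟩ := hD z hz1
      rw [hB] at h4
      rw [hB, ← hz3]
      have := anc_dist G hG o (k + j) z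
      omega
    have h2 : f u ≤ A * lam ^ (r - j) :=
      le_trans (by simp only [hf]; exact_mod_cast Finset.card_le_card h1) (hup u (r - j) (by omega))
    have h3 : 32 * A ^ 3 * lam ^ (r - j) ≤ 4 * A ^ 2 * N := by
      calc 32 * A ^ 3 * lam ^ (r - j) ≤ lam ^ j * lam ^ (r - j) := by gcongr
        _ ≤ 4 * A ^ 2 * N := by rw [← hjpow]; exact hDbig
    have h4 : 8 * (A * lam ^ (r - j)) ≤ N := by
      have : 4 * A ^ 2 * (8 * (A * lam ^ (r - j))) ≤ 4 * A ^ 2 * N := by
        calc 4 * A ^ 2 * (8 * (A * lam ^ (r - j))) = 32 * A ^ 3 * lam ^ (r - j) := by ring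
          _ ≤ _ := h3
      exact le_of_mul_le_mul_left this (by positivity)
    linarith
  obtain ⟨t, htU, ht1, ht2⟩ := greedy U f (N / 8) (N / 4) (by linarith)
    (fun u _ => by simp only [hf]; positivity) hfle (by linarith) (by rw [hfsum]; linarith)
  set D1 := Dl.filter (fun z => anc G hG o (k + j) z ∈ t) with hD1
  set D2 := Dl.filter (fun z => ¬ (anc G hG o (k + j) z ∈ t)) with hD2
  have hD1card : (D1.card : ℝ) = ∑ u ∈ t, f u := by
    have h1 : D1.card = ∑ u ∈ t, (D1.filter (fun z => anc G hG o (k + j) z = u)).card :=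
      Finset.card_eq_sum_card_fiberwise (fun z hz => (Finset.mem_filter.mp hz).2)
    rw [h1]
    push_cast
    apply Finset.sum_congr rfl
    intro u hu
    simp only [hf]
    congr 2
    ext z
    simp only [hD1, Finset.mem_filter]
    constructor
    · rintro ⟨⟨h1, h2⟩, h3⟩; exact ⟨h1, h3⟩
    · rintro ⟨h1, h3⟩; exact ⟨⟨h1, by rw [h3]; exact hu⟩, h3⟩
  have hD12 : (D1.card : ℝ) + D2.card = Dl.card := by
    rw [← Finset.card_filter_add_card_filter_not (s := Dl)
      (fun z => anc G hG o (k + j) z ∈ t)]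
    push_cast
    rfl
  have hD1big : N / 4 ≤ D1.card := by rw [hD1card]; exact ht1
  have hD2big : N / 2 ≤ D2.card := by
    have : (D1.card : ℝ) ≤ N / 4 + N / 8 := by rw [hD1card]; exact ht2
    linarith
  -- the good points of D1
  set Dg := D1.filter (fun z => ∃ z' ∈ D2, G.dist z z' ≤ 2 * m) with hDg
  set Db := D1.filter (fun z => ¬ (∃ z' ∈ D2, G.dist z z' ≤ 2 * m)) with hDb
  have hDgb : (Dg.card : ℝ) + Db.card = D1.card := by
    rw [← Finset.card_filter_add_card_filter_not (s := D1)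
      (fun z => ∃ z' ∈ D2, G.dist z z' ≤ 2 * m)]
    push_cast
    rfl
  have hsubl : Dl ⊆ B w r := by
    intro z hz
    rw [hDl, Finset.mem_filter] at hz
    obtain ⟨h4, h5, h6⟩ := hD z hz.1
    rw [hB] at h4
    rw [hB, ← h6]
    have := anc_dist G hG o k z
    omega
  have hbigcard : ∀ S : Finset V, N / 8 ≤ S.card →
      ((B w r).card : ℝ) < 2 * ((1 + c) ^ m * S.card) := by
    intro S hS
    have h1 : ((B w r).card : ℝ) ≤ A * lam ^ r := hup w r (by omega)
    have h2 : lam ^ r ≤ 32 * A ^ 2 * S.card := by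
      have : 4 * A ^ 2 * N ≤ 4 * A ^ 2 * (8 * S.card) := by
        apply mul_le_mul_of_nonneg_left _ (by positivity); linarith
      linarith
    have h3 : (0 : ℝ) < S.card := by linarith
    calc ((B w r).card : ℝ) ≤ A * lam ^ r := h1
      _ ≤ A * (32 * A ^ 2 * S.card) := by gcongr
      _ = 2 * (16 * A ^ 3 * S.card) := by ring
      _ < 2 * ((1 + c) ^ m * S.card) := by
        apply mul_lt_mul_of_pos_left _ (by norm_num)
        exact mul_lt_mul_of_pos_right hm h3
  have hgrow : ∀ S ⊆ B w r, N / 8 ≤ S.card → ∃ M ⊆ B w r, (∀ x ∈ M, ∃ s ∈ S, G.dist s x ≤ m) ∧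
      (B w r).card < 2 * M.card := by
    intro S hS hScard
    have hne : S.Nonempty := by
      rw [← Finset.card_pos]
      have : (0 : ℝ) < S.card := by linarith
      exact_mod_cast this
    obtain ⟨M, hM, _, hd, hor⟩ := grow G hG (B w r) c hc hexp S hS hne m
    refine ⟨M, hM, hd, ?_⟩
    rcases hor with h | h
    · exact h
    · have h1 := hbigcard S hScard
      have h2 : ((B w r).card : ℝ) < 2 * M.card := by linarith
      exact_mod_cast h2
  have hDbsmall : (Db.card : ℝ) ≤ N / 8 := by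
    by_contra hcon
    push Not at hcon
    have hDbB : Db ⊆ B w r := fun z hz =>
      hsubl (Finset.filter_subset _ _ (Finset.filter_subset _ _ hz))
    have hD2B : D2 ⊆ B w r := fun z hz => hsubl (Finset.filter_subset _ _ hz)
    obtain ⟨M1, hM1, hd1, hc1⟩ := hgrow Db hDbB hcon.le
    obtain ⟨M2, hM2, hd2, hc2⟩ := hgrow D2 hD2B (by linarith)
    have hint : (M1 ∩ M2).Nonempty := by
      by_contra hemp
      rw [Finset.not_nonempty_iff_eq_empty] at hemp
      have hdis : Disjoint M1 M2 := Finset.disjoint_iff_inter_eq_empty.mpr hemp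
      have h1 := Finset.card_union_of_disjoint hdis
      have h2 := Finset.card_le_card (Finset.union_subset hM1 hM2)
      omega
    obtain ⟨x, hx⟩ := hint
    rw [Finset.mem_inter] at hx
    obtain ⟨s, hs, hsx⟩ := hd1 x hx.1
    obtain ⟨s', hs', hsx'⟩ := hd2 x hx.2
    rw [hDb, Finset.mem_filter] at hs
    apply hs.2
    refine ⟨s', hs', ?_⟩
    have h1 : G.dist s s' ≤ G.dist s x + G.dist x s' := hG.dist_triangle
    have h2 : G.dist x s' = G.dist s' x := SimpleGraph.dist_comm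
    omega
  refine ⟨Dg, fun z hz => Finset.filter_subset _ _ (Finset.filter_subset _ _
    (Finset.filter_subset _ _ hz)), by linarith, ?_⟩
  intro z hz
  rw [hDg, Finset.mem_filter] at hz
  obtain ⟨hz1, z', hz', hdz⟩ := hz
  rw [hD1, Finset.mem_filter, hDl, Finset.mem_filter] at hz1
  rw [hD2, Finset.mem_filter, hDl, Finset.mem_filter] at hz'
  obtain ⟨a1, a2, a3⟩ := hD z hz1.1.1
  obtain ⟨b1, b2, b3⟩ := hD z' hz'.1.1
  refine ⟨z', ?_⟩
  rw [mem_pairs]
  refine ⟨⟨a1, b1⟩, hdz, by simp only [a3, b3], ?_, hz1.1.2, hz'.1.2⟩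
  intro h
  apply hz'.2
  simp only at h
  rw [← h]
  exact hz1.2

end Pool.Helper799.Balls
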