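import Mathlib
import Pool.Agent.Helper799.BallCore

set_option autoImplicit false

namespace Pool.Helper799.Balls

open Finset

variable {V : Type*} [DecidableEq V] (G : SimpleGraph V) (hG : G.Connected)

/-- one window of levels contributes at least `|B(o,n)|/32` separated close pairs -/
theorem window (B : V → ℕ → Finset V) (hB : ∀ v r w, w ∈ B v r ↔ G.dist v w ≤ r)
    (lam A c : ℝ) (hlam : 1 < lam) (hA : 1 ≤ A) (hc : 0 < c)
    (n j m r k : ℕ) (o : V) (hk : k + r = n) (hr : 2 * j ≤ r)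
    (hup : ∀ v s, s ≤ n → ((B v s).card : ℝ) ≤ A * lam ^ s)
    (hlow : lam ^ n ≤ A * (B o n).card)
    (hj : 32 * A ^ 3 ≤ lam ^ j) (hm : 16 * A ^ 3 < (1 + c) ^ m)
    (hexp : ∀ w, ∀ S ⊆ B w r, S.Nonempty → 2 * S.card ≤ (B w r).card →
      ∃ P ⊆ B w r, Disjoint S P ∧ (∀ u ∈ P, ∃ s ∈ S, G.Adj s u) ∧ c * S.card ≤ P.card) :
    ((B o n).card : ℝ) ≤ 32 * (pairs G hG o (B o n) k j m).card := by
  classical
  have hlam0 : (0 : ℝ) < lam := by linarith
  have hA0 : (0 : ℝ) < A := by linarith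
  set T := B o n with hT
  set N : ℝ := (T.card : ℝ) with hN
  set Z := T.filter (fun z => k ≤ G.dist o z) with hZ
  set Y := T.filter (fun z => ¬ (k ≤ G.dist o z)) with hY
  have hZY : (Z.card : ℝ) + Y.card = N := by
    rw [hN, ← Finset.card_filter_add_card_filter_not (s := T) (fun z => k ≤ G.dist o z)]
    push_cast; rfl
  have hpow : lam ^ n = lam ^ k * lam ^ r := by rw [← pow_add, hk]
  have hA1 : (1 : ℝ) ≤ A ^ 3 := one_le_pow₀ hA
  have hj1 : (1 : ℝ) ≤ lam ^ j := by linarith
  have hr2 : 4 * A ^ 2 ≤ lam ^ r := by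
    calc 4 * A ^ 2 ≤ 32 * A ^ 3 := by
          have : A ^ 2 ≤ A ^ 3 := pow_le_pow_right₀ hA (by norm_num)
          nlinarith [sq_nonneg A]
      _ ≤ lam ^ j := hj
      _ ≤ lam ^ r := pow_le_pow_right₀ hlam.le (by omega)
  have hYcard : (Y.card : ℝ) ≤ N / 4 := by
    have h1 : Y ⊆ B o k := by
      intro z hz
      rw [hY, Finset.mem_filter] at hz
      rw [hB]; omega
    have h2 : (Y.card : ℝ) ≤ A * lam ^ k :=
      le_trans (by exact_mod_cast Finset.card_le_card h1) (hup o k (by omega))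
    have h3 : 4 * A ^ 2 * lam ^ k ≤ A * N := by
      calc 4 * A ^ 2 * lam ^ k ≤ lam ^ r * lam ^ k := by gcongr
        _ = lam ^ n := by rw [hpow]; ring
        _ ≤ A * N := hlow
    have h4 : A * (4 * (A * lam ^ k)) ≤ A * N := by
      calc A * (4 * (A * lam ^ k)) = 4 * A ^ 2 * lam ^ k := by ring
        _ ≤ _ := h3
    have h5 := le_of_mul_le_mul_left h4 hA0
    linarith
  set W := Z.image (anc G hG o k) with hW
  set D : V → Finset V := fun w => Z.filter (fun z => anc G hG o k z = w) with hD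
  have hWcard : (W.card : ℝ) ≤ A * lam ^ k := by
    have h1 : W ⊆ B o k := by
      intro w hw
      rw [hW, Finset.mem_image] at hw
      obtain ⟨z, hz, rfl⟩ := hw
      rw [hZ, Finset.mem_filter] at hz
      rw [hB, anc_lev G hG o k z hz.2]
    exact le_trans (by exact_mod_cast Finset.card_le_card h1) (hup o k (by omega))
  have hsum : ∑ w ∈ W, ((D w).card : ℝ) = Z.card := by
    rw [Finset.card_eq_sum_card_image (anc G hG o k) Z]
    push_cast; rfl
  set Wh := W.filter (fun w => lam ^ r ≤ 4 * A ^ 2 * (D w).card) with hWh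
  set Wl := W.filter (fun w => ¬ (lam ^ r ≤ 4 * A ^ 2 * (D w).card)) with hWl
  have hsplit : ∑ w ∈ Wh, ((D w).card : ℝ) + ∑ w ∈ Wl, ((D w).card : ℝ) = Z.card := by
    rw [← hsum, hWh, hWl]
    exact Finset.sum_filter_add_sum_filter_not W _ _
  have hlight : ∑ w ∈ Wl, ((D w).card : ℝ) ≤ N / 4 := by
    have h1 : ∑ w ∈ Wl, ((D w).card : ℝ) ≤ Wl.card * (lam ^ r / (4 * A ^ 2)) := by
      rw [← nsmul_eq_mul]
      apply Finset.sum_le_card_nsmul
      intro w hw
      rw [hWl, Finset.mem_filter] at hw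
      have := hw.2
      push Not at this
      rw [le_div_iff₀ (by positivity)]
      linarith
    have h2 : (Wl.card : ℝ) ≤ A * lam ^ k :=
      le_trans (by exact_mod_cast Finset.card_le_card (Finset.filter_subset _ _)) hWcard
    have h3 : (Wl.card : ℝ) * (lam ^ r / (4 * A ^ 2)) ≤ A * lam ^ k * (lam ^ r / (4 * A ^ 2)) := by
      gcongr
    have h4 : A * lam ^ k * (lam ^ r / (4 * A ^ 2)) = lam ^ n / A / 4 := by
      rw [hpow]; field_simp
    have h5 : lam ^ n / A ≤ N := by
      rw [div_le_iff₀ hA0]; linarith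
    linarith
  have hheavy : N / 2 ≤ ∑ w ∈ Wh, ((D w).card : ℝ) := by linarith
  -- the good points
  set P := pairs G hG o T k j m with hP
  set Gd := P.image Prod.fst with hGd
  have hGdcard : (Gd.card : ℝ) ≤ P.card := by exact_mod_cast Finset.card_image_le
  have hcone : ∀ w ∈ Wh, ((D w).card : ℝ) ≤
      8 * ((Gd.filter (fun z => anc G hG o k z = w)).card : ℝ) := by
    intro w hw
    rw [hWh, Finset.mem_filter] at hw
    obtain ⟨D', hD', hcard, hD'2⟩ := cone G hG B hB lam A c hlam hA hc n j m r k o w hk hr hup hj hm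
      (hexp w) (D w) (by
        intro z hz
        simp only [hD, hZ, Finset.mem_filter] at hz
        exact ⟨hz.1.1, hz.1.2, hz.2⟩) hw.2
    refine hcard.trans ?_
    have : D' ⊆ Gd.filter (fun z => anc G hG o k z = w) := by
      intro z hz
      obtain ⟨z', hz'⟩ := hD'2 z hz
      rw [Finset.mem_filter]
      refine ⟨?_, ?_⟩
      · rw [hGd, Finset.mem_image]
        exact ⟨(z, z'), hz', rfl⟩
      · have := hD' hz
        simp only [hD, Finset.mem_filter] at this
        exact this.2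
    have h2 : (D'.card : ℝ) ≤ (Gd.filter (fun z => anc G hG o k z = w)).card := by
      exact_mod_cast Finset.card_le_card this
    linarith
  have hGdsum : ∑ w ∈ Wh, ((Gd.filter (fun z => anc G hG o k z = w)).card : ℝ) ≤ Gd.card := by
    have h1 : ∑ w ∈ Wh, (Gd.filter (fun z => anc G hG o k z = w)).card ≤ Gd.card := by
      rw [← Finset.card_biUnion]
      · apply Finset.card_le_card
        intro z hz
        rw [Finset.mem_biUnion] at hz
        obtain ⟨w, _, hw⟩ := hz
        exact (Finset.mem_filter.mp hw).1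
      · intro w _ w' _ hne
        rw [Function.onFun, Finset.disjoint_left]
        intro z hz hz'
        exact hne ((Finset.mem_filter.mp hz).2.symm.trans (Finset.mem_filter.mp hz').2)
    exact_mod_cast h1
  have hfin : ∑ w ∈ Wh, ((D w).card : ℝ) ≤
      8 * ∑ w ∈ Wh, ((Gd.filter (fun z => anc G hG o k z = w)).card : ℝ) := by
    rw [Finset.mul_sum]
    exact Finset.sum_le_sum hcone
  have hPpos : (0 : ℝ) ≤ P.card := by positivity
  linarith

/-- **Core bound.**  If `|B(v,s)| ≤ A λ^s` for all `v` and all `s ≤ n`, the ball `B(o,n)` has at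
least `λ^n/A` points, and all balls with radius in `R` are `c`-expanders (with gaps at least `j`
between radii), then `|R| ≤ 32 A λ^{2m}`. -/
theorem core (B : V → ℕ → Finset V) (hB : ∀ v r w, w ∈ B v r ↔ G.dist v w ≤ r)
    (hGc : G.Connected)
    (lam A c : ℝ) (hlam : 1 < lam) (hA : 1 ≤ A) (hc : 0 < c)
    (n j m : ℕ) (o : V)
    (hup : ∀ v s, s ≤ n → ((B v s).card : ℝ) ≤ A * lam ^ s)
    (hup2 : ∀ v, ((B v (2 * m)).card : ℝ) ≤ A * lam ^ (2 * m))
    (hlow : lam ^ n ≤ A * (B o n).card)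
    (hj : 32 * A ^ 3 ≤ lam ^ j) (hm : 16 * A ^ 3 < (1 + c) ^ m)
    (R : Finset ℕ) (hRn : ∀ r ∈ R, r ≤ n) (hR2 : ∀ r ∈ R, 2 * j ≤ r)
    (hgap : ∀ r ∈ R, ∀ r' ∈ R, r < r' → r + j ≤ r')
    (hexp : ∀ r ∈ R, ∀ w, ∀ S ⊆ B w r, S.Nonempty → 2 * S.card ≤ (B w r).card →
      ∃ P ⊆ B w r, Disjoint S P ∧ (∀ u ∈ P, ∃ s ∈ S, G.Adj s u) ∧ c * S.card ≤ P.card) :
    (R.card : ℝ) ≤ 32 * A * lam ^ (2 * m) := by
  classical
  have hlam0 : (0 : ℝ) < lam := by linarith
  have hA0 : (0 : ℝ) < A := by linarith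
  set T := B o n with hT
  set N : ℝ := (T.card : ℝ) with hN
  have hNpos : 0 < N := by
    have : 0 < lam ^ n := by positivity
    by_contra hcon
    push Not at hcon
    nlinarith
  have hwin : ∀ r ∈ R, N ≤ 32 * ((pairs G hGc o T (n - r) j m).card : ℝ) := by
    intro r hr
    exact window G hGc B hB lam A c hlam hA hc n j m r (n - r) o (by have := hRn r hr; omega)
      (hR2 r hr) hup hlow hj hm (hexp r hr)
  have hdisj : ∀ r ∈ R, ∀ r' ∈ R, r < r' →
      Disjoint (pairs G hGc o T (n - r) j m) (pairs G hGc o T (n - r') j m) := by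
    intro r hr r' hr' hlt
    rw [Finset.disjoint_left]
    intro p hp hp'
    rw [mem_pairs] at hp hp'
    have h1 := hgap r hr r' hr' hlt
    have h2 := hRn r' hr'
    have hle : n - r' + j ≤ n - r := by omega
    obtain ⟨_, _, heq, _, hl1, hl2⟩ := hp
    obtain ⟨_, _, _, hne, _, _⟩ := hp'
    apply hne
    rw [← anc_anc G hGc o (n - r' + j) (n - r) p.1 hle (by omega),
      ← anc_anc G hGc o (n - r' + j) (n - r) p.2 hle (by omega), heq]
  have hpw : (R : Set ℕ).PairwiseDisjoint (fun r => pairs G hGc o T (n - r) j m) := by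
    intro r hr r' hr' hne
    rcases lt_or_gt_of_ne hne with h | h
    · exact hdisj r hr r' hr' h
    · exact (hdisj r' hr' r hr h).symm
  have hcardU := Finset.card_biUnion hpw
  have hsub : R.biUnion (fun r => pairs G hGc o T (n - r) j m) ⊆
      T.biUnion (fun z => (B z (2 * m)).image (fun z' => (z, z'))) := by
    intro p hp
    rw [Finset.mem_biUnion] at hp
    obtain ⟨r, _, hp⟩ := hp
    rw [mem_pairs] at hp
    rw [Finset.mem_biUnion]
    refine ⟨p.1, hp.1.1, ?_⟩
    rw [Finset.mem_image]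
    exact ⟨p.2, by rw [hB]; exact hp.2.1, rfl⟩
  have hbound : ((T.biUnion (fun z => (B z (2 * m)).image (fun z' => (z, z')))).card : ℝ) ≤
      N * (A * lam ^ (2 * m)) := by
    have h1 : ((T.biUnion (fun z => (B z (2 * m)).image (fun z' => (z, z')))).card : ℝ) ≤
        ∑ z ∈ T, (((B z (2 * m)).image (fun z' => (z, z'))).card : ℝ) := by
      exact_mod_cast Finset.card_biUnion_le
    refine h1.trans ?_
    rw [hN, ← nsmul_eq_mul]
    apply Finset.sum_le_card_nsmul
    intro z _
    refine le_trans ?_ (hup2 z)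
    exact_mod_cast Finset.card_image_le
  have htot : (R.card : ℝ) * N ≤ 32 * (N * (A * lam ^ (2 * m))) := by
    calc (R.card : ℝ) * N = ∑ r ∈ R, N := by rw [Finset.sum_const, nsmul_eq_mul]
      _ ≤ ∑ r ∈ R, 32 * ((pairs G hGc o T (n - r) j m).card : ℝ) := Finset.sum_le_sum hwin
      _ = 32 * ((R.biUnion (fun r => pairs G hGc o T (n - r) j m)).card : ℝ) := by
          rw [hcardU, ← Finset.mul_sum]; push_cast; rfl
      _ ≤ 32 * ((T.biUnion (fun z => (B z (2 * m)).image (fun z' => (z, z')))).card : ℝ) := by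
          gcongr
      _ ≤ _ := by gcongr
  have : N * (R.card : ℝ) ≤ N * (32 * A * lam ^ (2 * m)) := by
    calc N * (R.card : ℝ) = (R.card : ℝ) * N := by ring
      _ ≤ _ := htot
      _ = _ := by ring
  exact le_of_mul_le_mul_left this hNpos

end Pool.Helper799.Balls
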