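import Mathlib
import Pool.Agent.Helper799.BallMain

set_option autoImplicit false

namespace Pool.Helper799.Balls

open Finset

/-! ### Finiteness of balls -/

theorem ball_finite {V : Type*} (G : SimpleGraph V) (hG : G.Connected)
    (hfin : ∀ v, (G.neighborSet v).Finite) (v : V) (r : ℕ) : {w : V | G.dist v w ≤ r}.Finite := by
  induction r with
  | zero =>
    apply Set.Finite.subset (Set.finite_singleton v)
    intro w hw
    have h0 : G.dist v w = 0 := Nat.le_zero.mp hw
    have := hG.dist_eq_zero_iff.mp h0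
    exact this.symm
  | succ r ih =>
    have h : {w : V | G.dist v w ≤ r + 1} ⊆ {v} ∪ ⋃ u ∈ {w : V | G.dist v w ≤ r},
        G.neighborSet u := by
      intro w hw
      by_cases hwv : w = v
      · left; exact hwv
      · right
        obtain ⟨y, hy, hd⟩ := exists_parent G hG v w hwv
        simp only [Set.mem_iUnion]
        refine ⟨y, ?_, ?_⟩
        · simp only [Set.mem_setOf_eq] at hw ⊢
          omega
        · exact hy.symm
    exact Set.Finite.subset ((Set.finite_singleton v).union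
      (Set.Finite.biUnion ih (fun u _ => hfin u))) h

/-- the ball as a finset -/
noncomputable def bl {V : Type*} (G : SimpleGraph V) (hG : G.Connected)
    (hfin : ∀ v, (G.neighborSet v).Finite) (v : V) (r : ℕ) : Finset V :=
  (ball_finite G hG hfin v r).toFinset

theorem mem_bl {V : Type*} (G : SimpleGraph V) (hG : G.Connected)
    (hfin : ∀ v, (G.neighborSet v).Finite) (v : V) (r : ℕ) (w : V) :
    w ∈ bl G hG hfin v r ↔ G.dist v w ≤ r := by
  unfold bl
  rw [Set.Finite.mem_toFinset, Set.mem_setOf_eq]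

theorem card_bl {V : Type*} (G : SimpleGraph V) (hG : G.Connected)
    (hfin : ∀ v, (G.neighborSet v).Finite) (v : V) (r : ℕ) :
    (bl G hG hfin v r).card = {w : V | G.dist v w ≤ r}.ncard := by
  unfold bl
  rw [Set.ncard_eq_toFinset_card _ (ball_finite G hG hfin v r)]

/-! ### The polynomial exponent -/

theorem poly (lam c : ℝ) (hlam : 1 < lam) (hc : 0 < c) : ∃ α : ℝ, 0 < α ∧
    ∀ (V : Type) (_ : DecidableEq V) (G : SimpleGraph V) (B : V → ℕ → Finset V)
      (_ : ∀ v r w, w ∈ B v r ↔ G.dist v w ≤ r) (_ : G.Connected) (C : ℝ),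
      (∀ n : ℕ, ∃ v : V, lam ^ n ≤ C * ((B v n).card : ℝ)) →
      (∀ n : ℕ, 1 ≤ n → ∀ v : V, ((B v n).card : ℝ) ≤ C * (n : ℝ) ^ α * lam ^ n) →
      ¬ (∀ r w, ∀ S ⊆ B w r, S.Nonempty → 2 * S.card ≤ (B w r).card →
        ∃ P ⊆ B w r, Disjoint S P ∧ (∀ u ∈ P, ∃ s ∈ S, G.Adj s u) ∧ c * S.card ≤ P.card) := by
  obtain ⟨K, hK⟩ : ∃ K : ℕ, lam ^ 2 < (1 + c) ^ K :=
    pow_unbounded_of_one_lt _ (by linarith)
  set P : ℕ := 3 * K + 4 with hP
  have hPpos : (0 : ℝ) < P := by positivity
  refine ⟨1 / (2 * P), by positivity, ?_⟩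
  intro V _ G B hB hG C hlow hup hexp
  have hlam0 : (0 : ℝ) < lam := by linarith
  -- normalise the constant
  set C' : ℝ := max C 1 with hC'
  have hC'1 : 1 ≤ C' := le_max_right _ _
  have hCC' : C ≤ C' := le_max_left _ _
  -- constants
  set c1 : ℝ := 32 / (lam - 1) + 1 with hc1
  have hlam1 : 0 < lam - 1 := by linarith
  have hc1pos : 0 < c1 := by positivity
  set c2 : ℝ := 32 * (16 * (1 + c)) ^ K with hc2
  have hc2pos : 0 < c2 := by positivity
  obtain ⟨N, hN⟩ := exists_nat_gt (max (c1 * (2 + c2) * C' ^ P) (max ((2 + 32 / c) * C' ^ P) 1))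
  have hN1 : c1 * (2 + c2) * C' ^ P < N := lt_of_le_of_lt (le_max_left _ _) hN
  have hN2 : (2 + 32 / c) * C' ^ P < N :=
    lt_of_le_of_lt (le_trans (le_max_left _ _) (le_max_right _ _)) hN
  have hN3 : (1 : ℝ) < N := lt_of_le_of_lt (le_trans (le_max_right _ _) (le_max_right _ _)) hN
  have hN0 : (0 : ℝ) < N := by linarith
  have hNn : 1 < N := by exact_mod_cast hN3
  set n : ℕ := N ^ 2 with hn
  have hn1 : 1 ≤ n := Nat.one_le_pow _ _ (by omega)
  set α : ℝ := 1 / (2 * P) with hα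
  have hαpos : 0 < α := by positivity
  set A : ℝ := C' * (n : ℝ) ^ α with hA
  have hnr : (1 : ℝ) ≤ n := by exact_mod_cast hn1
  have hnα : 1 ≤ (n : ℝ) ^ α := Real.one_le_rpow hnr hαpos.le
  have hA1 : 1 ≤ A := by
    rw [hA]; nlinarith
  have hAP : A ^ P = C' ^ P * N := by
    rw [hA, mul_pow, ← Real.rpow_natCast ((n : ℝ) ^ α) P, ← Real.rpow_mul (by positivity)]
    congr 1
    have h1 : α * (P : ℝ) = 1 / 2 := by rw [hα]; field_simp
    rw [h1, ← Real.sqrt_eq_rpow, hn]
    push_cast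
    exact Real.sqrt_sq hN0.le
  have hA3 : A ^ 3 ≤ A ^ P := pow_le_pow_right₀ hA1 (by omega)
  -- j
  set j : ℕ := ⌈32 * A ^ 3 / (lam - 1)⌉₊ with hj
  have hA3pos : 0 < A ^ 3 := by positivity
  have hjle : (j : ℝ) ≤ c1 * A ^ 3 := by
    have h1 : (j : ℝ) < 32 * A ^ 3 / (lam - 1) + 1 := Nat.ceil_lt_add_one (by positivity)
    have h2 : 1 ≤ A ^ 3 := one_le_pow₀ hA1
    calc (j : ℝ) ≤ 32 * A ^ 3 / (lam - 1) + 1 := h1.le
      _ ≤ 32 * A ^ 3 / (lam - 1) + A ^ 3 := by linarith
      _ = c1 * A ^ 3 := by rw [hc1]; ring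
  have hjpos : 0 < j := by
    rw [hj, Nat.ceil_pos]; positivity
  have hjpow : 32 * A ^ 3 ≤ lam ^ j := by
    have h1 : 32 * A ^ 3 / (lam - 1) ≤ j := Nat.le_ceil _
    have h2 : 1 + (j : ℝ) * (lam - 1) ≤ (1 + (lam - 1)) ^ j :=
      one_add_mul_le_pow (by linarith) j
    rw [div_le_iff₀ hlam1] at h1
    have h3 : 1 + (lam - 1) = lam := by ring
    rw [h3] at h2
    linarith
  -- m
  have hmex : ∃ m : ℕ, 16 * A ^ 3 < (1 + c) ^ m := pow_unbounded_of_one_lt _ (by linarith)
  classical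
  set m : ℕ := Nat.find hmex with hm
  have hmspec : 16 * A ^ 3 < (1 + c) ^ m := Nat.find_spec hmex
  have hmpos : 0 < m := by
    rw [Nat.pos_iff_ne_zero]
    intro h0
    rw [h0, pow_zero] at hmspec
    have h2 : 1 ≤ A ^ 3 := one_le_pow₀ hA1
    linarith
  have hmprev : (1 + c) ^ (m - 1) ≤ 16 * A ^ 3 := by
    have := Nat.find_min hmex (show m - 1 < Nat.find hmex by omega)
    push Not at this
    exact this
  have hmle : 2 * m ≤ n := by
    have h1 : 1 + ((m - 1 : ℕ) : ℝ) * c ≤ (1 + c) ^ (m - 1) := one_add_mul_le_pow (by linarith) _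
    have h2 : ((m - 1 : ℕ) : ℝ) * c ≤ 16 * A ^ 3 := by linarith
    have h3 : ((m - 1 : ℕ) : ℝ) ≤ 16 * A ^ 3 / c := by rw [le_div_iff₀ hc]; exact h2
    have h4 : ((m - 1 : ℕ) : ℝ) = (m : ℝ) - 1 := by
      rw [Nat.cast_sub hmpos]; simp
    rw [h4] at h3
    have h5 : (2 : ℝ) * m ≤ n := by
      have h6 : 1 ≤ A ^ P := one_le_pow₀ hA1
      calc (2 : ℝ) * m ≤ 2 + 2 * (16 * A ^ 3 / c) := by linarith
        _ = 2 + 32 / c * A ^ 3 := by ring
        _ ≤ 2 * A ^ P + 32 / c * A ^ P := by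
            have : 32 / c * A ^ 3 ≤ 32 / c * A ^ P := by
              apply mul_le_mul_of_nonneg_left hA3; positivity
            linarith
        _ = (2 + 32 / c) * C' ^ P * N := by rw [hAP]; ring
        _ ≤ N * N := by gcongr
        _ = n := by rw [hn]; push_cast; ring
    exact_mod_cast h5
  have hlam2m : lam ^ (2 * m) ≤ (16 * (1 + c)) ^ K * A ^ (3 * K) := by
    calc lam ^ (2 * m) = (lam ^ 2) ^ m := by rw [pow_mul]
      _ ≤ ((1 + c) ^ K) ^ m := by gcongr
      _ = ((1 + c) ^ m) ^ K := by rw [← pow_mul, ← pow_mul, mul_comm]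
      _ = ((1 + c) * (1 + c) ^ (m - 1)) ^ K := by
          congr 1
          rw [← pow_succ']
          congr 1; omega
      _ ≤ ((1 + c) * (16 * A ^ 3)) ^ K := by gcongr
      _ = (16 * (1 + c) * A ^ 3) ^ K := by ring
      _ = (16 * (1 + c)) ^ K * A ^ (3 * K) := by rw [mul_pow, ← pow_mul]
  -- upper bounds
  have hup' : ∀ v s, s ≤ n → ((B v s).card : ℝ) ≤ A * lam ^ s := by
    intro v s hs
    rcases Nat.eq_zero_or_pos s with h0 | h0
    · subst h0
      have : B v 0 ⊆ {v} := by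
        intro w hw
        rw [hB] at hw
        rw [Finset.mem_singleton]
        exact (hG.dist_eq_zero_iff.mp (Nat.le_zero.mp hw)).symm
      have h1 := Finset.card_le_card this
      rw [Finset.card_singleton] at h1
      have h2 : ((B v 0).card : ℝ) ≤ 1 := by exact_mod_cast h1
      rw [pow_zero, mul_one]; linarith
    · refine (hup s h0 v).trans ?_
      have h1 : (s : ℝ) ^ α ≤ (n : ℝ) ^ α :=
        Real.rpow_le_rpow (by positivity) (by exact_mod_cast hs) hαpos.le
      rw [hA]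
      have h2 : (0 : ℝ) ≤ (s : ℝ) ^ α := by positivity
      gcongr
  obtain ⟨o, ho⟩ := hlow n
  have hlow' : lam ^ n ≤ A * (B o n).card := by
    refine ho.trans ?_
    have h1 : C ≤ A := by
      rw [hA]; nlinarith
    gcongr
  -- the radii
  set L : ℕ := n / j - 1 with hL
  set R : Finset ℕ := (Finset.range L).image (fun i => (i + 2) * j) with hR
  have hRcard : R.card = L := by
    rw [hR, Finset.card_image_of_injective, Finset.card_range]
    intro a b hab
    simp only at hab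
    have := Nat.eq_of_mul_eq_mul_right hjpos hab
    omega
  have hLn : (L + 1) * j ≤ n ∨ L = 0 := by
    rcases Nat.eq_zero_or_pos L with h | h
    · right; exact h
    · left
      have : L + 1 = n / j := by omega
      rw [this]
      exact Nat.div_mul_le_self n j
  have hcore := core G B hB hG lam A c hlam hA1 hc n j m o hup'
    (fun v => hup' v (2 * m) hmle) hlow' hjpow hmspec R (by
      intro r hr
      rw [hR, Finset.mem_image] at hr
      obtain ⟨i, hi, rfl⟩ := hr
      rw [Finset.mem_range] at hi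
      rcases hLn with h | h
      · exact le_trans (Nat.mul_le_mul_right j (by omega)) h
      · omega) (by
      intro r hr
      rw [hR, Finset.mem_image] at hr
      obtain ⟨i, hi, rfl⟩ := hr
      exact Nat.mul_le_mul_right j (by omega)) (by
      intro r hr r' hr' hlt
      rw [hR, Finset.mem_image] at hr hr'
      obtain ⟨i, hi, rfl⟩ := hr
      obtain ⟨i', hi', rfl⟩ := hr'
      have h1 : i + 2 < i' + 2 := Nat.lt_of_mul_lt_mul_right hlt
      calc (i + 2) * j + j = (i + 3) * j := by ring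
        _ ≤ (i' + 2) * j := Nat.mul_le_mul_right j (by omega))
    (fun r _ w => hexp r w)
  rw [hRcard] at hcore
  have hLge : (n : ℝ) / j - 2 ≤ L := by
    have h1 : (n : ℝ) / j < (n / j : ℕ) + 1 := Nat.lt_floor_add_one ((n : ℝ) / j) |>.trans_eq (by
      rw [Nat.floor_div_eq_div])
    have h2 : ((n / j : ℕ) : ℝ) ≤ L + 1 := by
      have : n / j ≤ L + 1 := by omega
      exact_mod_cast this
    linarith
  have hfinal : (n : ℝ) ≤ c1 * (2 + c2) * A ^ P := by
    have hjr : (0 : ℝ) < j := by exact_mod_cast hjpos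
    have h1 : (n : ℝ) / j ≤ 2 + c2 * A ^ (3 * K + 1) := by
      have h2 : 32 * A * lam ^ (2 * m) ≤ c2 * A ^ (3 * K + 1) := by
        calc 32 * A * lam ^ (2 * m) ≤ 32 * A * ((16 * (1 + c)) ^ K * A ^ (3 * K)) := by gcongr
          _ = c2 * A ^ (3 * K + 1) := by rw [hc2]; ring
      linarith
    rw [div_le_iff₀ hjr] at h1
    have h3 : 1 ≤ A ^ (3 * K + 1) := one_le_pow₀ hA1
    calc (n : ℝ) ≤ (2 + c2 * A ^ (3 * K + 1)) * j := h1
      _ ≤ (2 * A ^ (3 * K + 1) + c2 * A ^ (3 * K + 1)) * (c1 * A ^ 3) := by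
          gcongr
          linarith
      _ = c1 * (2 + c2) * A ^ P := by rw [hP]; ring
  rw [hAP] at hfinal
  have h1 : (n : ℝ) = N * N := by rw [hn]; push_cast; ring
  rw [h1] at hfinal
  have h2 : (N : ℝ) * N ≤ (c1 * (2 + c2) * C' ^ P) * N := by
    calc (N : ℝ) * N ≤ c1 * (2 + c2) * (C' ^ P * N) := hfinal
      _ = _ := by ring
  have h3 := le_of_mul_le_mul_right h2 hN0
  linarith

end Pool.Helper799.Balls
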