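import Mathlib

set_option autoImplicit false

namespace Pool.Agent.Helper799.Conc

open Finset

variable {V : Type*} [Fintype V]

/-- One-sided concentration. -/
lemma oneside (R : V → V → Prop) (h : ℝ) (hh : 0 < h)
    (hexp : ∀ S : Finset V, 2 * S.card ≤ Fintype.card V →
      ∃ T : Finset V, Disjoint S T ∧ (∀ y ∈ T, ∃ x ∈ S, R x y) ∧ h * S.card ≤ T.card)
    (φ : V → ℝ) (hφ : ∀ x y, R x y → |φ x - φ y| ≤ 1)
    (hmed : 2 * (Finset.univ.filter (fun x => 0 < φ x)).card ≤ Fintype.card V) (n : ℕ) :
    (1 + h) ^ n * ((Finset.univ.filter (fun x => (n : ℝ) < φ x)).card : ℝ)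
      ≤ (Fintype.card V : ℝ) / 2 := by
  classical
  induction n with
  | zero =>
    simp only [pow_zero, one_mul, Nat.cast_zero]
    have : (2 * (Finset.univ.filter (fun x => 0 < φ x)).card : ℝ) ≤ Fintype.card V := by
      exact_mod_cast hmed
    linarith
  | succ n ih =>
    set A := Finset.univ.filter (fun x => ((n + 1 : ℕ) : ℝ) < φ x) with hA
    set B := Finset.univ.filter (fun x => (n : ℝ) < φ x) with hB
    have hAsub : A ⊆ Finset.univ.filter (fun x => 0 < φ x) := by
      intro x hx
      rw [hA, Finset.mem_filter] at hx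
      rw [Finset.mem_filter]
      refine ⟨Finset.mem_univ _, lt_of_le_of_lt ?_ hx.2⟩
      positivity
    have hA2 : 2 * A.card ≤ Fintype.card V :=
      le_trans (Nat.mul_le_mul_left 2 (Finset.card_le_card hAsub)) hmed
    obtain ⟨T, hT1, hT2, hT3⟩ := hexp A hA2
    have hsub : A ∪ T ⊆ B := by
      intro y hy
      rw [Finset.mem_union] at hy
      rw [hB, Finset.mem_filter]
      refine ⟨Finset.mem_univ _, ?_⟩
      rcases hy with hy | hy
      · rw [hA, Finset.mem_filter] at hy
        have := hy.2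
        push_cast at this; linarith
      · obtain ⟨x, hx, hR⟩ := hT2 y hy
        rw [hA, Finset.mem_filter] at hx
        have h1 := hx.2
        have h2 := (abs_le.1 (hφ x y hR)).2
        push_cast at h1; linarith
    have h3 : A.card + T.card ≤ B.card := by
      rw [← Finset.card_union_of_disjoint hT1]
      exact Finset.card_le_card hsub
    have h4 : (A.card : ℝ) + T.card ≤ B.card := by exact_mod_cast h3
    have h5 : (1 + h) * (A.card : ℝ) ≤ B.card := by linarith
    calc (1 + h) ^ (n + 1) * (A.card : ℝ) = (1 + h) ^ n * ((1 + h) * A.card) := by ring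
      _ ≤ (1 + h) ^ n * B.card := by gcongr
      _ ≤ _ := ih

lemma twoside (R : V → V → Prop) (h : ℝ) (hh : 0 < h)
    (hexp : ∀ S : Finset V, 2 * S.card ≤ Fintype.card V →
      ∃ T : Finset V, Disjoint S T ∧ (∀ y ∈ T, ∃ x ∈ S, R x y) ∧ h * S.card ≤ T.card)
    (φ : V → ℝ) (hφ : ∀ x y, R x y → |φ x - φ y| ≤ 1)
    (hmed : 2 * (Finset.univ.filter (fun x => 0 < φ x)).card ≤ Fintype.card V)
    (hmed' : 2 * (Finset.univ.filter (fun x => φ x < 0)).card ≤ Fintype.card V) (n : ℕ) :
    (1 + h) ^ n * ((Finset.univ.filter (fun x => (n : ℝ) < |φ x|)).card : ℝ)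
      ≤ (Fintype.card V : ℝ) := by
  classical
  have h1 := oneside R h hh hexp φ hφ hmed n
  have h2 := oneside R h hh hexp (fun x => - φ x)
    (fun x y hxy => by
      have := hφ x y hxy
      rwa [show -φ x - -φ y = -(φ x - φ y) by ring, abs_neg])
    (by simpa using hmed') n
  have hsub : Finset.univ.filter (fun x => (n : ℝ) < |φ x|)
      ⊆ Finset.univ.filter (fun x => (n : ℝ) < φ x) ∪ Finset.univ.filter (fun x => (n : ℝ) < - φ x) := by
    intro x hx
    simp only [Finset.mem_filter, Finset.mem_univ, true_and, Finset.mem_union] at hx ⊢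
    rcases abs_cases (φ x) with ⟨h3, _⟩ | ⟨h3, _⟩
    · left; rwa [h3] at hx
    · right; rwa [h3] at hx
  have h3 : ((Finset.univ.filter (fun x => (n : ℝ) < |φ x|)).card : ℝ)
      ≤ (Finset.univ.filter (fun x => (n : ℝ) < φ x)).card
        + (Finset.univ.filter (fun x => (n : ℝ) < - φ x)).card := by
    exact_mod_cast (Finset.card_le_card hsub).trans (Finset.card_union_le _ _)
  have h4 : (0:ℝ) ≤ (1 + h) ^ n := by positivity
  nlinarith [mul_le_mul_of_nonneg_left h3 h4]

/-- Exponential moment. -/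
theorem moment (lam : ℝ) (hl : 0 < lam) : ∃ C1 : ℝ, 0 < C1 ∧
    ∀ (V : Type) [Fintype V] (R : V → V → Prop)
    (_hexp : ∀ S : Finset V, 2 * S.card ≤ Fintype.card V →
      ∃ T : Finset V, Disjoint S T ∧ (∀ y ∈ T, ∃ x ∈ S, R x y) ∧
        (Real.exp (2 * lam) - 1) * S.card ≤ T.card)
    (φ : V → ℝ) (_hφ : ∀ x y, R x y → |φ x - φ y| ≤ 1)
    (_hmed : 2 * (Finset.univ.filter (fun x => 0 < φ x)).card ≤ Fintype.card V)
    (_hmed' : 2 * (Finset.univ.filter (fun x => φ x < 0)).card ≤ Fintype.card V),
    ∑ x, φ x ^ 2 * Real.exp (lam * |φ x|) ≤ C1 * Fintype.card V := by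
  have hsum : Summable (fun n : ℕ => ((n:ℝ) + 1) ^ 2 * (Real.exp lam * Real.exp (-lam) ^ n)) := by
    have h1 : ‖Real.exp (-lam)‖ < 1 := by
      rw [Real.norm_eq_abs, abs_of_pos (Real.exp_pos _)]
      exact Real.exp_lt_one_iff.2 (by linarith)
    have h2 := summable_pow_mul_geometric_of_norm_lt_one 2 h1
    have h3 := summable_pow_mul_geometric_of_norm_lt_one 1 h1
    have h4 := summable_pow_mul_geometric_of_norm_lt_one 0 h1
    have h5 := ((h2.add (h3.mul_left 2)).add h4).mul_left (Real.exp lam)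
    refine h5.congr ?_
    intro n
    ring
  refine ⟨∑' n : ℕ, ((n:ℝ) + 1) ^ 2 * (Real.exp lam * Real.exp (-lam) ^ n) , ?_, ?_⟩
  · apply hsum.tsum_pos (fun n => by positivity) 0
    positivity
  · intro V _ R hexp φ hφ hmed hmed'
    classical
    have h0 : 0 < Real.exp (2 * lam) - 1 := by
      have : 1 < Real.exp (2 * lam) := Real.one_lt_exp_iff.2 (by linarith)
      linarith
    have hc := twoside R _ h0 hexp φ hφ hmed hmed'
    have h1' : 1 + (Real.exp (2 * lam) - 1) = Real.exp lam ^ 2 := by
      rw [← Real.exp_nat_mul]; push_cast; ring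
    rw [h1'] at hc
    obtain ⟨M, hM⟩ : ∃ M : ℕ, ∀ x, |φ x| ≤ M := by
      obtain ⟨M, hM⟩ := exists_nat_ge (∑ x, |φ x|)
      refine ⟨M, fun x => le_trans ?_ hM⟩
      exact Finset.single_le_sum (f := fun x => |φ x|) (fun y _ => abs_nonneg _) (Finset.mem_univ x)
    have hpt : ∀ x, φ x ^ 2 * Real.exp (lam * |φ x|)
        ≤ ∑ n ∈ Finset.range (M + 1), (if (n:ℝ) < |φ x| then
            ((n:ℝ) + 1) ^ 2 * Real.exp (lam * (n + 1)) else 0) := by
      intro x
      rcases (abs_nonneg (φ x)).eq_or_lt with h | h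
      · have : φ x = 0 := by rw [← abs_eq_zero]; exact h.symm
        rw [this]; simp
        exact Finset.sum_nonneg fun _ _ => by split_ifs <;> positivity
      · set k := ⌈|φ x|⌉₊ with hk
        have hk1 : 0 < k := Nat.ceil_pos.2 h
        have hk2 : |φ x| ≤ k := Nat.le_ceil _
        have hk3 : (k : ℝ) < |φ x| + 1 := Nat.ceil_lt_add_one h.le
        have hk4 : ((k - 1 : ℕ) : ℝ) = (k : ℝ) - 1 := by
          rw [Nat.cast_sub hk1]; simp
        have hk5 : k ≤ M := Nat.ceil_le.2 (hM x)
        have hmem : k - 1 ∈ Finset.range (M + 1) := by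
          rw [Finset.mem_range]; omega
        refine le_trans ?_ (Finset.single_le_sum (f := fun n : ℕ => if (n:ℝ) < |φ x| then
            ((n:ℝ) + 1) ^ 2 * Real.exp (lam * (n + 1)) else 0)
            (fun n _ => by positivity) hmem)
        simp only [hk4]
        rw [if_pos (by linarith)]
        rw [show (k:ℝ) - 1 + 1 = k by ring]
        have h5 : φ x ^ 2 ≤ (k:ℝ) ^ 2 := by
          rw [← sq_abs]; gcongr
        gcongr
    calc ∑ x, φ x ^ 2 * Real.exp (lam * |φ x|)
        ≤ ∑ x, ∑ n ∈ Finset.range (M + 1), (if (n:ℝ) < |φ x| then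
            ((n:ℝ) + 1) ^ 2 * Real.exp (lam * (n + 1)) else 0) :=
          Finset.sum_le_sum fun x _ => hpt x
      _ = ∑ n ∈ Finset.range (M + 1), ((n:ℝ) + 1) ^ 2 * Real.exp (lam * (n + 1)) *
            ((Finset.univ.filter (fun x => (n:ℝ) < |φ x|)).card : ℝ) := by
          rw [Finset.sum_comm]
          apply Finset.sum_congr rfl
          intro n _
          rw [← Finset.sum_filter, Finset.sum_const, nsmul_eq_mul]; ring
      _ ≤ ∑ n ∈ Finset.range (M + 1), (((n:ℝ) + 1) ^ 2 * (Real.exp lam * Real.exp (-lam) ^ n)) *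
            Fintype.card V := by
          apply Finset.sum_le_sum
          intro n _
          have h6 := hc n
          have h7 : Real.exp (lam * (n + 1))
              = (Real.exp lam * Real.exp (-lam) ^ n) * (Real.exp lam ^ 2) ^ n := by
            rw [← Real.exp_nat_mul, ← Real.exp_nat_mul, ← Real.exp_nat_mul, ← Real.exp_add,
              ← Real.exp_add]
            congr 1; push_cast; ring
          rw [h7]
          calc ((n:ℝ) + 1) ^ 2 * ((Real.exp lam * Real.exp (-lam) ^ n) * (Real.exp lam ^ 2) ^ n)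
                * ((Finset.univ.filter (fun x => (n:ℝ) < |φ x|)).card : ℝ)
              = ((n:ℝ) + 1) ^ 2 * (Real.exp lam * Real.exp (-lam) ^ n) * ((Real.exp lam ^ 2) ^ n
                * ((Finset.univ.filter (fun x => (n:ℝ) < |φ x|)).card : ℝ)) := by ring
            _ ≤ _ := by gcongr
      _ = (∑ n ∈ Finset.range (M + 1), ((n:ℝ) + 1) ^ 2 * (Real.exp lam * Real.exp (-lam) ^ n)) *
            Fintype.card V := by rw [Finset.sum_mul]
      _ ≤ _ := by
          gcongr
          exact hsum.sum_le_tsum _ (fun n _ => by positivity)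

/-- Medians exist. -/
lemma exists_median (φ : V → ℝ) [Nonempty V] : ∃ c : ℝ,
    2 * (Finset.univ.filter (fun x => c < φ x)).card ≤ Fintype.card V ∧
    2 * (Finset.univ.filter (fun x => φ x < c)).card ≤ Fintype.card V := by
  classical
  -- take the smallest value `c = φ z` such that few points are above
  let P : V → Prop := fun z => 2 * (Finset.univ.filter (fun x => φ z < φ x)).card ≤ Fintype.card V
  have hne : (Finset.univ.filter P).Nonempty := by
    obtain ⟨z, hz⟩ := Finite.exists_max φ
    refine ⟨z, ?_⟩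
    rw [Finset.mem_filter]
    refine ⟨Finset.mem_univ _, ?_⟩
    have : Finset.univ.filter (fun x => φ z < φ x) = ∅ := by
      rw [Finset.filter_eq_empty_iff]
      intro x _
      exact not_lt.2 (hz x)
    simp [P, this]
  obtain ⟨z, hz, hmin⟩ := Finset.exists_min_image _ φ hne
  rw [Finset.mem_filter] at hz
  refine ⟨φ z, hz.2, ?_⟩
  by_contra hcon
  push Not at hcon
  have hne2 : (Finset.univ.filter (fun x => φ x < φ z)).Nonempty := by
    rw [← Finset.card_pos]; omega
  obtain ⟨y, hy, hymax⟩ := Finset.exists_max_image _ φ hne2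
  rw [Finset.mem_filter] at hy
  have hyP : P y := by
    have hdisj : Disjoint (Finset.univ.filter (fun x => φ x < φ z))
        (Finset.univ.filter (fun x => φ y < φ x)) := by
      rw [Finset.disjoint_left]
      intro x hx hx'
      have h1 := hymax x hx
      rw [Finset.mem_filter] at hx'
      linarith [hx'.2]
    have h2 := Finset.card_le_univ ((Finset.univ.filter (fun x => φ x < φ z)) ∪
        (Finset.univ.filter (fun x => φ y < φ x)))
    rw [Finset.card_union_of_disjoint hdisj] at h2
    simp only [P]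
    omega
  have := hmin y (by rw [Finset.mem_filter]; exact ⟨Finset.mem_univ _, hyP⟩)
  linarith [hy.2]

end Pool.Agent.Helper799.Conc
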