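import Mathlib

set_option autoImplicit false

namespace Pool.Agent.Helper799.Disc

open Finset

variable {V : Type*} [Fintype V] [DecidableEq V]

/-- the operator `F ↦ F - p_*(θ F)`, `θ = 1 - 1/κ` -/
noncomputable def Q (p : V → V) (κ : V → ℝ) : (V → ℝ) →ₗ[ℝ] (V → ℝ) where
  toFun F z := F z - ∑ x, if p x = z then (1 - 1 / κ x) * F x else 0
  map_add' F G := by
    funext z
    simp only [Pi.add_apply]
    have : ∀ x, (if p x = z then (1 - 1 / κ x) * (F x + G x) else 0)
        = (if p x = z then (1 - 1 / κ x) * F x else 0)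
          + (if p x = z then (1 - 1 / κ x) * G x else 0) := by
      intro x; split_ifs <;> ring
    simp_rw [this, Finset.sum_add_distrib]; ring
  map_smul' c F := by
    funext z
    simp only [Pi.smul_apply, smul_eq_mul, RingHom.id_apply]
    have : ∀ x, (if p x = z then (1 - 1 / κ x) * (c * F x) else 0)
        = c * (if p x = z then (1 - 1 / κ x) * F x else 0) := by
      intro x; split_ifs <;> ring
    simp_rw [this, ← Finset.mul_sum]; ring

lemma Q_apply (p : V → V) (κ : V → ℝ) (F : V → ℝ) (z : V) :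
    Q p κ F z = F z - ∑ x, if p x = z then (1 - 1 / κ x) * F x else 0 := rfl

/-- test function form -/
lemma sum_mul_Q (p : V → V) (κ : V → ℝ) (F φ : V → ℝ) :
    ∑ z, φ z * Q p κ F z = ∑ x, F x * (φ x - (1 - 1 / κ x) * φ (p x)) := by
  simp_rw [Q_apply, mul_sub, Finset.sum_sub_distrib, Finset.mul_sum]
  rw [Finset.sum_comm]
  congr 1
  · exact Finset.sum_congr rfl fun x _ => by ring
  · apply Finset.sum_congr rfl
    intro x _
    rw [Finset.sum_eq_single (p x)]
    · simp; ring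
    · intro z _ hz
      rw [if_neg (Ne.symm hz)]; ring
    · intro h; exact absurd (Finset.mem_univ _) h

lemma bound (p : V → V) (κ : V → ℝ) (h1 : ∀ x, 1 ≤ κ x) (h2 : ∀ x, κ (p x) ≤ κ x + 1 / 2)
    (F : V → ℝ) : ∑ z, |F z| ≤ ∑ z, 2 * κ z * |Q p κ F z| := by
  have hθ : ∀ x, 0 ≤ 1 - 1 / κ x := by
    intro x
    have : 1 / κ x ≤ 1 := by
      rw [div_le_one (by linarith [h1 x])]; exact h1 x
    linarith
  have step : ∀ z, |F z| - (∑ x, if p x = z then (1 - 1 / κ x) * |F x| else 0)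
      ≤ |Q p κ F z| := by
    intro z
    have h3 : |∑ x, if p x = z then (1 - 1 / κ x) * F x else 0|
        ≤ ∑ x, if p x = z then (1 - 1 / κ x) * |F x| else 0 := by
      refine (Finset.abs_sum_le_sum_abs _ _).trans ?_
      apply Finset.sum_le_sum
      intro x _
      split_ifs
      · rw [abs_mul, abs_of_nonneg (hθ x)]
      · simp
    have h4 := abs_sub_abs_le_abs_sub (F z) (∑ x, if p x = z then (1 - 1 / κ x) * F x else 0)
    rw [Q_apply]; linarith
  have h5 : ∑ z, 2 * κ z * (|F z| - (∑ x, if p x = z then (1 - 1 / κ x) * |F x| else 0))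
      ≤ ∑ z, 2 * κ z * |Q p κ F z| := by
    apply Finset.sum_le_sum
    intro z _
    exact mul_le_mul_of_nonneg_left (step z) (by linarith [h1 z])
  have h6 : ∑ z, 2 * κ z * (|F z| - (∑ x, if p x = z then (1 - 1 / κ x) * |F x| else 0))
      = ∑ x, |F x| * (2 * κ x - (1 - 1 / κ x) * (2 * κ (p x))) := by
    have := sum_mul_Q p κ (fun x => |F x|) (fun z => 2 * κ z)
    rw [← this]
    rfl
  rw [h6] at h5
  refine le_trans ?_ h5
  apply Finset.sum_le_sum
  intro x _
  have hx : 0 < κ x := by linarith [h1 x]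
  have h7 : 1 ≤ 2 * κ x - (1 - 1 / κ x) * (2 * κ (p x)) := by
    have h8 : (1 - 1 / κ x) * (2 * κ (p x)) ≤ (1 - 1 / κ x) * (2 * κ x + 1) :=
      mul_le_mul_of_nonneg_left (by linarith [h2 x]) (hθ x)
    have h9 : (1 - 1 / κ x) * (2 * κ x + 1) = 2 * κ x - 1 - 1 / κ x := by
      field_simp; ring
    have h10 : 0 < 1 / κ x := by positivity
    linarith
  nlinarith [abs_nonneg (F x)]

lemma Q_inj (p : V → V) (κ : V → ℝ) (h1 : ∀ x, 1 ≤ κ x) (h2 : ∀ x, κ (p x) ≤ κ x + 1 / 2) :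
    Function.Injective (Q p κ) := by
  rw [← LinearMap.ker_eq_bot, LinearMap.ker_eq_bot']
  intro F hF
  have := bound p κ h1 h2 F
  rw [hF] at this
  simp only [Pi.zero_apply, abs_zero, mul_zero, Finset.sum_const_zero] at this
  have h0 : ∑ z, |F z| = 0 := le_antisymm this (Finset.sum_nonneg fun _ _ => abs_nonneg _)
  rw [Finset.sum_eq_zero_iff_of_nonneg (fun _ _ => abs_nonneg _)] at h0
  funext z
  simpa using h0 z (Finset.mem_univ z)

lemma Q_single (p : V → V) (κ : V → ℝ) (x : V) :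
    Q p κ (Pi.single x 1) = Pi.single x 1 - (1 - 1 / κ x) • Pi.single (p x) (1:ℝ) := by
  funext z
  rw [Q_apply]
  simp only [Pi.sub_apply, Pi.smul_apply, smul_eq_mul]
  congr 1
  rw [Finset.sum_eq_single x]
  · by_cases h : p x = z
    · subst h; simp
    · rw [if_neg h, Pi.single_eq_of_ne (Ne.symm h)]; simp
  · intro y _ hy
    rw [Pi.single_eq_of_ne hy]; simp
  · intro h; exact absurd (Finset.mem_univ _) h

/-- The discounted flow operator `L = Q⁻¹`. -/
theorem exists_L (p : V → V) (κ : V → ℝ) (h1 : ∀ x, 1 ≤ κ x)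
    (h2 : ∀ x, κ (p x) ≤ κ x + 1 / 2) :
    ∃ L : (V → ℝ) →ₗ[ℝ] (V → ℝ),
      (∀ f, ∑ z, |L f z| ≤ ∑ z, 2 * κ z * |f z|) ∧
      (∀ x, ∑ z, |L (Pi.single x 1 - Pi.single (p x) 1) z| ≤ 4) ∧
      (∀ f φ : V → ℝ, (∀ x, |φ x - φ (p x)| ≤ 1) → (∀ x, |φ x| ≤ κ x) →
        ∑ z, f z * φ z ≤ (5 / 2) * ∑ z, |L f z|) := by
  set e := LinearEquiv.ofInjectiveEndo (Q p κ) (Q_inj p κ h1 h2) with he
  have hQL : ∀ f, Q p κ (e.symm f) = f := by
    intro f
    have := e.apply_symm_apply f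
    rwa [he, LinearEquiv.coe_ofInjectiveEndo] at this
  have hLQ : ∀ f, e.symm (Q p κ f) = f := by
    intro f
    have := e.symm_apply_apply f
    rwa [he, LinearEquiv.coe_ofInjectiveEndo] at this
  have hA : ∀ f, ∑ z, |(e.symm : (V → ℝ) →ₗ[ℝ] (V → ℝ)) f z| ≤ ∑ z, 2 * κ z * |f z| := by
    intro f
    have := bound p κ h1 h2 (e.symm f)
    rw [hQL] at this
    exact this
  refine ⟨(e.symm : (V → ℝ) →ₗ[ℝ] (V → ℝ)), hA, ?_, ?_⟩
  · intro x
    have hx : 0 < κ x := by linarith [h1 x]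
    have e1 : (e.symm : (V → ℝ) →ₗ[ℝ] (V → ℝ)) (Pi.single x 1 - Pi.single (p x) 1)
        = Pi.single x 1 - (1 / κ x) • (e.symm : (V → ℝ) →ₗ[ℝ] (V → ℝ)) (Pi.single (p x) 1) := by
      have h3 : (Pi.single x 1 - Pi.single (p x) 1 : V → ℝ)
          = Q p κ (Pi.single x 1) - (1 / κ x) • Pi.single (p x) (1:ℝ) := by
        rw [Q_single]
        funext z
        simp only [Pi.sub_apply, Pi.smul_apply, smul_eq_mul]
        ring
      rw [h3, map_sub, map_smul]
      congr 1
      exact hLQ _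
    rw [e1]
    have h4 : ∑ z, |(e.symm : (V → ℝ) →ₗ[ℝ] (V → ℝ)) (Pi.single (p x) 1) z| ≤ 2 * κ (p x) := by
      refine (hA _).trans ?_
      rw [Finset.sum_eq_single (p x)]
      · simp
      · intro y _ hy
        rw [Pi.single_eq_of_ne hy]; simp
      · intro h; exact absurd (Finset.mem_univ _) h
    have h5 : ∑ z, |(Pi.single x (1:ℝ) : V → ℝ) z| = 1 := by
      rw [Finset.sum_eq_single x]
      · simp
      · intro y _ hy
        rw [Pi.single_eq_of_ne hy]; simp
      · intro h; exact absurd (Finset.mem_univ _) h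
    calc ∑ z, |(Pi.single x 1 - (1 / κ x) • (e.symm : (V → ℝ) →ₗ[ℝ] (V → ℝ)) (Pi.single (p x) 1)
            : V → ℝ) z|
        ≤ ∑ z, (|(Pi.single x (1:ℝ) : V → ℝ) z|
            + (1 / κ x) * |(e.symm : (V → ℝ) →ₗ[ℝ] (V → ℝ)) (Pi.single (p x) 1) z|) := by
          apply Finset.sum_le_sum
          intro z _
          simp only [Pi.sub_apply, Pi.smul_apply, smul_eq_mul]
          refine (abs_sub _ _).trans ?_
          rw [abs_mul, abs_of_nonneg (by positivity : (0:ℝ) ≤ 1 / κ x)]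
      _ = 1 + (1 / κ x) * ∑ z, |(e.symm : (V → ℝ) →ₗ[ℝ] (V → ℝ)) (Pi.single (p x) 1) z| := by
          rw [Finset.sum_add_distrib, h5, ← Finset.mul_sum]
      _ ≤ 1 + (1 / κ x) * (2 * κ (p x)) := by gcongr
      _ ≤ 1 + (1 / κ x) * (2 * κ x + 1) := by gcongr; linarith [h2 x]
      _ = 3 + 1 / κ x := by field_simp; ring
      _ ≤ 4 := by
          have : 1 / κ x ≤ 1 := by rw [div_le_one hx]; exact h1 x
          linarith
  · intro f φ hφ1 hφ2
    set F := (e.symm : (V → ℝ) →ₗ[ℝ] (V → ℝ)) f with hF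
    have h3 : ∑ z, f z * φ z = ∑ x, F x * (φ x - (1 - 1 / κ x) * φ (p x)) := by
      rw [← sum_mul_Q]
      apply Finset.sum_congr rfl
      intro z _
      rw [hF]
      have := congrFun (hQL f) z
      simp only [LinearEquiv.coe_coe]
      rw [this]; ring
    rw [h3, Finset.mul_sum]
    apply Finset.sum_le_sum
    intro x _
    have hx : 0 < κ x := by linarith [h1 x]
    have h4 : |φ x - (1 - 1 / κ x) * φ (p x)| ≤ 5 / 2 := by
      have h5 : φ x - (1 - 1 / κ x) * φ (p x) = (φ x - φ (p x)) + (1 / κ x) * φ (p x) := by ring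
      rw [h5]
      refine (abs_add_le _ _).trans ?_
      rw [abs_mul, abs_of_nonneg (by positivity : (0:ℝ) ≤ 1 / κ x)]
      have h6 : (1 / κ x) * |φ (p x)| ≤ 3 / 2 := by
        calc (1 / κ x) * |φ (p x)| ≤ (1 / κ x) * (κ x + 1 / 2) := by
              gcongr
              exact (hφ2 (p x)).trans (h2 x)
          _ = 1 + (1 / 2) * (1 / κ x) := by field_simp
          _ ≤ 3 / 2 := by
              have : 1 / κ x ≤ 1 := by rw [div_le_one hx]; exact h1 x
              linarith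
      linarith [hφ1 x]
    calc F x * (φ x - (1 - 1 / κ x) * φ (p x)) ≤ |F x * (φ x - (1 - 1 / κ x) * φ (p x))| :=
          le_abs_self _
      _ = |F x| * |φ x - (1 - 1 / κ x) * φ (p x)| := abs_mul _ _
      _ ≤ |F x| * (5 / 2) := by gcongr
      _ = 5 / 2 * |F x| := by ring

end Pool.Agent.Helper799.Disc
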