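import Mathlib

set_option autoImplicit false

namespace Pool.Agent.Helper799.Khin

open Finset

/-- the sign of `i` determined by the subset `s` -/
noncomputable def sg {ι : Type*} [DecidableEq ι] (s : Finset ι) (i : ι) : ℝ :=
  if i ∈ s then 1 else -1

section
variable {ι : Type*} [DecidableEq ι]

lemma sum_insert_not_mem {T t : Finset ι} {j : ι} (hj : j ∉ T) (ht : t ⊆ T) (a : ι → ℝ) :
    ∑ i ∈ insert j T, sg t i * a i = (∑ i ∈ T, sg t i * a i) - a j := by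
  rw [Finset.sum_insert hj]
  have : j ∉ t := fun h => hj (ht h)
  simp [sg, this]; ring

lemma sum_insert_mem {T t : Finset ι} {j : ι} (hj : j ∉ T) (_ht : t ⊆ T) (a : ι → ℝ) :
    ∑ i ∈ insert j T, sg (insert j t) i * a i = (∑ i ∈ T, sg t i * a i) + a j := by
  rw [Finset.sum_insert hj]
  have h1 : ∑ i ∈ T, sg (insert j t) i * a i = ∑ i ∈ T, sg t i * a i := by
    apply Finset.sum_congr rfl
    intro i hi
    have : i ≠ j := fun h => hj (h ▸ hi)
    simp [sg, this]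
  rw [h1]
  simp [sg]; ring

lemma moment2 (T : Finset ι) (a : ι → ℝ) :
    ∑ s ∈ T.powerset, (∑ i ∈ T, sg s i * a i) ^ 2 = 2 ^ T.card * ∑ i ∈ T, a i ^ 2 := by
  induction T using Finset.induction_on with
  | empty => simp
  | insert j T hj ih =>
    rw [Finset.sum_powerset_insert hj, Finset.card_insert_of_notMem hj, Finset.sum_insert hj]
    have h1 : ∑ t ∈ T.powerset, (∑ i ∈ insert j T, sg t i * a i) ^ 2
        = ∑ t ∈ T.powerset, ((∑ i ∈ T, sg t i * a i) - a j) ^ 2 :=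
      Finset.sum_congr rfl fun t ht => by rw [sum_insert_not_mem hj (Finset.mem_powerset.1 ht)]
    have h2 : ∑ t ∈ T.powerset, (∑ i ∈ insert j T, sg (insert j t) i * a i) ^ 2
        = ∑ t ∈ T.powerset, ((∑ i ∈ T, sg t i * a i) + a j) ^ 2 :=
      Finset.sum_congr rfl fun t ht => by rw [sum_insert_mem hj (Finset.mem_powerset.1 ht)]
    rw [h1, h2, ← Finset.sum_add_distrib]
    have h3 : ∀ t ∈ T.powerset, ((∑ i ∈ T, sg t i * a i) - a j) ^ 2
        + ((∑ i ∈ T, sg t i * a i) + a j) ^ 2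
        = 2 * (∑ i ∈ T, sg t i * a i) ^ 2 + 2 * a j ^ 2 := fun t _ => by ring
    rw [Finset.sum_congr rfl h3, Finset.sum_add_distrib, ← Finset.mul_sum, ih]
    simp [Finset.card_powerset]
    ring

lemma moment4 (T : Finset ι) (a : ι → ℝ) :
    ∑ s ∈ T.powerset, (∑ i ∈ T, sg s i * a i) ^ 4
      ≤ 2 ^ T.card * (3 * (∑ i ∈ T, a i ^ 2) ^ 2) := by
  induction T using Finset.induction_on with
  | empty => simp
  | insert j T hj ih =>
    rw [Finset.sum_powerset_insert hj, Finset.card_insert_of_notMem hj, Finset.sum_insert hj]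
    have h1 : ∑ t ∈ T.powerset, (∑ i ∈ insert j T, sg t i * a i) ^ 4
        = ∑ t ∈ T.powerset, ((∑ i ∈ T, sg t i * a i) - a j) ^ 4 :=
      Finset.sum_congr rfl fun t ht => by rw [sum_insert_not_mem hj (Finset.mem_powerset.1 ht)]
    have h2 : ∑ t ∈ T.powerset, (∑ i ∈ insert j T, sg (insert j t) i * a i) ^ 4
        = ∑ t ∈ T.powerset, ((∑ i ∈ T, sg t i * a i) + a j) ^ 4 :=
      Finset.sum_congr rfl fun t ht => by rw [sum_insert_mem hj (Finset.mem_powerset.1 ht)]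
    rw [h1, h2, ← Finset.sum_add_distrib]
    have h3 : ∀ t ∈ T.powerset, ((∑ i ∈ T, sg t i * a i) - a j) ^ 4
        + ((∑ i ∈ T, sg t i * a i) + a j) ^ 4
        = 2 * (∑ i ∈ T, sg t i * a i) ^ 4 + 12 * a j ^ 2 * (∑ i ∈ T, sg t i * a i) ^ 2
          + 2 * a j ^ 4 := fun t _ => by ring
    rw [Finset.sum_congr rfl h3, Finset.sum_add_distrib, Finset.sum_add_distrib,
      ← Finset.mul_sum, ← Finset.mul_sum, moment2]
    simp only [Finset.sum_const, Finset.card_powerset, nsmul_eq_mul]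
    push_cast
    have hp : (0:ℝ) < 2 ^ T.card := by positivity
    have hs : 0 ≤ ∑ i ∈ T, a i ^ 2 := Finset.sum_nonneg fun i _ => sq_nonneg _
    have : (2:ℝ) ^ (T.card + 1) = 2 * 2 ^ T.card := by ring
    rw [this]
    nlinarith [mul_nonneg hp.le (sq_nonneg (a j ^ 2))]

/-- Khintchine in `L_1`, with constant `9/16`. -/
lemma khintchine (T : Finset ι) (a : ι → ℝ) :
    (9 / 16) * (2 ^ T.card * Real.sqrt (∑ i ∈ T, a i ^ 2))
      ≤ ∑ s ∈ T.powerset, |∑ i ∈ T, sg s i * a i| := by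
  set σ := Real.sqrt (∑ i ∈ T, a i ^ 2) with hσ
  have hs : 0 ≤ ∑ i ∈ T, a i ^ 2 := Finset.sum_nonneg fun i _ => sq_nonneg _
  have hσ2 : σ ^ 2 = ∑ i ∈ T, a i ^ 2 := Real.sq_sqrt hs
  rcases (Real.sqrt_nonneg (∑ i ∈ T, a i ^ 2)).eq_or_lt' with h0 | hpos
  · rw [← hσ] at h0
    rw [h0]; simp only [mul_zero]
    exact Finset.sum_nonneg fun s _ => abs_nonneg _
  · rw [← hσ] at hpos
    have key : ∀ x : ℝ, (3 / 4) * x ^ 2 / σ - (1 / 16) * x ^ 4 / σ ^ 3 ≤ |x| := by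
      intro x
      have hx : x ^ 2 = |x| ^ 2 := (sq_abs x).symm
      have hx4 : x ^ 4 = |x| ^ 4 := by
        rw [show x ^ 4 = (x ^ 2) ^ 2 by ring, hx]; ring
      rw [hx, hx4]
      set t := |x|
      have ht : 0 ≤ t := abs_nonneg x
      rw [div_sub_div _ _ hpos.ne' (by positivity), div_le_iff₀ (by positivity)]
      have : t * (σ * σ ^ 3) - ((3 / 4) * t ^ 2 * σ ^ 3 - σ * ((1 / 16) * t ^ 4))
          = (1 / 16) * (t * σ) * ((t - 2 * σ) ^ 2 * (t + 4 * σ)) := by ring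
      have h2 : 0 ≤ (1 / 16) * (t * σ) * ((t - 2 * σ) ^ 2 * (t + 4 * σ)) := by positivity
      linarith
    have h4 := moment4 T a
    have h2 := moment2 T a
    calc (9 / 16) * (2 ^ T.card * σ)
        = (3 / 4) * (2 ^ T.card * σ ^ 2) / σ - (1 / 16) * (2 ^ T.card * (3 * (σ ^ 2) ^ 2)) / σ ^ 3 := by
          field_simp; ring
      _ ≤ (3 / 4) * (∑ s ∈ T.powerset, (∑ i ∈ T, sg s i * a i) ^ 2) / σ
          - (1 / 16) * (∑ s ∈ T.powerset, (∑ i ∈ T, sg s i * a i) ^ 4) / σ ^ 3 := by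
          rw [h2, hσ2]
          gcongr
      _ = ∑ s ∈ T.powerset, ((3 / 4) * (∑ i ∈ T, sg s i * a i) ^ 2 / σ
          - (1 / 16) * (∑ i ∈ T, sg s i * a i) ^ 4 / σ ^ 3) := by
          rw [Finset.sum_sub_distrib, ← Finset.sum_div, ← Finset.sum_div, ← Finset.mul_sum,
            ← Finset.mul_sum]
      _ ≤ _ := Finset.sum_le_sum fun s _ => key _

end

/-- Minkowski: `(∑_i (∑_z |a i z|)^2)^{1/2} ≤ ∑_z (∑_i a i z ^2)^{1/2}`. -/
lemma minkowski {ι V : Type*} (T : Finset ι) (Z : Finset V) (a : ι → V → ℝ) :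
    Real.sqrt (∑ i ∈ T, (∑ z ∈ Z, |a i z|) ^ 2) ≤ ∑ z ∈ Z, Real.sqrt (∑ i ∈ T, a i z ^ 2) := by
  set R := Real.sqrt (∑ i ∈ T, (∑ z ∈ Z, |a i z|) ^ 2) with hR
  have hs : 0 ≤ ∑ i ∈ T, (∑ z ∈ Z, |a i z|) ^ 2 := Finset.sum_nonneg fun i _ => sq_nonneg _
  have hR2 : R ^ 2 = ∑ i ∈ T, (∑ z ∈ Z, |a i z|) ^ 2 := Real.sq_sqrt hs
  rcases (Real.sqrt_nonneg (∑ i ∈ T, (∑ z ∈ Z, |a i z|) ^ 2)).eq_or_lt' with h0 | hpos
  · rw [← hR] at h0; rw [h0]
    exact Finset.sum_nonneg fun s _ => Real.sqrt_nonneg _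
  · rw [← hR] at hpos
    have h1 : R ^ 2 ≤ R * ∑ z ∈ Z, Real.sqrt (∑ i ∈ T, a i z ^ 2) := by
      calc R ^ 2 = ∑ i ∈ T, (∑ z ∈ Z, |a i z|) * (∑ z ∈ Z, |a i z|) := by
            rw [hR2]; exact Finset.sum_congr rfl fun i _ => by ring
        _ = ∑ z ∈ Z, ∑ i ∈ T, (∑ z' ∈ Z, |a i z'|) * |a i z| := by
            rw [Finset.sum_comm]
            exact Finset.sum_congr rfl fun i _ => by rw [Finset.mul_sum]
        _ ≤ ∑ z ∈ Z, R * Real.sqrt (∑ i ∈ T, a i z ^ 2) := by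
            apply Finset.sum_le_sum
            intro z _
            have := Real.sum_mul_le_sqrt_mul_sqrt T (fun i => ∑ z' ∈ Z, |a i z'|) (fun i => |a i z|)
            simpa [sq_abs, hR] using this
        _ = _ := by rw [Finset.mul_sum]
    have : R * R ≤ R * ∑ z ∈ Z, Real.sqrt (∑ i ∈ T, a i z ^ 2) := by rwa [← sq]
    exact le_of_mul_le_mul_left this hpos

end Pool.Agent.Helper799.Khin
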