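import Mathlib
import Pool.Agent.Helper799.Khin

set_option autoImplicit false

namespace Pool.Helper799.Te

open Finset

/-- the sign attached to a Boolean -/
def sb (b : Bool) : ℝ := cond b 1 (-1)

theorem sb_true : sb true = 1 := rfl
theorem sb_false : sb false = -1 := rfl
theorem sb_not (b : Bool) : sb (!b) = - sb b := by cases b <;> simp [sb]
theorem sb_sq (b : Bool) : sb b * sb b = 1 := by cases b <;> simp [sb]
theorem abs_sb (b : Bool) : |sb b| = 1 := by cases b <;> simp [sb]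

variable {ι : Type*} [Fintype ι] [DecidableEq ι]

/-- average over the discrete cube -/
noncomputable def Av (f : (ι → Bool) → ℝ) : ℝ := (∑ ε, f ε) / 2 ^ Fintype.card ι

theorem Av_mono {f g : (ι → Bool) → ℝ} (h : ∀ ε, f ε ≤ g ε) : Av f ≤ Av g := by
  unfold Av
  gcongr with ε _
  exact h ε

theorem Av_const (c : ℝ) : Av (fun _ : ι → Bool => c) = c := by
  unfold Av
  rw [Finset.sum_const, Finset.card_univ, Fintype.card_fun, Fintype.card_bool, nsmul_eq_mul]
  push_cast
  field_simp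

theorem Av_add (f g : (ι → Bool) → ℝ) : Av (fun ε => f ε + g ε) = Av f + Av g := by
  unfold Av
  rw [Finset.sum_add_distrib, add_div]

theorem Av_sub (f g : (ι → Bool) → ℝ) : Av (fun ε => f ε - g ε) = Av f - Av g := by
  unfold Av
  rw [Finset.sum_sub_distrib, sub_div]

theorem Av_mul (c : ℝ) (f : (ι → Bool) → ℝ) : Av (fun ε => c * f ε) = c * Av f := by
  unfold Av
  rw [← Finset.mul_sum, mul_div_assoc]

theorem Av_sum {κ : Type*} (F : Finset κ) (f : κ → (ι → Bool) → ℝ) :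
    Av (fun ε => ∑ k ∈ F, f k ε) = ∑ k ∈ F, Av (f k) := by
  unfold Av
  rw [Finset.sum_comm, Finset.sum_div]

theorem Av_nonneg {f : (ι → Bool) → ℝ} (h : ∀ ε, 0 ≤ f ε) : 0 ≤ Av f := by
  unfold Av
  apply div_nonneg (Finset.sum_nonneg (fun ε _ => h ε)) (by positivity)

/-- change of variables -/
theorem Av_comp (e : (ι → Bool) ≃ (ι → Bool)) (f : (ι → Bool) → ℝ) :
    Av (fun ε => f (e ε)) = Av f := by
  unfold Av
  rw [Equiv.sum_comp e f]

theorem sum_cube_eq (f : (ι → Bool) → ℝ) :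
    ∑ ε, f ε = ∑ s ∈ (Finset.univ : Finset ι).powerset, f (fun i => decide (i ∈ s)) := by
  apply Finset.sum_bij (fun ε _ => Finset.univ.filter (fun i => ε i = true))
  · intro ε _; simp
  · intro ε _ ε' _ h
    funext i
    have := Finset.ext_iff.1 h i
    simp only [Finset.mem_filter, Finset.mem_univ, true_and] at this
    exact Bool.eq_iff_iff.2 this
  · intro s _
    refine ⟨fun i => decide (i ∈ s), Finset.mem_univ _, ?_⟩
    ext i; simp
  · intro ε _
    congr 1
    funext i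
    simp

/-- Khintchine's inequality in `L_1` -/
theorem khin (a : ι → ℝ) :
    (9 / 16) * Real.sqrt (∑ i, a i ^ 2) ≤ Av (fun ε : ι → Bool => |∑ i, sb (ε i) * a i|) := by
  unfold Av
  rw [le_div_iff₀ (by positivity), sum_cube_eq]
  have h := Pool.Agent.Helper799.Khin.khintchine (Finset.univ : Finset ι) a
  have h2 : ∀ s ∈ (Finset.univ : Finset ι).powerset,
      |∑ i, Pool.Agent.Helper799.Khin.sg s i * a i| = |∑ i, sb (decide (i ∈ s)) * a i| := by
    intro s _
    congr 1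
    apply Finset.sum_congr rfl
    intro i _
    congr 1
    unfold Pool.Agent.Helper799.Khin.sg sb
    by_cases h : i ∈ s <;> simp [h]
  rw [Finset.sum_congr rfl h2, Finset.card_univ] at h
  calc 9 / 16 * Real.sqrt (∑ i, a i ^ 2) * 2 ^ Fintype.card ι
      = 9 / 16 * (2 ^ Fintype.card ι * Real.sqrt (∑ i, a i ^ 2)) := by ring
    _ ≤ _ := h

/-- Khintchine's inequality for real or complex coefficients -/
theorem khinC {𝕜 : Type*} [RCLike 𝕜] (c : ι → 𝕜) :
    (9 / 32) * Real.sqrt (∑ i, ‖c i‖ ^ 2) ≤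
      Av (fun ε : ι → Bool => ‖∑ i, ((sb (ε i) : ℝ) : 𝕜) * c i‖) := by
  set X := Real.sqrt (∑ i, (RCLike.re (c i)) ^ 2) with hX
  set Y := Real.sqrt (∑ i, (RCLike.im (c i)) ^ 2) with hY
  have h1 : (9 / 16) * X ≤ Av (fun ε : ι → Bool => ‖∑ i, ((sb (ε i) : ℝ) : 𝕜) * c i‖) := by
    refine (khin (fun i => RCLike.re (c i))).trans (Av_mono (fun ε => ?_))
    have : ∑ i, sb (ε i) * RCLike.re (c i) = RCLike.re (∑ i, ((sb (ε i) : ℝ) : 𝕜) * c i) := by
      rw [map_sum]
      apply Finset.sum_congr rfl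
      intro i _
      rw [RCLike.re_ofReal_mul]
    rw [this]
    exact RCLike.abs_re_le_norm _
  have h2 : (9 / 16) * Y ≤ Av (fun ε : ι → Bool => ‖∑ i, ((sb (ε i) : ℝ) : 𝕜) * c i‖) := by
    refine (khin (fun i => RCLike.im (c i))).trans (Av_mono (fun ε => ?_))
    have : ∑ i, sb (ε i) * RCLike.im (c i) = RCLike.im (∑ i, ((sb (ε i) : ℝ) : 𝕜) * c i) := by
      rw [map_sum]
      apply Finset.sum_congr rfl
      intro i _
      rw [RCLike.im_ofReal_mul]
    rw [this]
    exact RCLike.abs_im_le_norm _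
  have h3 : Real.sqrt (∑ i, ‖c i‖ ^ 2) ≤ X + Y := by
    apply Real.sqrt_le_iff.2
    refine ⟨by positivity, ?_⟩
    have e1 : X ^ 2 = ∑ i, (RCLike.re (c i)) ^ 2 :=
      Real.sq_sqrt (Finset.sum_nonneg (fun i _ => sq_nonneg _))
    have e2 : Y ^ 2 = ∑ i, (RCLike.im (c i)) ^ 2 :=
      Real.sq_sqrt (Finset.sum_nonneg (fun i _ => sq_nonneg _))
    have e3 : ∑ i, ‖c i‖ ^ 2 = X ^ 2 + Y ^ 2 := by
      rw [e1, e2, ← Finset.sum_add_distrib]
      apply Finset.sum_congr rfl
      intro i _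
      rw [← RCLike.normSq_eq_def', RCLike.normSq_apply]
      ring
    have hX0 : 0 ≤ X := Real.sqrt_nonneg _
    have hY0 : 0 ≤ Y := Real.sqrt_nonneg _
    nlinarith
  linarith

end Pool.Helper799.Te
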