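import Mathlib

set_option autoImplicit false

namespace Pool.Helper799.Te

open Finset

/-- a finite net of the unit ball, tested by inner products -/
theorem exists_net (𝕜 : Type) [RCLike 𝕜] (m : ℕ) :
    ∃ S : Finset (EuclideanSpace 𝕜 (Fin m)), (∀ y ∈ S, ‖y‖ ≤ 1) ∧
      ∀ b : EuclideanSpace 𝕜 (Fin m), ∃ y ∈ S, ‖b‖ ≤ 2 * ‖inner 𝕜 y b‖ := by
  classical
  have hc : IsCompact (Metric.closedBall (0 : EuclideanSpace 𝕜 (Fin m)) 1) :=
    isCompact_closedBall _ _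
  obtain ⟨t, ht1, ht2, ht3⟩ := hc.finite_cover_balls (show (0 : ℝ) < 1 / 2 by norm_num)
  refine ⟨insert 0 ht2.toFinset, ?_, ?_⟩
  · intro y hy
    rw [Finset.mem_insert, Set.Finite.mem_toFinset] at hy
    rcases hy with rfl | hy
    · simp
    · have := ht1 hy
      simpa using this
  · intro b
    by_cases hb : b = 0
    · exact ⟨0, Finset.mem_insert_self _ _, by simp [hb]⟩
    have hb' : 0 < ‖b‖ := norm_pos_iff.2 hb
    have hmem : ((‖b‖⁻¹ : ℝ) : 𝕜) • b ∈ Metric.closedBall (0 : EuclideanSpace 𝕜 (Fin m)) 1 := by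
      rw [mem_closedBall_zero_iff, norm_smul, RCLike.norm_ofReal, abs_of_pos (by positivity)]
      rw [inv_mul_cancel₀ hb'.ne']
    have h1 := ht3 hmem
    simp only [Set.mem_iUnion] at h1
    obtain ⟨y, hy, hy2⟩ := h1
    refine ⟨y, Finset.mem_insert_of_mem (ht2.mem_toFinset.2 hy), ?_⟩
    rw [Metric.mem_ball, dist_eq_norm] at hy2
    have h2 : inner 𝕜 (((‖b‖⁻¹ : ℝ) : 𝕜) • b) b = ((‖b‖ : ℝ) : 𝕜) := by
      rw [inner_smul_left, inner_self_eq_norm_sq_to_K, RCLike.conj_ofReal]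
      rw [← RCLike.ofReal_pow, ← RCLike.ofReal_mul]
      congr 1
      field_simp
    have h3 : ‖inner 𝕜 (((‖b‖⁻¹ : ℝ) : 𝕜) • b - y) b‖ ≤ 1 / 2 * ‖b‖ := by
      refine (norm_inner_le_norm _ _).trans ?_
      gcongr
    have h4 : inner 𝕜 (((‖b‖⁻¹ : ℝ) : 𝕜) • b) b = inner 𝕜 (((‖b‖⁻¹ : ℝ) : 𝕜) • b - y) b + inner 𝕜 y b := by
      rw [inner_sub_left]; ring
    have h5 : ‖b‖ = ‖inner 𝕜 (((‖b‖⁻¹ : ℝ) : 𝕜) • b) b‖ := by
      rw [h2, RCLike.norm_ofReal, abs_of_pos hb']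
    have h6 : ‖inner 𝕜 (((‖b‖⁻¹ : ℝ) : 𝕜) • b) b‖ ≤
        ‖inner 𝕜 (((‖b‖⁻¹ : ℝ) : 𝕜) • b - y) b‖ + ‖inner 𝕜 y b‖ := by
      rw [h4]; exact norm_add_le _ _
    linarith

/-- a finite `δ`-net of the unit sphere -/
theorem exists_sphere_net {H : Type} [NormedAddCommGroup H] [ProperSpace H] (δ : ℝ) (hδ : 0 < δ) :
    ∃ S : Finset H, (∀ y ∈ S, ‖y‖ = 1) ∧ ∀ x : H, ‖x‖ = 1 → ∃ y ∈ S, ‖x - y‖ ≤ δ := by
  have hc : IsCompact (Metric.sphere (0 : H) 1) := isCompact_sphere _ _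
  obtain ⟨t, ht1, ht2, ht3⟩ := hc.finite_cover_balls hδ
  refine ⟨ht2.toFinset, ?_, ?_⟩
  · intro y hy
    rw [Set.Finite.mem_toFinset] at hy
    have := ht1 hy
    simpa using this
  · intro x hx
    have h1 := ht3 (show x ∈ Metric.sphere (0 : H) 1 by simpa using hx)
    simp only [Set.mem_iUnion] at h1
    obtain ⟨y, hy, hy2⟩ := h1
    refine ⟨y, ht2.mem_toFinset.2 hy, ?_⟩
    rw [Metric.mem_ball, dist_eq_norm] at hy2
    exact hy2.le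

end Pool.Helper799.Te
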