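import Mathlib
import Pool.Agent.Helper799.TeCube
import Pool.Agent.Helper799.TeNet

set_option autoImplicit false

namespace Pool.Helper799.Te

open Finset

/-- real exponent `p = (2k+2)/(2k+1)` -/
noncomputable def pr (k : ℕ) : ℝ := (2 * k + 2) / (2 * k + 1)

/-- the same exponent as an extended nonnegative real -/
noncomputable def pe (k : ℕ) : ENNReal := ENNReal.ofReal (pr k)

theorem one_lt_pr (k : ℕ) : 1 < pr k := by
  unfold pr
  rw [lt_div_iff₀ (by positivity)]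
  linarith

theorem pr_pos (k : ℕ) : 0 < pr k := lt_trans one_pos (one_lt_pr k)

theorem toReal_pe (k : ℕ) : (pe k).toReal = pr k := by
  unfold pe
  rw [ENNReal.toReal_ofReal (pr_pos k).le]

instance fact_pe (k : ℕ) : Fact (1 ≤ pe k) := ⟨by
  unfold pe
  rw [← ENNReal.ofReal_one]
  exact ENNReal.ofReal_le_ofReal (one_lt_pr k).le⟩

theorem holder_pr (k : ℕ) : (pr k).HolderConjugate (2 * k + 2) := by
  rw [Real.holderConjugate_iff]
  refine ⟨one_lt_pr k, ?_⟩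
  unfold pr
  field_simp
  ring

variable {𝕜 : Type} [RCLike 𝕜] {I : Type} [Fintype I]

theorem norm_block (k : ℕ) (g : PiLp (pe k) (fun _ : I => 𝕜)) :
    ‖g‖ = (∑ t, ‖g t‖ ^ (pr k)) ^ (1 / pr k) := by
  rw [PiLp.norm_eq_sum (by rw [toReal_pe]; exact pr_pos k), toReal_pe]

theorem norm_blockR (k : ℕ) (g : PiLp (pe k) (fun _ : I => ℝ)) :
    ‖g‖ = (∑ t, ‖g t‖ ^ (pr k)) ^ (1 / pr k) := by
  rw [PiLp.norm_eq_sum (by rw [toReal_pe]; exact pr_pos k), toReal_pe]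

/-- duality: a bound for a functional on `ℓ_p` bounds its `ℓ_q` norm -/
theorem dualq (k : ℕ) (h : I → 𝕜) (C : ℝ) (hC : 0 ≤ C)
    (H : ∀ g : PiLp (pe k) (fun _ : I => 𝕜), ‖∑ t, g t * h t‖ ≤ C * ‖g‖) :
    ∑ t, ‖h t‖ ^ (2 * k + 2) ≤ C ^ (2 * k + 2) := by
  set S := ∑ t, ‖h t‖ ^ (2 * k + 2) with hS
  have hS0 : 0 ≤ S := Finset.sum_nonneg (fun t _ => by positivity)
  rcases hS0.eq_or_lt with h0 | hpos
  · rw [← h0]; positivity
  let g : PiLp (pe k) (fun _ : I => 𝕜) :=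
    WithLp.toLp (pe k) (fun t => (starRingEnd 𝕜) (h t) * ((‖h t‖ ^ (2 * k) : ℝ) : 𝕜))
  have hg : ∀ t, g t = (starRingEnd 𝕜) (h t) * ((‖h t‖ ^ (2 * k) : ℝ) : 𝕜) := fun t => rfl
  have h1 : ∑ t, g t * h t = ((S : ℝ) : 𝕜) := by
    rw [hS, RCLike.ofReal_sum]
    apply Finset.sum_congr rfl
    intro t _
    rw [hg]
    have e1 : (starRingEnd 𝕜) (h t) * ((‖h t‖ ^ (2 * k) : ℝ) : 𝕜) * h t =
        ((starRingEnd 𝕜) (h t) * h t) * ((‖h t‖ ^ (2 * k) : ℝ) : 𝕜) := by ring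
    rw [e1, RCLike.conj_mul, ← RCLike.ofReal_pow, ← RCLike.ofReal_mul]
    congr 1
    rw [← pow_add]
    congr 1
    ring
  have h2 : ‖g‖ = S ^ (1 / pr k) := by
    rw [norm_block]
    congr 1
    rw [hS]
    apply Finset.sum_congr rfl
    intro t _
    rw [hg, norm_mul, RCLike.norm_conj, RCLike.norm_ofReal, abs_of_nonneg (by positivity)]
    have e1 : ‖h t‖ * ‖h t‖ ^ (2 * k) = ‖h t‖ ^ (2 * k + 1) := by rw [pow_succ]; ring
    rw [e1, ← Real.rpow_natCast, ← Real.rpow_mul (norm_nonneg _)]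
    have e2 : ((2 * k + 1 : ℕ) : ℝ) * pr k = ((2 * k + 2 : ℕ) : ℝ) := by
      unfold pr; push_cast; field_simp
    rw [e2, Real.rpow_natCast]
  have h3 := H g
  rw [h1, h2, RCLike.norm_ofReal, abs_of_nonneg hS0] at h3
  -- `S ≤ C S^(1/p)`
  have h4 : S ^ (1 / ((2 * k + 2 : ℕ) : ℝ)) ≤ C := by
    have e1 : S = S ^ (1 / ((2 * k + 2 : ℕ) : ℝ)) * S ^ (1 / pr k) := by
      rw [← Real.rpow_add hpos]
      have : 1 / ((2 * k + 2 : ℕ) : ℝ) + 1 / pr k = 1 := by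
        unfold pr; push_cast; field_simp; ring
      rw [this, Real.rpow_one]
    have hp : 0 < S ^ (1 / pr k) := Real.rpow_pos_of_pos hpos _
    rw [e1] at h3
    have h5 : S ^ (1 / ((2 * k + 2 : ℕ) : ℝ)) * S ^ (1 / pr k) ≤ C * S ^ (1 / pr k) := by
      calc S ^ (1 / ((2 * k + 2 : ℕ) : ℝ)) * S ^ (1 / pr k) ≤ C *
          (S ^ (1 / ((2 * k + 2 : ℕ) : ℝ)) * S ^ (1 / pr k)) ^ (1 / pr k) := h3
        _ = C * S ^ (1 / pr k) := by rw [← e1]
    exact le_of_mul_le_mul_right h5 hp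
  calc S = (S ^ (1 / ((2 * k + 2 : ℕ) : ℝ))) ^ (2 * k + 2) := by
        rw [← Real.rpow_natCast, ← Real.rpow_mul hS0]
        have : 1 / ((2 * k + 2 : ℕ) : ℝ) * ((2 * k + 2 : ℕ) : ℝ) = 1 := by
          push_cast; field_simp
        rw [this, Real.rpow_one]
    _ ≤ C ^ (2 * k + 2) := pow_le_pow_left₀ (Real.rpow_nonneg hS0 _) h4 _

/-- Hölder -/
theorem holder_block (k : ℕ) (u v : I → ℝ) (hu : ∀ t, 0 ≤ u t) (hv : ∀ t, 0 ≤ v t) (D : ℝ)
    (hD : 0 ≤ D) (h : ∑ t, v t ^ (2 * k + 2) ≤ D ^ (2 * k + 2)) :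
    ∑ t, u t * v t ≤ (∑ t, u t ^ (pr k)) ^ (1 / pr k) * D := by
  have h1 := Real.inner_le_Lp_mul_Lq_of_nonneg Finset.univ (holder_pr k)
    (f := u) (g := v) (fun t _ => hu t) (fun t _ => hv t)
  refine h1.trans ?_
  apply mul_le_mul_of_nonneg_left _ (Real.rpow_nonneg
    (Finset.sum_nonneg (fun t _ => Real.rpow_nonneg (hu t) _)) _)
  have e1 : ∀ t, v t ^ ((2 : ℝ) * k + 2) = v t ^ (2 * k + 2) := by
    intro t
    rw [← Real.rpow_natCast]
    congr 1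
    push_cast; ring
  rw [Finset.sum_congr rfl (fun t _ => e1 t)]
  calc (∑ t, v t ^ (2 * k + 2)) ^ (1 / ((2 : ℝ) * k + 2))
      ≤ (D ^ (2 * k + 2)) ^ (1 / ((2 : ℝ) * k + 2)) := by
        apply Real.rpow_le_rpow (Finset.sum_nonneg (fun t _ => by have := hv t; positivity)) h
        positivity
    _ = D := by
        rw [← Real.rpow_natCast, ← Real.rpow_mul hD]
        have : ((2 * k + 2 : ℕ) : ℝ) * (1 / ((2 : ℝ) * k + 2)) = 1 := by
          push_cast; field_simp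
        rw [this, Real.rpow_one]

/-- the square function in `ℓ_p` is controlled by the Rademacher average -/
theorem square_block (k : ℕ) {κ : Type} [Fintype κ] [DecidableEq κ]
    (x : κ → PiLp (pe k) (fun _ : I => 𝕜)) :
    (∑ t, (Real.sqrt (∑ i, ‖x i t‖ ^ 2)) ^ (pr k)) ^ (1 / pr k) ≤
      (32 / 9) * Av (fun ε : κ → Bool => ‖∑ i, ((sb (ε i) : ℝ) : 𝕜) • x i‖) := by
  let y : (κ → Bool) → PiLp (pe k) (fun _ : I => ℝ) := fun ε =>
    WithLp.toLp (pe k) (fun t => ‖(∑ i, ((sb (ε i) : ℝ) : 𝕜) • x i) t‖)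
  have hy : ∀ ε, ‖y ε‖ = ‖∑ i, ((sb (ε i) : ℝ) : 𝕜) • x i‖ := by
    intro ε
    rw [norm_blockR k (y ε), norm_block k (∑ i, ((sb (ε i) : ℝ) : 𝕜) • x i)]
    congr 1
    apply Finset.sum_congr rfl
    intro t _
    simp only [y, norm_norm]
  let z : PiLp (pe k) (fun _ : I => ℝ) := ((1 : ℝ) / 2 ^ Fintype.card κ) • ∑ ε, y ε
  have hz : ‖z‖ ≤ Av (fun ε : κ → Bool => ‖∑ i, ((sb (ε i) : ℝ) : 𝕜) • x i‖) := by
    simp only [z]
    rw [norm_smul, Real.norm_of_nonneg (by positivity)]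
    unfold Av
    calc (1 : ℝ) / 2 ^ Fintype.card κ * ‖∑ ε, y ε‖ ≤ 1 / 2 ^ Fintype.card κ * ∑ ε, ‖y ε‖ := by
          gcongr
          exact norm_sum_le _ _
      _ = (∑ ε : κ → Bool, ‖∑ i, ((sb (ε i) : ℝ) : 𝕜) • x i‖) / 2 ^ Fintype.card κ := by
          rw [Finset.sum_congr rfl (fun ε _ => hy ε)]; ring
  have hzt : ∀ t, z t = Av (fun ε : κ → Bool => ‖∑ i, ((sb (ε i) : ℝ) : 𝕜) * x i t‖) := by
    intro t
    simp only [z, y, Av]
    rw [PiLp.smul_apply]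
    have : (∑ ε : κ → Bool, WithLp.toLp (pe k) (fun t => ‖(∑ i, ((sb (ε i) : ℝ) : 𝕜) • x i) t‖) :
        PiLp (pe k) (fun _ : I => ℝ)) t = ∑ ε : κ → Bool, ‖∑ i, ((sb (ε i) : ℝ) : 𝕜) * x i t‖ := by
      rw [WithLp.ofLp_sum, Finset.sum_apply]
      apply Finset.sum_congr rfl
      intro ε _
      simp only
      congr 1
      rw [WithLp.ofLp_sum, Finset.sum_apply]
      apply Finset.sum_congr rfl
      intro i _
      rw [PiLp.smul_apply, smul_eq_mul]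
    rw [this, smul_eq_mul]
    ring
  have hle : ∀ t, Real.sqrt (∑ i, ‖x i t‖ ^ 2) ≤ (32 / 9) * z t := by
    intro t
    rw [hzt]
    have := khinC (fun i => x i t)
    linarith
  have hz0 : ∀ t, 0 ≤ z t := by
    intro t
    rw [hzt]
    exact Av_nonneg (fun ε => norm_nonneg _)
  clear_value z
  calc (∑ t, (Real.sqrt (∑ i, ‖x i t‖ ^ 2)) ^ (pr k)) ^ (1 / pr k)
      ≤ (∑ t, ((32 / 9) * z t) ^ (pr k)) ^ (1 / pr k) := by
        apply Real.rpow_le_rpow (Finset.sum_nonneg (fun t _ =>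
          Real.rpow_nonneg (Real.sqrt_nonneg _) _)) _ (by have := pr_pos k; positivity)
        apply Finset.sum_le_sum
        intro t _
        exact Real.rpow_le_rpow (Real.sqrt_nonneg _) (hle t) (pr_pos k).le
    _ = ‖((32 : ℝ) / 9) • z‖ := by
        rw [norm_blockR]
        congr 1
        apply Finset.sum_congr rfl
        intro t _
        rw [PiLp.smul_apply, smul_eq_mul, Real.norm_of_nonneg (by have := hz0 t; positivity)]
    _ = (32 / 9) * ‖z‖ := by rw [norm_smul, Real.norm_of_nonneg (by norm_num)]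
    _ ≤ _ := by gcongr

end Pool.Helper799.Te
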