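import Mathlib
import Pool.Agent.Helper799.TeBlock

set_option autoImplicit false

namespace Pool.Helper799.Te

open Finset

variable {𝕜 : Type} [RCLike 𝕜]

/-- squared norm of a combination of orthonormal vectors -/
theorem norm_sq_comb {H : Type} [NormedAddCommGroup H] [InnerProductSpace 𝕜 H]
    {κ : Type} [Fintype κ] (e : κ → H) (he : Orthonormal 𝕜 e) (c : κ → 𝕜) :
    ‖∑ i, c i • e i‖ ^ 2 = ∑ i, ‖c i‖ ^ 2 := by
  have h := he.inner_sum c c Finset.univ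
  rw [inner_self_eq_norm_sq_to_K] at h
  have h2 : ∑ i, (starRingEnd 𝕜) (c i) * c i = ((∑ i, ‖c i‖ ^ 2 : ℝ) : 𝕜) := by
    rw [RCLike.ofReal_sum]
    apply Finset.sum_congr rfl
    intro i _
    rw [RCLike.conj_mul, RCLike.ofReal_pow]
  rw [h2, ← RCLike.ofReal_pow] at h
  exact RCLike.ofReal_injective h

theorem norm_sign_comb {H : Type} [NormedAddCommGroup H] [InnerProductSpace 𝕜 H]
    {κ : Type} [Fintype κ] (e : κ → H) (he : Orthonormal 𝕜 e) (ε : κ → Bool) :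
    ‖∑ i, ((sb (ε i) : ℝ) : 𝕜) • e i‖ = Real.sqrt (Fintype.card κ) := by
  have h := norm_sq_comb e he (fun i => ((sb (ε i) : ℝ) : 𝕜))
  have h2 : ∑ i, ‖((sb (ε i) : ℝ) : 𝕜)‖ ^ 2 = (Fintype.card κ : ℝ) := by
    have : ∀ i, ‖((sb (ε i) : ℝ) : 𝕜)‖ ^ 2 = 1 := by
      intro i
      rw [RCLike.norm_ofReal, abs_sb]; norm_num
    simp only [this]
    simp
  rw [h2] at h
  rw [← h, Real.sqrt_sq (norm_nonneg _)]

section block

variable {I : Type} [Fintype I] [DecidableEq I]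

/-- unit vectors of a block -/
noncomputable def dl (k : ℕ) (t : I) : PiLp (pe k) (fun _ : I => 𝕜) :=
  WithLp.toLp (pe k) (Pi.single t 1)

theorem sum_dl (k : ℕ) (g : PiLp (pe k) (fun _ : I => 𝕜)) : g = ∑ t, g t • dl k t := by
  ext s
  rw [WithLp.ofLp_sum, Finset.sum_apply]
  simp only [dl, PiLp.smul_apply, smul_eq_mul]
  rw [Finset.sum_eq_single s]
  · simp
  · intro t _ hts
    rw [Pi.single_apply, if_neg (fun h => hts h.symm), mul_zero]
  · intro h; exact absurd (Finset.mem_univ s) h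

theorem block_trace {H : Type} [NormedAddCommGroup H] [InnerProductSpace 𝕜 H] (k m' : ℕ)
    (e : Fin m' → H) (he : Orthonormal 𝕜 e)
    (G : H →L[𝕜] PiLp (pe k) (fun _ : I => 𝕜)) (L : PiLp (pe k) (fun _ : I => 𝕜) →L[𝕜] H)
    (S : Finset (EuclideanSpace 𝕜 (Fin m'))) (hS1 : ∀ y ∈ S, ‖y‖ ≤ 1)
    (hS2 : ∀ b : EuclideanSpace 𝕜 (Fin m'), ∃ y ∈ S, ‖b‖ ≤ 2 * ‖inner 𝕜 y b‖)
    (hS3 : S.card ≤ 2 ^ (2 * k + 2)) :
    ‖∑ i, inner 𝕜 (e i) (L (G (e i)))‖ ≤
      ((32 / 9) * Av (fun ε : Fin m' → Bool => ‖G (∑ i, ((sb (ε i) : ℝ) : 𝕜) • e i)‖)) *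
        (4 * ‖L‖) := by
  classical
  -- expansion
  have h1 : ∀ i, inner 𝕜 (e i) (L (G (e i))) =
      ∑ t, (G (e i)) t * inner 𝕜 (e i) (L (dl k t)) := by
    intro i
    conv_lhs => rw [sum_dl k (G (e i))]
    rw [map_sum, inner_sum]
    apply Finset.sum_congr rfl
    intro t _
    rw [map_smul, inner_smul_right]
  have h2 : ‖∑ i, inner 𝕜 (e i) (L (G (e i)))‖ ≤
      ∑ t, Real.sqrt (∑ i, ‖(G (e i)) t‖ ^ 2) *
        Real.sqrt (∑ i, ‖inner 𝕜 (e i) (L (dl k t))‖ ^ 2) := by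
    rw [Finset.sum_congr rfl (fun i _ => h1 i), Finset.sum_comm]
    refine (norm_sum_le _ _).trans (Finset.sum_le_sum (fun t _ => ?_))
    refine (norm_sum_le _ _).trans ?_
    rw [Finset.sum_congr rfl (fun i _ => norm_mul _ _)]
    exact Real.sum_mul_le_sqrt_mul_sqrt _ _ _
  -- the `ℓ_q` bound
  have h3 : ∑ t, (Real.sqrt (∑ i, ‖inner 𝕜 (e i) (L (dl k t))‖ ^ 2)) ^ (2 * k + 2) ≤
      (4 * ‖L‖) ^ (2 * k + 2) := by
    let b : I → EuclideanSpace 𝕜 (Fin m') := fun t =>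
      WithLp.toLp 2 (fun i => inner 𝕜 (e i) (L (dl k t)))
    have hb : ∀ t, Real.sqrt (∑ i, ‖inner 𝕜 (e i) (L (dl k t))‖ ^ 2) = ‖b t‖ := by
      intro t
      rw [EuclideanSpace.norm_eq]
    have hy : ∀ y ∈ S, ∑ t, ‖inner 𝕜 y (b t)‖ ^ (2 * k + 2) ≤ ‖L‖ ^ (2 * k + 2) := by
      intro y hyS
      have hin : ∀ t, inner 𝕜 y (b t) = inner 𝕜 (∑ i, y i • e i) (L (dl k t)) := by
        intro t
        rw [sum_inner, PiLp.inner_apply]
        apply Finset.sum_congr rfl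
        intro i _
        rw [inner_smul_left]
        simp only [b, RCLike.inner_apply]
        ring
      have hv : ‖∑ i, y i • e i‖ ≤ 1 := by
        have e1 := norm_sq_comb e he (fun i => y i)
        have e2 : ∑ i, ‖y i‖ ^ 2 = ‖y‖ ^ 2 := by
          rw [EuclideanSpace.norm_sq_eq]
        rw [e2] at e1
        have e3 : ‖∑ i, y i • e i‖ = ‖y‖ := by
          have := congrArg Real.sqrt e1
          rwa [Real.sqrt_sq (norm_nonneg _), Real.sqrt_sq (norm_nonneg _)] at this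
        rw [e3]; exact hS1 y hyS
      rw [Finset.sum_congr rfl (fun t _ => by rw [hin t])]
      apply dualq k (fun t => inner 𝕜 (∑ i, y i • e i) (L (dl k t))) ‖L‖ (norm_nonneg _)
      intro g
      have e1 : ∑ t, g t * inner 𝕜 (∑ i, y i • e i) (L (dl k t)) =
          inner 𝕜 (∑ i, y i • e i) (L g) := by
        conv_rhs => rw [sum_dl k g]
        rw [map_sum, inner_sum]
        apply Finset.sum_congr rfl
        intro t _
        rw [map_smul, inner_smul_right]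
      rw [e1]
      calc ‖inner 𝕜 (∑ i, y i • e i) (L g)‖ ≤ ‖∑ i, y i • e i‖ * ‖L g‖ := norm_inner_le_norm _ _
        _ ≤ 1 * (‖L‖ * ‖g‖) := by
            gcongr
            exact L.le_opNorm g
        _ = ‖L‖ * ‖g‖ := one_mul _
    have hbt : ∀ t, ‖b t‖ ^ (2 * k + 2) ≤
        2 ^ (2 * k + 2) * ∑ y ∈ S, ‖inner 𝕜 y (b t)‖ ^ (2 * k + 2) := by
      intro t
      obtain ⟨y, hyS, hyb⟩ := hS2 (b t)
      calc ‖b t‖ ^ (2 * k + 2) ≤ (2 * ‖inner 𝕜 y (b t)‖) ^ (2 * k + 2) :=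
            pow_le_pow_left₀ (norm_nonneg _) hyb _
        _ = 2 ^ (2 * k + 2) * ‖inner 𝕜 y (b t)‖ ^ (2 * k + 2) := mul_pow _ _ _
        _ ≤ _ := by
            apply mul_le_mul_of_nonneg_left _ (by positivity)
            exact Finset.single_le_sum (f := fun y => ‖inner 𝕜 y (b t)‖ ^ (2 * k + 2))
              (fun y _ => by positivity) hyS
    calc ∑ t, (Real.sqrt (∑ i, ‖inner 𝕜 (e i) (L (dl k t))‖ ^ 2)) ^ (2 * k + 2)
        = ∑ t, ‖b t‖ ^ (2 * k + 2) := Finset.sum_congr rfl (fun t _ => by rw [hb t])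
      _ ≤ ∑ t, 2 ^ (2 * k + 2) * ∑ y ∈ S, ‖inner 𝕜 y (b t)‖ ^ (2 * k + 2) :=
          Finset.sum_le_sum (fun t _ => hbt t)
      _ = 2 ^ (2 * k + 2) * ∑ y ∈ S, ∑ t, ‖inner 𝕜 y (b t)‖ ^ (2 * k + 2) := by
          rw [← Finset.mul_sum, Finset.sum_comm]
      _ ≤ 2 ^ (2 * k + 2) * ∑ y ∈ S, ‖L‖ ^ (2 * k + 2) := by
          apply mul_le_mul_of_nonneg_left _ (by positivity)
          exact Finset.sum_le_sum hy
      _ = 2 ^ (2 * k + 2) * ((S.card : ℝ) * ‖L‖ ^ (2 * k + 2)) := by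
          rw [Finset.sum_const, nsmul_eq_mul]
      _ ≤ 2 ^ (2 * k + 2) * ((2 : ℝ) ^ (2 * k + 2) * ‖L‖ ^ (2 * k + 2)) := by
          have : (S.card : ℝ) ≤ (2 : ℝ) ^ (2 * k + 2) := by exact_mod_cast hS3
          gcongr
      _ = (4 * ‖L‖) ^ (2 * k + 2) := by
          rw [mul_pow, ← mul_assoc, ← mul_pow]; norm_num
  have h4 := holder_block k (fun t => Real.sqrt (∑ i, ‖(G (e i)) t‖ ^ 2))
    (fun t => Real.sqrt (∑ i, ‖inner 𝕜 (e i) (L (dl k t))‖ ^ 2)) (fun t => Real.sqrt_nonneg _)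
    (fun t => Real.sqrt_nonneg _) (4 * ‖L‖) (by positivity) h3
  have h5 := square_block k (fun i => G (e i))
  refine h2.trans (h4.trans ?_)
  apply mul_le_mul_of_nonneg_right _ (by positivity)
  refine h5.trans (le_of_eq ?_)
  congr 2
  funext ε
  rw [map_sum]
  congr 1
  apply Finset.sum_congr rfl
  intro i _
  rw [map_smul]

end block

/-- blocks -/
abbrev Blk (𝕜 : Type) [RCLike 𝕜] (k : ℕ → ℕ) (I : ℕ → Type) [∀ j, Fintype (I j)] (j : ℕ) : Type :=
  PiLp (pe (k j)) (fun _ : I j => 𝕜)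

/-- the `ℓ_1`-sum of the blocks -/
abbrev XX (𝕜 : Type) [RCLike 𝕜] (k : ℕ → ℕ) (I : ℕ → Type) [∀ j, Fintype (I j)] : Type :=
  lp (fun j => Blk 𝕜 k I j) 1

section main

variable (k : ℕ → ℕ) (I : ℕ → Type) [∀ j, Fintype (I j)] [∀ j, DecidableEq (I j)]

theorem low {H : Type} [NormedAddCommGroup H] [InnerProductSpace 𝕜 H] [FiniteDimensional 𝕜 H]
    (m J : ℕ) (hm : Module.finrank 𝕜 H = m) (hJ : 2 * ∑ j ∈ Finset.range J, Fintype.card (I j) ≤ m)
    (hnet : ∀ m' ≤ m, ∃ S : Finset (EuclideanSpace 𝕜 (Fin m')), (∀ y ∈ S, ‖y‖ ≤ 1) ∧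
      (∀ b : EuclideanSpace 𝕜 (Fin m'), ∃ y ∈ S, ‖b‖ ≤ 2 * ‖inner 𝕜 y b‖) ∧
      ∀ j, J ≤ j → S.card ≤ 2 ^ (2 * k j + 2))
    (A : H →L[𝕜] XX 𝕜 k I) (B : XX 𝕜 k I →L[𝕜] H)
    (hBA : ∀ x, B (A x) = x) : Real.sqrt m ≤ 21 * (‖A‖ * ‖B‖) := by
  classical
  -- the common kernel of the first components
  let Φ : H →ₗ[𝕜] (∀ j : Fin J, Blk 𝕜 k I j) :=
    LinearMap.pi (fun j => ((lp.evalCLM 𝕜 (fun j => Blk 𝕜 k I j) 1 (j : ℕ)).comp A).toLinearMap)
  obtain ⟨W, hW⟩ : ∃ W : Submodule 𝕜 H, W = LinearMap.ker Φ := ⟨_, rfl⟩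
  have hrank : m ≤ 2 * Module.finrank 𝕜 W := by
    have h1 := LinearMap.finrank_range_add_finrank_ker Φ
    have h2 : Module.finrank 𝕜 (LinearMap.range Φ) ≤ ∑ j : Fin J, Fintype.card (I j) := by
      refine (Submodule.finrank_le _).trans ?_
      rw [Module.finrank_pi_fintype]
      apply Finset.sum_le_sum
      intro j _
      have : Module.finrank 𝕜 (Blk 𝕜 k I j) = Fintype.card (I j) := by
        rw [LinearEquiv.finrank_eq (WithLp.linearEquiv (pe (k j)) 𝕜 (∀ _ : I j, 𝕜))]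
        rw [Module.finrank_fintype_fun_eq_card]
      rw [this]
    rw [Fin.sum_univ_eq_sum_range (fun j => Fintype.card (I j)) J] at h2
    rw [hm] at h1
    rw [hW]
    omega
  obtain ⟨m', hm'⟩ : ∃ m' : ℕ, Module.finrank 𝕜 W = m' := ⟨_, rfl⟩
  rw [hm'] at hrank
  have hm'm : m' ≤ m := by
    have := Submodule.finrank_le W
    rw [hm, hm'] at this
    exact this
  obtain ⟨S, hS1, hS2, hS3⟩ := hnet m' hm'm
  let bs := (stdOrthonormalBasis 𝕜 W).reindex (finCongr hm')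
  let e : Fin m' → H := fun i => (bs i : H)
  have he : Orthonormal 𝕜 e := bs.orthonormal.comp_linearIsometry W.subtypeₗᵢ
  have heW : ∀ i (j : ℕ), j < J → (A (e i)) j = 0 := by
    intro i j hj
    have h1 : (e i) ∈ W := (bs i).2
    rw [hW, LinearMap.mem_ker] at h1
    exact congrFun h1 ⟨j, hj⟩
  -- the trace as a sum over blocks
  let T : ℕ → 𝕜 := fun j => ∑ i, inner 𝕜 (e i)
    (B (lp.singleContinuousLinearMap 𝕜 (fun j => Blk 𝕜 k I j) 1 j ((A (e i)) j)))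
  have hT : HasSum T (m' : 𝕜) := by
    have h1 : ∀ i ∈ (Finset.univ : Finset (Fin m')), HasSum (fun j => inner 𝕜 (e i)
        (B (lp.singleContinuousLinearMap 𝕜 (fun j => Blk 𝕜 k I j) 1 j ((A (e i)) j))))
        (inner 𝕜 (e i) (B (A (e i)))) := by
      intro i _
      have h2 := lp.hasSum_single (p := 1) (by norm_num) (A (e i))
      have h3 := h2.mapL B
      have h4 := h3.mapL (innerSL 𝕜 (e i))
      exact h4
    have h5 := hasSum_sum h1
    have h6 : ∑ i, inner 𝕜 (e i) (B (A (e i))) = (m' : 𝕜) := by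
      have : ∀ i, inner 𝕜 (e i) (B (A (e i))) = (1 : 𝕜) := by
        intro i
        rw [hBA, inner_self_eq_norm_sq_to_K, he.1 i]
        simp
      rw [Finset.sum_congr rfl (fun i _ => this i)]
      simp
    rw [h6] at h5
    exact h5
  have hTj : ∀ j, ‖T j‖ ≤ ((32 / 9) *
      Av (fun ε : Fin m' → Bool => ‖(A (∑ i, ((sb (ε i) : ℝ) : 𝕜) • e i)) j‖)) * (4 * ‖B‖) := by
    intro j
    by_cases hj : j < J
    · have : T j = 0 := by
        simp only [T]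
        apply Finset.sum_eq_zero
        intro i _
        rw [heW i j hj, map_zero, map_zero, inner_zero_right]
      rw [this, norm_zero]
      have := Av_nonneg (f := fun ε : Fin m' → Bool =>
        ‖(A (∑ i, ((sb (ε i) : ℝ) : 𝕜) • e i)) j‖) (fun ε => norm_nonneg _)
      positivity
    · have h1 := block_trace (k j) m' e he
        ((lp.evalCLM 𝕜 (fun j => Blk 𝕜 k I j) 1 j).comp A)
        (B.comp (lp.singleContinuousLinearMap 𝕜 (fun j => Blk 𝕜 k I j) 1 j)) S hS1 hS2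
        (hS3 j (by omega))
      have h2 : ‖B.comp (lp.singleContinuousLinearMap 𝕜 (fun j => Blk 𝕜 k I j) 1 j)‖ ≤ ‖B‖ := by
        apply ContinuousLinearMap.opNorm_le_bound _ (norm_nonneg _)
        intro x
        rw [ContinuousLinearMap.comp_apply]
        refine (B.le_opNorm _).trans ?_
        gcongr
        rw [lp.singleContinuousLinearMap_apply, lp.norm_single (by norm_num)]
      have h3 := Av_nonneg (f := fun ε : Fin m' → Bool =>
        ‖(A (∑ i, ((sb (ε i) : ℝ) : 𝕜) • e i)) j‖) (fun ε => norm_nonneg _)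
      refine (le_of_eq rfl).trans (h1.trans ?_)
      apply mul_le_mul_of_nonneg_left _ _
      · linarith
      · exact mul_nonneg (by norm_num) h3
  have hpart : ∀ F : Finset ℕ, ‖∑ j ∈ F, T j‖ ≤ (128 / 9) * (‖A‖ * ‖B‖) * Real.sqrt m' := by
    intro F
    calc ‖∑ j ∈ F, T j‖ ≤ ∑ j ∈ F, ‖T j‖ := norm_sum_le _ _
      _ ≤ ∑ j ∈ F, ((32 / 9) *
          Av (fun ε : Fin m' → Bool => ‖(A (∑ i, ((sb (ε i) : ℝ) : 𝕜) • e i)) j‖)) * (4 * ‖B‖) :=
          Finset.sum_le_sum (fun j _ => hTj j)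
      _ = (32 / 9) * (4 * ‖B‖) * Av (fun ε : Fin m' → Bool =>
          ∑ j ∈ F, ‖(A (∑ i, ((sb (ε i) : ℝ) : 𝕜) • e i)) j‖) := by
          rw [Av_sum, Finset.mul_sum]
          apply Finset.sum_congr rfl
          intro j _; ring
      _ ≤ (32 / 9) * (4 * ‖B‖) * Av (fun _ : Fin m' → Bool => ‖A‖ * Real.sqrt m') := by
          apply mul_le_mul_of_nonneg_left _ (by positivity)
          apply Av_mono
          intro ε
          have h1 := lp.sum_rpow_le_norm_rpow (p := 1) (by norm_num)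
            (A (∑ i, ((sb (ε i) : ℝ) : 𝕜) • e i)) F
          simp only [ENNReal.toReal_one, Real.rpow_one] at h1
          refine h1.trans ((A.le_opNorm _).trans ?_)
          rw [norm_sign_comb e he ε, Fintype.card_fin]
      _ = (128 / 9) * (‖A‖ * ‖B‖) * Real.sqrt m' := by
          rw [Av_const]; ring
  have hfin : (m' : ℝ) ≤ (128 / 9) * (‖A‖ * ‖B‖) * Real.sqrt m' := by
    have h1 : Filter.Tendsto (fun F : Finset ℕ => ‖∑ j ∈ F, T j‖) Filter.atTop
        (nhds ‖(m' : 𝕜)‖) := hT.norm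
    have h2 := le_of_tendsto' h1 hpart
    rwa [RCLike.norm_natCast] at h2
  have hAB : 0 ≤ ‖A‖ * ‖B‖ := by positivity
  by_cases hz : m' = 0
  · have h0 : (m : ℝ) = 0 := by
      have : m = 0 := by omega
      exact_mod_cast this
    rw [h0, Real.sqrt_zero]; positivity
  have hpos : (0 : ℝ) < m' := by exact_mod_cast Nat.pos_of_ne_zero hz
  have hsq : Real.sqrt m' ≤ (128 / 9) * (‖A‖ * ‖B‖) := by
    have h1 : 0 < Real.sqrt m' := Real.sqrt_pos.2 hpos
    have h2 : Real.sqrt m' * Real.sqrt m' = m' := Real.mul_self_sqrt hpos.le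
    rw [← h2] at hfin
    have h3 : Real.sqrt (Real.sqrt m' * Real.sqrt m') = Real.sqrt m' := by rw [h2]
    rw [h3] at hfin
    exact le_of_mul_le_mul_right hfin h1
  have hmm : (m : ℝ) ≤ 2 * m' := by exact_mod_cast hrank
  calc Real.sqrt m ≤ Real.sqrt ((29 / 20 * Real.sqrt m') ^ 2) := by
        apply Real.sqrt_le_sqrt
        rw [mul_pow, Real.sq_sqrt hpos.le]
        nlinarith
    _ = 29 / 20 * Real.sqrt m' := Real.sqrt_sq (by positivity)
    _ ≤ 29 / 20 * ((128 / 9) * (‖A‖ * ‖B‖)) := by gcongr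
    _ ≤ 21 * (‖A‖ * ‖B‖) := by nlinarith

end main

end Pool.Helper799.Te
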