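import Mathlib
import Pool.Agent.Helper799.TeLow

set_option autoImplicit false

namespace Pool.Helper799.Te

open Finset

section moments

variable {ι : Type} [Fintype ι] [DecidableEq ι]

theorem Av_prod (f : ι → Bool → ℝ) :
    Av (fun ε : ι → Bool => ∏ i, f i (ε i)) = ∏ i, ((f i true + f i false) / 2) := by
  unfold Av
  have h1 : ∏ i, ∑ b : Bool, f i b = ∑ ε : ι → Bool, ∏ i, f i (ε i) := by
    rw [Finset.prod_univ_sum, Fintype.piFinset_univ]
  have h2 : ∏ i, ((f i true + f i false) / 2) = (∏ i, ∑ b : Bool, f i b) / 2 ^ Fintype.card ι := by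
    rw [Finset.prod_div_distrib, Finset.prod_const, Finset.card_univ]
    simp only [Fintype.sum_bool]
  rw [h2, h1]

theorem Av_exp_le (a : ι → ℝ) :
    Av (fun ε : ι → Bool => Real.exp (∑ i, sb (ε i) * a i)) ≤ Real.exp ((∑ i, a i ^ 2) / 2) := by
  have h1 : Av (fun ε : ι → Bool => Real.exp (∑ i, sb (ε i) * a i)) =
      ∏ i, ((Real.exp (sb true * a i) + Real.exp (sb false * a i)) / 2) := by
    rw [← Av_prod (fun i b => Real.exp (sb b * a i))]
    congr 1
    funext ε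
    rw [Real.exp_sum]
  rw [h1, Finset.sum_div, Real.exp_sum]
  apply Finset.prod_le_prod
  · intro i _; positivity
  · intro i _
    have : (Real.exp (sb true * a i) + Real.exp (sb false * a i)) / 2 = Real.cosh (a i) := by
      rw [Real.cosh_eq, sb_true, sb_false]; ring_nf
    rw [this]
    exact Real.cosh_le_exp_half_sq _

theorem Av_pow_le_one (q : ℕ) (a : ι → ℝ) (ha : ∑ i, a i ^ 2 ≤ 1) :
    Av (fun ε : ι → Bool => |∑ i, sb (ε i) * a i| ^ q) ≤ 4 * q.factorial := by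
  have h1 : ∀ ε : ι → Bool, |∑ i, sb (ε i) * a i| ^ q ≤ q.factorial *
      (Real.exp (∑ i, sb (ε i) * a i) + Real.exp (∑ i, sb (ε i) * (-a i))) := by
    intro ε
    set S := ∑ i, sb (ε i) * a i with hS
    have e1 : ∑ i, sb (ε i) * (-a i) = -S := by
      rw [hS, ← Finset.sum_neg_distrib]
      apply Finset.sum_congr rfl
      intro i _; ring
    rw [e1]
    have e2 := Real.pow_div_factorial_le_exp |S| (abs_nonneg S) q
    have e3 : Real.exp |S| ≤ Real.exp S + Real.exp (-S) := by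
      rcases abs_cases S with ⟨h, _⟩ | ⟨h, _⟩
      · rw [h]; have := Real.exp_pos (-S); linarith
      · rw [h]; have := Real.exp_pos S; linarith
    rw [div_le_iff₀ (by positivity)] at e2
    calc |S| ^ q ≤ Real.exp |S| * q.factorial := e2
      _ ≤ (Real.exp S + Real.exp (-S)) * q.factorial := by gcongr
      _ = _ := by ring
  have h2 := Av_exp_le a
  have h3 := Av_exp_le (fun i => -a i)
  have h4 : ∑ i, (-a i) ^ 2 = ∑ i, a i ^ 2 := by
    apply Finset.sum_congr rfl; intro i _; ring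
  rw [h4] at h3
  have h5 : Real.exp ((∑ i, a i ^ 2) / 2) ≤ 2 := by
    calc Real.exp ((∑ i, a i ^ 2) / 2) ≤ Real.exp (1 / 2) := by
          apply Real.exp_le_exp.2; linarith
      _ ≤ 2 := by
          have h6 : Real.exp (1 / 2) * Real.exp (1 / 2) = Real.exp 1 := by
            rw [← Real.exp_add]; norm_num
          have h7 := Real.exp_one_lt_d9
          have h8 := Real.exp_pos (1 / 2)
          nlinarith
  calc Av (fun ε : ι → Bool => |∑ i, sb (ε i) * a i| ^ q)
      ≤ Av (fun ε : ι → Bool => q.factorial *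
      (Real.exp (∑ i, sb (ε i) * a i) + Real.exp (∑ i, sb (ε i) * (-a i)))) := Av_mono h1
    _ = q.factorial * (Av (fun ε : ι → Bool => Real.exp (∑ i, sb (ε i) * a i)) +
        Av (fun ε : ι → Bool => Real.exp (∑ i, sb (ε i) * (-a i)))) := by
        rw [Av_mul, Av_add]
    _ ≤ q.factorial * (2 + 2) := by
        gcongr
        · exact h2.trans h5
        · exact h3.trans h5
    _ = 4 * q.factorial := by ring

/-- upper Khintchine inequality (real coefficients) -/
theorem Av_pow_le (q : ℕ) (a : ι → ℝ) :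
    Av (fun ε : ι → Bool => |∑ i, sb (ε i) * a i| ^ q) ≤
      4 * q.factorial * Real.sqrt (∑ i, a i ^ 2) ^ q := by
  set σ := Real.sqrt (∑ i, a i ^ 2) with hσ
  have hs : 0 ≤ ∑ i, a i ^ 2 := Finset.sum_nonneg fun i _ => sq_nonneg _
  have hσ2 : σ ^ 2 = ∑ i, a i ^ 2 := Real.sq_sqrt hs
  rcases (Real.sqrt_nonneg (∑ i, a i ^ 2)).eq_or_lt' with h0 | hpos
  · rw [← hσ] at h0
    have h1 : ∀ i, a i = 0 := by
      intro i
      have h2 : ∑ i, a i ^ 2 = 0 := by rw [← hσ2, h0]; ring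
      have h3 := (Finset.sum_eq_zero_iff_of_nonneg (fun i _ => sq_nonneg (a i))).1 h2 i
        (Finset.mem_univ i)
      exact pow_eq_zero_iff (two_ne_zero) |>.1 h3
    have h2 : ∀ ε : ι → Bool, |∑ i, sb (ε i) * a i| ^ q = (0 : ℝ) ^ q := by
      intro ε
      simp [h1]
    simp only [h2, Av_const]
    rw [h0]
    have : (0 : ℝ) ≤ 0 ^ q := by positivity
    have h3 : (1 : ℝ) ≤ q.factorial := by exact_mod_cast Nat.one_le_iff_ne_zero.2 (Nat.factorial_ne_zero q)
    nlinarith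
  · rw [← hσ] at hpos
    have h1 := Av_pow_le_one q (fun i => a i / σ) (by
      have : ∑ i, (a i / σ) ^ 2 = (∑ i, a i ^ 2) / σ ^ 2 := by
        rw [Finset.sum_div]
        apply Finset.sum_congr rfl; intro i _; rw [div_pow]
      rw [this, hσ2, div_self]
      rw [← hσ2]; positivity)
    have h2 : ∀ ε : ι → Bool, |∑ i, sb (ε i) * a i| ^ q =
        σ ^ q * |∑ i, sb (ε i) * (a i / σ)| ^ q := by
      intro ε
      rw [← mul_pow]
      congr 1
      have : ∑ i, sb (ε i) * a i = σ * ∑ i, sb (ε i) * (a i / σ) := by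
        rw [Finset.mul_sum]
        apply Finset.sum_congr rfl; intro i _; field_simp
      rw [this, abs_mul, abs_of_pos hpos]
    simp only [h2, Av_mul]
    calc σ ^ q * Av (fun ε : ι → Bool => |∑ i, sb (ε i) * (a i / σ)| ^ q)
        ≤ σ ^ q * (4 * q.factorial) := by gcongr
      _ = _ := by ring

omit [Fintype ι] [DecidableEq ι] in
theorem norm_le_re_im {𝕜 : Type} [RCLike 𝕜] (z : 𝕜) : ‖z‖ ≤ |RCLike.re z| + |RCLike.im z| := by
  have h1 : ‖z‖ ^ 2 = (RCLike.re z) ^ 2 + (RCLike.im z) ^ 2 := by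
    rw [← RCLike.normSq_eq_def', RCLike.normSq_apply]; ring
  have h2 := abs_nonneg (RCLike.re z)
  have h3 := abs_nonneg (RCLike.im z)
  apply le_of_sq_le_sq _ (by positivity)
  rw [h1, ← sq_abs (RCLike.re z), ← sq_abs (RCLike.im z)]
  nlinarith

/-- upper Khintchine inequality, real or complex coefficients -/
theorem Av_pow_leC {𝕜 : Type} [RCLike 𝕜] (q : ℕ) (c : ι → 𝕜) :
    Av (fun ε : ι → Bool => ‖∑ i, ((sb (ε i) : ℝ) : 𝕜) * c i‖ ^ q) ≤
      2 ^ q * (8 * q.factorial) * Real.sqrt (∑ i, ‖c i‖ ^ 2) ^ q := by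
  have hre : ∀ ε : ι → Bool, RCLike.re (∑ i, ((sb (ε i) : ℝ) : 𝕜) * c i) =
      ∑ i, sb (ε i) * RCLike.re (c i) := by
    intro ε
    rw [map_sum]
    apply Finset.sum_congr rfl
    intro i _
    rw [RCLike.re_ofReal_mul]
  have him : ∀ ε : ι → Bool, RCLike.im (∑ i, ((sb (ε i) : ℝ) : 𝕜) * c i) =
      ∑ i, sb (ε i) * RCLike.im (c i) := by
    intro ε
    rw [map_sum]
    apply Finset.sum_congr rfl
    intro i _
    rw [RCLike.im_ofReal_mul]
  have h1 : ∀ ε : ι → Bool, ‖∑ i, ((sb (ε i) : ℝ) : 𝕜) * c i‖ ^ q ≤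
      2 ^ (q - 1) * (|∑ i, sb (ε i) * RCLike.re (c i)| ^ q +
        |∑ i, sb (ε i) * RCLike.im (c i)| ^ q) := by
    intro ε
    rw [← hre, ← him]
    calc ‖∑ i, ((sb (ε i) : ℝ) : 𝕜) * c i‖ ^ q ≤
        (|RCLike.re (∑ i, ((sb (ε i) : ℝ) : 𝕜) * c i)| +
          |RCLike.im (∑ i, ((sb (ε i) : ℝ) : 𝕜) * c i)|) ^ q := by
          apply pow_le_pow_left₀ (norm_nonneg _)
          exact norm_le_re_im _
      _ ≤ _ := add_pow_le (abs_nonneg _) (abs_nonneg _) q
  have hsr : Real.sqrt (∑ i, RCLike.re (c i) ^ 2) ≤ Real.sqrt (∑ i, ‖c i‖ ^ 2) := by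
    apply Real.sqrt_le_sqrt
    apply Finset.sum_le_sum
    intro i _
    rw [← sq_abs (RCLike.re (c i))]
    have := RCLike.abs_re_le_norm (c i)
    gcongr
  have hsi : Real.sqrt (∑ i, RCLike.im (c i) ^ 2) ≤ Real.sqrt (∑ i, ‖c i‖ ^ 2) := by
    apply Real.sqrt_le_sqrt
    apply Finset.sum_le_sum
    intro i _
    rw [← sq_abs (RCLike.im (c i))]
    have := RCLike.abs_im_le_norm (c i)
    gcongr
  have h2 := Av_pow_le q (fun i => RCLike.re (c i))
  have h3 := Av_pow_le q (fun i => RCLike.im (c i))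
  set N := Real.sqrt (∑ i, ‖c i‖ ^ 2) with hN
  have hp1 : Real.sqrt (∑ i, RCLike.re (c i) ^ 2) ^ q ≤ N ^ q :=
    pow_le_pow_left₀ (Real.sqrt_nonneg _) hsr q
  have hp2 : Real.sqrt (∑ i, RCLike.im (c i) ^ 2) ^ q ≤ N ^ q :=
    pow_le_pow_left₀ (Real.sqrt_nonneg _) hsi q
  have hf : (0 : ℝ) ≤ 4 * q.factorial := by positivity
  calc Av (fun ε : ι → Bool => ‖∑ i, ((sb (ε i) : ℝ) : 𝕜) * c i‖ ^ q)
      ≤ Av (fun ε : ι → Bool => 2 ^ (q - 1) * (|∑ i, sb (ε i) * RCLike.re (c i)| ^ q +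
        |∑ i, sb (ε i) * RCLike.im (c i)| ^ q)) := Av_mono h1
    _ = 2 ^ (q - 1) * (Av (fun ε : ι → Bool => |∑ i, sb (ε i) * RCLike.re (c i)| ^ q) +
        Av (fun ε : ι → Bool => |∑ i, sb (ε i) * RCLike.im (c i)| ^ q)) := by
        rw [Av_mul, Av_add]
    _ ≤ 2 ^ (q - 1) * (4 * q.factorial * N ^ q + 4 * q.factorial * N ^ q) := by
        gcongr
        · exact h2.trans (by gcongr)
        · exact h3.trans (by gcongr)
    _ = 2 ^ (q - 1) * (8 * q.factorial * N ^ q) := by ring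
    _ ≤ 2 ^ q * (8 * q.factorial * N ^ q) := by
        apply mul_le_mul_of_nonneg_right _ (by positivity)
        exact pow_le_pow_right₀ (by norm_num) (by omega)
    _ = 2 ^ q * (8 * q.factorial) * N ^ q := by ring

end moments

end Pool.Helper799.Te
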