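import Mathlib
import Pool.Agent.Helper799.TeUp

set_option autoImplicit false

namespace Pool.Helper799.Te

open Finset

section flips

variable {ι : Type} [Fintype ι] [DecidableEq ι]

/-- flip one coordinate -/
def fl (i : ι) : (ι → Bool) ≃ (ι → Bool) where
  toFun ε := Function.update ε i (!ε i)
  invFun ε := Function.update ε i (!ε i)
  left_inv ε := by
    simp
  right_inv ε := by
    simp

omit [Fintype ι] in
theorem fl_self (i : ι) (ε : ι → Bool) : fl i ε i = !ε i := by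
  simp [fl]

omit [Fintype ι] in
theorem fl_ne {i j : ι} (h : j ≠ i) (ε : ι → Bool) : fl i ε j = ε j := by
  simp [fl, h]

theorem sum_sb_mul (i j : ι) :
    ∑ t : ι → Bool, sb (t i) * sb (t j) = if i = j then (2 : ℝ) ^ Fintype.card ι else 0 := by
  split_ifs with h
  · subst h
    simp only [sb_sq]
    rw [Finset.sum_const, Finset.card_univ, Fintype.card_fun, Fintype.card_bool, nsmul_eq_mul]
    push_cast; ring
  · have h1 : ∑ t : ι → Bool, sb (t i) * sb (t j) = ∑ t : ι → Bool, sb (fl i t i) * sb (fl i t j) :=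
      (Equiv.sum_comp (fl i) (fun t : ι → Bool => sb (t i) * sb (t j))).symm
    have h2 : ∀ t : ι → Bool, sb (fl i t i) * sb (fl i t j) = - (sb (t i) * sb (t j)) := by
      intro t
      rw [fl_self, fl_ne (fun h' => h h'.symm), sb_not]; ring
    rw [Finset.sum_congr rfl (fun t _ => h2 t), Finset.sum_neg_distrib] at h1
    linarith

theorem Av_sq (a : ι → ℝ) : Av (fun t : ι → Bool => (∑ i, sb (t i) * a i) ^ 2) = ∑ i, a i ^ 2 := by
  unfold Av
  have h1 : ∀ t : ι → Bool, (∑ i, sb (t i) * a i) ^ 2 =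
      ∑ i, ∑ j, (a i * a j) * (sb (t i) * sb (t j)) := by
    intro t
    rw [sq, Finset.sum_mul_sum]
    apply Finset.sum_congr rfl; intro i _
    apply Finset.sum_congr rfl; intro j _
    ring
  rw [Finset.sum_congr rfl (fun t _ => h1 t), Finset.sum_comm]
  have h2 : ∀ i, ∑ t : ι → Bool, ∑ j, (a i * a j) * (sb (t i) * sb (t j)) =
      2 ^ Fintype.card ι * a i ^ 2 := by
    intro i
    rw [Finset.sum_comm]
    simp only [← Finset.mul_sum, sum_sb_mul]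
    rw [Finset.sum_eq_single i]
    · rw [if_pos rfl]; ring
    · intro j _ hj; rw [if_neg (fun h => hj h.symm), mul_zero]
    · intro h; exact absurd (Finset.mem_univ i) h
  rw [Finset.sum_congr rfl (fun i _ => h2 i), ← Finset.mul_sum]
  field_simp

theorem Av_sqC {𝕜 : Type} [RCLike 𝕜] (c : ι → 𝕜) :
    Av (fun t : ι → Bool => ‖∑ i, ((sb (t i) : ℝ) : 𝕜) * c i‖ ^ 2) = ∑ i, ‖c i‖ ^ 2 := by
  have hn : ∀ z : 𝕜, ‖z‖ ^ 2 = (RCLike.re z) ^ 2 + (RCLike.im z) ^ 2 := by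
    intro z
    rw [← RCLike.normSq_eq_def', RCLike.normSq_apply]; ring
  have hre : ∀ ε : ι → Bool, RCLike.re (∑ i, ((sb (ε i) : ℝ) : 𝕜) * c i) =
      ∑ i, sb (ε i) * RCLike.re (c i) := by
    intro ε
    rw [map_sum]
    apply Finset.sum_congr rfl
    intro i _
    rw [RCLike.re_ofReal_mul]
  have him : ∀ ε : ι → Bool, RCLike.im (∑ i, ((sb (ε i) : ℝ) : 𝕜) * c i) =
      ∑ i, sb (ε i) * RCLike.im (c i) := by
    intro ε
    rw [map_sum]
    apply Finset.sum_congr rfl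
    intro i _
    rw [RCLike.im_ofReal_mul]
  simp only [hn, hre, him]
  rw [Av_add, Av_sq, Av_sq, Finset.sum_add_distrib]

end flips

section embed

variable (𝕜 : Type) [RCLike 𝕜] (k n : ℕ)

theorem pr_le_two (k : ℕ) : pr k ≤ 2 := by
  unfold pr
  rw [div_le_iff₀ (by positivity)]
  have : (0 : ℝ) ≤ k := Nat.cast_nonneg k
  linarith

/-- the Rademacher embedding of `ℓ_2^n` -/
noncomputable def Alin : EuclideanSpace 𝕜 (Fin n) →ₗ[𝕜] PiLp (pe k) (fun _ : Fin n → Bool => 𝕜) where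
  toFun x := WithLp.toLp (pe k) (fun t => ((((2 : ℝ) ^ n) ^ (-(1 / pr k)) : ℝ) : 𝕜) *
    ∑ i, ((sb (t i) : ℝ) : 𝕜) * x i)
  map_add' x y := by
    ext t
    simp only [PiLp.add_apply]
    rw [← mul_add, ← Finset.sum_add_distrib]
    congr 1
    apply Finset.sum_congr rfl; intro i _; ring
  map_smul' c x := by
    ext t
    simp only [PiLp.smul_apply, smul_eq_mul, RingHom.id_apply]
    have : ∑ i, ((sb (t i) : ℝ) : 𝕜) * (c * x i) = c * ∑ i, ((sb (t i) : ℝ) : 𝕜) * x i := by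
      rw [Finset.mul_sum]
      apply Finset.sum_congr rfl; intro i _; ring
    rw [this]; ring

theorem Alin_apply (x : EuclideanSpace 𝕜 (Fin n)) (t : Fin n → Bool) :
    (Alin 𝕜 k n x) t = ((((2 : ℝ) ^ n) ^ (-(1 / pr k)) : ℝ) : 𝕜) *
      ∑ i, ((sb (t i) : ℝ) : 𝕜) * x i := rfl

theorem Alin_bound (x : EuclideanSpace 𝕜 (Fin n)) : ‖Alin 𝕜 k n x‖ ≤ 1 * ‖x‖ := by
  rw [one_mul, norm_block]
  set S : (Fin n → Bool) → ℝ := fun t => ‖∑ i, ((sb (t i) : ℝ) : 𝕜) * x i‖ with hS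
  have hp := pr_pos k
  have hc : (0 : ℝ) < ((2 : ℝ) ^ n) ^ (-(1 / pr k)) := by positivity
  have h1 : ∑ t, ‖(Alin 𝕜 k n x) t‖ ^ (pr k) = ∑ t, (1 / 2 ^ n : ℝ) * S t ^ (pr k) := by
    apply Finset.sum_congr rfl
    intro t _
    rw [Alin_apply, norm_mul, RCLike.norm_ofReal, abs_of_pos hc, Real.mul_rpow hc.le (norm_nonneg _)]
    congr 1
    rw [← Real.rpow_mul (by positivity)]
    have : -(1 / pr k) * pr k = -1 := by field_simp
    rw [this, Real.rpow_neg_one, one_div]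
  have h2 : (∑ t, (1 / 2 ^ n : ℝ) * S t ^ (pr k)) ^ (2 / pr k) ≤
      ∑ t, (1 / 2 ^ n : ℝ) * (S t ^ (pr k)) ^ (2 / pr k) := by
    apply Real.rpow_arith_mean_le_arith_mean_rpow
    · intro t _; positivity
    · rw [Finset.sum_const, Finset.card_univ, Fintype.card_fun, Fintype.card_bool, Fintype.card_fin,
        nsmul_eq_mul]
      push_cast; field_simp
    · intro t _
      exact Real.rpow_nonneg (norm_nonneg _) _
    · rw [le_div_iff₀ hp, one_mul]; exact pr_le_two k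
  have h3 : ∑ t, (1 / 2 ^ n : ℝ) * (S t ^ (pr k)) ^ (2 / pr k) = ‖x‖ ^ 2 := by
    have e1 : ∀ t, (S t ^ (pr k)) ^ (2 / pr k) = S t ^ 2 := by
      intro t
      rw [← Real.rpow_mul (norm_nonneg _)]
      have : pr k * (2 / pr k) = ((2 : ℕ) : ℝ) := by field_simp; norm_num
      rw [this, Real.rpow_natCast]
    simp only [e1]
    rw [← Finset.mul_sum]
    have e2 := Av_sqC (fun i => x i)
    unfold Av at e2
    rw [EuclideanSpace.norm_sq_eq, ← e2, Fintype.card_fin]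
    ring
  rw [h1]
  have h4 : 0 ≤ ∑ t, (1 / 2 ^ n : ℝ) * S t ^ (pr k) :=
    Finset.sum_nonneg (fun t _ => mul_nonneg (by positivity) (Real.rpow_nonneg (norm_nonneg _) _))
  have h5 : ((∑ t, (1 / 2 ^ n : ℝ) * S t ^ (pr k)) ^ (1 / pr k)) ^ 2 ≤ ‖x‖ ^ 2 := by
    calc ((∑ t, (1 / 2 ^ n : ℝ) * S t ^ (pr k)) ^ (1 / pr k)) ^ 2
        = (∑ t, (1 / 2 ^ n : ℝ) * S t ^ (pr k)) ^ (2 / pr k) := by
          rw [← Real.rpow_natCast, ← Real.rpow_mul h4]
          congr 1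
          push_cast; ring
      _ ≤ ‖x‖ ^ 2 := by rw [← h3]; exact h2
  exact le_of_sq_le_sq h5 (norm_nonneg _)

/-- the Rademacher projection -/
noncomputable def Blin : PiLp (pe k) (fun _ : Fin n → Bool => 𝕜) →ₗ[𝕜] EuclideanSpace 𝕜 (Fin n) where
  toFun g := WithLp.toLp 2 (fun i => ((((2 : ℝ) ^ n) ^ (-(1 / ((2 * k + 2 : ℕ) : ℝ))) : ℝ) : 𝕜) *
    ∑ t, ((sb (t i) : ℝ) : 𝕜) * g t)
  map_add' x y := by
    ext i
    simp only [PiLp.add_apply]
    rw [← mul_add, ← Finset.sum_add_distrib]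
    congr 1
    apply Finset.sum_congr rfl; intro i _; ring
  map_smul' c x := by
    ext i
    simp only [PiLp.smul_apply, smul_eq_mul, RingHom.id_apply]
    have : ∑ t, ((sb (t i) : ℝ) : 𝕜) * (c * x t) = c * ∑ t, ((sb (t i) : ℝ) : 𝕜) * x t := by
      rw [Finset.mul_sum]
      apply Finset.sum_congr rfl; intro t _; ring
    rw [this]; ring

theorem Blin_apply (g : PiLp (pe k) (fun _ : Fin n → Bool => 𝕜)) (i : Fin n) :
    (Blin 𝕜 k n g) i = ((((2 : ℝ) ^ n) ^ (-(1 / ((2 * k + 2 : ℕ) : ℝ))) : ℝ) : 𝕜) *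
    ∑ t, ((sb (t i) : ℝ) : 𝕜) * g t := rfl

/-- cost constant -/
noncomputable def cU (k : ℕ) : ℝ := 16 * (2 * k + 2).factorial

theorem cU_pos (k : ℕ) : 0 < cU k := by
  unfold cU
  have := Nat.factorial_pos (2 * k + 2)
  positivity

theorem Blin_bound (g : PiLp (pe k) (fun _ : Fin n → Bool => 𝕜)) :
    ‖Blin 𝕜 k n g‖ ≤ cU k * ‖g‖ := by
  set y := Blin 𝕜 k n g with hy
  set q := 2 * k + 2 with hq
  set c2 : ℝ := ((2 : ℝ) ^ n) ^ (-(1 / (q : ℝ))) with hc2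
  have hc2p : 0 < c2 := by rw [hc2]; positivity
  set V : (Fin n → Bool) → ℝ := fun t => ‖∑ i, ((sb (t i) : ℝ) : 𝕜) * (starRingEnd 𝕜) (y i)‖ with hV
  set D : ℝ := ((2 : ℝ) ^ n) ^ (1 / (q : ℝ)) * (cU k * ‖y‖) with hD
  have hD0 : 0 ≤ D := by
    have := cU_pos k
    rw [hD]; positivity
  have h1 : ∑ t, V t ^ (2 * k + 2) ≤ D ^ (2 * k + 2) := by
    have e1 := Av_pow_leC q (fun i => (starRingEnd 𝕜) (y i))
    unfold Av at e1
    rw [div_le_iff₀ (by positivity), Fintype.card_fin] at e1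
    have e2 : Real.sqrt (∑ i, ‖(starRingEnd 𝕜) (y i)‖ ^ 2) = ‖y‖ := by
      rw [EuclideanSpace.norm_eq]
      congr 1
      apply Finset.sum_congr rfl
      intro i _; rw [RCLike.norm_conj]
    rw [e2] at e1
    refine e1.trans ?_
    have e3 : (((2 : ℝ) ^ n) ^ (1 / (q : ℝ))) ^ (2 * k + 2) = 2 ^ n := by
      rw [← Real.rpow_natCast (((2 : ℝ) ^ n) ^ (1 / (q : ℝ))) (2 * k + 2),
        ← Real.rpow_mul (by positivity), ← hq]
      have : 1 / (q : ℝ) * (q : ℝ) = 1 := by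
        have hq0 : (q : ℝ) ≠ 0 := by rw [hq]; positivity
        field_simp
      rw [this, Real.rpow_one]
    rw [hD, mul_pow, e3, mul_pow]
    have e4 : (2 : ℝ) ^ q * (8 * q.factorial) ≤ cU k ^ q := by
      have e5 : (8 : ℝ) * q.factorial ≤ (8 * q.factorial) ^ q := by
        have e6 : (1 : ℝ) ≤ 8 * q.factorial := by
          have : (1 : ℝ) ≤ q.factorial := by
            exact_mod_cast Nat.one_le_iff_ne_zero.2 (Nat.factorial_ne_zero q)
          linarith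
        calc (8 : ℝ) * q.factorial = (8 * q.factorial) ^ 1 := (pow_one _).symm
          _ ≤ _ := pow_le_pow_right₀ e6 (by omega)
      calc (2 : ℝ) ^ q * (8 * q.factorial) ≤ 2 ^ q * (8 * q.factorial) ^ q := by gcongr
        _ = cU k ^ q := by
            rw [← mul_pow]; congr 1; unfold cU; rw [← hq]; ring
    calc (2 : ℝ) ^ q * (8 * q.factorial) * ‖y‖ ^ q * 2 ^ n
        ≤ cU k ^ q * ‖y‖ ^ q * 2 ^ n := by gcongr
      _ = 2 ^ n * (cU k ^ q * ‖y‖ ^ q) := by ring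
      _ = _ := by rw [← hq]
  have h2 := holder_block k (fun t => ‖g t‖) V (fun t => norm_nonneg _) (fun t => norm_nonneg _)
    D hD0 h1
  rw [← norm_block] at h2
  -- `‖y‖^2`
  have h3 : ‖y‖ ^ 2 ≤ c2 * ∑ t, ‖g t‖ * V t := by
    have e1 : ((‖y‖ ^ 2 : ℝ) : 𝕜) = (c2 : 𝕜) * ∑ t, g t *
        ∑ i, ((sb (t i) : ℝ) : 𝕜) * (starRingEnd 𝕜) (y i) := by
      rw [EuclideanSpace.norm_sq_eq, RCLike.ofReal_sum]
      have e2 : ∀ i, ((‖y i‖ ^ 2 : ℝ) : 𝕜) = (c2 : 𝕜) * ∑ t, g t *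
          (((sb (t i) : ℝ) : 𝕜) * (starRingEnd 𝕜) (y i)) := by
        intro i
        rw [RCLike.ofReal_pow, ← RCLike.mul_conj]
        have e3 : y i = (c2 : 𝕜) * ∑ t, ((sb (t i) : ℝ) : 𝕜) * g t := by
          rw [hy, Blin_apply]
        conv_lhs => rw [show y i * (starRingEnd 𝕜) (y i) =
          ((c2 : 𝕜) * ∑ t, ((sb (t i) : ℝ) : 𝕜) * g t) * (starRingEnd 𝕜) (y i) from by rw [← e3]]
        rw [mul_assoc, Finset.sum_mul]
        congr 1
        apply Finset.sum_congr rfl; intro t _; ring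
      rw [Finset.sum_congr rfl (fun i _ => e2 i), ← Finset.mul_sum, Finset.sum_comm]
      congr 1
      apply Finset.sum_congr rfl; intro t _
      rw [Finset.mul_sum]
    calc ‖y‖ ^ 2 = ‖((‖y‖ ^ 2 : ℝ) : 𝕜)‖ := by
          rw [RCLike.norm_ofReal, abs_of_nonneg (by positivity)]
      _ = c2 * ‖∑ t, g t * ∑ i, ((sb (t i) : ℝ) : 𝕜) * (starRingEnd 𝕜) (y i)‖ := by
          rw [e1, norm_mul, RCLike.norm_ofReal, abs_of_pos hc2p]
      _ ≤ c2 * ∑ t, ‖g t‖ * V t := by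
          gcongr
          refine (norm_sum_le _ _).trans (Finset.sum_le_sum (fun t _ => ?_))
          rw [norm_mul]
  have h4 : c2 * D = cU k * ‖y‖ := by
    rw [hc2, hD, ← mul_assoc, ← Real.rpow_add (by positivity)]
    have : -(1 / (q : ℝ)) + 1 / (q : ℝ) = 0 := by ring
    rw [this, Real.rpow_zero, one_mul]
  have h5 : ‖y‖ ^ 2 ≤ (cU k * ‖g‖) * ‖y‖ := by
    calc ‖y‖ ^ 2 ≤ c2 * ∑ t, ‖g t‖ * V t := h3
      _ ≤ c2 * (‖g‖ * D) := by gcongr
      _ = ‖g‖ * (c2 * D) := by ring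
      _ = (cU k * ‖g‖) * ‖y‖ := by rw [h4]; ring
  rcases (norm_nonneg y).eq_or_lt' with h0 | hpos
  · rw [h0]
    have := cU_pos k
    positivity
  · rw [sq] at h5
    exact le_of_mul_le_mul_right h5 hpos

theorem BA_lin (x : EuclideanSpace 𝕜 (Fin n)) : Blin 𝕜 k n (Alin 𝕜 k n x) = x := by
  ext i
  rw [Blin_apply]
  simp only [Alin_apply]
  have h1 : ∑ t : Fin n → Bool, ((sb (t i) : ℝ) : 𝕜) *
      (((((2 : ℝ) ^ n) ^ (-(1 / pr k)) : ℝ) : 𝕜) * ∑ j, ((sb (t j) : ℝ) : 𝕜) * x j) =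
      ((((2 : ℝ) ^ n) ^ (-(1 / pr k)) : ℝ) : 𝕜) * (((2 : ℝ) ^ n : ℝ) : 𝕜) * x i := by
    have e1 : ∀ t : Fin n → Bool, ((sb (t i) : ℝ) : 𝕜) *
        (((((2 : ℝ) ^ n) ^ (-(1 / pr k)) : ℝ) : 𝕜) * ∑ j, ((sb (t j) : ℝ) : 𝕜) * x j) =
        ((((2 : ℝ) ^ n) ^ (-(1 / pr k)) : ℝ) : 𝕜) *
          ∑ j, (((sb (t i) * sb (t j) : ℝ)) : 𝕜) * x j := by
      intro t
      rw [mul_left_comm, Finset.mul_sum]
      congr 1
      apply Finset.sum_congr rfl; intro j _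
      rw [RCLike.ofReal_mul]; ring
    rw [Finset.sum_congr rfl (fun t _ => e1 t), ← Finset.mul_sum, Finset.sum_comm, mul_assoc]
    congr 1
    have e2 : ∀ j, ∑ t : Fin n → Bool, (((sb (t i) * sb (t j) : ℝ)) : 𝕜) * x j =
        ((if i = j then (2 : ℝ) ^ n else 0 : ℝ) : 𝕜) * x j := by
      intro j
      rw [← Finset.sum_mul, ← RCLike.ofReal_sum, sum_sb_mul, Fintype.card_fin]
    rw [Finset.sum_congr rfl (fun j _ => e2 j), Finset.sum_eq_single i]
    · rw [if_pos rfl]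
    · intro j _ hj; rw [if_neg (fun h => hj h.symm)]; simp
    · intro h; exact absurd (Finset.mem_univ i) h
  rw [h1, ← mul_assoc, ← mul_assoc, ← RCLike.ofReal_mul, ← RCLike.ofReal_mul]
  have h2 : ((2 : ℝ) ^ n) ^ (-(1 / ((2 * k + 2 : ℕ) : ℝ))) * ((2 : ℝ) ^ n) ^ (-(1 / pr k)) * (2 : ℝ) ^ n
      = 1 := by
    rw [← Real.rpow_add (by positivity)]
    have : -(1 / ((2 * k + 2 : ℕ) : ℝ)) + -(1 / pr k) = -1 := by
      unfold pr; push_cast; field_simp; ring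
    rw [this, Real.rpow_neg_one, inv_mul_cancel₀ (by positivity)]
  rw [h2, RCLike.ofReal_one, one_mul]

end embed

/-- the good factorization through the whole space -/
theorem exists_good (𝕜 : Type) [RCLike 𝕜] (k n : ℕ → ℕ) (j : ℕ) :
    ∃ (A : EuclideanSpace 𝕜 (Fin (n j)) →L[𝕜] XX 𝕜 k (fun j => Fin (n j) → Bool))
      (B : XX 𝕜 k (fun j => Fin (n j) → Bool) →L[𝕜] EuclideanSpace 𝕜 (Fin (n j))),
      (∀ x, B (A x) = x) ∧ ‖A‖ * ‖B‖ ≤ cU (k j) := by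
  classical
  let A0 := (Alin 𝕜 (k j) (n j)).mkContinuous 1 (Alin_bound 𝕜 (k j) (n j))
  let B0 := (Blin 𝕜 (k j) (n j)).mkContinuous (cU (k j)) (Blin_bound 𝕜 (k j) (n j))
  have hA0 : ‖A0‖ ≤ 1 := LinearMap.mkContinuous_norm_le _ zero_le_one _
  have hB0 : ‖B0‖ ≤ cU (k j) := LinearMap.mkContinuous_norm_le _ (cU_pos _).le _
  let sg := lp.singleContinuousLinearMap 𝕜 (fun j => Blk 𝕜 k (fun j => Fin (n j) → Bool) j) 1 j
  let ev := lp.evalCLM 𝕜 (fun j => Blk 𝕜 k (fun j => Fin (n j) → Bool) j) 1 j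
  refine ⟨sg.comp A0, B0.comp ev, ?_, ?_⟩
  · intro x
    have h1 : ev (sg (A0 x)) = A0 x :=
      lp.single_apply_self (E := fun j => Blk 𝕜 k (fun j => Fin (n j) → Bool) j) 1 j (A0 x)
    rw [ContinuousLinearMap.comp_apply, ContinuousLinearMap.comp_apply, h1]
    exact BA_lin 𝕜 (k j) (n j) x
  · have h1 : ‖sg.comp A0‖ ≤ 1 := by
      apply ContinuousLinearMap.opNorm_le_bound _ zero_le_one
      intro x
      rw [ContinuousLinearMap.comp_apply]
      have e1 : ‖sg (A0 x)‖ = ‖A0 x‖ :=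
        lp.norm_single (E := fun j => Blk 𝕜 k (fun j => Fin (n j) → Bool) j) (p := 1)
          (by norm_num) j (A0 x)
      rw [e1]
      refine (A0.le_opNorm x).trans ?_
      gcongr
    have h2 : ‖B0.comp ev‖ ≤ cU (k j) := by
      apply ContinuousLinearMap.opNorm_le_bound _ (cU_pos _).le
      intro x
      rw [ContinuousLinearMap.comp_apply]
      have h3 : ‖ev x‖ ≤ ‖x‖ := lp.norm_apply_le_norm (by norm_num) x j
      calc ‖B0 (ev x)‖ ≤ ‖B0‖ * ‖ev x‖ := B0.le_opNorm _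
        _ ≤ cU (k j) * ‖x‖ := mul_le_mul hB0 h3 (norm_nonneg _) (cU_pos _).le
    calc ‖sg.comp A0‖ * ‖B0.comp ev‖ ≤ 1 * cU (k j) := by gcongr
      _ = cU (k j) := one_mul _

end Pool.Helper799.Te
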