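import Mathlib
import Pool.Agent.Helper799.TeUp2

set_option autoImplicit false

namespace Pool.Helper799.Te

open Finset

theorem Av_cons {n : ℕ} (f : (Fin (n + 1) → Bool) → ℝ) :
    Av f = (Av (fun ε : Fin n → Bool => f (Fin.cons true ε)) +
      Av (fun ε : Fin n → Bool => f (Fin.cons false ε))) / 2 := by
  unfold Av
  have h : ∑ ε : Fin (n + 1) → Bool, f ε =
      ∑ b : Bool, ∑ ε : Fin n → Bool, f (Fin.cons b ε) := by
    rw [← Fintype.sum_prod_type']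
    exact (Equiv.sum_comp (Fin.consEquiv (fun _ : Fin (n + 1) => Bool)) f).symm
  rw [h, Fintype.sum_bool, Fintype.card_fin, Fintype.card_fin, pow_succ]
  field_simp

theorem fl_cons_zero {n : ℕ} (b : Bool) (ε : Fin n → Bool) :
    fl (0 : Fin (n + 1)) (Fin.cons b ε : Fin (n + 1) → Bool) = Fin.cons (!b) ε := by
  funext i
  refine Fin.cases ?_ (fun j => ?_) i
  · rw [fl_self]; simp
  · rw [fl_ne (Fin.succ_ne_zero j)]; simp

theorem fl_cons_succ {n : ℕ} (i : Fin n) (b : Bool) (ε : Fin n → Bool) :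
    fl i.succ (Fin.cons b ε : Fin (n + 1) → Bool) = Fin.cons b (fl i ε) := by
  funext l
  refine Fin.cases ?_ (fun j => ?_) l
  · rw [fl_ne (Fin.succ_ne_zero i).symm]; simp
  · by_cases h : j = i
    · subst h
      rw [fl_self]; simp [fl_self]
    · rw [fl_ne (fun h' => h (Fin.succ_injective _ h'))]
      simp [fl_ne h]

/-- discrete Poincaré inequality on `Fin n → Bool` -/
theorem poin_fin (n : ℕ) : ∀ f : (Fin n → Bool) → ℝ,
    Av (fun ε => f ε ^ 2) - (Av f) ^ 2 ≤ (1 / 4) * ∑ i, Av (fun ε => (f ε - f (fl i ε)) ^ 2) := by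
  induction n with
  | zero =>
    intro f
    have h : ∀ g : (Fin 0 → Bool) → ℝ, Av g = g (fun i => i.elim0) := by
      intro g
      unfold Av
      rw [Fintype.card_fin, pow_zero, div_one]
      rw [Fintype.sum_eq_single (fun i : Fin 0 => i.elim0)]
      intro x hx
      exact absurd (Subsingleton.elim _ _) hx
    rw [h, h]
    simp
  | succ n ih =>
    intro f
    have h1 := ih (fun ε => f (Fin.cons true ε))
    have h0 := ih (fun ε => f (Fin.cons false ε))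
    rw [Av_cons (fun ε => f ε ^ 2), Av_cons f, Fin.sum_univ_succ]
    rw [Av_cons (fun ε => (f ε - f (fl 0 ε)) ^ 2)]
    have e0 : ∑ i : Fin n, Av (fun ε : Fin (n + 1) → Bool => (f ε - f (fl i.succ ε)) ^ 2) =
        (∑ i : Fin n, Av (fun ε : Fin n → Bool =>
          (f (Fin.cons true ε) - f (Fin.cons true (fl i ε))) ^ 2) +
         ∑ i : Fin n, Av (fun ε : Fin n → Bool =>
          (f (Fin.cons false ε) - f (Fin.cons false (fl i ε))) ^ 2)) / 2 := by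
      rw [← Finset.sum_add_distrib, Finset.sum_div]
      apply Finset.sum_congr rfl
      intro i _
      rw [Av_cons (fun ε : Fin (n + 1) → Bool => (f ε - f (fl i.succ ε)) ^ 2)]
      simp only [fl_cons_succ]
    rw [e0]
    simp only [fl_cons_zero, Bool.not_true, Bool.not_false]
    have e1 : Av (fun ε : Fin n → Bool => (f (Fin.cons false ε) - f (Fin.cons true ε)) ^ 2) =
        Av (fun ε : Fin n → Bool => (f (Fin.cons true ε) - f (Fin.cons false ε)) ^ 2) := by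
      congr 1
      funext ε; ring
    rw [e1]
    have e2 : (Av (fun ε : Fin n → Bool => f (Fin.cons true ε)) -
        Av (fun ε : Fin n → Bool => f (Fin.cons false ε))) ^ 2 ≤
        Av (fun ε : Fin n → Bool => (f (Fin.cons true ε) - f (Fin.cons false ε)) ^ 2) := by
      rw [← Av_sub]
      set g : (Fin n → Bool) → ℝ := fun ε => f (Fin.cons true ε) - f (Fin.cons false ε) with hg
      have h3 : 0 ≤ Av (fun ε => (g ε - Av g) ^ 2) := Av_nonneg (fun ε => sq_nonneg _)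
      have h4 : (fun ε => (g ε - Av g) ^ 2) =
          fun ε => (g ε ^ 2 - (2 * Av g) * g ε) + (Av g) ^ 2 := by
        funext ε; ring
      rw [h4, Av_add, Av_sub, Av_mul, Av_const] at h3
      nlinarith
    nlinarith

section transport

variable {κ : Type} [Fintype κ] [DecidableEq κ]

theorem Av_equiv {κ' : Type} [Fintype κ'] [DecidableEq κ'] (e : κ ≃ κ') (f : (κ → Bool) → ℝ) :
    Av f = Av (fun ε : κ' → Bool => f (fun k => ε (e k))) := by
  unfold Av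
  rw [Fintype.card_congr e]
  congr 1
  let E : (κ' → Bool) ≃ (κ → Bool) := Equiv.arrowCongr e.symm (Equiv.refl Bool)
  rw [← Equiv.sum_comp E f]
  apply Finset.sum_congr rfl
  intro ε _
  congr 1

/-- discrete Poincaré inequality -/
theorem poin (f : (κ → Bool) → ℝ) :
    Av (fun ε => f ε ^ 2) - (Av f) ^ 2 ≤ (1 / 4) * ∑ i, Av (fun ε => (f ε - f (fl i ε)) ^ 2) := by
  let e : κ ≃ Fin (Fintype.card κ) := Fintype.equivFin κ
  have h := poin_fin _ (fun ε : Fin (Fintype.card κ) → Bool => f (fun k => ε (e k)))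
  rw [← Av_equiv e (fun ε => f ε ^ 2), ← Av_equiv e f] at h
  refine h.trans (le_of_eq ?_)
  congr 1
  rw [← Equiv.sum_comp e]
  apply Finset.sum_congr rfl
  intro i _
  rw [Av_equiv e (fun ε => (f ε - f (fl i ε)) ^ 2)]
  congr 1
  funext ε
  have : (fun k => fl (e i) ε (e k)) = fl i (fun k => ε (e k)) := by
    funext k
    by_cases h : k = i
    · subst h
      rw [fl_self, fl_self]
    · rw [fl_ne (fun h' => h (e.injective h')), fl_ne h]
  rw [this]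

end transport

section norms

variable {𝕜 : Type} [RCLike 𝕜] {X : Type} [NormedAddCommGroup X] [NormedSpace 𝕜 X]
variable {κ : Type} [Fintype κ] [DecidableEq κ]

/-- Bessel families: operators `ℓ_2 → X` of norm at most one -/
def Bes (𝕜 : Type) [RCLike 𝕜] {X : Type} [NormedAddCommGroup X] [NormedSpace 𝕜 X]
    {κ : Type} [Fintype κ] (y : κ → X) : Prop :=
  ∀ a : κ → 𝕜, ‖∑ i, a i • y i‖ ≤ Real.sqrt (∑ i, ‖a i‖ ^ 2)

/-- signed sum -/
noncomputable def ss (𝕜 : Type) [RCLike 𝕜] {X : Type} [NormedAddCommGroup X] [NormedSpace 𝕜 X]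
    {κ : Type} [Fintype κ] (y : κ → X) (ε : κ → Bool) : X := ∑ i, ((sb (ε i) : ℝ) : 𝕜) • y i

omit [DecidableEq κ] in
/-- functionals are square summable along Bessel families -/
theorem Bes.dual {y : κ → X} (hy : Bes 𝕜 y) (φ : X →L[𝕜] 𝕜) :
    ∑ i, ‖φ (y i)‖ ^ 2 ≤ ‖φ‖ ^ 2 := by
  set s := ∑ i, ‖φ (y i)‖ ^ 2 with hs
  have hs0 : 0 ≤ s := Finset.sum_nonneg (fun i _ => by positivity)
  have h1 := hy (fun i => (starRingEnd 𝕜) (φ (y i)))
  simp only [RCLike.norm_conj] at h1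
  rw [← hs] at h1
  have h2 : φ (∑ i, (starRingEnd 𝕜) (φ (y i)) • y i) = ((s : ℝ) : 𝕜) := by
    rw [map_sum, hs, RCLike.ofReal_sum]
    apply Finset.sum_congr rfl
    intro i _
    rw [map_smul, smul_eq_mul, RCLike.conj_mul, RCLike.ofReal_pow]
  have h3 : s ≤ ‖φ‖ * Real.sqrt s := by
    calc s = ‖φ (∑ i, (starRingEnd 𝕜) (φ (y i)) • y i)‖ := by
          rw [h2, RCLike.norm_ofReal, abs_of_nonneg hs0]
      _ ≤ ‖φ‖ * ‖∑ i, (starRingEnd 𝕜) (φ (y i)) • y i‖ := φ.le_opNorm _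
      _ ≤ ‖φ‖ * Real.sqrt s := by gcongr
  have h4 : Real.sqrt s * Real.sqrt s = s := Real.mul_self_sqrt hs0
  rcases (Real.sqrt_nonneg s).eq_or_lt' with h0 | hpos
  · rw [h0] at h4
    have h5 : 0 ≤ ‖φ‖ ^ 2 := by positivity
    linarith
  · have h5 : Real.sqrt s ≤ ‖φ‖ := by
      have : Real.sqrt s * Real.sqrt s ≤ ‖φ‖ * Real.sqrt s := by rw [h4]; exact h3
      exact le_of_mul_le_mul_right this hpos
    calc s = Real.sqrt s ^ 2 := by rw [sq, h4]
      _ ≤ ‖φ‖ ^ 2 := pow_le_pow_left₀ hpos.le h5 2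

theorem ss_fl (y : κ → X) (i : κ) (ε : κ → Bool) :
    ss 𝕜 y (fl i ε) = ss 𝕜 y ε - ((2 * sb (ε i) : ℝ) : 𝕜) • y i := by
  unfold ss
  rw [← Finset.add_sum_erase _ _ (Finset.mem_univ i), ← Finset.add_sum_erase _ (fun j =>
    ((sb (ε j) : ℝ) : 𝕜) • y j) (Finset.mem_univ i)]
  have h1 : ∑ j ∈ Finset.univ.erase i, ((sb (fl i ε j) : ℝ) : 𝕜) • y j =
      ∑ j ∈ Finset.univ.erase i, ((sb (ε j) : ℝ) : 𝕜) • y j := by
    apply Finset.sum_congr rfl
    intro j hj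
    rw [fl_ne (Finset.ne_of_mem_erase hj)]
  rw [h1, fl_self, sb_not]
  push_cast
  rw [mul_smul, neg_smul, two_smul]
  abel

/-- the positive parts of the discrete derivatives of a norm of a Bessel family -/
theorem grad_norm {y : κ → X} (hy : Bes 𝕜 y) (ε : κ → Bool) :
    ∑ i, (max (‖ss 𝕜 y ε‖ - ‖ss 𝕜 y (fl i ε)‖) 0) ^ 2 ≤ 4 := by
  obtain ⟨φ, hφ1, hφ2⟩ := exists_dual_vector'' 𝕜 (ss 𝕜 y ε)
  have h1 : ∀ i, (max (‖ss 𝕜 y ε‖ - ‖ss 𝕜 y (fl i ε)‖) 0) ^ 2 ≤ 4 * ‖φ (y i)‖ ^ 2 := by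
    intro i
    have h2 : ‖ss 𝕜 y ε‖ - ‖ss 𝕜 y (fl i ε)‖ ≤ 2 * ‖φ (y i)‖ := by
      have e1 : ‖ss 𝕜 y ε‖ = ‖φ (ss 𝕜 y ε)‖ := by
        rw [hφ2, RCLike.norm_ofReal, abs_of_nonneg (norm_nonneg _)]
      have e2 : ss 𝕜 y ε = ss 𝕜 y (fl i ε) + ((2 * sb (ε i) : ℝ) : 𝕜) • y i := by
        rw [ss_fl]; abel
      have e3 : ‖φ (ss 𝕜 y ε)‖ ≤ ‖φ (ss 𝕜 y (fl i ε))‖ + 2 * ‖φ (y i)‖ := by
        conv_lhs => rw [e2]
        rw [map_add, map_smul]
        refine (norm_add_le _ _).trans ?_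
        rw [norm_smul, RCLike.norm_ofReal, abs_mul, abs_sb]
        norm_num
      have e4 : ‖φ (ss 𝕜 y (fl i ε))‖ ≤ ‖ss 𝕜 y (fl i ε)‖ := by
        refine (φ.le_opNorm _).trans ?_
        calc ‖φ‖ * ‖ss 𝕜 y (fl i ε)‖ ≤ 1 * ‖ss 𝕜 y (fl i ε)‖ := by gcongr
          _ = _ := one_mul _
      linarith
    have h3 : max (‖ss 𝕜 y ε‖ - ‖ss 𝕜 y (fl i ε)‖) 0 ≤ 2 * ‖φ (y i)‖ :=
      max_le h2 (by positivity)
    calc (max (‖ss 𝕜 y ε‖ - ‖ss 𝕜 y (fl i ε)‖) 0) ^ 2 ≤ (2 * ‖φ (y i)‖) ^ 2 :=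
          pow_le_pow_left₀ (le_max_right _ _) h3 2
      _ = 4 * ‖φ (y i)‖ ^ 2 := by ring
  calc ∑ i, (max (‖ss 𝕜 y ε‖ - ‖ss 𝕜 y (fl i ε)‖) 0) ^ 2 ≤ ∑ i, 4 * ‖φ (y i)‖ ^ 2 :=
        Finset.sum_le_sum (fun i _ => h1 i)
    _ = 4 * ∑ i, ‖φ (y i)‖ ^ 2 := by rw [Finset.mul_sum]
    _ ≤ 4 * ‖φ‖ ^ 2 := by
        have := hy.dual φ
        linarith
    _ ≤ 4 * 1 ^ 2 := by gcongr
    _ = 4 := by norm_num

/-- variance of the norm of a random signed sum of a Bessel family -/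
theorem var_norm {y : κ → X} (hy : Bes 𝕜 y) :
    Av (fun ε => ‖ss 𝕜 y ε‖ ^ 2) - (Av (fun ε => ‖ss 𝕜 y ε‖)) ^ 2 ≤ 2 := by
  set f : (κ → Bool) → ℝ := fun ε => ‖ss 𝕜 y ε‖ with hf
  refine (poin f).trans ?_
  have h1 : ∀ i, Av (fun ε => (f ε - f (fl i ε)) ^ 2) =
      2 * Av (fun ε => (max (f ε - f (fl i ε)) 0) ^ 2) := by
    intro i
    have e1 : Av (fun ε => (max (f (fl i ε) - f ε) 0) ^ 2) =
        Av (fun ε => (max (f ε - f (fl i ε)) 0) ^ 2) := by
      rw [← Av_comp (fl i) (fun ε => (max (f ε - f (fl i ε)) 0) ^ 2)]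
      congr 1
      funext ε
      have : fl i (fl i ε) = ε := (fl i).symm_apply_apply ε
      rw [this]
    have e2 : (fun ε => (f ε - f (fl i ε)) ^ 2) = fun ε =>
        (max (f ε - f (fl i ε)) 0) ^ 2 + (max (f (fl i ε) - f ε) 0) ^ 2 := by
      funext ε
      rcases le_total (f ε) (f (fl i ε)) with h | h
      · rw [max_eq_right (by linarith : f ε - f (fl i ε) ≤ 0),
          max_eq_left (by linarith : 0 ≤ f (fl i ε) - f ε)]
        ring
      · rw [max_eq_left (by linarith : 0 ≤ f ε - f (fl i ε)),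
          max_eq_right (by linarith : f (fl i ε) - f ε ≤ 0)]
        ring
    rw [e2, Av_add, e1]; ring
  rw [Finset.sum_congr rfl (fun i _ => h1 i), ← Finset.mul_sum, ← Av_sum]
  have h2 : Av (fun ε => ∑ i, (max (f ε - f (fl i ε)) 0) ^ 2) ≤ 4 := by
    rw [← Av_const (ι := κ) 4]
    exact Av_mono (fun ε => grad_norm hy ε)
  linarith

end norms

end Pool.Helper799.Te
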