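import Mathlib
import Pool.Agent.Helper799.DvPoin

set_option autoImplicit false

namespace Pool.Helper799.Te

open Finset

variable {𝕜 : Type} [RCLike 𝕜]

section extremal

variable {F : Type} [NormedAddCommGroup F] [InnerProductSpace 𝕜 F] [FiniteDimensional 𝕜 F]
variable {E : Type} [NormedAddCommGroup E] [NormedSpace 𝕜 E] [FiniteDimensional 𝕜 E]

/-- an operator of norm at most one with maximal determinant -/
theorem exists_U (h : Module.finrank 𝕜 F = Module.finrank 𝕜 E) :
    ∃ U : F →L[𝕜] E, (∀ x, ‖U x‖ ≤ ‖x‖) ∧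
      ∀ D : F →ₗ[𝕜] F, (∀ x, ‖U (D x)‖ ≤ ‖x‖) → ‖LinearMap.det D‖ ≤ 1 := by
  classical
  let φ : F ≃L[𝕜] E := ContinuousLinearEquiv.ofFinrankEq h
  let K : Set (F →L[𝕜] F) := {u | ‖(φ : F →L[𝕜] E).comp u‖ ≤ 1}
  have : FiniteDimensional 𝕜 (F →L[𝕜] F) := inferInstance
  have : ProperSpace (F →L[𝕜] F) := FiniteDimensional.proper 𝕜 _
  have hKcl : IsClosed K := by
    apply isClosed_le _ continuous_const
    apply Continuous.norm
    exact (ContinuousLinearMap.compL 𝕜 F F E (φ : F →L[𝕜] E)).continuous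
  have hKbd : Bornology.IsBounded K := by
    rw [isBounded_iff_forall_norm_le]
    refine ⟨‖(φ.symm : E →L[𝕜] F)‖, ?_⟩
    intro u hu
    apply ContinuousLinearMap.opNorm_le_bound _ (norm_nonneg _)
    intro x
    have h1 : u x = (φ.symm : E →L[𝕜] F) ((φ : F →L[𝕜] E).comp u x) := by simp
    calc ‖u x‖ = ‖(φ.symm : E →L[𝕜] F) ((φ : F →L[𝕜] E).comp u x)‖ := by rw [← h1]
      _ ≤ ‖(φ.symm : E →L[𝕜] F)‖ * ‖(φ : F →L[𝕜] E).comp u x‖ :=
          ContinuousLinearMap.le_opNorm _ _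
      _ ≤ ‖(φ.symm : E →L[𝕜] F)‖ * (1 * ‖x‖) := by
          gcongr
          refine (ContinuousLinearMap.le_opNorm _ _).trans ?_
          gcongr
          exact hu
      _ = _ := by ring
  have hKc : IsCompact K := Metric.isCompact_of_isClosed_isBounded hKcl hKbd
  have hKne : K.Nonempty := ⟨0, by simp [K]⟩
  have hcont : Continuous (fun u : F →L[𝕜] F => ‖u.det‖) :=
    ContinuousLinearMap.continuous_det.norm
  obtain ⟨u, huK, hmax⟩ := hKc.exists_isMaxOn hKne hcont.continuousOn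
  -- the determinant is nonzero
  have hdet : 0 < ‖u.det‖ := by
    let c : ℝ := (‖(φ : F →L[𝕜] E)‖ + 1)⁻¹
    have hc : 0 < c := by positivity
    let w : F →L[𝕜] F := ((c : ℝ) : 𝕜) • ContinuousLinearMap.id 𝕜 F
    have hw : w ∈ K := by
      apply ContinuousLinearMap.opNorm_le_bound _ zero_le_one
      intro x
      simp only [w, ContinuousLinearMap.comp_apply, ContinuousLinearMap.smul_apply,
        ContinuousLinearMap.id_apply, map_smul]
      rw [norm_smul, RCLike.norm_ofReal, abs_of_pos hc]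
      calc c * ‖(φ : F →L[𝕜] E) x‖ ≤ c * (‖(φ : F →L[𝕜] E)‖ * ‖x‖) := by
            gcongr
            exact ContinuousLinearMap.le_opNorm _ _
        _ ≤ c * ((‖(φ : F →L[𝕜] E)‖ + 1) * ‖x‖) := by gcongr; linarith
        _ = 1 * ‖x‖ := by
            rw [← mul_assoc]
            congr 1
            exact inv_mul_cancel₀ (by positivity)
    have h1 := hmax hw
    simp only [Set.mem_ofPred_eq] at h1
    refine lt_of_lt_of_le ?_ h1
    have h2 : w.det = ((c : ℝ) : 𝕜) ^ Module.finrank 𝕜 F := by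
      change LinearMap.det (w : F →ₗ[𝕜] F) = _
      have : (w : F →ₗ[𝕜] F) = ((c : ℝ) : 𝕜) • LinearMap.id := rfl
      rw [this, LinearMap.det_smul, LinearMap.det_id, mul_one]
    rw [h2, norm_pow, RCLike.norm_ofReal, abs_of_pos hc]
    positivity
  refine ⟨(φ : F →L[𝕜] E).comp u, ?_, ?_⟩
  · intro x
    refine (ContinuousLinearMap.le_opNorm _ _).trans ?_
    calc ‖(φ : F →L[𝕜] E).comp u‖ * ‖x‖ ≤ 1 * ‖x‖ := by
          gcongr
          exact huK
      _ = ‖x‖ := one_mul _
  · intro D hD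
    let D' : F →L[𝕜] F := LinearMap.toContinuousLinearMap D
    have hmem : u.comp D' ∈ K := by
      apply ContinuousLinearMap.opNorm_le_bound _ zero_le_one
      intro x
      rw [one_mul]
      exact hD x
    have h1 := hmax hmem
    simp only [Set.mem_ofPred_eq] at h1
    have h2 : (u.comp D').det = u.det * LinearMap.det D := by
      change LinearMap.det ((u : F →ₗ[𝕜] F) * D) = _
      rw [map_mul]
    rw [h2, norm_mul] at h1
    have h3 : ‖u.det‖ * ‖LinearMap.det D‖ ≤ ‖u.det‖ * 1 := by linarith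
    exact le_of_mul_le_mul_left h3 hdet

/-- one step of the Dvoretzky–Rogers selection -/
theorem pick (m j : ℕ) (hj : 2 * j ≤ m) (hm : 1 ≤ m) (U : F →L[𝕜] E)
    (hU1 : ∀ x, ‖U x‖ ≤ ‖x‖)
    (hU2 : ∀ D : F →ₗ[𝕜] F, (∀ x, ‖U (D x)‖ ≤ ‖x‖) → ‖LinearMap.det D‖ ≤ 1)
    (b : OrthonormalBasis (Fin m) 𝕜 F) :
    ∃ x : F, ‖x‖ = 1 ∧ (∀ i : Fin m, (i : ℕ) < j → inner 𝕜 (b i) x = 0) ∧ 1 / 3 ≤ ‖U x‖ := by
  classical
  by_contra hcon
  push Not at hcon
  have hsmall : ∀ x : F, (∀ i : Fin m, (i : ℕ) < j → inner 𝕜 (b i) x = 0) → ‖U x‖ ≤ 1 / 3 * ‖x‖ := by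
    intro x hx
    by_cases h0 : x = 0
    · subst h0; simp
    have hpos : 0 < ‖x‖ := norm_pos_iff.2 h0
    have h1 := hcon (((‖x‖⁻¹ : ℝ) : 𝕜) • x) (by
      rw [norm_smul, RCLike.norm_ofReal, abs_of_pos (by positivity), inv_mul_cancel₀ hpos.ne']) (by
      intro i hi
      rw [inner_smul_right, hx i hi, mul_zero])
    rw [map_smul, norm_smul, RCLike.norm_ofReal, abs_of_pos (by positivity)] at h1
    have h2 : ‖x‖⁻¹ * ‖U x‖ * ‖x‖ ≤ 1 / 3 * ‖x‖ := by gcongr
    have h3 : ‖x‖⁻¹ * ‖U x‖ * ‖x‖ = ‖U x‖ := by field_simp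
    rw [h3] at h2
    exact h2
  -- scaling
  set s2 : ℝ := Real.sqrt 2 with hs2
  have hs2p : 0 < s2 := Real.sqrt_pos.2 (by norm_num)
  have hs2s : s2 * s2 = 2 := Real.mul_self_sqrt (by norm_num)
  let d : Fin m → ℝ := fun i => if (i : ℕ) < j then 1 / s2 else 3 / s2
  let D : F →ₗ[𝕜] F := b.toBasis.constr 𝕜 (fun i => ((d i : ℝ) : 𝕜) • b i)
  have hDb : ∀ i, D (b i) = ((d i : ℝ) : 𝕜) • b i := by
    intro i
    have := b.toBasis.constr_basis 𝕜 (fun i => ((d i : ℝ) : 𝕜) • b i) i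
    simpa [D] using this
  have hdet : LinearMap.det D = ∏ i, ((d i : ℝ) : 𝕜) := by
    rw [← LinearMap.det_toMatrix b.toBasis D]
    have : LinearMap.toMatrix b.toBasis b.toBasis D = Matrix.diagonal (fun i => ((d i : ℝ) : 𝕜)) := by
      ext i l
      rw [LinearMap.toMatrix_apply, OrthonormalBasis.coe_toBasis, hDb, map_smul,
        Finsupp.smul_apply]
      have e1 : b.toBasis.repr (b l) = Finsupp.single l 1 := by
        have := b.toBasis.repr_self l
        simpa using this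
      rw [e1, Matrix.diagonal_apply, Finsupp.single_apply]
      by_cases h : i = l
      · subst h; simp
      · rw [if_neg h, if_neg (fun h' => h h'.symm)]; simp
    rw [this, Matrix.det_diagonal]
  have hDn : ∀ x, ‖U (D x)‖ ≤ ‖x‖ := by
    intro x
    let c : Fin m → 𝕜 := fun i => inner 𝕜 (b i) x
    have hx : x = ∑ i, c i • b i := (b.sum_repr' x).symm
    let x1 : F := ∑ i : Fin m, (if (i : ℕ) < j then c i else 0) • b i
    let x2 : F := ∑ i : Fin m, (if (i : ℕ) < j then 0 else c i) • b i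
    have hDx : D x = ((1 / s2 : ℝ) : 𝕜) • x1 + ((3 / s2 : ℝ) : 𝕜) • x2 := by
      conv_lhs => rw [hx]
      rw [map_sum]
      simp only [x1, x2]
      rw [Finset.smul_sum, Finset.smul_sum, ← Finset.sum_add_distrib]
      apply Finset.sum_congr rfl
      intro i _
      rw [map_smul, hDb]
      simp only [d]
      split_ifs with h
      · rw [zero_smul, smul_zero, add_zero, smul_comm]
      · rw [zero_smul, smul_zero, zero_add, smul_comm]
    have hn : ‖x‖ ^ 2 = ‖x1‖ ^ 2 + ‖x2‖ ^ 2 := by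
      conv_lhs => rw [hx]
      simp only [x1, x2]
      rw [norm_sq_comb _ b.orthonormal, norm_sq_comb _ b.orthonormal, norm_sq_comb _ b.orthonormal,
        ← Finset.sum_add_distrib]
      apply Finset.sum_congr rfl
      intro i _
      split_ifs <;> simp
    have hx2 : ∀ i : Fin m, (i : ℕ) < j → inner 𝕜 (b i) x2 = 0 := by
      intro i hi
      simp only [x2]
      rw [inner_sum]
      apply Finset.sum_eq_zero
      intro l _
      rw [inner_smul_right]
      by_cases h : (l : ℕ) < j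
      · rw [if_pos h, zero_mul]
      · have : i ≠ l := fun h' => h (h' ▸ hi)
        rw [b.orthonormal.2 this, mul_zero]
    have h1 := hU1 x1
    have h2 := hsmall x2 hx2
    have h3 : ‖U (D x)‖ ≤ 1 / s2 * ‖x1‖ + 1 / s2 * ‖x2‖ := by
      rw [hDx, map_add, map_smul, map_smul]
      refine (norm_add_le _ _).trans ?_
      rw [norm_smul, norm_smul, RCLike.norm_ofReal, RCLike.norm_ofReal,
        abs_of_pos (by positivity), abs_of_pos (by positivity)]
      have e1 : 3 / s2 * ‖U x2‖ ≤ 3 / s2 * (1 / 3 * ‖x2‖) := by gcongr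
      have e2 : 3 / s2 * (1 / 3 * ‖x2‖) = 1 / s2 * ‖x2‖ := by ring
      have e3 : 1 / s2 * ‖U x1‖ ≤ 1 / s2 * ‖x1‖ := by gcongr
      linarith
    refine h3.trans ?_
    apply le_of_sq_le_sq _ (norm_nonneg _)
    rw [hn]
    have e1 : (1 / s2 * ‖x1‖ + 1 / s2 * ‖x2‖) ^ 2 = (‖x1‖ + ‖x2‖) ^ 2 / 2 := by
      have : (1 / s2 * ‖x1‖ + 1 / s2 * ‖x2‖) ^ 2 = (‖x1‖ + ‖x2‖) ^ 2 / (s2 * s2) := by
        field_simp
      rw [this, hs2s]
    rw [e1]
    nlinarith [sq_nonneg (‖x1‖ - ‖x2‖)]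
  have hle := hU2 D hDn
  rw [hdet, ← RCLike.ofReal_prod, RCLike.norm_ofReal] at hle
  have hprod : ∏ i, d i = (1 / s2) ^ j * (3 / s2) ^ (m - j) := by
    simp only [d]
    rw [Finset.prod_ite, Finset.prod_const, Finset.prod_const]
    have e1 : (Finset.univ.filter (fun i : Fin m => (i : ℕ) < j)).card = j := by
      rw [Fin.card_filter_val_lt]; omega
    have e2 : (Finset.univ.filter (fun i : Fin m => ¬ (i : ℕ) < j)).card = m - j := by
      have := Finset.card_filter_add_card_filter_not (s := (Finset.univ : Finset (Fin m)))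
        (fun i : Fin m => (i : ℕ) < j)
      rw [e1, Finset.card_univ, Fintype.card_fin] at this
      omega
    rw [e1, e2]
  have hgt : 1 < (1 / s2) ^ j * (3 / s2) ^ (m - j) := by
    obtain ⟨l, hl⟩ : ∃ l, m = j + j + l := ⟨m - (j + j), by omega⟩
    have e1 : m - j = j + l := by omega
    rw [e1, pow_add, ← mul_assoc, ← mul_pow]
    have e2 : 1 / s2 * (3 / s2) = 3 / 2 := by
      have : 1 / s2 * (3 / s2) = 3 / (s2 * s2) := by field_simp
      rw [this, hs2s]
    rw [e2]
    have e3 : s2 < 3 / 2 := by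
      nlinarith
    have e4 : 1 < 3 / s2 := by
      rw [lt_div_iff₀ hs2p]; linarith
    rcases Nat.eq_zero_or_pos j with h | h
    · subst h
      rw [pow_zero, one_mul]
      exact one_lt_pow₀ e4 (by omega)
    · have e5 : (1 : ℝ) < (3 / 2) ^ j := one_lt_pow₀ (by norm_num) (by omega)
      have e6 : (1 : ℝ) ≤ (3 / s2) ^ l := one_le_pow₀ e4.le
      nlinarith
  rw [hprod, abs_of_pos (lt_trans one_pos hgt)] at hle
  linarith

/-- Dvoretzky–Rogers: half of an orthonormal basis is mapped to vectors of norm at least `1/3` -/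
theorem dr_basis (N : ℕ) (U : F →L[𝕜] E)
    (hU1 : ∀ x, ‖U x‖ ≤ ‖x‖)
    (hU2 : ∀ D : F →ₗ[𝕜] F, (∀ x, ‖U (D x)‖ ≤ ‖x‖) → ‖LinearMap.det D‖ ≤ 1)
    (hF : Module.finrank 𝕜 F = 2 * N) :
    ∀ j ≤ N, ∃ b : OrthonormalBasis (Fin (2 * N)) 𝕜 F,
      ∀ i : Fin (2 * N), (i : ℕ) < j → 1 / 3 ≤ ‖U (b i)‖ := by
  classical
  intro j
  induction j with
  | zero =>
    intro _
    exact ⟨(stdOrthonormalBasis 𝕜 F).reindex (finCongr hF), fun i hi => absurd hi (Nat.not_lt_zero _)⟩
  | succ j ih =>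
    intro hj
    obtain ⟨b, hb⟩ := ih (by omega)
    obtain ⟨x, hx1, hx2, hx3⟩ := pick (2 * N) j (by omega) (by omega) U hU1 hU2 b
    let l : Fin (2 * N) := ⟨j, by omega⟩
    let v : Fin (2 * N) → F := Function.update b l x
    let s : Set (Fin (2 * N)) := {i | (i : ℕ) ≤ j}
    have hvl : v l = x := by simp [v]
    have hvi : ∀ i, i ≠ l → v i = b i := by
      intro i hi; simp [v, hi]
    have horth : Orthonormal 𝕜 (s.domRestrict v) := by
      constructor
      · rintro ⟨i, hi⟩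
        change ‖v i‖ = 1
        by_cases h : i = l
        · rw [h, hvl, hx1]
        · rw [hvi i h]; exact b.orthonormal.1 i
      · rintro ⟨i, hi⟩ ⟨i', hi'⟩ hne
        change inner 𝕜 (v i) (v i') = 0
        have hne' : i ≠ i' := fun h => hne (Subtype.ext h)
        have hlt : ∀ i : Fin (2 * N), (i : ℕ) ≤ j → i ≠ l → (i : ℕ) < j := by
          intro i h1 h2
          rcases Nat.lt_or_eq_of_le h1 with h | h
          · exact h
          · exact absurd (Fin.ext h) h2
        by_cases h : i = l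
        · have h' : i' ≠ l := fun h' => hne' (h.trans h'.symm)
          rw [h, hvl, hvi i' h', inner_eq_zero_symm]
          exact hx2 i' (hlt i' hi' h')
        · by_cases h' : i' = l
          · rw [h', hvl, hvi i h]
            exact hx2 i (hlt i hi h)
          · rw [hvi i h, hvi i' h']
            exact b.orthonormal.2 hne'
    obtain ⟨b', hb'⟩ := horth.exists_orthonormalBasis_extension_of_card_eq (by simpa using hF)
    refine ⟨b', ?_⟩
    intro i hi
    have his : i ∈ s := by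
      change (i : ℕ) ≤ j
      omega
    rw [hb' i his]
    by_cases h : i = l
    · rw [h, hvl]; exact hx3
    · rw [hvi i h]
      apply hb
      rcases Nat.lt_or_eq_of_le (show (i : ℕ) ≤ j from his) with h' | h'
      · exact h'
      · exact absurd (Fin.ext h') h

end extremal

/-- Dvoretzky–Rogers families in infinite-dimensional spaces -/
theorem exists_dr {X : Type} [NormedAddCommGroup X] [NormedSpace 𝕜 X]
    (hX : ¬ FiniteDimensional 𝕜 X) (N : ℕ) :
    ∃ u : Fin N → X, Bes 𝕜 u ∧ ∀ i, 1 / 3 ≤ ‖u i‖ := by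
  classical
  -- a subspace of dimension `2 N`
  obtain ⟨E, hEfin, hE⟩ : ∃ E : Submodule 𝕜 X, FiniteDimensional 𝕜 E ∧ Module.finrank 𝕜 E = 2 * N := by
    have hrank : ((2 * N : ℕ) : Cardinal) ≤ Module.rank 𝕜 X := by
      have h1 : ¬ Module.rank 𝕜 X < Cardinal.aleph0 := fun h =>
        hX (Module.rank_lt_aleph0_iff.1 h)
      push Not at h1
      exact (Cardinal.natCast_lt_aleph0 (n := 2 * N)).le.trans h1
    obtain ⟨s, hs1, hs2⟩ := exists_finset_linearIndependent_of_le_rank hrank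
    refine ⟨Submodule.span 𝕜 (s : Set X), FiniteDimensional.span_finset 𝕜 s, ?_⟩
    have := finrank_span_finset_eq_card hs2
    rw [this, hs1]
  have hF : Module.finrank 𝕜 (EuclideanSpace 𝕜 (Fin (2 * N))) = 2 * N := finrank_euclideanSpace_fin
  obtain ⟨U, hU1, hU2⟩ := exists_U (𝕜 := 𝕜) (F := EuclideanSpace 𝕜 (Fin (2 * N))) (E := E)
    (by rw [hF, hE])
  obtain ⟨b, hb⟩ := dr_basis N U hU1 hU2 hF N le_rfl
  refine ⟨fun i => (U (b (Fin.castLE (by omega) i)) : X), ?_, ?_⟩
  · intro a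
    have h1 : ∑ i : Fin N, a i • (U (b (Fin.castLE (by omega) i)) : X) =
        ((U (∑ i : Fin N, a i • b (Fin.castLE (by omega) i)) : E) : X) := by
      rw [map_sum]
      simp only [map_smul]
      rw [Submodule.coe_sum]
      rfl
    rw [h1]
    have h2 := hU1 (∑ i : Fin N, a i • b (Fin.castLE (by omega) i))
    refine (le_of_eq (Submodule.coe_norm _).symm).trans (h2.trans (le_of_eq ?_))
    have h3 := norm_sq_comb (𝕜 := 𝕜) (fun i : Fin N => b (Fin.castLE (by omega : N ≤ 2 * N) i))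
      (b.orthonormal.comp _ (Fin.castLE_injective (by omega : N ≤ 2 * N))) a
    rw [← h3, Real.sqrt_sq (norm_nonneg _)]
  · intro i
    have := hb (Fin.castLE (by omega) i) (by simp)
    exact this

end Pool.Helper799.Te
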