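import Mathlib
import Pool.Agent.Helper799.DvRogers

set_option autoImplicit false

namespace Pool.Helper799.Te

open Finset

theorem sb_beq (a b : Bool) : sb (a == b) = sb a * sb b := by
  cases a <;> cases b <;> simp [sb]

theorem beq_beq_self : ∀ a b : Bool, ((a == b) == b) = a := by decide

section mult

variable {κ : Type} [Fintype κ] [DecidableEq κ]

/-- multiplication by a sign vector -/
def mulE (d : κ → Bool) : (κ → Bool) ≃ (κ → Bool) where
  toFun ε := fun k => (ε k == d k)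
  invFun ε := fun k => (ε k == d k)
  left_inv ε := by
    funext k
    exact beq_beq_self (ε k) (d k)
  right_inv ε := by
    funext k
    exact beq_beq_self (ε k) (d k)

omit [Fintype κ] [DecidableEq κ] in
theorem sb_mulE (d ε : κ → Bool) (k : κ) : sb (mulE d ε k) = sb (ε k) * sb (d k) := sb_beq _ _

theorem Av_swap {κ' : Type} [Fintype κ'] [DecidableEq κ'] (f : (κ → Bool) → (κ' → Bool) → ℝ) :
    Av (fun ε => Av (fun θ => f ε θ)) = Av (fun θ => Av (fun ε => f ε θ)) := by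
  unfold Av
  simp only [← Finset.sum_div]
  rw [Finset.sum_comm, div_div, div_div, mul_comm ((2 : ℝ) ^ Fintype.card κ')]

/-- averages of products over rows -/
theorem Av_rows {L : ℕ} (g : (Fin L → Bool) → ℝ) :
    Av (fun ε : κ × Fin L → Bool => ∏ i, g (fun l => ε (i, l))) = (Av g) ^ Fintype.card κ := by
  unfold Av
  rw [div_pow, ← pow_mul, Fintype.card_prod, Fintype.card_fin]
  congr 1
  · have h1 : ∏ _i : κ, ∑ ω : Fin L → Bool, g ω = ∑ p : κ → (Fin L → Bool), ∏ i, g (p i) := by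
      rw [Finset.prod_univ_sum, Fintype.piFinset_univ]
    rw [Finset.prod_const, Finset.card_univ] at h1
    rw [h1, ← Equiv.sum_comp (Equiv.curry κ (Fin L) Bool)]
    apply Finset.sum_congr rfl
    intro ε _
    rfl
  · rw [mul_comm]

end mult

section lower

variable {𝕜 : Type} [RCLike 𝕜] {X : Type} [NormedAddCommGroup X] [NormedSpace 𝕜 X]
variable {κ : Type} [Fintype κ] [DecidableEq κ]

/-- Rademacher average -/
noncomputable def rr (𝕜 : Type) [RCLike 𝕜] {X : Type} [NormedAddCommGroup X] [NormedSpace 𝕜 X]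
    {κ : Type} [Fintype κ] [DecidableEq κ] (y : κ → X) : ℝ := Av (fun ε => ‖ss 𝕜 y ε‖)

/-- each term is dominated by the average -/
theorem term_le_rr (x : κ → X) (k : κ) : ‖x k‖ ≤ rr 𝕜 x := by
  have h1 : ∑ θ : κ → Bool, ((sb (θ k) : ℝ) : 𝕜) • ss 𝕜 x θ = (((2 : ℝ) ^ Fintype.card κ : ℝ) : 𝕜) • x k := by
    unfold ss
    have e1 : ∀ θ : κ → Bool, ((sb (θ k) : ℝ) : 𝕜) • ∑ i, ((sb (θ i) : ℝ) : 𝕜) • x i =
        ∑ i, ((sb (θ k) * sb (θ i) : ℝ) : 𝕜) • x i := by
      intro θ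
      rw [Finset.smul_sum]
      apply Finset.sum_congr rfl; intro i _
      rw [smul_smul, RCLike.ofReal_mul]
    rw [Finset.sum_congr rfl (fun θ _ => e1 θ), Finset.sum_comm]
    have e2 : ∀ i, ∑ θ : κ → Bool, ((sb (θ k) * sb (θ i) : ℝ) : 𝕜) • x i =
        ((if k = i then (2 : ℝ) ^ Fintype.card κ else 0 : ℝ) : 𝕜) • x i := by
      intro i
      rw [← Finset.sum_smul, ← RCLike.ofReal_sum, sum_sb_mul]
    rw [Finset.sum_congr rfl (fun i _ => e2 i), Finset.sum_eq_single k]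
    · rw [if_pos rfl]
    · intro i _ hi; rw [if_neg (fun h => hi h.symm)]; simp
    · intro h; exact absurd (Finset.mem_univ k) h
  unfold rr Av
  rw [le_div_iff₀ (by positivity)]
  calc ‖x k‖ * 2 ^ Fintype.card κ = ‖(((2 : ℝ) ^ Fintype.card κ : ℝ) : 𝕜) • x k‖ := by
        rw [norm_smul, RCLike.norm_ofReal, abs_of_pos (by positivity), mul_comm]
    _ = ‖∑ θ : κ → Bool, ((sb (θ k) : ℝ) : 𝕜) • ss 𝕜 x θ‖ := by rw [h1]
    _ ≤ ∑ θ : κ → Bool, ‖((sb (θ k) : ℝ) : 𝕜) • ss 𝕜 x θ‖ := norm_sum_le _ _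
    _ = ∑ θ : κ → Bool, ‖ss 𝕜 x θ‖ := by
        apply Finset.sum_congr rfl; intro θ _
        rw [norm_smul, RCLike.norm_ofReal, abs_sb, one_mul]

/-- row representation of a signed sum over a product index -/
theorem ss_prod {L : ℕ} (c : Fin L → 𝕜) (u : κ → X) (ε : κ × Fin L → Bool) :
    ss 𝕜 (fun p : κ × Fin L => c p.2 • u p.1) ε =
      ∑ i, (∑ l, ((sb (ε (i, l)) : ℝ) : 𝕜) * c l) • u i := by
  unfold ss
  rw [Fintype.sum_prod_type]
  apply Finset.sum_congr rfl; intro i _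
  rw [Finset.sum_smul]
  apply Finset.sum_congr rfl; intro l _
  rw [smul_smul]

/-- symmetrization by row signs -/
theorem rr_prod {L : ℕ} (c : Fin L → 𝕜) (u : κ → X) :
    rr 𝕜 (fun p : κ × Fin L => c p.2 • u p.1) =
      Av (fun ε : κ × Fin L → Bool => rr 𝕜 (fun i =>
        (∑ l, ((sb (ε (i, l)) : ℝ) : 𝕜) * c l) • u i)) := by
  unfold rr
  rw [Av_swap]
  have h1 : ∀ θ : κ → Bool, Av (fun ε : κ × Fin L → Bool =>
      ‖ss 𝕜 (fun i => (∑ l, ((sb (ε (i, l)) : ℝ) : 𝕜) * c l) • u i) θ‖) =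
      Av (fun ε : κ × Fin L → Bool => ‖ss 𝕜 (fun p : κ × Fin L => c p.2 • u p.1) ε‖) := by
    intro θ
    rw [← Av_comp (mulE (fun p : κ × Fin L => θ p.1))
      (fun ε : κ × Fin L → Bool => ‖ss 𝕜 (fun p : κ × Fin L => c p.2 • u p.1) ε‖)]
    congr 1
    funext ε
    congr 1
    rw [ss_prod]
    unfold ss
    apply Finset.sum_congr rfl; intro i _
    rw [smul_smul]
    congr 1
    rw [Finset.mul_sum]
    apply Finset.sum_congr rfl; intro l _
    rw [sb_mulE, RCLike.ofReal_mul]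
    ring
  rw [show (fun θ : κ → Bool => Av (fun ε : κ × Fin L → Bool =>
      ‖ss 𝕜 (fun i => (∑ l, ((sb (ε (i, l)) : ℝ) : 𝕜) * c l) • u i) θ‖)) = fun _ =>
      Av (fun ε : κ × Fin L → Bool => ‖ss 𝕜 (fun p : κ × Fin L => c p.2 • u p.1) ε‖) from
      funext h1, Av_const]

/-- products of Bessel families with unit vectors are Bessel families -/
theorem Bes.prod {L : ℕ} {u : κ → X} (hu : Bes 𝕜 u) (c : Fin L → 𝕜) (hc : ∑ l, ‖c l‖ ^ 2 ≤ 1) :
    Bes 𝕜 (fun p : κ × Fin L => c p.2 • u p.1) := by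
  intro a
  have h1 : ∑ p : κ × Fin L, a p • (c p.2 • u p.1) = ∑ i, (∑ l, a (i, l) * c l) • u i := by
    rw [Fintype.sum_prod_type]
    apply Finset.sum_congr rfl; intro i _
    rw [Finset.sum_smul]
    apply Finset.sum_congr rfl; intro l _
    rw [smul_smul]
  rw [h1]
  refine (hu _).trans ?_
  apply Real.sqrt_le_sqrt
  rw [Fintype.sum_prod_type]
  apply Finset.sum_le_sum
  intro i _
  have h2 : ‖∑ l, a (i, l) * c l‖ ≤ ∑ l, ‖a (i, l)‖ * ‖c l‖ := by
    refine (norm_sum_le _ _).trans (le_of_eq ?_)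
    apply Finset.sum_congr rfl; intro l _
    rw [norm_mul]
  have h3 := Real.sum_mul_le_sqrt_mul_sqrt Finset.univ (fun l => ‖a (i, l)‖) (fun l => ‖c l‖)
  have h4 : Real.sqrt (∑ l, ‖c l‖ ^ 2) ≤ 1 := by
    rw [← Real.sqrt_one]; exact Real.sqrt_le_sqrt hc
  have h5 : ‖∑ l, a (i, l) * c l‖ ≤ Real.sqrt (∑ l, ‖a (i, l)‖ ^ 2) := by
    refine (h2.trans h3).trans ?_
    calc Real.sqrt (∑ l, ‖a (i, l)‖ ^ 2) * Real.sqrt (∑ l, ‖c l‖ ^ 2)
        ≤ Real.sqrt (∑ l, ‖a (i, l)‖ ^ 2) * 1 := by gcongr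
      _ = _ := mul_one _
  calc ‖∑ l, a (i, l) * c l‖ ^ 2 ≤ Real.sqrt (∑ l, ‖a (i, l)‖ ^ 2) ^ 2 :=
        pow_le_pow_left₀ (norm_nonneg _) h5 2
    _ = ∑ l, ‖a (i, l)‖ ^ 2 := Real.sq_sqrt (Finset.sum_nonneg (fun l _ => by positivity))

end lower

/-- Rademacher averages of Bessel families are unbounded -/
theorem exists_big {𝕜 : Type} [RCLike 𝕜] {X : Type} [NormedAddCommGroup X] [NormedSpace 𝕜 X]
    (hX : ¬ FiniteDimensional 𝕜 X) (K : ℝ) :
    ∃ (M : ℕ) (v : Fin M → X), Bes 𝕜 v ∧ K ≤ rr 𝕜 v := by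
  classical
  obtain ⟨L, hL⟩ := exists_nat_gt ((6 * |K|) ^ 2 + 1)
  have hLpos : (0 : ℝ) < L := by
    have : (0 : ℝ) ≤ (6 * |K|) ^ 2 := by positivity
    linarith
  have hsL : 6 * |K| ≤ Real.sqrt L := by
    apply Real.le_sqrt_of_sq_le
    linarith
  have hsLp : 0 < Real.sqrt L := Real.sqrt_pos.2 hLpos
  -- number of rows
  have hq : (1 : ℝ) - 1 / 2 ^ L < 1 := by
    have : (0 : ℝ) < 1 / 2 ^ L := by positivity
    linarith
  obtain ⟨N, hN⟩ := exists_pow_lt_of_lt_one (show (0 : ℝ) < 1 / 2 by norm_num) hq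
  obtain ⟨u, hu1, hu2⟩ := exists_dr hX N
  let c : Fin L → 𝕜 := fun _ => ((1 / Real.sqrt L : ℝ) : 𝕜)
  have hc : ∑ l, ‖c l‖ ^ 2 ≤ 1 := by
    simp only [c]
    rw [Finset.sum_const, Finset.card_univ, Fintype.card_fin, nsmul_eq_mul, RCLike.norm_ofReal,
      abs_of_pos (by positivity), div_pow, one_pow, Real.sq_sqrt hLpos.le]
    rw [mul_one_div, div_self hLpos.ne']
  let y : Fin N × Fin L → X := fun p => c p.2 • u p.1
  have hy : Bes 𝕜 y := hu1.prod c hc
  -- lower bound for the average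
  have hrow : ∀ ε : Fin N × Fin L → Bool,
      (1 - ∏ i, (if ∀ l, ε (i, l) = true then (0 : ℝ) else 1)) * (Real.sqrt L / 3) ≤
        rr 𝕜 (fun i => (∑ l, ((sb (ε (i, l)) : ℝ) : 𝕜) * c l) • u i) := by
    intro ε
    by_cases h : ∃ i, ∀ l, ε (i, l) = true
    · obtain ⟨i, hi⟩ := h
      have h1 : ∏ i, (if ∀ l, ε (i, l) = true then (0 : ℝ) else 1) = 0 :=
        Finset.prod_eq_zero (Finset.mem_univ i) (if_pos hi)
      rw [h1, sub_zero, one_mul]
      refine le_trans ?_ (term_le_rr (𝕜 := 𝕜) (fun i =>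
        (∑ l, ((sb (ε (i, l)) : ℝ) : 𝕜) * c l) • u i) i)
      have h2 : ∑ l, ((sb (ε (i, l)) : ℝ) : 𝕜) * c l = ((Real.sqrt L : ℝ) : 𝕜) := by
        simp only [hi, sb_true, c]
        rw [Finset.sum_const, Finset.card_univ, Fintype.card_fin, nsmul_eq_mul]
        rw [← RCLike.ofReal_mul, ← RCLike.ofReal_natCast, ← RCLike.ofReal_mul]
        congr 1
        rw [one_mul, mul_one_div]
        rw [div_eq_iff hsLp.ne', Real.mul_self_sqrt hLpos.le]
      simp only [h2]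
      rw [norm_smul, RCLike.norm_ofReal, abs_of_pos hsLp]
      have := hu2 i
      nlinarith
    · push Not at h
      have h1 : ∏ i, (if ∀ l, ε (i, l) = true then (0 : ℝ) else 1) = 1 := by
        apply Finset.prod_eq_one
        intro i _
        rw [if_neg]
        intro h2
        obtain ⟨l, hl⟩ := h i
        exact hl (h2 l)
      rw [h1, sub_self, zero_mul]
      exact Av_nonneg (fun θ => norm_nonneg _)
  have hAvg : Av (fun ω : Fin L → Bool => (if ∀ l, ω l = true then (0 : ℝ) else 1)) =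
      1 - 1 / 2 ^ L := by
    have h1 : (fun ω : Fin L → Bool => (if ∀ l, ω l = true then (0 : ℝ) else 1)) =
        fun ω => 1 - (if ω = (fun _ => true) then (1 : ℝ) else 0) := by
      funext ω
      by_cases h : ∀ l, ω l = true
      · rw [if_pos h, if_pos (funext h)]; norm_num
      · rw [if_neg h, if_neg (fun h' => h (fun l => congrFun h' l))]; norm_num
    rw [h1, Av_sub, Av_const]
    congr 1
    unfold Av
    rw [Finset.sum_ite_eq' Finset.univ, if_pos (Finset.mem_univ _), Fintype.card_fin]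
  have hlow : Real.sqrt L / 6 ≤ rr 𝕜 y := by
    have h1 : rr 𝕜 y = Av (fun ε : Fin N × Fin L → Bool => rr 𝕜 (fun i =>
        (∑ l, ((sb (ε (i, l)) : ℝ) : 𝕜) * c l) • u i)) := rr_prod c u
    rw [h1]
    refine le_trans ?_ (Av_mono hrow)
    have h2 : (fun ε : Fin N × Fin L → Bool =>
        (1 - ∏ i, (if ∀ l, ε (i, l) = true then (0 : ℝ) else 1)) * (Real.sqrt L / 3)) =
        fun ε => (Real.sqrt L / 3) * (1 - ∏ i, (if ∀ l, ε (i, l) = true then (0 : ℝ) else 1)) := by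
      funext ε; ring
    rw [h2, Av_mul, Av_sub, Av_const]
    have h3 : Av (fun ε : Fin N × Fin L → Bool =>
        ∏ i, (if ∀ l, ε (i, l) = true then (0 : ℝ) else 1)) = (1 - 1 / 2 ^ L) ^ N := by
      rw [Av_rows (fun ω : Fin L → Bool => (if ∀ l, ω l = true then (0 : ℝ) else 1)), hAvg,
        Fintype.card_fin]
    rw [h3]
    have h4 : (1 : ℝ) / 2 ≤ 1 - (1 - 1 / 2 ^ L) ^ N := by linarith
    calc Real.sqrt L / 6 = Real.sqrt L / 3 * (1 / 2) := by ring
      _ ≤ Real.sqrt L / 3 * (1 - (1 - 1 / 2 ^ L) ^ N) := by gcongr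
  -- reindex
  let e : Fin N × Fin L ≃ Fin (N * L) := finProdFinEquiv
  refine ⟨N * L, fun i => y (e.symm i), ?_, ?_⟩
  · intro a
    have h1 : ∑ i, a i • y (e.symm i) = ∑ p, a (e p) • y p := by
      rw [← Equiv.sum_comp e]
      simp
    have h2 : ∑ i, ‖a i‖ ^ 2 = ∑ p, ‖a (e p)‖ ^ 2 := (Equiv.sum_comp e _).symm
    rw [h1, h2]
    exact hy _
  · have h1 : rr 𝕜 (fun i => y (e.symm i)) = rr 𝕜 y := by
      unfold rr
      rw [Av_equiv e (fun ε => ‖ss 𝕜 y ε‖)]
      congr 1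
      funext ε
      congr 1
      unfold ss
      rw [← Equiv.sum_comp e]
      simp
    rw [h1]
    have h2 : K ≤ |K| := le_abs_self K
    linarith

end Pool.Helper799.Te
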