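import Mathlib
import Pool.Agent.Helper799.DvBig

set_option autoImplicit false

namespace Pool.Helper799.Te

open Finset

section bounded

variable {𝕜 : Type} [RCLike 𝕜]

theorem Av_le_sqrt {κ : Type} [Fintype κ] [DecidableEq κ] (f : (κ → Bool) → ℝ) :
    Av f ≤ Real.sqrt (Av (fun ε => f ε ^ 2)) := by
  apply Real.le_sqrt_of_sq_le
  have h3 : 0 ≤ Av (fun ε => (f ε - Av f) ^ 2) := Av_nonneg (fun ε => sq_nonneg _)
  have h4 : (fun ε => (f ε - Av f) ^ 2) =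
      fun ε => (f ε ^ 2 - (2 * Av f) * f ε) + (Av f) ^ 2 := by
    funext ε; ring
  rw [h4, Av_add, Av_sub, Av_mul, Av_const] at h3
  nlinarith

/-- Rademacher averages of Bessel families in a finite-dimensional space are bounded -/
theorem bounded_rr (E : Type) [NormedAddCommGroup E] [NormedSpace 𝕜 E] [FiniteDimensional 𝕜 E] :
    ∃ C : ℝ, ∀ (N : ℕ) (w : Fin N → E), Bes 𝕜 w → rr 𝕜 w ≤ C := by
  classical
  let b := Module.finBasis 𝕜 E
  let φ : Fin (Module.finrank 𝕜 E) → (E →L[𝕜] 𝕜) := fun k => LinearMap.toContinuousLinearMap (b.coord k)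
  refine ⟨∑ k, ‖b k‖ * ‖φ k‖, ?_⟩
  intro N w hw
  have h1 : ∀ ε : Fin N → Bool, ‖ss 𝕜 w ε‖ ≤ ∑ k, ‖b k‖ * ‖∑ i, ((sb (ε i) : ℝ) : 𝕜) * φ k (w i)‖ := by
    intro ε
    have e1 : ss 𝕜 w ε = ∑ k, (φ k (ss 𝕜 w ε)) • b k := by
      have := b.sum_repr (ss 𝕜 w ε)
      exact this.symm
    have e2 : ∀ k, φ k (ss 𝕜 w ε) = ∑ i, ((sb (ε i) : ℝ) : 𝕜) * φ k (w i) := by
      intro k
      unfold ss
      rw [map_sum]
      apply Finset.sum_congr rfl; intro i _
      rw [map_smul, smul_eq_mul]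
    conv_lhs => rw [e1]
    refine (norm_sum_le _ _).trans (le_of_eq ?_)
    apply Finset.sum_congr rfl; intro k _
    rw [norm_smul, e2, mul_comm]
  unfold rr
  refine (Av_mono h1).trans ?_
  rw [Av_sum]
  apply Finset.sum_le_sum
  intro k _
  rw [Av_mul]
  apply mul_le_mul_of_nonneg_left _ (norm_nonneg _)
  refine (Av_le_sqrt _).trans ?_
  rw [Av_sqC]
  apply Real.sqrt_le_iff.2
  exact ⟨norm_nonneg _, hw.dual (φ k)⟩

end bounded

section rows

variable {κ : Type} [Fintype κ] [DecidableEq κ]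

/-- averages of products over rows, general form -/
theorem Av_rows' {L : ℕ} (g : κ → (Fin L → Bool) → ℝ) :
    Av (fun ε : κ × Fin L → Bool => ∏ i, g i (fun l => ε (i, l))) = ∏ i, Av (g i) := by
  unfold Av
  rw [Finset.prod_div_distrib, Finset.prod_const, Finset.card_univ, Fintype.card_prod,
    Fintype.card_fin, ← pow_mul]
  congr 1
  · have h1 : ∏ i : κ, ∑ ω : Fin L → Bool, g i ω = ∑ p : κ → (Fin L → Bool), ∏ i, g i (p i) := by
      rw [Finset.prod_univ_sum, Fintype.piFinset_univ]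
    rw [h1, ← Equiv.sum_comp (Equiv.curry κ (Fin L) Bool)]
    apply Finset.sum_congr rfl
    intro ε _
    rfl
  · rw [mul_comm]

theorem Av_row {L : ℕ} (i0 : κ) (g : (Fin L → Bool) → ℝ) :
    Av (fun ε : κ × Fin L → Bool => g (fun l => ε (i0, l))) = Av g := by
  have h := Av_rows' (fun i : κ => if i = i0 then g else fun _ => 1)
  have h1 : (fun ε : κ × Fin L → Bool => ∏ i, (if i = i0 then g else fun _ => 1)
      (fun l => ε (i, l))) = fun ε => g (fun l => ε (i0, l)) := by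
    funext ε
    rw [Finset.prod_eq_single i0]
    · rw [if_pos rfl]
    · intro i _ hi; rw [if_neg hi]
    · intro h; exact absurd (Finset.mem_univ i0) h
  have h2 : ∏ i : κ, Av (if i = i0 then g else fun _ => 1) = Av g := by
    rw [Finset.prod_eq_single i0]
    · rw [if_pos rfl]
    · intro i _ hi; rw [if_neg hi, Av_const]
    · intro h; exact absurd (Finset.mem_univ i0) h
  rw [h1, h2] at h
  exact h

end rows

section lower

variable {𝕜 : Type} [RCLike 𝕜] {X : Type} [NormedAddCommGroup X] [NormedSpace 𝕜 X]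
variable {κ : Type} [Fintype κ] [DecidableEq κ]

/-- comparison of the averages of `c • w` and of `w` -/
theorem rr_prod_ge {L : ℕ} (c : Fin L → 𝕜) (w : κ → X) (s : (Fin L → Bool) → Bool) (k0 : 𝕜)
    (hre : Av (fun ω : Fin L → Bool => sb (s ω) * RCLike.re (∑ l, ((sb (ω l) : ℝ) : 𝕜) * c l)) =
      RCLike.re k0)
    (him : Av (fun ω : Fin L → Bool => sb (s ω) * RCLike.im (∑ l, ((sb (ω l) : ℝ) : 𝕜) * c l)) =
      RCLike.im k0) :
    ‖k0‖ * rr 𝕜 w ≤ rr 𝕜 (fun p : κ × Fin L => c p.2 • w p.1) := by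
  rw [rr_prod]
  let ξ : (Fin L → Bool) → 𝕜 := fun ω => ∑ l, ((sb (ω l) : ℝ) : 𝕜) * c l
  -- insert the signs `s`
  have h1 : ∀ ε : κ × Fin L → Bool, rr 𝕜 (fun i => (∑ l, ((sb (ε (i, l)) : ℝ) : 𝕜) * c l) • w i) =
      Av (fun θ : κ → Bool => ‖∑ i, (((sb (θ i) : ℝ) : 𝕜) *
        (((sb (s (fun l => ε (i, l))) : ℝ) : 𝕜) * ξ (fun l => ε (i, l)))) • w i‖) := by
    intro ε
    unfold rr
    rw [← Av_comp (mulE (fun i : κ => s (fun l => ε (i, l))))]
    congr 1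
    funext θ
    congr 1
    unfold ss
    apply Finset.sum_congr rfl; intro i _
    rw [smul_smul, sb_mulE, RCLike.ofReal_mul]
    congr 1
    simp only [ξ]
    ring
  simp only [h1]
  rw [Av_swap]
  unfold rr
  rw [← Av_mul]
  apply Av_mono
  intro θ
  -- vector valued average
  have hcoef : ∀ i : κ, ∑ ε : κ × Fin L → Bool,
      (((sb (s (fun l => ε (i, l))) : ℝ) : 𝕜) * ξ (fun l => ε (i, l))) =
      (((2 : ℝ) ^ Fintype.card (κ × Fin L) : ℝ) : 𝕜) * k0 := by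
    intro i
    have hpos : (0 : ℝ) < 2 ^ Fintype.card (κ × Fin L) := by positivity
    have e1 := Av_row i (fun ω : Fin L → Bool => sb (s ω) * RCLike.re (ξ ω))
    have e2 := Av_row i (fun ω : Fin L → Bool => sb (s ω) * RCLike.im (ξ ω))
    rw [hre] at e1
    rw [him] at e2
    unfold Av at e1 e2
    rw [div_eq_iff hpos.ne'] at e1 e2
    apply RCLike.ext
    · rw [map_sum, RCLike.re_ofReal_mul]
      simp only [RCLike.re_ofReal_mul]
      rw [e1, mul_comm]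
    · rw [map_sum, RCLike.im_ofReal_mul]
      simp only [RCLike.im_ofReal_mul]
      rw [e2, mul_comm]
  have hvec : ∑ ε : κ × Fin L → Bool, ∑ i, (((sb (θ i) : ℝ) : 𝕜) *
      (((sb (s (fun l => ε (i, l))) : ℝ) : 𝕜) * ξ (fun l => ε (i, l)))) • w i =
      ((((2 : ℝ) ^ Fintype.card (κ × Fin L) : ℝ) : 𝕜) * k0) • ss 𝕜 w θ := by
    rw [Finset.sum_comm]
    unfold ss
    rw [Finset.smul_sum]
    apply Finset.sum_congr rfl; intro i _
    rw [← Finset.sum_smul, ← Finset.mul_sum, hcoef, smul_smul]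
    congr 1
    ring
  unfold Av
  rw [le_div_iff₀ (by positivity)]
  calc ‖k0‖ * ‖ss 𝕜 w θ‖ * 2 ^ Fintype.card (κ × Fin L)
      = ‖((((2 : ℝ) ^ Fintype.card (κ × Fin L) : ℝ) : 𝕜) * k0) • ss 𝕜 w θ‖ := by
        rw [norm_smul, norm_mul, RCLike.norm_ofReal, abs_of_pos (by positivity)]
        ring
    _ = ‖∑ ε : κ × Fin L → Bool, ∑ i, (((sb (θ i) : ℝ) : 𝕜) *
      (((sb (s (fun l => ε (i, l))) : ℝ) : 𝕜) * ξ (fun l => ε (i, l)))) • w i‖ := by rw [hvec]
    _ ≤ _ := norm_sum_le _ _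

/-- lower bound for the average of `c • w` with `c` a unit vector -/
theorem rr_prod_lower {L : ℕ} (c : Fin L → 𝕜) (hc : ∑ l, ‖c l‖ ^ 2 = 1) (w : κ → X) :
    (9 / 32) * rr 𝕜 w ≤ rr 𝕜 (fun p : κ × Fin L => c p.2 • w p.1) := by
  have hr : 0 ≤ rr 𝕜 w := Av_nonneg (fun ε => norm_nonneg _)
  set a := Real.sqrt (∑ l, (RCLike.re (c l)) ^ 2) with ha
  set b := Real.sqrt (∑ l, (RCLike.im (c l)) ^ 2) with hb
  have hab : 1 ≤ a + b := by
    have e1 : a ^ 2 = ∑ l, (RCLike.re (c l)) ^ 2 :=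
      Real.sq_sqrt (Finset.sum_nonneg (fun i _ => sq_nonneg _))
    have e2 : b ^ 2 = ∑ l, (RCLike.im (c l)) ^ 2 :=
      Real.sq_sqrt (Finset.sum_nonneg (fun i _ => sq_nonneg _))
    have e3 : a ^ 2 + b ^ 2 = 1 := by
      rw [e1, e2, ← Finset.sum_add_distrib, ← hc]
      apply Finset.sum_congr rfl
      intro i _
      rw [← RCLike.normSq_eq_def', RCLike.normSq_apply]
      ring
    have ha0 : 0 ≤ a := Real.sqrt_nonneg _
    have hb0 : 0 ≤ b := Real.sqrt_nonneg _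
    nlinarith
  have hreal : ∀ ω : Fin L → Bool, RCLike.re (∑ l, ((sb (ω l) : ℝ) : 𝕜) * c l) =
      ∑ l, sb (ω l) * RCLike.re (c l) := by
    intro ω
    rw [map_sum]
    apply Finset.sum_congr rfl
    intro i _
    rw [RCLike.re_ofReal_mul]
  have himag : ∀ ω : Fin L → Bool, RCLike.im (∑ l, ((sb (ω l) : ℝ) : 𝕜) * c l) =
      ∑ l, sb (ω l) * RCLike.im (c l) := by
    intro ω
    rw [map_sum]
    apply Finset.sum_congr rfl
    intro i _
    rw [RCLike.im_ofReal_mul]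
  have hsb : ∀ t : ℝ, sb (decide (0 ≤ t)) * t = |t| := by
    intro t
    by_cases h : 0 ≤ t
    · rw [decide_eq_true h, sb_true, one_mul, abs_of_nonneg h]
    · rw [decide_eq_false h, sb_false, abs_of_neg (not_le.1 h)]; ring
  rcases le_or_gt (1 / 2) a with h | h
  · -- real part
    let s : (Fin L → Bool) → Bool := fun ω =>
      decide (0 ≤ RCLike.re (∑ l, ((sb (ω l) : ℝ) : 𝕜) * c l))
    obtain ⟨k0, hk1, hk2⟩ : ∃ k0 : 𝕜, Av (fun ω : Fin L → Bool => sb (s ω) *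
        RCLike.re (∑ l, ((sb (ω l) : ℝ) : 𝕜) * c l)) = RCLike.re k0 ∧
        Av (fun ω : Fin L → Bool => sb (s ω) * RCLike.im (∑ l, ((sb (ω l) : ℝ) : 𝕜) * c l)) =
          RCLike.im k0 := by
      refine ⟨((((2 : ℝ) ^ Fintype.card (Fin L))⁻¹ : ℝ) : 𝕜) *
        (∑ ω : Fin L → Bool, ((sb (s ω) : ℝ) : 𝕜) * (∑ l, ((sb (ω l) : ℝ) : 𝕜) * c l)), ?_, ?_⟩
      · rw [RCLike.re_ofReal_mul, map_sum]
        unfold Av
        rw [div_eq_inv_mul]
        congr 1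
        apply Finset.sum_congr rfl; intro ω _
        rw [RCLike.re_ofReal_mul]
      · rw [RCLike.im_ofReal_mul, map_sum]
        unfold Av
        rw [div_eq_inv_mul]
        congr 1
        apply Finset.sum_congr rfl; intro ω _
        rw [RCLike.im_ofReal_mul]
    have hk3 : 9 / 32 ≤ RCLike.re k0 := by
      rw [← hk1]
      have e1 := khin (fun l => RCLike.re (c l))
      have e2 : (fun ω : Fin L → Bool => sb (s ω) *
          RCLike.re (∑ l, ((sb (ω l) : ℝ) : 𝕜) * c l)) =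
          fun ω => |∑ l, sb (ω l) * RCLike.re (c l)| := by
        funext ω
        simp only [s]
        rw [hreal, hsb]
      rw [e2]
      linarith
    have hk4 : 9 / 32 ≤ ‖k0‖ := hk3.trans ((le_abs_self _).trans (RCLike.abs_re_le_norm k0))
    refine le_trans ?_ (rr_prod_ge c w s k0 hk1 hk2)
    gcongr
  · -- imaginary part
    have h' : 1 / 2 ≤ b := by linarith
    let s : (Fin L → Bool) → Bool := fun ω =>
      decide (0 ≤ RCLike.im (∑ l, ((sb (ω l) : ℝ) : 𝕜) * c l))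
    obtain ⟨k0, hk1, hk2⟩ : ∃ k0 : 𝕜, Av (fun ω : Fin L → Bool => sb (s ω) *
        RCLike.re (∑ l, ((sb (ω l) : ℝ) : 𝕜) * c l)) = RCLike.re k0 ∧
        Av (fun ω : Fin L → Bool => sb (s ω) * RCLike.im (∑ l, ((sb (ω l) : ℝ) : 𝕜) * c l)) =
          RCLike.im k0 := by
      refine ⟨((((2 : ℝ) ^ Fintype.card (Fin L))⁻¹ : ℝ) : 𝕜) *
        (∑ ω : Fin L → Bool, ((sb (s ω) : ℝ) : 𝕜) * (∑ l, ((sb (ω l) : ℝ) : 𝕜) * c l)), ?_, ?_⟩
      · rw [RCLike.re_ofReal_mul, map_sum]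
        unfold Av
        rw [div_eq_inv_mul]
        congr 1
        apply Finset.sum_congr rfl; intro ω _
        rw [RCLike.re_ofReal_mul]
      · rw [RCLike.im_ofReal_mul, map_sum]
        unfold Av
        rw [div_eq_inv_mul]
        congr 1
        apply Finset.sum_congr rfl; intro ω _
        rw [RCLike.im_ofReal_mul]
    have hk3 : 9 / 32 ≤ RCLike.im k0 := by
      rw [← hk2]
      have e1 := khin (fun l => RCLike.im (c l))
      have e2 : (fun ω : Fin L → Bool => sb (s ω) *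
          RCLike.im (∑ l, ((sb (ω l) : ℝ) : 𝕜) * c l)) =
          fun ω => |∑ l, sb (ω l) * RCLike.im (c l)| := by
        funext ω
        simp only [s]
        rw [himag, hsb]
      rw [e2]
      linarith
    have hk4 : 9 / 32 ≤ ‖k0‖ := hk3.trans ((le_abs_self _).trans (RCLike.abs_im_le_norm k0))
    refine le_trans ?_ (rr_prod_ge c w s k0 hk1 hk2)
    gcongr

end lower

section main

variable {𝕜 : Type} [RCLike 𝕜] {X : Type} [NormedAddCommGroup X] [NormedSpace 𝕜 X]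

/-- an almost extremal Bessel family with large average -/
theorem exists_extremal (hX : ¬ FiniteDimensional 𝕜 X) (K : ℝ) (hK : 0 < K) :
    ∃ (E : Submodule 𝕜 X) (N : ℕ) (w : Fin N → X), Bes 𝕜 w ∧ K ≤ rr 𝕜 w ∧ (∀ i, w i ∈ E) ∧
      ∀ (N' : ℕ) (w' : Fin N' → X), Bes 𝕜 w' → (∀ i, w' i ∈ E) → rr 𝕜 w' ≤ 2 * rr 𝕜 w := by
  classical
  obtain ⟨M, v, hv, hvK⟩ := exists_big hX (2 * K)
  let E : Submodule 𝕜 X := Submodule.span 𝕜 (Set.range v)
  have : FiniteDimensional 𝕜 E := FiniteDimensional.span_of_finite 𝕜 (Set.finite_range v)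
  obtain ⟨C, hC⟩ := bounded_rr (𝕜 := 𝕜) E
  let S : Set ℝ := {t | ∃ (N : ℕ) (w : Fin N → X), Bes 𝕜 w ∧ (∀ i, w i ∈ E) ∧ rr 𝕜 w = t}
  have hbdd : BddAbove S := by
    refine ⟨C, ?_⟩
    rintro t ⟨N, w, hw, hwE, rfl⟩
    have h1 := hC N (fun i => ⟨w i, hwE i⟩) (by
      intro a
      have := hw a
      rw [Submodule.coe_norm, Submodule.coe_sum]
      exact this)
    refine le_trans (le_of_eq ?_) h1
    unfold rr
    congr 1
    funext ε
    unfold ss
    rw [Submodule.coe_norm, Submodule.coe_sum]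
    rfl
  have hmem : rr 𝕜 v ∈ S := ⟨M, v, hv, fun i => Submodule.subset_span ⟨i, rfl⟩, rfl⟩
  have hs : 2 * K ≤ sSup S := hvK.trans (le_csSup hbdd hmem)
  obtain ⟨t, ⟨N, w, hw, hwE, rfl⟩, ht⟩ := exists_lt_of_lt_csSup ⟨_, hmem⟩
    (show sSup S / 2 < sSup S by linarith)
  refine ⟨E, N, w, hw, by linarith, hwE, ?_⟩
  intro N' w' hw' hw'E
  have := le_csSup hbdd (show rr 𝕜 w' ∈ S from ⟨N', w', hw', hw'E, rfl⟩)
  linarith

/-- Dvoretzky's theorem (isomorphic form with an absolute constant) -/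
theorem dvoretzky (hX : ¬ FiniteDimensional 𝕜 X) (n : ℕ) :
    ∃ T : EuclideanSpace 𝕜 (Fin n) →L[𝕜] X, ∀ x, ‖x‖ ≤ ‖T x‖ ∧ ‖T x‖ ≤ 22 * ‖x‖ := by
  classical
  obtain ⟨S, hS1, hS2⟩ := exists_sphere_net (H := EuclideanSpace 𝕜 (Fin n)) (1 / 64) (by norm_num)
  set q := Real.sqrt (2 * S.card) with hq
  have hq0 : 0 ≤ q := Real.sqrt_nonneg _
  obtain ⟨E, N, w, hw, hwK, hwE, hmax⟩ := exists_extremal hX (64 / 9 * q + 1) (by positivity)
  set r := rr 𝕜 w with hr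
  have hrpos : 0 < r := by linarith
  have hqr : q ≤ 9 / 64 * r := by linarith
  -- the families
  let y : EuclideanSpace 𝕜 (Fin n) → Fin N × Fin n → X := fun x p => x p.2 • w p.1
  have hsum : ∀ x ∈ S, ∑ l, ‖x l‖ ^ 2 = 1 := by
    intro x hx
    rw [← EuclideanSpace.norm_sq_eq, hS1 x hx, one_pow]
  have hyB : ∀ x ∈ S, Bes 𝕜 (y x) := fun x hx => hw.prod _ (hsum x hx).le
  have hlow : ∀ x ∈ S, 9 / 32 * r ≤ rr 𝕜 (y x) := fun x hx => rr_prod_lower _ (hsum x hx) w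
  have hup : ∀ x ∈ S, rr 𝕜 (y x) ≤ 2 * r := by
    intro x hx
    let e : Fin N × Fin n ≃ Fin (N * n) := finProdFinEquiv
    have h1 : rr 𝕜 (fun i => y x (e.symm i)) = rr 𝕜 (y x) := by
      unfold rr
      rw [Av_equiv e (fun ε => ‖ss 𝕜 (y x) ε‖)]
      congr 1
      funext ε
      congr 1
      unfold ss
      rw [← Equiv.sum_comp e]
      simp
    rw [← h1]
    apply hmax
    · intro a
      have h1 : ∑ i, a i • y x (e.symm i) = ∑ p, a (e p) • y x p := by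
        rw [← Equiv.sum_comp e]
        simp
      have h2 : ∑ i, ‖a i‖ ^ 2 = ∑ p, ‖a (e p)‖ ^ 2 := (Equiv.sum_comp e _).symm
      rw [h1, h2]
      exact hyB x hx _
    · intro i
      exact E.smul_mem _ (hwE _)
  -- a good sign vector
  obtain ⟨ε, hε⟩ : ∃ ε : Fin N × Fin n → Bool,
      ∑ x ∈ S, (‖ss 𝕜 (y x) ε‖ - rr 𝕜 (y x)) ^ 2 ≤ 2 * S.card := by
    by_contra hcon
    push Not at hcon
    have h1 : Av (fun ε => ∑ x ∈ S, (‖ss 𝕜 (y x) ε‖ - rr 𝕜 (y x)) ^ 2) ≤ 2 * S.card := by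
      rw [Av_sum]
      calc ∑ x ∈ S, Av (fun ε => (‖ss 𝕜 (y x) ε‖ - rr 𝕜 (y x)) ^ 2) ≤ ∑ x ∈ S, (2 : ℝ) := by
            apply Finset.sum_le_sum
            intro x hx
            have h2 := var_norm (hyB x hx)
            have h3 : (fun ε => (‖ss 𝕜 (y x) ε‖ - rr 𝕜 (y x)) ^ 2) = fun ε =>
                (‖ss 𝕜 (y x) ε‖ ^ 2 - (2 * rr 𝕜 (y x)) * ‖ss 𝕜 (y x) ε‖) + (rr 𝕜 (y x)) ^ 2 := by
              funext ε; ring
            rw [h3, Av_add, Av_sub, Av_mul, Av_const]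
            have h4 : Av (fun ε => ‖ss 𝕜 (y x) ε‖) = rr 𝕜 (y x) := rfl
            rw [h4] at h2 ⊢
            nlinarith
        _ = 2 * S.card := by rw [Finset.sum_const, nsmul_eq_mul]; ring
    -- strict lower bound contradicts
    have h2 : 2 * (S.card : ℝ) < Av (fun ε => ∑ x ∈ S, (‖ss 𝕜 (y x) ε‖ - rr 𝕜 (y x)) ^ 2) := by
      rw [← Av_const (ι := Fin N × Fin n) (2 * (S.card : ℝ))]
      unfold Av
      apply div_lt_div_of_pos_right _ (by positivity)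
      apply Finset.sum_lt_sum_of_nonempty ⟨fun _ => true, Finset.mem_univ _⟩
      intro ε _
      exact hcon ε
    linarith
  -- the operator
  let t : Fin n → X := fun l => ∑ i, ((sb (ε (i, l)) : ℝ) : 𝕜) • w i
  let T0 : EuclideanSpace 𝕜 (Fin n) →ₗ[𝕜] X :=
    { toFun := fun x => ∑ l, x l • t l
      map_add' := by
        intro x z
        simp only [PiLp.add_apply, add_smul, Finset.sum_add_distrib]
      map_smul' := by
        intro c x
        simp only [PiLp.smul_apply, smul_eq_mul, RingHom.id_apply, Finset.smul_sum, smul_smul] }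
  let T : EuclideanSpace 𝕜 (Fin n) →L[𝕜] X := LinearMap.toContinuousLinearMap T0
  have hT : ∀ x, T x = ss 𝕜 (y x) ε := by
    intro x
    change ∑ l, x l • t l = ss 𝕜 (y x) ε
    unfold ss
    rw [Fintype.sum_prod_type_right]
    apply Finset.sum_congr rfl; intro l _
    simp only [t]
    rw [Finset.smul_sum]
    apply Finset.sum_congr rfl; intro i _
    rw [smul_comm]
  have hnet : ∀ x ∈ S, 9 / 64 * r ≤ ‖T x‖ ∧ ‖T x‖ ≤ 137 / 64 * r := by
    intro x hx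
    rw [hT]
    have h1 : (‖ss 𝕜 (y x) ε‖ - rr 𝕜 (y x)) ^ 2 ≤ 2 * S.card :=
      (Finset.single_le_sum (f := fun x => (‖ss 𝕜 (y x) ε‖ - rr 𝕜 (y x)) ^ 2)
        (fun x _ => sq_nonneg _) hx).trans hε
    have h2 : |‖ss 𝕜 (y x) ε‖ - rr 𝕜 (y x)| ≤ q := Real.abs_le_sqrt h1
    have h3 := abs_le.1 h2
    have h4 := hlow x hx
    have h5 := hup x hx
    constructor
    · linarith [h3.1]
    · linarith [h3.2]
  have hTn : ‖T‖ ≤ 137 / 63 * r := by
    have h1 : ‖T‖ ≤ 137 / 64 * r + ‖T‖ * (1 / 64) := by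
      apply ContinuousLinearMap.opNorm_le_bound _ (by positivity)
      intro x
      by_cases h0 : x = 0
      · subst h0; simp
      have hpos : 0 < ‖x‖ := norm_pos_iff.2 h0
      have h2 : ‖((‖x‖⁻¹ : ℝ) : 𝕜) • x‖ = 1 := by
        rw [norm_smul, RCLike.norm_ofReal, abs_of_pos (by positivity), inv_mul_cancel₀ hpos.ne']
      obtain ⟨z, hz, hxz⟩ := hS2 _ h2
      have h3 : ‖T (((‖x‖⁻¹ : ℝ) : 𝕜) • x)‖ ≤ 137 / 64 * r + ‖T‖ * (1 / 64) := by
        have e1 : T (((‖x‖⁻¹ : ℝ) : 𝕜) • x) = T z + T (((‖x‖⁻¹ : ℝ) : 𝕜) • x - z) := by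
          rw [← map_add]; congr 1; abel
        rw [e1]
        refine (norm_add_le _ _).trans ?_
        have e2 := (hnet z hz).2
        have e3 : ‖T (((‖x‖⁻¹ : ℝ) : 𝕜) • x - z)‖ ≤ ‖T‖ * (1 / 64) := by
          refine (T.le_opNorm _).trans ?_
          gcongr
        linarith
      rw [map_smul, norm_smul, RCLike.norm_ofReal, abs_of_pos (by positivity)] at h3
      calc ‖T x‖ = (‖x‖⁻¹ * ‖T x‖) * ‖x‖ := by field_simp
        _ ≤ (137 / 64 * r + ‖T‖ * (1 / 64)) * ‖x‖ := by gcongr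
    linarith
  have hTl : ∀ x, r / 10 * ‖x‖ ≤ ‖T x‖ := by
    intro x
    by_cases h0 : x = 0
    · subst h0; simp
    have hpos : 0 < ‖x‖ := norm_pos_iff.2 h0
    have h2 : ‖((‖x‖⁻¹ : ℝ) : 𝕜) • x‖ = 1 := by
      rw [norm_smul, RCLike.norm_ofReal, abs_of_pos (by positivity), inv_mul_cancel₀ hpos.ne']
    obtain ⟨z, hz, hxz⟩ := hS2 _ h2
    have h3 : r / 10 ≤ ‖T (((‖x‖⁻¹ : ℝ) : 𝕜) • x)‖ := by
      have e1 : T z = T (((‖x‖⁻¹ : ℝ) : 𝕜) • x) - T (((‖x‖⁻¹ : ℝ) : 𝕜) • x - z) := by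
        rw [← map_sub]; congr 1; abel
      have e2 := (hnet z hz).1
      have e3 : ‖T (((‖x‖⁻¹ : ℝ) : 𝕜) • x - z)‖ ≤ 137 / 63 * r * (1 / 64) := by
        refine (T.le_opNorm _).trans ?_
        gcongr
      have e4 : ‖T z‖ ≤ ‖T (((‖x‖⁻¹ : ℝ) : 𝕜) • x)‖ + ‖T (((‖x‖⁻¹ : ℝ) : 𝕜) • x - z)‖ := by
        conv_lhs => rw [e1]
        exact norm_sub_le _ _
      linarith
    rw [map_smul, norm_smul, RCLike.norm_ofReal, abs_of_pos (by positivity)] at h3
    calc r / 10 * ‖x‖ ≤ (‖x‖⁻¹ * ‖T x‖) * ‖x‖ := by gcongr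
      _ = ‖T x‖ := by field_simp
  refine ⟨((10 / r : ℝ) : 𝕜) • T, ?_⟩
  intro x
  have h1 : ‖(((10 / r : ℝ) : 𝕜) • T) x‖ = 10 / r * ‖T x‖ := by
    change ‖((10 / r : ℝ) : 𝕜) • T x‖ = _
    rw [norm_smul, RCLike.norm_ofReal, abs_of_pos (by positivity)]
  rw [h1]
  constructor
  · have := hTl x
    calc ‖x‖ = 10 / r * (r / 10 * ‖x‖) := by field_simp
      _ ≤ 10 / r * ‖T x‖ := by gcongr
  · have h2 : ‖T x‖ ≤ 137 / 63 * r * ‖x‖ := (T.le_opNorm x).trans (by gcongr)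
    calc 10 / r * ‖T x‖ ≤ 10 / r * (137 / 63 * r * ‖x‖) := by gcongr
      _ = 1370 / 63 * ‖x‖ := by field_simp; ring
      _ ≤ 22 * ‖x‖ := by
          have := norm_nonneg x
          nlinarith

end main

end Pool.Helper799.Te
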