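import Pool.Agent.Helper799.Union

set_option autoImplicit false

namespace Pool.Agent.Helper799.Exist

open Finset Equiv
open Pool.Agent.Helper799.PermCount Pool.Agent.Helper799.Union

/-- first bad event for `S`, `T` -/
def B1 (N : ℕ) (S T : Finset (Fin N)) : Finset (Fin 24 → Perm (Fin N)) :=
  Finset.univ.filter (fun σ => ∀ i, ∀ x ∈ S, σ i x ∈ T)

/-- second bad event for a set of constraints -/
def B2 (N : ℕ) (I : Finset (Fin 24 × Fin N × Fin N)) : Finset (Fin 24 → Perm (Fin N)) :=
  Finset.univ.filter (fun σ => ∀ a ∈ I, σ a.1 a.2.1 = a.2.2)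

lemma B1_card (N : ℕ) (hN : 0 < N) (S T : Finset (Fin N)) (F : ℝ)
    (hF : F = (Nat.factorial N : ℝ) ^ 24) (s t : ℕ) (hs : S.card = s) (ht : T.card = t) :
    ((B1 N S T).card : ℝ) ≤ (((t : ℝ) / N) ^ s) ^ 24 * F := by
  have h := prob_into_all 24 S T (by simpa using hN)
  rw [hs, ht, Fintype.card_fin, ← hF] at h
  refine le_trans (le_of_eq ?_) h
  unfold B1
  congr!

lemma B2_card (N : ℕ) (hN : 0 < N) (I : Finset (Fin 24 × Fin N × Fin N)) (F : ℝ)
    (hF : F = (Nat.factorial N : ℝ) ^ 24) (m : ℕ) (hm : I.card = m) (hmN : 2 * m ≤ N) :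
    ((B2 N I).card : ℝ) ≤ (2 / (N : ℝ)) ^ m * F := by
  have h := prob_constr_all 24 I (by simpa using hN)
    (by rw [hm, Fintype.card_fin]; exact hmN)
  rw [hm, Fintype.card_fin, ← hF] at h
  refine le_trans (le_of_eq ?_) h
  unfold B2
  congr!

theorem exists_sigma (N : ℕ) (hN : 0 < N) : ∃ σ : Fin 24 → Perm (Fin N),
    (∀ S T : Finset (Fin N), 1 ≤ S.card → 2 * S.card ≤ N → T.card = 3 * S.card / 2 →
      ¬ (∀ i, ∀ x ∈ S, σ i x ∈ T)) ∧
    (∀ (U : Finset (Fin N)) (I : Finset (Fin 24 × Fin N × Fin N)), 1 ≤ U.card →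
      17161 * U.card ≤ N → I.card = mm N U.card → (∀ a ∈ I, a.2.1 ∈ U ∧ a.2.2 ∈ U) →
      ¬ (∀ a ∈ I, σ a.1 a.2.1 = a.2.2)) := by
  classical
  obtain ⟨F, hF⟩ : ∃ F : ℝ, F = (Nat.factorial N : ℝ) ^ 24 := ⟨_, rfl⟩
  have hF0 : 0 < F := by
    have : (0:ℝ) < Nat.factorial N := by exact_mod_cast Nat.factorial_pos N
    rw [hF]
    positivity
  let bad1 : Finset (Fin 24 → Perm (Fin N)) :=
    ((Finset.univ : Finset (Fin N)).powerset.filter (fun S => 1 ≤ S.card ∧ 2 * S.card ≤ N)).biUnion
      (fun S => (Finset.powersetCard (3 * S.card / 2) (Finset.univ : Finset (Fin N))).biUnion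
        (fun T => B1 N S T))
  let bad2 : Finset (Fin 24 → Perm (Fin N)) :=
    ((Finset.univ : Finset (Fin N)).powerset.filter
        (fun U => 1 ≤ U.card ∧ 17161 * U.card ≤ N)).biUnion
      (fun U => (Finset.powersetCard (mm N U.card)
          ((Finset.univ : Finset (Fin 24)) ×ˢ (U ×ˢ U))).biUnion
        (fun I => B2 N I))
  have hb1 : (bad1.card : ℝ) ≤ (1 / 7) * F := by
    have h1 : (bad1.card : ℝ) ≤ ∑ S ∈ (Finset.univ : Finset (Fin N)).powerset.filter
        (fun S => 1 ≤ S.card ∧ 2 * S.card ≤ N),
        ((N.choose (3 * S.card / 2) : ℝ)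
          * (((((3 * S.card / 2 : ℕ) : ℝ)) / N) ^ S.card) ^ 24) * F := by
      calc (bad1.card : ℝ) ≤ ∑ S ∈ (Finset.univ : Finset (Fin N)).powerset.filter
            (fun S => 1 ≤ S.card ∧ 2 * S.card ≤ N),
            (((Finset.powersetCard (3 * S.card / 2) (Finset.univ : Finset (Fin N))).biUnion
              (fun T => B1 N S T)).card : ℝ) := by
            exact_mod_cast Finset.card_biUnion_le
        _ ≤ _ := by
            apply Finset.sum_le_sum
            intro S hS
            calc (((Finset.powersetCard (3 * S.card / 2) (Finset.univ : Finset (Fin N))).biUnion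
                  (fun T => B1 N S T)).card : ℝ)
                ≤ ∑ T ∈ Finset.powersetCard (3 * S.card / 2) (Finset.univ : Finset (Fin N)),
                  ((B1 N S T).card : ℝ) := by exact_mod_cast Finset.card_biUnion_le
              _ ≤ ∑ T ∈ Finset.powersetCard (3 * S.card / 2) (Finset.univ : Finset (Fin N)),
                  (((((3 * S.card / 2 : ℕ) : ℝ)) / N) ^ S.card) ^ 24 * F := by
                  apply Finset.sum_le_sum
                  intro T hT
                  rw [Finset.mem_powersetCard] at hT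
                  exact B1_card N hN S T F hF _ _ rfl hT.2
              _ = _ := by
                  rw [Finset.sum_const, Finset.card_powersetCard, Finset.card_univ,
                    Fintype.card_fin, nsmul_eq_mul]
                  ring
    let g : ℕ → ℝ := fun s => if 1 ≤ s ∧ 2 * s ≤ N then
      ((N.choose (3 * s / 2) : ℝ) * (((((3 * s / 2 : ℕ) : ℝ)) / N) ^ s) ^ 24) else 0
    have h2 : ∑ S ∈ (Finset.univ : Finset (Fin N)).powerset.filter
        (fun S => 1 ≤ S.card ∧ 2 * S.card ≤ N),
        ((N.choose (3 * S.card / 2) : ℝ)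
          * (((((3 * S.card / 2 : ℕ) : ℝ)) / N) ^ S.card) ^ 24) * F
        = (∑ S ∈ (Finset.univ : Finset (Fin N)).powerset, g S.card) * F := by
      rw [Finset.sum_filter, Finset.sum_mul]
      apply Finset.sum_congr rfl
      intro S _
      simp only [g]
      split_ifs <;> simp
    rw [h2, Finset.sum_powerset_apply_card, Finset.card_univ, Fintype.card_fin] at h1
    refine h1.trans ?_
    apply mul_le_mul_of_nonneg_right _ hF0.le
    calc ∑ s ∈ Finset.range (N + 1), N.choose s • g s
        ≤ ∑ s ∈ Finset.range (N + 1), (if s = 0 then 0 else (1 / 8 : ℝ) ^ s) := by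
          apply Finset.sum_le_sum
          intro s _
          simp only [g]
          by_cases hs : 1 ≤ s ∧ 2 * s ≤ N
          · rw [if_pos hs, if_neg (by omega), nsmul_eq_mul]
            exact term1 N s hs.1 hs.2
          · rw [if_neg hs]
            simp only [smul_zero]
            split_ifs <;> positivity
      _ ≤ (1 / 8) / (1 - 1 / 8) := geom_bound _ (by norm_num) (by norm_num) _
      _ = 1 / 7 := by norm_num
  have hb2 : (bad2.card : ℝ) ≤ (1 / 3) * F := by
    have h1 : (bad2.card : ℝ) ≤ ∑ U ∈ (Finset.univ : Finset (Fin N)).powerset.filter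
        (fun U => 1 ≤ U.card ∧ 17161 * U.card ≤ N),
        (((24 * U.card ^ 2).choose (mm N U.card) : ℝ)
          * (2 / (N:ℝ)) ^ (mm N U.card)) * F := by
      calc (bad2.card : ℝ) ≤ ∑ U ∈ (Finset.univ : Finset (Fin N)).powerset.filter
            (fun U => 1 ≤ U.card ∧ 17161 * U.card ≤ N),
            (((Finset.powersetCard (mm N U.card)
              ((Finset.univ : Finset (Fin 24)) ×ˢ (U ×ˢ U))).biUnion
              (fun I => B2 N I)).card : ℝ) := by
            exact_mod_cast Finset.card_biUnion_le
        _ ≤ _ := by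
            apply Finset.sum_le_sum
            intro U hU
            rw [Finset.mem_filter] at hU
            calc (((Finset.powersetCard (mm N U.card)
                  ((Finset.univ : Finset (Fin 24)) ×ˢ (U ×ˢ U))).biUnion
                  (fun I => B2 N I)).card : ℝ)
                ≤ ∑ I ∈ Finset.powersetCard (mm N U.card)
                  ((Finset.univ : Finset (Fin 24)) ×ˢ (U ×ˢ U)),
                  ((B2 N I).card : ℝ) := by exact_mod_cast Finset.card_biUnion_le
              _ ≤ ∑ I ∈ Finset.powersetCard (mm N U.card)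
                  ((Finset.univ : Finset (Fin 24)) ×ˢ (U ×ˢ U)),
                  (2 / (N:ℝ)) ^ (mm N U.card) * F := by
                  apply Finset.sum_le_sum
                  intro I hI
                  rw [Finset.mem_powersetCard] at hI
                  have hm := mm_le N U.card hU.2.1 hU.2.2
                  exact B2_card N hN I F hF _ hI.2 (by have := hU.2.2; omega)
              _ = _ := by
                  rw [Finset.sum_const, Finset.card_powersetCard, Finset.card_product,
                    Finset.card_product, Finset.card_univ, Fintype.card_fin, nsmul_eq_mul]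
                  rw [show 24 * (U.card * U.card) = 24 * U.card ^ 2 by ring]
                  ring
    let g : ℕ → ℝ := fun s => if 1 ≤ s ∧ 17161 * s ≤ N then
      (((24 * s ^ 2).choose (mm N s) : ℝ) * (2 / (N:ℝ)) ^ (mm N s)) else 0
    have h2 : ∑ U ∈ (Finset.univ : Finset (Fin N)).powerset.filter
        (fun U => 1 ≤ U.card ∧ 17161 * U.card ≤ N),
        (((24 * U.card ^ 2).choose (mm N U.card) : ℝ)
          * (2 / (N:ℝ)) ^ (mm N U.card)) * F
        = (∑ S ∈ (Finset.univ : Finset (Fin N)).powerset, g S.card) * F := by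
      rw [Finset.sum_filter, Finset.sum_mul]
      apply Finset.sum_congr rfl
      intro S _
      simp only [g]
      split_ifs <;> simp
    rw [h2, Finset.sum_powerset_apply_card, Finset.card_univ, Fintype.card_fin] at h1
    refine h1.trans ?_
    apply mul_le_mul_of_nonneg_right _ hF0.le
    calc ∑ s ∈ Finset.range (N + 1), N.choose s • g s
        ≤ ∑ s ∈ Finset.range (N + 1), (if s = 0 then 0 else (1 / 4 : ℝ) ^ s) := by
          apply Finset.sum_le_sum
          intro s _
          simp only [g]
          by_cases hs : 1 ≤ s ∧ 17161 * s ≤ N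
          · rw [if_pos hs, if_neg (by omega), nsmul_eq_mul]
            exact term2 N s hs.1 hs.2
          · rw [if_neg hs]
            simp only [smul_zero]
            split_ifs <;> positivity
      _ ≤ (1 / 4) / (1 - 1 / 4) := geom_bound _ (by norm_num) (by norm_num) _
      _ = 1 / 3 := by norm_num
  have hcard : ((Finset.univ : Finset (Fin 24 → Perm (Fin N))).card : ℝ) = F := by
    rw [Finset.card_univ, Fintype.card_fun, Fintype.card_perm, Fintype.card_fin, Fintype.card_fin,
      hF]
    push_cast
    rfl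
  have hlt : (bad1 ∪ bad2).card < (Finset.univ : Finset (Fin 24 → Perm (Fin N))).card := by
    have h1 : ((bad1 ∪ bad2).card : ℝ) ≤ bad1.card + bad2.card := by
      exact_mod_cast Finset.card_union_le _ _
    have h2 : ((bad1 ∪ bad2).card : ℝ)
        < ((Finset.univ : Finset (Fin 24 → Perm (Fin N))).card : ℝ) := by
      rw [hcard]; linarith
    exact_mod_cast h2
  obtain ⟨σ, -, hσ⟩ := Finset.exists_mem_notMem_of_card_lt_card hlt
  rw [Finset.mem_union, not_or] at hσ
  refine ⟨σ, ?_, ?_⟩
  · intro S T hS1 hS2 hT hall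
    apply hσ.1
    simp only [bad1, Finset.mem_biUnion, Finset.mem_filter, Finset.mem_powersetCard, B1]
    exact ⟨S, ⟨Finset.mem_powerset.2 (Finset.subset_univ _), hS1, hS2⟩, T,
      ⟨Finset.subset_univ _, hT⟩, Finset.mem_univ _, hall⟩
  · intro U I hU1 hU2 hI hIU hall
    apply hσ.2
    simp only [bad2, Finset.mem_biUnion, Finset.mem_filter, Finset.mem_powersetCard, B2]
    refine ⟨U, ⟨Finset.mem_powerset.2 (Finset.subset_univ _), hU1, hU2⟩, I,
      ⟨?_, hI⟩, Finset.mem_univ _, hall⟩
    intro a ha
    rw [Finset.mem_product, Finset.mem_product]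
    exact ⟨Finset.mem_univ _, hIU a ha⟩

end Pool.Agent.Helper799.Exist
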