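import Pool.Agent.Helper799.Exist

set_option autoImplicit false

namespace Pool.Agent.Helper799.Graph

open Finset Equiv
open Pool.Agent.Helper799.Union

/-- the set of constraints satisfied inside `U` -/
noncomputable def Tr {N : ℕ} (σ : Fin 24 → Perm (Fin N)) (U : Finset (Fin N)) :
    Finset (Fin 24 × Fin N × Fin N) :=
  ((Finset.univ : Finset (Fin 24)) ×ˢ (U ×ˢ U)).filter (fun a => σ a.1 a.2.1 = a.2.2)

lemma Tr_card_le {N : ℕ} (σ : Fin 24 → Perm (Fin N)) (U : Finset (Fin N)) :
    (Tr σ U).card ≤ 24 * U.card := by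
  have h1 : (Tr σ U).card ≤ ((Finset.univ : Finset (Fin 24)) ×ˢ U).card := by
    apply Finset.card_le_card_of_injOn (fun a => (a.1, a.2.1))
    · intro a ha
      simp only [Tr, Finset.coe_filter, Finset.mem_product, Finset.mem_univ, true_and,
        Set.mem_ofPred_eq] at ha
      simp only [Finset.coe_product, Set.mem_prod, Finset.mem_coe, Finset.mem_univ, true_and]
      exact ha.1.1
    · intro a ha b hb hab
      simp only [Tr, Finset.coe_filter, Finset.mem_product, Finset.mem_univ, true_and,
        Set.mem_ofPred_eq] at ha hb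
      simp only [Prod.mk.injEq] at hab
      have h3 : a.2.2 = b.2.2 := by rw [← ha.2, ← hb.2, hab.1, hab.2]
      exact Prod.ext hab.1 (Prod.ext hab.2 h3)
  rw [Finset.card_product, Finset.card_univ, Fintype.card_fin] at h1
  exact h1

/-- A family of bounded degree, expanding, small-set-sparse graphs. -/
theorem exists_graph (N : ℕ) (hN : 0 < N) : ∃ R : Fin N → Fin N → Prop,
    (∀ x y, R x y → R y x) ∧ (∀ x, ¬ R x x) ∧
    (∀ x (A : Finset (Fin N)), (∀ y ∈ A, R x y) → A.card ≤ 48) ∧
    (∀ S : Finset (Fin N), 2 * S.card ≤ N →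
      ∃ T : Finset (Fin N), Disjoint S T ∧ (∀ y ∈ T, ∃ x ∈ S, R x y) ∧
        (1 / 2 : ℝ) * S.card ≤ T.card) ∧
    (∀ (U : Finset (Fin N)) (E : Finset (Fin N × Fin N)), U.Nonempty →
      (∀ e ∈ E, e.1 < e.2 ∧ R e.1 e.2 ∧ e.1 ∈ U ∧ e.2 ∈ U) →
      (E.card : ℝ) ≤ U.card + 1000 * U.card / (1 + Real.log (N / U.card))) := by
  classical
  obtain ⟨σ, hσ1, hσ2⟩ := Exist.exists_sigma N hN
  refine ⟨fun x y => x ≠ y ∧ ∃ i, σ i x = y ∨ σ i y = x, ?_, ?_, ?_, ?_, ?_⟩
  · rintro x y ⟨h1, i, h2⟩
    exact ⟨h1.symm, i, h2.symm⟩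
  · rintro x ⟨h, _⟩
    exact h rfl
  · intro x A hA
    have hsub : A ⊆ (Finset.univ.image (fun i => σ i x))
        ∪ (Finset.univ.image (fun i => (σ i).symm x)) := by
      intro y hy
      obtain ⟨_, i, h | h⟩ := hA y hy
      · exact Finset.mem_union_left _ (Finset.mem_image.2 ⟨i, Finset.mem_univ _, h⟩)
      · exact Finset.mem_union_right _ (Finset.mem_image.2 ⟨i, Finset.mem_univ _, by
          rw [← h, Equiv.symm_apply_apply]⟩)
    have h1 : (Finset.univ.image (fun i => σ i x)).card ≤ 24 := by
      refine Finset.card_image_le.trans ?_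
      simp
    have h2 : (Finset.univ.image (fun i => (σ i).symm x)).card ≤ 24 := by
      refine Finset.card_image_le.trans ?_
      simp
    have h3 := (Finset.card_le_card hsub).trans (Finset.card_union_le _ _)
    omega
  · intro S hS
    rcases S.eq_empty_or_nonempty with rfl | hne
    · exact ⟨∅, by simp, by simp, by simp⟩
    have hS1 : 1 ≤ S.card := hne.card_pos
    set Y : Finset (Fin N) := ((Finset.univ : Finset (Fin 24)) ×ˢ S).image (fun a => σ a.1 a.2)
      with hY
    have hYcard : 3 * S.card / 2 < Y.card := by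
      by_contra hcon
      push Not at hcon
      have hle : 3 * S.card / 2 ≤ (Finset.univ : Finset (Fin N)).card := by
        rw [Finset.card_univ, Fintype.card_fin]; omega
      obtain ⟨T, hYT, -, hT⟩ := Finset.exists_subsuperset_card_eq (Finset.subset_univ Y) hcon hle
      apply hσ1 S T hS1 hS hT
      intro i x hx
      apply hYT
      rw [hY, Finset.mem_image]
      exact ⟨(i, x), Finset.mem_product.2 ⟨Finset.mem_univ _, hx⟩, rfl⟩
    refine ⟨Y \ S, Finset.disjoint_sdiff, ?_, ?_⟩
    · intro y hy
      rw [Finset.mem_sdiff, hY, Finset.mem_image] at hy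
      obtain ⟨⟨⟨i, x⟩, hx, hxy⟩, hyS⟩ := hy
      have hxS := (Finset.mem_product.1 hx).2
      refine ⟨x, hxS, ?_, i, Or.inl hxy⟩
      rintro rfl
      exact hyS hxS
    · have h1 : Y.card - S.card ≤ (Y \ S).card := Finset.le_card_sdiff S Y
      have h2 : S.card ≤ 2 * (Y \ S).card := by omega
      have h3 : (S.card : ℝ) ≤ 2 * (Y \ S).card := by exact_mod_cast h2
      linarith
  · intro U E hU hE
    have hu : 1 ≤ U.card := hU.card_pos
    have hu0 : (0:ℝ) < U.card := by exact_mod_cast hu
    have hET : E.card ≤ (Tr σ U).card := by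
      have hsub : E ⊆ (Tr σ U).image (fun a => (min a.2.1 a.2.2, max a.2.1 a.2.2)) := by
        intro e he
        obtain ⟨h1, ⟨_, i, h2 | h2⟩, h3, h4⟩ := hE e he
        · rw [Finset.mem_image]
          refine ⟨(i, e.1, e.2), ?_, ?_⟩
          · simp only [Tr, Finset.mem_filter, Finset.mem_product, Finset.mem_univ, true_and]
            exact ⟨⟨h3, h4⟩, h2⟩
          · simp only [min_eq_left h1.le, max_eq_right h1.le]
        · rw [Finset.mem_image]
          refine ⟨(i, e.2, e.1), ?_, ?_⟩
          · simp only [Tr, Finset.mem_filter, Finset.mem_product, Finset.mem_univ, true_and]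
            exact ⟨⟨h4, h3⟩, h2⟩
          · simp only [min_eq_right h1.le, max_eq_left h1.le]
      exact (Finset.card_le_card hsub).trans Finset.card_image_le
    by_cases hbig : 17161 * U.card ≤ N
    · have hlt : (Tr σ U).card < mm N U.card := by
        by_contra hcon
        push Not at hcon
        obtain ⟨I, hI, hIc⟩ := Finset.exists_subset_card_eq hcon
        apply hσ2 U I hu hbig hIc
        · intro a ha
          have := hI ha
          simp only [Tr, Finset.mem_filter, Finset.mem_product, Finset.mem_univ, true_and] at this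
          exact this.1
        · intro a ha
          have := hI ha
          simp only [Tr, Finset.mem_filter, Finset.mem_product, Finset.mem_univ, true_and] at this
          exact this.2
      have h1 : E.card ≤ ⌊((U.card : ℕ) : ℝ) + 1000 * (U.card : ℕ)
          / (1 + Real.log ((N:ℝ) / (U.card : ℕ)))⌋₊ := by
        unfold mm at hlt
        omega
      have hl := log_ge N U.card hu hbig
      have hl' := log131
      have h2 : 0 ≤ ((U.card : ℕ) : ℝ) + 1000 * (U.card : ℕ)
          / (1 + Real.log ((N:ℝ) / (U.card : ℕ))) := by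
        have : 0 ≤ 1000 * (U.card : ℝ) / (1 + Real.log ((N:ℝ) / (U.card : ℕ))) := by
          apply div_nonneg (by positivity); linarith
        linarith
      have h3 := Nat.floor_le h2
      have h4 : (E.card : ℝ) ≤ (⌊((U.card : ℕ) : ℝ) + 1000 * (U.card : ℕ)
          / (1 + Real.log ((N:ℝ) / (U.card : ℕ)))⌋₊ : ℝ) := by exact_mod_cast h1
      exact h4.trans h3
    · push Not at hbig
      have h1 : (E.card : ℝ) ≤ 24 * U.card := by exact_mod_cast hET.trans (Tr_card_le σ U)
      have hN0 : (0:ℝ) < N := by exact_mod_cast hN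
      have hUN : U.card ≤ N := by simpa using Finset.card_le_univ U
      have hUN' : (U.card : ℝ) ≤ N := by exact_mod_cast hUN
      have h2 : Real.log ((N:ℝ) / U.card) ≤ 10 := by
        rw [Real.log_le_iff_le_exp (by positivity)]
        have h3 : (N:ℝ) / U.card ≤ 17161 := by
          rw [div_le_iff₀ hu0]
          have : (N:ℝ) < 17161 * U.card := by exact_mod_cast hbig
          exact this.le
        refine h3.trans ?_
        have h4 : Real.exp 10 = Real.exp 1 ^ 10 := by
          rw [← Real.exp_nat_mul]; norm_num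
        rw [h4]
        have h5 : (2.7:ℝ) ≤ Real.exp 1 := by
          have := Real.exp_one_gt_d9
          linarith
        calc (17161:ℝ) ≤ 2.7 ^ 10 := by norm_num
          _ ≤ _ := by gcongr
      have h3 : 0 ≤ Real.log ((N:ℝ) / U.card) :=
        Real.log_nonneg ((one_le_div hu0).2 hUN')
      have h4 : 90 * (U.card : ℝ) ≤ 1000 * U.card / (1 + Real.log (N / U.card)) := by
        rw [le_div_iff₀ (by linarith)]
        nlinarith
      linarith

end Pool.Agent.Helper799.Graph
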