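import Pool.Agent.Helper799.Assemble

set_option autoImplicit false

namespace Pool.Agent.Helper799.L2sum

open Finset
open Pool.Agent.Helper799.Khin Pool.Agent.Helper799.Assemble

/-- abstract `ℓ_2`-sum of cotype 4 inequalities, in terms of the real numbers involved -/
lemma l2sum_abs {m : ℕ} {J : Type*} [Fintype J] (a : Fin m → ℕ → ℝ) (b : J → ℕ → ℝ)
    (K c : ℝ) (hK : 0 ≤ K) (hc : 0 ≤ c)
    (ha0 : ∀ i n, 0 ≤ a i n) (hb0 : ∀ j n, 0 ≤ b j n)
    (ha : ∀ i, Summable (a i)) (hb : ∀ j, Summable (b j))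
    (h : ∀ n, ∑ i, a i n ^ 2 ≤ K * (c * ∑ j, b j n) ^ 2) :
    ∑ i, (∑' n, a i n) ^ 2 ≤ K * (c * ∑ j, ∑' n, b j n) ^ 2 := by
  set t : Fin m → ℝ := fun i => ∑' n, a i n with ht
  have ht0 : ∀ i, 0 ≤ t i := fun i => tsum_nonneg (ha0 i)
  set B : ℕ → ℝ := fun n => c * ∑ j, b j n with hB
  have hB0 : ∀ n, 0 ≤ B n := fun n => mul_nonneg hc (Finset.sum_nonneg fun j _ => hb0 j n)
  have hBs : Summable B := (summable_sum fun j _ => hb j).mul_left c
  have hBt : ∑' n, B n = c * ∑ j, ∑' n, b j n := by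
    rw [tsum_mul_left, Summable.tsum_finsetSum (fun j _ => hb j)]
  set T := Real.sqrt (∑ i, t i ^ 2) with hT
  have hs : 0 ≤ ∑ i, t i ^ 2 := Finset.sum_nonneg fun _ _ => sq_nonneg _
  have hT2 : T ^ 2 = ∑ i, t i ^ 2 := Real.sq_sqrt hs
  have hT0 : 0 ≤ T := Real.sqrt_nonneg _
  have hpt : ∀ n, ∑ i, t i * a i n ≤ T * (Real.sqrt K * B n) := by
    intro n
    calc ∑ i, t i * a i n ≤ Real.sqrt (∑ i, t i ^ 2) * Real.sqrt (∑ i, a i n ^ 2) :=
          Real.sum_mul_le_sqrt_mul_sqrt _ _ _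
      _ ≤ T * Real.sqrt (K * B n ^ 2) := by
          have := h n
          gcongr
      _ = T * (Real.sqrt K * B n) := by
          rw [Real.sqrt_mul hK, Real.sqrt_sq (hB0 n)]
  have hsum1 : ∀ i, Summable (fun n => t i * a i n) := fun i => (ha i).mul_left _
  have h1 : T ^ 2 ≤ T * (Real.sqrt K * ∑' n, B n) := by
    calc T ^ 2 = ∑ i, t i * ∑' n, a i n := by
          rw [hT2]; exact Finset.sum_congr rfl fun i _ => by rw [sq]
      _ = ∑ i, ∑' n, t i * a i n := Finset.sum_congr rfl fun i _ => by rw [tsum_mul_left]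
      _ = ∑' n, ∑ i, t i * a i n := (Summable.tsum_finsetSum (fun i _ => hsum1 i)).symm
      _ ≤ ∑' n, T * (Real.sqrt K * B n) :=
          Summable.tsum_le_tsum hpt (summable_sum fun i _ => hsum1 i)
            ((hBs.mul_left _).mul_left _)
      _ = T * (Real.sqrt K * ∑' n, B n) := by rw [tsum_mul_left, tsum_mul_left]
  have hBt0 : 0 ≤ ∑' n, B n := tsum_nonneg hB0
  have h2 : T ≤ Real.sqrt K * ∑' n, B n := by
    rcases hT0.eq_or_lt with h0 | hpos
    · rw [← h0]; positivity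
    · rw [sq] at h1
      exact le_of_mul_le_mul_left h1 hpos
  calc ∑ i, t i ^ 2 = T ^ 2 := hT2.symm
    _ ≤ (Real.sqrt K * ∑' n, B n) ^ 2 := by gcongr
    _ = K * (c * ∑ j, ∑' n, b j n) ^ 2 := by
        rw [mul_pow, Real.sq_sqrt hK, hBt]

/-- Cotype 4 of the `ℓ_2`-sum. -/
theorem l2sum (G : ∀ n : ℕ, SimpleGraph (Fin (n + 2))) (hconn : ∀ n, (G n).Connected)
    (K : ℝ) (hK : 0 < K)
    (hcot : ∀ n (m : ℕ) (x : Fin m → Fin (n + 2) → ℝ), (∀ i, ∑ v, x i v = 0) →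
      ∑ i, nu (G n) (x i) ^ 4 ≤
        K * ((1 / 2 ^ m) * ∑ s : Finset (Fin m), nu (G n) (fun v => ∑ i, sg s i * x i v)) ^ 4)
    (m : ℕ) (x : Fin m → ∀ n, Fin (n + 2) → ℝ) (hx : ∀ i n, ∑ v, x i n v = 0)
    (hsum : ∀ i, Summable (fun n => nu (G n) (x i n) ^ 2)) :
    (∑ i, (Real.sqrt (∑' n, nu (G n) (x i n) ^ 2)) ^ (4:ℝ)) ^ (1 / (4:ℝ))
      ≤ Real.sqrt (Real.sqrt K) * Real.sqrt ((1 / 2 ^ m : ℝ) * ∑ s : Finset (Fin m),
            ∑' n, nu (G n) (fun v => ∑ i, sg s i * x i n v) ^ 2) := by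
  have hν0 : ∀ i n, 0 ≤ nu (G n) (x i n) := fun i n => nu_nonneg (G n) (hconn n) _ (hx i n)
  have hzs : ∀ n (s : Finset (Fin m)), ∑ v, (∑ i, sg s i * x i n v) = 0 := by
    intro n s
    rw [Finset.sum_comm]
    apply Finset.sum_eq_zero
    intro i _
    rw [← Finset.mul_sum, hx i n, mul_zero]
  have hνs0 : ∀ (s : Finset (Fin m)) n, 0 ≤ nu (G n) (fun v => ∑ i, sg s i * x i n v) :=
    fun s n => nu_nonneg (G n) (hconn n) _ (hzs n s)
  have hbs : ∀ s : Finset (Fin m),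
      Summable (fun n => nu (G n) (fun v => ∑ i, sg s i * x i n v) ^ 2) := by
    intro s
    have h1 : Summable (fun n => (m:ℝ) * ∑ i, nu (G n) (x i n) ^ 2) :=
      (summable_sum fun i _ => hsum i).mul_left _
    refine Summable.of_nonneg_of_le (fun n => sq_nonneg _) (fun n => ?_) h1
    have h2 := nu_comb (G n) (hconn n) (fun i => x i n) (fun i => hx i n) s
    calc nu (G n) (fun v => ∑ i, sg s i * x i n v) ^ 2 ≤ (∑ i, nu (G n) (x i n)) ^ 2 := by
          have := hνs0 s n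
          gcongr
      _ ≤ (m:ℝ) * ∑ i, nu (G n) (x i n) ^ 2 := by
          have := sq_sum_le_card_mul_sum_sq (s := (Finset.univ : Finset (Fin m)))
            (f := fun i => nu (G n) (x i n))
          simpa using this
  have hmain := l2sum_abs (fun i n => nu (G n) (x i n) ^ 2)
    (fun (s : Finset (Fin m)) n => nu (G n) (fun v => ∑ i, sg s i * x i n v) ^ 2)
    K (1 / 2 ^ m) hK.le (by positivity) (fun i n => sq_nonneg _) (fun s n => sq_nonneg _)
    hsum hbs (by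
      intro n
      have h1 := hcot n m (fun i => x i n) (fun i => hx i n)
      have h2 : ((1 / 2 ^ m : ℝ) * ∑ s : Finset (Fin m),
          nu (G n) (fun v => ∑ i, sg s i * x i n v)) ^ 2
          ≤ (1 / 2 ^ m : ℝ) * ∑ s : Finset (Fin m),
          nu (G n) (fun v => ∑ i, sg s i * x i n v) ^ 2 := by
        have h3 := sq_sum_le_card_mul_sum_sq (s := (Finset.univ : Finset (Finset (Fin m))))
            (f := fun s => nu (G n) (fun v => ∑ i, sg s i * x i n v))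
        have h4 : ((Finset.univ : Finset (Finset (Fin m))).card : ℝ) = 2 ^ m := by
          simp
        rw [h4] at h3
        have hp : (0:ℝ) < 2 ^ m := by positivity
        rw [mul_pow, div_pow, one_pow, div_mul_eq_mul_div, one_mul, div_mul_eq_mul_div, one_mul,
          div_le_div_iff₀ (by positivity) hp]
        nlinarith
      calc ∑ i, (nu (G n) (x i n) ^ 2) ^ 2 = ∑ i, nu (G n) (x i n) ^ 4 :=
            Finset.sum_congr rfl fun i _ => by ring
        _ ≤ K * ((1 / 2 ^ m : ℝ) * ∑ s : Finset (Fin m),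
              nu (G n) (fun v => ∑ i, sg s i * x i n v)) ^ 4 := h1
        _ = K * (((1 / 2 ^ m : ℝ) * ∑ s : Finset (Fin m),
              nu (G n) (fun v => ∑ i, sg s i * x i n v)) ^ 2) ^ 2 := by ring
        _ ≤ _ := by gcongr)
  set D : ℝ := (1 / 2 ^ m : ℝ) * ∑ s : Finset (Fin m),
            ∑' n, nu (G n) (fun v => ∑ i, sg s i * x i n v) ^ 2 with hD
  have hD0 : 0 ≤ D := by
    apply mul_nonneg (by positivity)
    exact Finset.sum_nonneg fun s _ => tsum_nonneg fun n => sq_nonneg _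
  have h5 : ∀ i, (Real.sqrt (∑' n, nu (G n) (x i n) ^ 2)) ^ (4:ℝ)
      = (∑' n, nu (G n) (x i n) ^ 2) ^ 2 := by
    intro i
    have h0 : 0 ≤ ∑' n, nu (G n) (x i n) ^ 2 := tsum_nonneg fun n => sq_nonneg _
    rw [show (4:ℝ) = ((4:ℕ) : ℝ) by norm_num, Real.rpow_natCast]
    calc Real.sqrt (∑' n, nu (G n) (x i n) ^ 2) ^ 4
        = (Real.sqrt (∑' n, nu (G n) (x i n) ^ 2) ^ 2) ^ 2 := by ring
      _ = _ := by rw [Real.sq_sqrt h0]
  simp_rw [h5]
  have h6 : Real.sqrt (Real.sqrt K) * Real.sqrt D = (K * D ^ 2) ^ (1 / (4:ℝ)) := by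
    have h7 : K * D ^ 2 = (Real.sqrt (Real.sqrt K) * Real.sqrt D) ^ 4 := by
      have e1 : Real.sqrt (Real.sqrt K) ^ 4 = K := by
        calc Real.sqrt (Real.sqrt K) ^ 4 = (Real.sqrt (Real.sqrt K) ^ 2) ^ 2 := by ring
          _ = Real.sqrt K ^ 2 := by rw [Real.sq_sqrt (Real.sqrt_nonneg _)]
          _ = K := Real.sq_sqrt hK.le
      have e2 : Real.sqrt D ^ 4 = D ^ 2 := by
        calc Real.sqrt D ^ 4 = (Real.sqrt D ^ 2) ^ 2 := by ring
          _ = D ^ 2 := by rw [Real.sq_sqrt hD0]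
      rw [mul_pow (Real.sqrt (Real.sqrt K)) (Real.sqrt D) 4, e1, e2]
    rw [h7, ← Real.rpow_natCast, ← Real.rpow_mul (by positivity)]
    norm_num
  rw [h6]
  apply Real.rpow_le_rpow
  · exact Finset.sum_nonneg fun i _ => sq_nonneg _
  · exact hmain
  · norm_num

end Pool.Agent.Helper799.L2sum
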