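import Mathlib
import Pool.Agent.Helper799.PNT

set_option autoImplicit false

namespace Pool.Agent.Helper799.OB

open Finset Filter Topology
open Pool.Agent.Helper799.PNT (pnt_residueClass)
open ArithmeticFunction

/-- weighted count of prime powers `1 mod 4` -/
noncomputable def TT (n : ℕ) : ℝ := ∑ k ∈ Finset.Icc 1 n, vonMangoldt.residueClass (1 : ZMod 4) k

theorem TT_tendsto : Tendsto (fun n : ℕ => TT n / n) atTop (𝓝 (2:ℝ)⁻¹) := by
  have h := (pnt_residueClass (q := 4) (a := 1) isUnit_one).comp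
    (tendsto_natCast_atTop_atTop (R := ℝ))
  have e : ((Nat.totient 4 : ℕ) : ℝ) = 2 := by
    have : Nat.totient 4 = 2 := by decide
    rw [this]; norm_num
  rw [e] at h
  refine h.congr fun n => ?_
  simp only [Function.comp, Nat.floor_natCast, TT]

theorem class_iff (r : ℕ) : ((r : ℕ) : ZMod 4) = 1 ↔ r % 4 = 1 := by
  have h := ZMod.natCast_eq_natCast_iff' r 1 4
  simpa using h

/-- the primes `1 mod 4` in `(Y, 2Y]` -/
def PW (Y : ℕ) : Finset ℕ := (Finset.Ioc Y (2 * Y)).filter (fun p => p.Prime ∧ p % 4 = 1)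

theorem TT_sub (Y : ℕ) : TT (2 * Y) - TT Y =
    ∑ k ∈ Finset.Ioc Y (2 * Y), vonMangoldt.residueClass (1 : ZMod 4) k := by
  have e : ∀ n, TT n = ∑ k ∈ Finset.Ioc 0 n, vonMangoldt.residueClass (1 : ZMod 4) k := by
    intro n; unfold TT; congr 1
  rw [e, e, ← Finset.sum_Ioc_consecutive _ (Nat.zero_le Y) (by omega : Y ≤ 2 * Y)]
  ring

theorem window_le (Y : ℕ) : ∑ k ∈ Finset.Ioc Y (2 * Y), vonMangoldt.residueClass (1 : ZMod 4) k
    ≤ ∑ p ∈ PW Y, Real.log p + (Chebyshev.psi ((2 * Y : ℕ) : ℝ) - Chebyshev.theta ((2 * Y : ℕ) : ℝ)) := by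
  classical
  have h1 : ∑ k ∈ Finset.Ioc Y (2 * Y), vonMangoldt.residueClass (1 : ZMod 4) k
      ≤ ∑ k ∈ Finset.Ioc Y (2 * Y), ((if k.Prime ∧ k % 4 = 1 then Real.log k else 0) +
        (vonMangoldt k - if k.Prime then Real.log k else 0)) := by
    refine Finset.sum_le_sum fun k _ => ?_
    by_cases hk : k.Prime
    · by_cases h4 : k % 4 = 1
      · have : vonMangoldt.residueClass (1 : ZMod 4) k = Real.log k := by
          rw [vonMangoldt.residueClass, Set.indicator_of_mem]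
          · exact vonMangoldt_apply_prime hk
          · exact (class_iff k).2 h4
        rw [this, vonMangoldt_apply_prime hk]; simp [hk, h4]
      · have : vonMangoldt.residueClass (1 : ZMod 4) k = 0 := by
          rw [vonMangoldt.residueClass, Set.indicator_of_notMem]
          exact fun h' => h4 ((class_iff k).1 h')
        rw [this, vonMangoldt_apply_prime hk]; simp [hk, h4]
    · have := vonMangoldt.residueClass_le (1 : ZMod 4) k
      simpa [hk] using this
  refine h1.trans ?_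
  rw [Finset.sum_add_distrib]
  have h2 : ∑ k ∈ Finset.Ioc Y (2 * Y), (if k.Prime ∧ k % 4 = 1 then Real.log (k:ℝ) else 0)
      = ∑ p ∈ PW Y, Real.log p := by
    unfold PW; rw [Finset.sum_filter]
  have h3 : ∑ k ∈ Finset.Ioc Y (2 * Y), (vonMangoldt k - if k.Prime then Real.log (k:ℝ) else 0)
      ≤ ∑ k ∈ Finset.Ioc 0 (2 * Y), (vonMangoldt k - if k.Prime then Real.log (k:ℝ) else 0) := by
    refine Finset.sum_le_sum_of_subset_of_nonneg ?_ ?_
    · intro k hk; simp only [Finset.mem_Ioc] at hk ⊢; omega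
    · intro k _ _
      by_cases hk : k.Prime
      · rw [vonMangoldt_apply_prime hk]; simp [hk]
      · simp only [hk, if_false, sub_zero]; exact vonMangoldt_nonneg
  have h4 : ∑ k ∈ Finset.Ioc 0 (2 * Y), (vonMangoldt k - if k.Prime then Real.log (k:ℝ) else 0)
      = Chebyshev.psi ((2 * Y : ℕ) : ℝ) - Chebyshev.theta ((2 * Y : ℕ) : ℝ) := by
    unfold Chebyshev.psi Chebyshev.theta
    rw [Nat.floor_natCast, Finset.sum_sub_distrib, Finset.sum_filter]
  linarith

theorem theta_window : ∀ᶠ Y : ℕ in atTop, (Y : ℝ) / 4 ≤ ∑ p ∈ PW Y, Real.log p := by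
  obtain ⟨C, hC⟩ := Chebyshev.psi_sub_theta_le_mul_sqrt
  have h1 : ∀ᶠ n : ℕ in atTop, |TT n / n - 2⁻¹| < 1/40 := by
    have := (Metric.tendsto_nhds.1 TT_tendsto) (1/40) (by norm_num)
    simpa [Real.dist_eq] using this
  have h2 : ∀ᶠ n : ℕ in atTop, |TT (2*n) / (2*n:ℕ) - 2⁻¹| < 1/40 := by
    have h := (tendsto_id.const_mul_atTop' (by norm_num : (0:ℕ) < 2) : Tendsto (fun n : ℕ => 2 * n) atTop atTop)
    exact h.eventually h1
  have h3 : ∀ᶠ n : ℕ in atTop, C * Real.sqrt ((2 * n : ℕ) : ℝ) ≤ n / 10 := by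
    have : Tendsto (fun n : ℕ => Real.sqrt (n:ℝ)) atTop atTop :=
      Real.tendsto_sqrt_atTop.comp tendsto_natCast_atTop_atTop
    filter_upwards [this.eventually_ge_atTop (10 * |C| * Real.sqrt 2)] with n hn
    have hn0 : (0:ℝ) ≤ n := Nat.cast_nonneg n
    push_cast
    rw [Real.sqrt_mul (by norm_num)]
    have hs : Real.sqrt n * Real.sqrt n = n := Real.mul_self_sqrt hn0
    have h5 : C * (Real.sqrt 2 * Real.sqrt n) ≤ |C| * (Real.sqrt 2 * Real.sqrt n) :=
      mul_le_mul_of_nonneg_right (le_abs_self C) (by positivity)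
    have h6 : 10 * |C| * Real.sqrt 2 * Real.sqrt n ≤ Real.sqrt n * Real.sqrt n :=
      mul_le_mul_of_nonneg_right hn (Real.sqrt_nonneg _)
    rw [hs] at h6
    linarith
  filter_upwards [h1, h2, h3, eventually_gt_atTop 0] with Y a1 a2 a3 a4
  have hY : (0:ℝ) < Y := by exact_mod_cast a4
  rw [abs_lt] at a1 a2
  have b1 : TT Y ≤ 0.525 * Y := by
    have : TT Y / Y < 0.525 := by linarith [a1.2]
    rw [div_lt_iff₀ hY] at this
    exact this.le
  have b2 : 0.95 * Y ≤ TT (2 * Y) := by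
    have : 0.475 < TT (2*Y) / (2*Y:ℕ) := by linarith [a2.1]
    rw [lt_div_iff₀ (by positivity)] at this
    push_cast at this
    linarith
  have b3 := TT_sub Y
  have b4 := window_le Y
  have b5 := hC ((2 * Y : ℕ) : ℝ)
  linarith

/-- there are many primes `1 mod 4` in `(Y, 2Y]` -/
theorem card_window : ∀ᶠ Y : ℕ in atTop, (Y : ℝ) / (4 * Real.log (2 * Y)) ≤ #(PW Y) := by
  filter_upwards [theta_window, eventually_ge_atTop 2] with Y h hY
  have hY' : (2:ℝ) ≤ Y := by exact_mod_cast hY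
  have hlog : 0 < Real.log (2 * Y) := Real.log_pos (by linarith)
  have h1 : ∑ p ∈ PW Y, Real.log p ≤ ∑ p ∈ PW Y, Real.log (2 * Y) := by
    refine Finset.sum_le_sum fun p hp => ?_
    unfold PW at hp
    rw [Finset.mem_filter, Finset.mem_Ioc] at hp
    refine Real.log_le_log (by exact_mod_cast hp.2.1.pos) (by exact_mod_cast hp.1.2)
  rw [Finset.sum_const, nsmul_eq_mul] at h1
  rw [div_le_iff₀ (by positivity)]
  nlinarith

end Pool.Agent.Helper799.OB
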