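import Mathlib

set_option autoImplicit false

namespace Pool.Agent.Helper799.OB

open Finset

/-- local condition at `p` with state `s` -/
def Loc (p I s a b c d : ℤ) : Prop :=
  p ∣ a + b * I + s * (c + d * I) ∧ p ∣ -c + d * I + s * (a - b * I)

theorem Loc.norm {p I s a b c d : ℤ} (hI : p ∣ I ^ 2 + 1) (h : Loc p I s a b c d) :
    p ∣ a ^ 2 + b ^ 2 + c ^ 2 + d ^ 2 := by
  obtain ⟨⟨x, hx⟩, ⟨y, hy⟩⟩ := h
  obtain ⟨z, hz⟩ := hI
  refine ⟨x * (a - b * I) - y * (c + d * I) + z * (b ^ 2 + d ^ 2), ?_⟩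
  linear_combination (a - b * I) * hx - (c + d * I) * hy + (b ^ 2 + d ^ 2) * hz

theorem exists_small (T : Finset ℕ) (hT : ∀ p ∈ T, 0 < p) (I s : ℕ → ℤ) :
    ∃ a b c d : ℤ, (a ≠ 0 ∨ b ≠ 0 ∨ c ≠ 0 ∨ d ≠ 0) ∧
      |a| ≤ (Nat.sqrt (∏ p ∈ T, p) : ℤ) ∧ |b| ≤ (Nat.sqrt (∏ p ∈ T, p) : ℤ) ∧
      |c| ≤ (Nat.sqrt (∏ p ∈ T, p) : ℤ) ∧ |d| ≤ (Nat.sqrt (∏ p ∈ T, p) : ℤ) ∧
      ∀ p ∈ T, Loc p (I p) (s p) a b c d := by
  classical
  set D := ∏ p ∈ T, p with hD
  set R := Nat.sqrt D with hR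
  let box : Finset (ℤ × ℤ × ℤ × ℤ) :=
    (Finset.Ico 0 ((R : ℤ) + 1)) ×ˢ (Finset.Ico 0 ((R : ℤ) + 1)) ×ˢ
      (Finset.Ico 0 ((R : ℤ) + 1)) ×ˢ (Finset.Ico 0 ((R : ℤ) + 1))
  let cod : Finset ((p : ℕ) → p ∈ T → ℤ × ℤ) :=
    T.pi (fun p => Finset.Ico 0 (p : ℤ) ×ˢ Finset.Ico 0 (p : ℤ))
  let f : ℤ × ℤ × ℤ × ℤ → ((p : ℕ) → p ∈ T → ℤ × ℤ) := fun x p _ =>
    ((x.1 + x.2.1 * I p + s p * (x.2.2.1 + x.2.2.2 * I p)) % (p : ℤ),
      (-x.2.2.1 + x.2.2.2 * I p + s p * (x.1 - x.2.1 * I p)) % (p : ℤ))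
  have hcard : cod.card < box.card := by
    have e1 : box.card = (R + 1) * ((R + 1) * ((R + 1) * (R + 1))) := by
      simp [box, Finset.card_product]
    have e2 : cod.card = D * D := by
      simp only [cod, Finset.card_pi, Finset.card_product, Int.card_Ico, sub_zero, Int.toNat_natCast]
      rw [Finset.prod_mul_distrib]
    rw [e1, e2]
    have h1 : D < (R + 1) * (R + 1) := Nat.lt_succ_sqrt D
    calc D * D < ((R + 1) * (R + 1)) * ((R + 1) * (R + 1)) := Nat.mul_lt_mul'' h1 h1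
      _ = _ := by ring
  have hmaps : Set.MapsTo f (box : Set (ℤ × ℤ × ℤ × ℤ)) (cod : Set _) := by
    intro x _
    rw [Finset.mem_coe]
    simp only [cod, Finset.mem_pi, f, Finset.mem_product, Finset.mem_Ico]
    intro p hp
    have hp0 : (0 : ℤ) < p := by exact_mod_cast hT p hp
    exact ⟨⟨Int.emod_nonneg _ hp0.ne', Int.emod_lt_of_pos _ hp0⟩,
      ⟨Int.emod_nonneg _ hp0.ne', Int.emod_lt_of_pos _ hp0⟩⟩
  obtain ⟨x, hx, y, hy, hxy, hf⟩ := Finset.exists_ne_map_eq_of_card_lt_of_maps_to hcard hmaps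
  simp only [box, Finset.mem_product, Finset.mem_Ico] at hx hy
  refine ⟨x.1 - y.1, x.2.1 - y.2.1, x.2.2.1 - y.2.2.1, x.2.2.2 - y.2.2.2, ?_, ?_, ?_, ?_, ?_, ?_⟩
  · by_contra hcon
    push Not at hcon
    apply hxy
    obtain ⟨h1, h2, h3, h4⟩ := hcon
    ext <;> linarith
  · rw [abs_le]; constructor <;> linarith [hx.1.1, hx.1.2, hy.1.1, hy.1.2]
  · rw [abs_le]; constructor <;> linarith [hx.2.1.1, hx.2.1.2, hy.2.1.1, hy.2.1.2]
  · rw [abs_le]; constructor <;> linarith [hx.2.2.1.1, hx.2.2.1.2, hy.2.2.1.1, hy.2.2.1.2]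
  · rw [abs_le]; constructor <;> linarith [hx.2.2.2.1, hx.2.2.2.2, hy.2.2.2.1, hy.2.2.2.2]
  · intro p hp
    have h := congrFun (congrFun hf p) hp
    simp only [f, Prod.mk.injEq] at h
    constructor
    · have := Int.ModEq.dvd (Int.ModEq.symm (h.1 : _ ≡ _ [ZMOD p]))
      convert this using 1
      ring
    · have := Int.ModEq.dvd (Int.ModEq.symm (h.2 : _ ≡ _ [ZMOD p]))
      convert this using 1
      ring

theorem mod_two (a : ℤ) : ∃ a' e : ℤ, a = 2 * a' + e ∧ (e = 0 ∨ e = 1) :=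
  ⟨a / 2, a % 2, by omega, by omega⟩

theorem mod_three (a : ℤ) : ∃ a' e : ℤ, a = 3 * a' + e ∧ (e = 0 ∨ e = 1 ∨ e = -1) := by
  rcases (by omega : a % 3 = 0 ∨ a % 3 = 1 ∨ a % 3 = 2) with h | h | h
  · exact ⟨a / 3, 0, by omega, by omega⟩
  · exact ⟨a / 3, 1, by omega, by omega⟩
  · exact ⟨a / 3 + 1, -1, by omega, by omega⟩

/-- descent -/
theorem descent_aux (m D a' b' c' d' e f g h : ℤ) (hm : m ≠ 0)
    (hg : e ^ 2 + f ^ 2 + g ^ 2 + h ^ 2 = m)
    (hN : (m * a' + e) ^ 2 + (m * b' + f) ^ 2 + (m * c' + g) ^ 2 + (m * d' + h) ^ 2 = m * D) :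
    ∃ r i j k : ℤ, r ^ 2 + i ^ 2 + j ^ 2 + k ^ 2 = D ∧
      ∀ p I s : ℤ, IsCoprime p m → p ∣ I ^ 2 + 1 →
        Loc p I s (m * a' + e) (m * b' + f) (m * c' + g) (m * d' + h) → Loc p I s r i j k := by
  refine ⟨e * a' + f * b' + g * c' + h * d' + 1, e * b' - f * a' - g * d' + h * c',
    e * c' - g * a' + f * d' - h * b', e * d' - h * a' - f * c' + g * b', ?_, ?_⟩
  · have h1 : m ^ 2 * ((e * a' + f * b' + g * c' + h * d' + 1) ^ 2 +
        (e * b' - f * a' - g * d' + h * c') ^ 2 +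
        (e * c' - g * a' + f * d' - h * b') ^ 2 + (e * d' - h * a' - f * c' + g * b') ^ 2) =
        m ^ 2 * D := by
      have e1 : m * (e * a' + f * b' + g * c' + h * d' + 1) = e * (m * a' + e) + f * (m * b' + f)
        + g * (m * c' + g) + h * (m * d' + h) := by linear_combination -hg
      have e2 : m * (e * b' - f * a' - g * d' + h * c') = e * (m * b' + f) - f * (m * a' + e)
        - g * (m * d' + h) + h * (m * c' + g) := by ring
      have e3 : m * (e * c' - g * a' + f * d' - h * b') = e * (m * c' + g) - g * (m * a' + e)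
        + f * (m * d' + h) - h * (m * b' + f) := by ring
      have e4 : m * (e * d' - h * a' - f * c' + g * b') = e * (m * d' + h) - h * (m * a' + e)
        - f * (m * c' + g) + g * (m * b' + f) := by ring
      calc _ = (m * (e * a' + f * b' + g * c' + h * d' + 1)) ^ 2 +
            (m * (e * b' - f * a' - g * d' + h * c')) ^ 2 +
            (m * (e * c' - g * a' + f * d' - h * b')) ^ 2 +
            (m * (e * d' - h * a' - f * c' + g * b')) ^ 2 := by ring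
        _ = (e ^ 2 + f ^ 2 + g ^ 2 + h ^ 2) * ((m * a' + e) ^ 2 + (m * b' + f) ^ 2 +
            (m * c' + g) ^ 2 + (m * d' + h) ^ 2) := by rw [e1, e2, e3, e4]; ring
        _ = _ := by rw [hg, hN]; ring
    exact mul_left_cancel₀ (pow_ne_zero 2 hm) h1
  · intro p I s hcop hI hL
    obtain ⟨⟨x, hx⟩, ⟨y, hy⟩⟩ := hL
    obtain ⟨z, hz⟩ := hI
    constructor
    · apply hcop.dvd_of_dvd_mul_left
      refine ⟨(e - f * I) * x + (-g - h * I) * y + z * ((f * (m * b' + f) + h * (m * d' + h)) +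
        s * (f * (m * d' + h) - h * (m * b' + f))), ?_⟩
      linear_combination (e - f * I) * hx + (-g - h * I) * hy +
        ((f * (m * b' + f) + h * (m * d' + h)) +
        s * (f * (m * d' + h) - h * (m * b' + f))) * hz - hg
    · apply hcop.dvd_of_dvd_mul_left
      refine ⟨(g - h * I) * x + (e + f * I) * y + z * ((h * (m * b' + f) - f * (m * d' + h)) +
        s * (f * (m * b' + f) + h * (m * d' + h))), ?_⟩
      linear_combination (g - h * I) * hx + (e + f * I) * hy +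
        ((h * (m * b' + f) - f * (m * d' + h)) +
        s * (f * (m * b' + f) + h * (m * d' + h))) * hz - s * hg

end Pool.Agent.Helper799.OB
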