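import Mathlib
import Pool.Agent.Helper799.OB2

set_option autoImplicit false

namespace Pool.Agent.Helper799.OB

open Finset

theorem sq_not_dvd_prod {T : Finset ℕ} (hT : ∀ p ∈ T, p.Prime) {p : ℕ} (hp : p ∈ T) :
    ¬ p ^ 2 ∣ ∏ q ∈ T, q := by
  classical
  intro h
  rw [← Finset.mul_prod_erase T _ hp, pow_two] at h
  have h1 := Nat.dvd_of_mul_dvd_mul_left (hT p hp).pos h
  rw [(hT p hp).prime.dvd_finsetProd_iff] at h1
  obtain ⟨q, hq, hpq⟩ := h1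
  rw [Finset.mem_erase] at hq
  exact hq.1 ((Nat.prime_dvd_prime_iff_eq (hT p hp) (hT q hq.2)).1 hpq).symm

theorem not_dvd_prod {T : Finset ℕ} (hT : ∀ p ∈ T, p.Prime) {r : ℕ} (hr : r.Prime) (h : r ∉ T) :
    ¬ r ∣ ∏ q ∈ T, q := by
  intro h1
  rw [hr.prime.dvd_finsetProd_iff] at h1
  obtain ⟨q, hq, hpq⟩ := h1
  have := (Nat.prime_dvd_prime_iff_eq hr (hT q hq)).1 hpq
  exact h (this ▸ hq)

theorem prod_dvd_int {T : Finset ℕ} (hT : ∀ p ∈ T, p.Prime) {N : ℤ}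
    (h : ∀ p ∈ T, (p : ℤ) ∣ N) : ((∏ p ∈ T, p : ℕ) : ℤ) ∣ N := by
  rw [Int.natCast_dvd]
  refine Finset.prod_primes_dvd _ (fun p hp => (hT p hp).prime) fun p hp => ?_
  exact Int.natCast_dvd.1 (h p hp)

theorem exists_alpha (T : Finset ℕ) (hT : ∀ p ∈ T, p.Prime ∧ 5 ≤ p) (hne : T.Nonempty)
    (I s : ℕ → ℤ) (hI : ∀ p ∈ T, (p : ℤ) ∣ I p ^ 2 + 1) :
    ∃ a b c d : ℤ, a ^ 2 + b ^ 2 + c ^ 2 + d ^ 2 = ((∏ p ∈ T, p : ℕ) : ℤ) ∧
      ∀ p ∈ T, Loc p (I p) (s p) a b c d := by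
  classical
  have hT1 : ∀ p ∈ T, p.Prime := fun p hp => (hT p hp).1
  obtain ⟨a, b, c, d, hnz, ha, hb, hc, hd, hloc⟩ :=
    exists_small T (fun p hp => (hT p hp).1.pos) I s
  set D := ∏ p ∈ T, p with hD
  set R := Nat.sqrt D with hR
  have hdvd : (D : ℤ) ∣ a ^ 2 + b ^ 2 + c ^ 2 + d ^ 2 :=
    prod_dvd_int hT1 fun p hp => (hloc p hp).norm (hI p hp)
  have hDpos : 0 < D := Finset.prod_pos fun p hp => (hT1 p hp).pos
  have hR2 : R * R < D := by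
    refine lt_of_le_of_ne (Nat.sqrt_le D) ?_
    intro he
    obtain ⟨p, hp⟩ := hne
    have h1 : p ∣ D := Finset.dvd_prod_of_mem _ hp
    rw [← he] at h1
    have h2 : p ∣ R := by
      rcases (hT1 p hp).dvd_mul.1 h1 with h | h <;> exact h
    refine sq_not_dvd_prod hT1 hp ?_
    rw [← hD, ← he, pow_two]
    exact Nat.mul_dvd_mul h2 h2
  have hR2' : (R : ℤ) * R < D := by exact_mod_cast hR2
  have sqb : ∀ x : ℤ, |x| ≤ (R : ℤ) → x ^ 2 ≤ (R : ℤ) * R := by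
    intro x hx
    rw [← sq_abs, pow_two]
    exact mul_self_le_mul_self (abs_nonneg x) hx
  obtain ⟨m, hm⟩ := hdvd
  have hDpos' : (0 : ℤ) < D := by exact_mod_cast hDpos
  have hpos : 0 < a ^ 2 + b ^ 2 + c ^ 2 + d ^ 2 := by
    rcases hnz with h | h | h | h <;> positivity
  have hm0 : 0 < m := by
    rw [hm] at hpos
    exact pos_of_mul_pos_right hpos hDpos'.le
  have hm4 : m < 4 := by
    have h1 : (D : ℤ) * m < D * 4 := by
      rw [← hm]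
      linarith [sqb a ha, sqb b hb, sqb c hc, sqb d hd]
    exact lt_of_mul_lt_mul_left h1 hDpos'.le
  have hm' : a ^ 2 + b ^ 2 + c ^ 2 + d ^ 2 = m * D := by rw [hm]; ring
  have hcop : ∀ p ∈ T, ∀ r : ℕ, r.Prime → r < 5 → IsCoprime (p : ℤ) (r : ℤ) := by
    intro p hp r hr hr5
    rw [Nat.isCoprime_iff_coprime, Nat.coprime_primes (hT1 p hp) hr]
    have := (hT p hp).2
    omega
  rcases (by omega : m = 1 ∨ m = 2 ∨ m = 3) with rfl | rfl | rfl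
  · exact ⟨a, b, c, d, by rw [hm']; ring, hloc⟩
  · -- m = 2
    have hodd : ¬ 2 ∣ D := not_dvd_prod hT1 Nat.prime_two (fun h => by have := (hT 2 h).2; omega)
    have hodd' : (D : ℤ) % 2 = 1 := by omega
    obtain ⟨a', e, rfl, he⟩ := mod_two a
    obtain ⟨b', f, rfl, hf⟩ := mod_two b
    obtain ⟨c', g, rfl, hg⟩ := mod_two c
    obtain ⟨d', h, rfl, hh⟩ := mod_two d
    have hsum : e ^ 2 + f ^ 2 + g ^ 2 + h ^ 2 = 2 := by
      have h0 : (2 * a' + e) ^ 2 + (2 * b' + f) ^ 2 + (2 * c' + g) ^ 2 + (2 * d' + h) ^ 2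
        = 4 * (a' ^ 2 + a' * e + b' ^ 2 + b' * f + c' ^ 2 + c' * g + d' ^ 2 + d' * h) +
          (e ^ 2 + f ^ 2 + g ^ 2 + h ^ 2) := by ring
      rw [h0] at hm'
      generalize a' ^ 2 + a' * e + b' ^ 2 + b' * f + c' ^ 2 + c' * g + d' ^ 2 + d' * h = K at hm'
      rcases he with rfl | rfl <;> rcases hf with rfl | rfl <;> rcases hg with rfl | rfl <;>
        rcases hh with rfl | rfl <;> omega
    obtain ⟨r, i, j, k, hN, hL⟩ := descent_aux 2 D a' b' c' d' e f g h (by norm_num) hsum hm'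
    refine ⟨r, i, j, k, hN, fun p hp => hL p (I p) (s p) ?_ (hI p hp) (hloc p hp)⟩
    exact_mod_cast hcop p hp 2 Nat.prime_two (by norm_num)
  · have h3 : ¬ 3 ∣ D := not_dvd_prod hT1 Nat.prime_three (fun h => by have := (hT 3 h).2; omega)
    have h3' : (D : ℤ) % 3 ≠ 0 := by omega
    obtain ⟨a', e, rfl, he⟩ := mod_three a
    obtain ⟨b', f, rfl, hf⟩ := mod_three b
    obtain ⟨c', g, rfl, hg⟩ := mod_three c
    obtain ⟨d', h, rfl, hh⟩ := mod_three d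
    have hsum : e ^ 2 + f ^ 2 + g ^ 2 + h ^ 2 = 3 := by
      have h0 : (3 * a' + e) ^ 2 + (3 * b' + f) ^ 2 + (3 * c' + g) ^ 2 + (3 * d' + h) ^ 2
        = 9 * (a' ^ 2 + b' ^ 2 + c' ^ 2 + d' ^ 2) + 6 * (a' * e + b' * f + c' * g + d' * h) +
          (e ^ 2 + f ^ 2 + g ^ 2 + h ^ 2) := by ring
      rw [h0] at hm'
      have hz : ∀ x : ℤ, (x = 0 ∨ x = 1 ∨ x = -1) → (x ^ 2 = 0 ∧ x = 0) ∨ x ^ 2 = 1 := by
        rintro x (rfl | rfl | rfl) <;> norm_num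
      have hz1 : (a' * e + b' * f + c' * g + d' * h = 0 ∧ e ^ 2 = 0 ∧ f ^ 2 = 0 ∧ g ^ 2 = 0 ∧ h ^ 2 = 0)
          ∨ ((e ^ 2 = 0 ∨ e ^ 2 = 1) ∧ (f ^ 2 = 0 ∨ f ^ 2 = 1) ∧ (g ^ 2 = 0 ∨ g ^ 2 = 1) ∧
            (h ^ 2 = 0 ∨ h ^ 2 = 1) ∧ (e ^ 2 = 1 ∨ f ^ 2 = 1 ∨ g ^ 2 = 1 ∨ h ^ 2 = 1)) := by
        rcases hz e he with ⟨h1, h1'⟩ | h1 <;> rcases hz f hf with ⟨h2, h2'⟩ | h2 <;>
          rcases hz g hg with ⟨h3, h3'⟩ | h3 <;> rcases hz h hh with ⟨h4, h4'⟩ | h4 <;>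
          simp_all
      generalize a' * e + b' * f + c' * g + d' * h = K at hm' hz1
      generalize a' ^ 2 + b' ^ 2 + c' ^ 2 + d' ^ 2 = K2 at hm'
      generalize e ^ 2 = E at *
      generalize f ^ 2 = F at *
      generalize g ^ 2 = G at *
      generalize h ^ 2 = H at *
      omega
    obtain ⟨r, i, j, k, hN, hL⟩ := descent_aux 3 D a' b' c' d' e f g h (by norm_num) hsum hm'
    refine ⟨r, i, j, k, hN, fun p hp => hL p (I p) (s p) ?_ (hI p hp) (hloc p hp)⟩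
    exact_mod_cast hcop p hp 3 Nat.prime_three (by norm_num)

end Pool.Agent.Helper799.OB
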