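import Mathlib
import Pool.Agent.Helper799.OB2

set_option autoImplicit false

namespace Pool.Agent.Helper799.OB

open Finset

/-- integer vectors of length `D` -/
noncomputable def W (D : ℕ) : Finset (ℤ × ℤ × ℤ) :=
  ((Finset.Icc (-(D : ℤ)) D) ×ˢ (Finset.Icc (-(D : ℤ)) D) ×ˢ (Finset.Icc (-(D : ℤ)) D)).filter
    (fun x => x.1 ^ 2 + x.2.1 ^ 2 + x.2.2 ^ 2 = (D : ℤ) ^ 2)

theorem mem_W {D : ℕ} {x : ℤ × ℤ × ℤ} :
    x ∈ W D ↔ x.1 ^ 2 + x.2.1 ^ 2 + x.2.2 ^ 2 = (D : ℤ) ^ 2 := by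
  unfold W
  rw [Finset.mem_filter, Finset.mem_product, Finset.mem_product, Finset.mem_Icc, Finset.mem_Icc,
    Finset.mem_Icc]
  constructor
  · exact fun h => h.2
  · intro h
    have hD : (0 : ℤ) ≤ D := Int.natCast_nonneg D
    refine ⟨⟨?_, ?_, ?_⟩, h⟩
    · exact abs_le.1 (abs_le_of_sq_le_sq (by nlinarith [sq_nonneg x.2.1, sq_nonneg x.2.2]) hD)
    · exact abs_le.1 (abs_le_of_sq_le_sq (by nlinarith [sq_nonneg x.1, sq_nonneg x.2.2]) hD)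
    · exact abs_le.1 (abs_le_of_sq_le_sq (by nlinarith [sq_nonneg x.1, sq_nonneg x.2.1]) hD)

open Classical in
/-- class of an isotropic vector mod `p` -/
noncomputable def cls (p : ℕ) (I : ℤ) (x : ℤ × ℤ × ℤ) : ℕ :=
  if (p : ℤ) ∣ x.1 ∧ (p : ℤ) ∣ x.2.1 ∧ (p : ℤ) ∣ x.2.2 then p + 1
  else if (p : ℤ) ∣ x.1 + I * x.2.1 then p
  else (((x.2.2 : ℤ) : ZMod p) * (((x.1 + I * x.2.1 : ℤ)) : ZMod p)⁻¹).val

theorem cls_lt {p : ℕ} (hp : p.Prime) (I : ℤ) (x : ℤ × ℤ × ℤ) : cls p I x < p + 2 := by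
  have : NeZero p := ⟨hp.ne_zero⟩
  unfold cls
  split_ifs
  · omega
  · omega
  · have := ZMod.val_lt (((x.2.2 : ℤ) : ZMod p) * (((x.1 + I * x.2.1 : ℤ)) : ZMod p)⁻¹)
    omega

/-- the scalar relation from equality of classes -/
theorem scalar {p : ℕ} (hp : p.Prime) (hp2 : p ≠ 2) {I : ℤ} (hI : (p : ℤ) ∣ I ^ 2 + 1)
    {x y : ℤ × ℤ × ℤ} (hx : (p : ℤ) ∣ x.1 ^ 2 + x.2.1 ^ 2 + x.2.2 ^ 2)
    (hy : (p : ℤ) ∣ y.1 ^ 2 + y.2.1 ^ 2 + y.2.2 ^ 2) (h : cls p I x = cls p I y)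
    (hx0 : ¬ ((p : ℤ) ∣ x.1 ∧ (p : ℤ) ∣ x.2.1 ∧ (p : ℤ) ∣ x.2.2))
    (hy0 : ¬ ((p : ℤ) ∣ y.1 ∧ (p : ℤ) ∣ y.2.1 ∧ (p : ℤ) ∣ y.2.2)) :
    ∃ l : ZMod p, l ≠ 0 ∧ (y.1 : ZMod p) = l * x.1 ∧ (y.2.1 : ZMod p) = l * x.2.1 ∧
      (y.2.2 : ZMod p) = l * x.2.2 := by
  have : Fact p.Prime := ⟨hp⟩
  have : NeZero p := ⟨hp.ne_zero⟩
  obtain ⟨x1, x2, x3⟩ := x
  obtain ⟨y1, y2, y3⟩ := y
  simp only [← ZMod.intCast_zmod_eq_zero_iff_dvd] at *
  have h2 : (2 : ZMod p) ≠ 0 := by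
    intro h2
    have : ((2 : ℕ) : ZMod p) = 0 := by exact_mod_cast h2
    rw [ZMod.natCast_eq_zero_iff] at this
    exact hp2 ((Nat.prime_dvd_prime_iff_eq hp Nat.prime_two).1 this)
  unfold cls at h
  simp only [← ZMod.intCast_zmod_eq_zero_iff_dvd] at h
  rw [if_neg hx0, if_neg hy0] at h
  push_cast at *
  generalize (x1 : ZMod p) = a1 at *
  generalize (x2 : ZMod p) = a2 at *
  generalize (x3 : ZMod p) = a3 at *
  generalize (y1 : ZMod p) = b1 at *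
  generalize (y2 : ZMod p) = b2 at *
  generalize (y3 : ZMod p) = b3 at *
  generalize (I : ZMod p) = J at *
  have hJ : J ≠ 0 := by rintro rfl; simp at hI
  by_cases hu : a1 + J * a2 = 0
  · rw [if_pos hu] at h
    have hv : b1 + J * b2 = 0 := by
      by_contra hv
      rw [if_neg hv] at h
      have := ZMod.val_lt (b3 * (b1 + J * b2)⁻¹)
      omega
    have ha3 : a3 = 0 := by
      have : a3 ^ 2 = 0 := by linear_combination hx - (a1 - J * a2) * hu - a2 ^ 2 * hI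
      exact pow_eq_zero_iff (two_ne_zero) |>.1 this
    have hb3 : b3 = 0 := by
      have : b3 ^ 2 = 0 := by linear_combination hy - (b1 - J * b2) * hv - b2 ^ 2 * hI
      exact pow_eq_zero_iff (two_ne_zero) |>.1 this
    have ha2 : a2 ≠ 0 := by
      rintro rfl
      apply hx0
      refine ⟨?_, rfl, ha3⟩
      linear_combination hu
    have hb2 : b2 ≠ 0 := by
      rintro rfl
      apply hy0
      refine ⟨?_, rfl, hb3⟩
      linear_combination hv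
    refine ⟨b2 * a2⁻¹, mul_ne_zero hb2 (inv_ne_zero ha2), ?_, ?_, ?_⟩
    · have e : b2 * a2⁻¹ * a1 = b2 * a2⁻¹ * (-J * a2) := by rw [show a1 = -J * a2 by linear_combination hu]
      rw [e]
      field_simp
      linear_combination hv
    · field_simp
    · rw [ha3, hb3]; ring
  · rw [if_neg hu] at h
    have hv : ¬ (b1 + J * b2 = 0) := by
      intro hv
      rw [if_pos hv] at h
      have := ZMod.val_lt (a3 * (a1 + J * a2)⁻¹)
      omega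
    rw [if_neg hv] at h
    have h' := ZMod.val_injective p h
    set u := a1 + J * a2 with hu'
    set v := b1 + J * b2 with hv'
    have h3 : b3 = v * u⁻¹ * a3 := by
      have : b3 = b3 * v⁻¹ * v := by field_simp
      rw [this, ← h']; ring
    have hum : u * (a1 - J * a2) = - a3 ^ 2 := by
      rw [hu']; linear_combination hx - a2 ^ 2 * hI
    have hvm : v * (b1 - J * b2) = - b3 ^ 2 := by
      rw [hv']; linear_combination hy - b2 ^ 2 * hI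
    have h4 : b1 - J * b2 = v * u⁻¹ * (a1 - J * a2) := by
      apply mul_left_cancel₀ hv
      rw [hvm, h3]
      have : a1 - J * a2 = - a3 ^ 2 * u⁻¹ := by
        rw [← hum]; field_simp
      rw [this]; ring
    have h5 : b1 + J * b2 = v * u⁻¹ * (a1 + J * a2) := by
      rw [← hv', ← hu']; field_simp
    refine ⟨v * u⁻¹, mul_ne_zero hv (inv_ne_zero hu), ?_, ?_, h3⟩
    · apply mul_left_cancel₀ h2
      linear_combination h4 + h5
    · apply mul_left_cancel₀ (mul_ne_zero h2 hJ)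
      linear_combination h5 - h4

theorem sq_dvd_dot {p : ℕ} (hp : p.Prime) (hp2 : p ≠ 2) {I : ℤ} (hI : (p : ℤ) ∣ I ^ 2 + 1)
    {x y : ℤ × ℤ × ℤ} (hx : (p : ℤ) ^ 2 ∣ x.1 ^ 2 + x.2.1 ^ 2 + x.2.2 ^ 2)
    (hy : (p : ℤ) ^ 2 ∣ y.1 ^ 2 + y.2.1 ^ 2 + y.2.2 ^ 2) (h : cls p I x = cls p I y) :
    (p : ℤ) ^ 2 ∣ x.1 * y.1 + x.2.1 * y.2.1 + x.2.2 * y.2.2 := by
  have : NeZero p := ⟨hp.ne_zero⟩
  have hx' : (p : ℤ) ∣ x.1 ^ 2 + x.2.1 ^ 2 + x.2.2 ^ 2 := dvd_trans (dvd_pow_self _ two_ne_zero) hx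
  have hy' : (p : ℤ) ∣ y.1 ^ 2 + y.2.1 ^ 2 + y.2.2 ^ 2 := dvd_trans (dvd_pow_self _ two_ne_zero) hy
  have key : ∀ z : ℤ × ℤ × ℤ, cls p I z = p + 1 ↔ ((p : ℤ) ∣ z.1 ∧ (p : ℤ) ∣ z.2.1 ∧ (p : ℤ) ∣ z.2.2) := by
    intro z
    unfold cls
    split_ifs with h1 h2
    · simp [h1]
    · simp only [h1, iff_false]; omega
    · have := ZMod.val_lt (((z.2.2 : ℤ) : ZMod p) * (((z.1 + I * z.2.1 : ℤ)) : ZMod p)⁻¹)
      simp only [h1, iff_false]; omega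
  by_cases hx0 : ((p : ℤ) ∣ x.1 ∧ (p : ℤ) ∣ x.2.1 ∧ (p : ℤ) ∣ x.2.2)
  · have hy0 := (key y).1 (h ▸ (key x).2 hx0)
    have m : ∀ {a b : ℤ}, (p : ℤ) ∣ a → (p : ℤ) ∣ b → (p : ℤ) ^ 2 ∣ a * b := by
      intro a b h1 h2; rw [pow_two]; exact mul_dvd_mul h1 h2
    exact dvd_add (dvd_add (m hx0.1 hy0.1) (m hx0.2.1 hy0.2.1)) (m hx0.2.2 hy0.2.2)
  · have hy0 : ¬ ((p : ℤ) ∣ y.1 ∧ (p : ℤ) ∣ y.2.1 ∧ (p : ℤ) ∣ y.2.2) := fun hy0 =>
      hx0 ((key x).1 (h.trans ((key y).2 hy0)))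
    obtain ⟨l, hl, e1, e2, e3⟩ := scalar hp hp2 hI hx' hy' h hx0 hy0
    obtain ⟨L, rfl⟩ := ZMod.intCast_surjective l
    have hL : ¬ (p : ℤ) ∣ L := by
      rw [← ZMod.intCast_zmod_eq_zero_iff_dvd]; exact hl
    have g : ∀ a b : ℤ, (b : ZMod p) = (L : ZMod p) * (a : ZMod p) → ∃ w : ℤ, b = L * a + p * w := by
      intro a b hab
      have : ((b - L * a : ℤ) : ZMod p) = 0 := by push_cast; rw [hab]; ring
      rw [ZMod.intCast_zmod_eq_zero_iff_dvd] at this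
      obtain ⟨w, hw⟩ := this
      exact ⟨w, by linear_combination hw⟩
    obtain ⟨w1, hw1⟩ := g _ _ e1
    obtain ⟨w2, hw2⟩ := g _ _ e2
    obtain ⟨w3, hw3⟩ := g _ _ e3
    obtain ⟨X, hX⟩ := hx
    obtain ⟨Y, hY⟩ := hy
    rw [hw1, hw2, hw3] at hY
    rw [hw1, hw2, hw3]
    have hp0 : (p : ℤ) ≠ 0 := by exact_mod_cast hp.ne_zero
    have h1 : (p : ℤ) ∣ 2 * L * (x.1 * w1 + x.2.1 * w2 + x.2.2 * w3) := by
      refine ⟨Y - L ^ 2 * X - (w1 ^ 2 + w2 ^ 2 + w3 ^ 2), ?_⟩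
      apply mul_left_cancel₀ hp0
      linear_combination hY - L ^ 2 * hX
    have hpI : Prime (p : ℤ) := Nat.prime_iff_prime_int.1 hp
    have h2 : (p : ℤ) ∣ x.1 * w1 + x.2.1 * w2 + x.2.2 * w3 := by
      rcases hpI.dvd_mul.1 h1 with h | h
      · rcases hpI.dvd_mul.1 h with h | h
        · exfalso
          have : (p : ℤ) ∣ ((2 : ℕ) : ℤ) := by exact_mod_cast h
          rw [Int.natCast_dvd_natCast] at this
          exact hp2 ((Nat.prime_dvd_prime_iff_eq hp Nat.prime_two).1 this)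
        · exact absurd h hL
      · exact h
    obtain ⟨z, hz⟩ := h2
    refine ⟨L * X + z, ?_⟩
    linear_combination L * hX + (p : ℤ) * hz

theorem sign_mul {a b : ℤ} (h : Int.sign a = Int.sign b) : 0 ≤ a * b ∧ (a ≠ 0 → 0 < a * b) := by
  rcases lt_trichotomy a 0 with ha | rfl | ha
  · rw [Int.sign_eq_neg_one_of_neg ha] at h
    have hb := Int.sign_eq_neg_one_iff_neg.1 h.symm
    have := mul_pos_of_neg_of_neg ha hb
    exact ⟨this.le, fun _ => this⟩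
  · simp
  · rw [Int.sign_eq_one_of_pos ha] at h
    have hb := Int.sign_eq_one_iff_pos.1 h.symm
    have := mul_pos ha hb
    exact ⟨this.le, fun _ => this⟩

theorem card_W {S : Finset ℕ} (hS : ∀ p ∈ S, p.Prime ∧ 5 ≤ p) (I : ℕ → ℤ)
    (hI : ∀ p ∈ S, (p : ℤ) ∣ I p ^ 2 + 1) :
    #(W (∏ p ∈ S, p)) ≤ 27 * ∏ p ∈ S, (p + 2) := by
  classical
  set D := ∏ p ∈ S, p with hD
  have hDpos : 0 < D := Finset.prod_pos fun p hp => (hS p hp).1.pos
  have hDpos' : (0 : ℤ) < D := by exact_mod_cast hDpos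
  let sg : Finset ℤ := Finset.Icc (-1) 1
  let cod : Finset ((ℤ × ℤ × ℤ) × ((p : ℕ) → p ∈ S → ℕ)) :=
    (sg ×ˢ sg ×ˢ sg) ×ˢ (S.pi fun p => Finset.range (p + 2))
  let f : ℤ × ℤ × ℤ → (ℤ × ℤ × ℤ) × ((p : ℕ) → p ∈ S → ℕ) := fun x =>
    ((Int.sign x.1, Int.sign x.2.1, Int.sign x.2.2), fun p _ => cls p (I p) x)
  have hcod : cod.card = 27 * ∏ p ∈ S, (p + 2) := by
    simp only [cod, sg, Finset.card_product, Finset.card_pi, Finset.card_range, Int.card_Icc]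
    have h3 : ((1 : ℤ) + 1 - (-1)).toNat = 3 := by decide
    rw [h3]
  rw [← hcod]
  have hsg : ∀ a : ℤ, Int.sign a ∈ sg := by
    intro a
    rw [Finset.mem_Icc]
    rcases lt_trichotomy a 0 with ha | rfl | ha
    · rw [Int.sign_eq_neg_one_of_neg ha]; norm_num
    · norm_num
    · rw [Int.sign_eq_one_of_pos ha]; norm_num
  refine Finset.card_le_card_of_injOn f ?_ ?_
  · intro x _
    rw [Finset.mem_coe]
    simp only [cod, f, Finset.mem_product, Finset.mem_pi, Finset.mem_range]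
    exact ⟨⟨hsg _, hsg _, hsg _⟩, fun p hp => cls_lt (hS p hp).1 _ _⟩
  · intro x hx y hy hxy
    rw [Finset.mem_coe, mem_W] at hx hy
    simp only [f, Prod.mk.injEq] at hxy
    obtain ⟨⟨s1, s2, s3⟩, hc⟩ := hxy
    have hdiv : (D : ℤ) ^ 2 ∣ x.1 * y.1 + x.2.1 * y.2.1 + x.2.2 * y.2.2 := by
      have e : (D : ℤ) ^ 2 = ∏ p ∈ S, (p : ℤ) ^ 2 := by
        rw [Finset.prod_pow, hD]; push_cast; rfl
      rw [e]
      refine Finset.prod_dvd_of_coprime ?_ ?_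
      · intro p hp q hq hpq
        refine IsCoprime.pow ?_
        rw [Nat.isCoprime_iff_coprime]
        exact (Nat.coprime_primes (hS p hp).1 (hS q hq).1).2 hpq
      · intro p hp
        have hpD : (p : ℤ) ^ 2 ∣ (D : ℤ) ^ 2 :=
          pow_dvd_pow_of_dvd (by exact_mod_cast Finset.dvd_prod_of_mem _ hp) 2
        refine sq_dvd_dot (hS p hp).1 ?_ (hI p hp) (hx ▸ hpD) (hy ▸ hpD)
          (congrFun (congrFun hc p) hp)
        have := (hS p hp).2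
        omega
    have hpos : 0 < x.1 * y.1 + x.2.1 * y.2.1 + x.2.2 * y.2.2 := by
      have h1 := sign_mul s1
      have h2 := sign_mul s2
      have h3 := sign_mul s3
      by_cases c1 : x.1 = 0
      · by_cases c2 : x.2.1 = 0
        · have c3 : x.2.2 ≠ 0 := by
            intro c3
            rw [c1, c2, c3] at hx
            have : (0 : ℤ) < (D : ℤ) ^ 2 := by positivity
            linarith
          linarith [h1.1, h2.1, h3.2 c3]
        · linarith [h1.1, h2.2 c2, h3.1]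
      · linarith [h1.2 c1, h2.1, h3.1]
    have hle : (D : ℤ) ^ 2 ≤ x.1 * y.1 + x.2.1 * y.2.1 + x.2.2 * y.2.2 := Int.le_of_dvd hpos hdiv
    have hz : (x.1 - y.1) ^ 2 + (x.2.1 - y.2.1) ^ 2 + (x.2.2 - y.2.2) ^ 2 ≤ 0 := by nlinarith
    have z1 : x.1 - y.1 = 0 := by
      have : (x.1 - y.1) ^ 2 ≤ 0 := by
        linarith [sq_nonneg (x.2.1 - y.2.1), sq_nonneg (x.2.2 - y.2.2)]
      exact pow_eq_zero_iff two_ne_zero |>.1 (le_antisymm this (sq_nonneg _))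
    have z2 : x.2.1 - y.2.1 = 0 := by
      have : (x.2.1 - y.2.1) ^ 2 ≤ 0 := by
        linarith [sq_nonneg (x.1 - y.1), sq_nonneg (x.2.2 - y.2.2)]
      exact pow_eq_zero_iff two_ne_zero |>.1 (le_antisymm this (sq_nonneg _))
    have z3 : x.2.2 - y.2.2 = 0 := by
      have : (x.2.2 - y.2.2) ^ 2 ≤ 0 := by
        linarith [sq_nonneg (x.1 - y.1), sq_nonneg (x.2.1 - y.2.1)]
      exact pow_eq_zero_iff two_ne_zero |>.1 (le_antisymm this (sq_nonneg _))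
    ext
    · linarith
    · linarith
    · linarith

end Pool.Agent.Helper799.OB
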