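import Mathlib
import Pool.Agent.Helper799.OB3
import Pool.Agent.Helper799.OB4

set_option autoImplicit false

namespace Pool.Agent.Helper799.OB

open Finset

/-- the three columns of the rotation attached to the quaternion `(a, b, c, d)` -/
def U1 (a b c d : ℤ) : ℤ × ℤ × ℤ := (a ^ 2 + b ^ 2 - c ^ 2 - d ^ 2, 2 * (b * c + a * d), 2 * (b * d - a * c))
def U2 (a b c d : ℤ) : ℤ × ℤ × ℤ := (2 * (b * c - a * d), a ^ 2 - b ^ 2 + c ^ 2 - d ^ 2, 2 * (c * d + a * b))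
def U3 (a b c d : ℤ) : ℤ × ℤ × ℤ := (2 * (b * d + a * c), 2 * (c * d - a * b), a ^ 2 - b ^ 2 - c ^ 2 + d ^ 2)

abbrev E3 := EuclideanSpace ℝ (Fin 3)

/-- the vector `x / D` -/
noncomputable def vec (x : ℤ × ℤ × ℤ) (D : ℕ) : E3 :=
  !₂[(x.1 : ℝ) / D, (x.2.1 : ℝ) / D, (x.2.2 : ℝ) / D]

theorem inner_vec (x y : ℤ × ℤ × ℤ) (D D' : ℕ) :
    inner ℝ (vec x D) (vec y D') = ((x.1 * y.1 + x.2.1 * y.2.1 + x.2.2 * y.2.2 : ℤ) : ℝ) / (D * D') := by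
  rw [PiLp.inner_apply, Fin.sum_univ_three]
  simp only [vec, PiLp.toLp_apply, Matrix.cons_val_zero, Matrix.cons_val_one, Matrix.cons_val,
    RCLike.inner_apply, conj_trivial]
  push_cast
  by_cases hD : (D : ℝ) = 0
  · simp [hD]
  by_cases hD' : (D' : ℝ) = 0
  · simp [hD']
  field_simp

theorem norm_vec {x : ℤ × ℤ × ℤ} {D : ℕ} (hD : 0 < D) (hx : x ∈ W D) : ‖vec x D‖ = 1 := by
  have h := inner_vec x x D D
  rw [real_inner_self_eq_norm_sq] at h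
  have e : x.1 * x.1 + x.2.1 * x.2.1 + x.2.2 * x.2.2 = (D : ℤ) ^ 2 := by
    rw [← mem_W.1 hx]; ring
  rw [e] at h
  have hD' : (D : ℝ) ≠ 0 := by positivity
  have h2 : ‖vec x D‖ ^ 2 = 1 := by
    rw [h]; push_cast; field_simp
  exact (pow_eq_one_iff_of_nonneg (norm_nonneg _) two_ne_zero).1 h2

/-- the vector set -/
noncomputable def VV (P : Finset ℕ) (σ : ℕ) : Finset E3 := by
  classical
  exact (P.powersetCard σ).biUnion (fun S => (W (∏ p ∈ S, p)).image (fun x => vec x (∏ p ∈ S, p)))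

theorem mem_VV {P : Finset ℕ} {σ : ℕ} {v : E3} : v ∈ VV P σ ↔
    ∃ S ⊆ P, #S = σ ∧ ∃ x ∈ W (∏ p ∈ S, p), vec x (∏ p ∈ S, p) = v := by
  classical
  unfold VV
  simp only [Finset.mem_biUnion, Finset.mem_powersetCard, Finset.mem_image]
  constructor
  · rintro ⟨S, ⟨h1, h2⟩, h3⟩; exact ⟨S, h1, h2, h3⟩
  · rintro ⟨S, h1, h2, h3⟩; exact ⟨S, ⟨h1, h2⟩, h3⟩

theorem card_VV {P : Finset ℕ} (hP : ∀ p ∈ P, p.Prime ∧ 5 ≤ p) (I : ℕ → ℤ)
    (hI : ∀ p ∈ P, (p : ℤ) ∣ I p ^ 2 + 1) (σ : ℕ) :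
    #(VV P σ) ≤ 27 * ∑ S ∈ P.powersetCard σ, ∏ p ∈ S, (p + 2) := by
  classical
  unfold VV
  refine Finset.card_biUnion_le.trans ?_
  rw [Finset.mul_sum]
  refine Finset.sum_le_sum fun S hS => ?_
  rw [Finset.mem_powersetCard] at hS
  exact Finset.card_image_le.trans (card_W (fun p hp => hP p (hS.1 hp)) I fun p hp => hI p (hS.1 hp))

theorem norm_VV {P : Finset ℕ} (hP : ∀ p ∈ P, p.Prime ∧ 5 ≤ p) {σ : ℕ} {v : E3}
    (hv : v ∈ VV P σ) : ‖v‖ = 1 := by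
  rw [mem_VV] at hv
  obtain ⟨S, hS, _, x, hx, rfl⟩ := hv
  exact norm_vec (Finset.prod_pos fun p hp => (hP p (hS hp)).1.pos) hx

theorem vec_mem {P T Z : Finset ℕ} (hP : ∀ p ∈ P, p.Prime ∧ 5 ≤ p) {σ : ℕ} (hT : T ⊆ P)
    (hZ : Z ⊆ T) (hc : #(T \ Z) = σ) {x : ℤ × ℤ × ℤ} (hx : x ∈ W (∏ p ∈ T, p))
    (hd : ∀ p ∈ Z, (p : ℤ) ∣ x.1 ∧ (p : ℤ) ∣ x.2.1 ∧ (p : ℤ) ∣ x.2.2) :
    vec x (∏ p ∈ T, p) ∈ VV P σ := by
  classical
  have hprod : (∏ p ∈ T \ Z, p) * ∏ p ∈ Z, p = ∏ p ∈ T, p := Finset.prod_sdiff hZ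
  have hZ1 : ∀ p ∈ Z, p.Prime := fun p hp => (hP p (hT (hZ hp))).1
  obtain ⟨y1, h1⟩ := prod_dvd_int hZ1 (fun p hp => (hd p hp).1)
  obtain ⟨y2, h2⟩ := prod_dvd_int hZ1 (fun p hp => (hd p hp).2.1)
  obtain ⟨y3, h3⟩ := prod_dvd_int hZ1 (fun p hp => (hd p hp).2.2)
  set M := ∏ p ∈ Z, p with hM
  set K := ∏ p ∈ T \ Z, p with hK
  have hM0 : 0 < M := Finset.prod_pos fun p hp => (hZ1 p hp).pos
  have hK0 : 0 < K := Finset.prod_pos fun p hp => (hP p (hT (Finset.sdiff_subset hp))).1.pos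
  rw [mem_VV]
  refine ⟨T \ Z, Finset.sdiff_subset.trans hT, hc, (y1, y2, y3), ?_, ?_⟩
  · rw [mem_W] at hx ⊢
    rw [← hprod, h1, h2, h3] at hx
    have hM' : (M : ℤ) ^ 2 ≠ 0 := by positivity
    apply mul_left_cancel₀ hM'
    push_cast at hx
    simp only
    rw [← hK]
    linear_combination hx
  · rw [← hprod, ← hK]
    unfold vec
    rw [h1, h2, h3]
    have hM' : (M : ℝ) ≠ 0 := by positivity
    have hK' : (K : ℝ) ≠ 0 := by positivity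
    push_cast
    have e : ∀ y : ℝ, M * y / (K * M) = y / K := by
      intro y; field_simp
    rw [e, e, e]

theorem U1_mem (a b c d : ℤ) (D : ℕ) (h : a ^ 2 + b ^ 2 + c ^ 2 + d ^ 2 = (D : ℤ)) :
    U1 a b c d ∈ W D := by
  rw [mem_W, ← h]; unfold U1; ring
theorem U2_mem (a b c d : ℤ) (D : ℕ) (h : a ^ 2 + b ^ 2 + c ^ 2 + d ^ 2 = (D : ℤ)) :
    U2 a b c d ∈ W D := by
  rw [mem_W, ← h]; unfold U2; ring
theorem U3_mem (a b c d : ℤ) (D : ℕ) (h : a ^ 2 + b ^ 2 + c ^ 2 + d ^ 2 = (D : ℤ)) :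
    U3 a b c d ∈ W D := by
  rw [mem_W, ← h]; unfold U3; ring

theorem Loc.zmod {p : ℕ} {I s a b c d : ℤ} (h : Loc p I s a b c d) :
    ((a : ZMod p) + b * I + s * (c + d * I) = 0) ∧ (-(c : ZMod p) + d * I + s * (a - b * I) = 0) := by
  obtain ⟨h1, h2⟩ := h
  rw [← ZMod.intCast_zmod_eq_zero_iff_dvd] at h1 h2
  push_cast at h1 h2
  exact ⟨h1, h2⟩

theorem two_ne {p : ℕ} (hp : p.Prime) (hp5 : 5 ≤ p) : (2 : ZMod p) ≠ 0 := by
  intro h2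
  have : ((2 : ℕ) : ZMod p) = 0 := by exact_mod_cast h2
  rw [ZMod.natCast_eq_zero_iff] at this
  have := (Nat.prime_dvd_prime_iff_eq hp Nat.prime_two).1 this
  omega

theorem U1_dvd {p : ℕ} (hp : p.Prime) {I a b c d : ℤ} (hI : (p : ℤ) ∣ I ^ 2 + 1)
    (h : Loc p I 0 a b c d) : (p : ℤ) ∣ (U1 a b c d).1 ∧ (p : ℤ) ∣ (U1 a b c d).2.1 ∧
      (p : ℤ) ∣ (U1 a b c d).2.2 := by
  have : NeZero p := ⟨hp.ne_zero⟩
  obtain ⟨h1, h2⟩ := h.zmod
  rw [← ZMod.intCast_zmod_eq_zero_iff_dvd] at hI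
  simp only [← ZMod.intCast_zmod_eq_zero_iff_dvd, U1]
  push_cast at hI h1 h2 ⊢
  generalize (a : ZMod p) = a at *
  generalize (b : ZMod p) = b at *
  generalize (c : ZMod p) = c at *
  generalize (d : ZMod p) = d at *
  generalize (I : ZMod p) = I at *
  refine ⟨?_, ?_, ?_⟩
  · linear_combination (a - b * I) * h1 + (c + d * I) * h2 + (b ^ 2 - d ^ 2) * hI
  · linear_combination (2 * d) * h1 - (2 * b) * h2
  · linear_combination (2 * b * d) * hI - (2 * c) * h1 - (2 * b * I) * h2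

theorem U2_dvd {p : ℕ} (hp : p.Prime) (hp5 : 5 ≤ p) {I a b c d : ℤ} (hI : (p : ℤ) ∣ I ^ 2 + 1)
    (h : Loc p I I a b c d) : (p : ℤ) ∣ (U2 a b c d).1 ∧ (p : ℤ) ∣ (U2 a b c d).2.1 ∧
      (p : ℤ) ∣ (U2 a b c d).2.2 := by
  have : NeZero p := ⟨hp.ne_zero⟩
  have : Fact p.Prime := ⟨hp⟩
  have h2ne := two_ne hp hp5
  obtain ⟨h1, h2⟩ := h.zmod
  rw [← ZMod.intCast_zmod_eq_zero_iff_dvd] at hI
  simp only [← ZMod.intCast_zmod_eq_zero_iff_dvd, U2]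
  push_cast at hI h1 h2 ⊢
  generalize (a : ZMod p) = a at *
  generalize (b : ZMod p) = b at *
  generalize (c : ZMod p) = c at *
  generalize (d : ZMod p) = d at *
  generalize (I : ZMod p) = I at *
  have k1 : a + c * I = 0 := by
    apply mul_left_cancel₀ h2ne
    linear_combination h1 - I * h2 + (a - b * I) * hI
  have k2 : d - b * I = 0 := by
    linear_combination (-I) * h2 + I ^ 2 * k1 - I * c * hI + (d - b * I) * hI
  refine ⟨?_, ?_, ?_⟩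
  · linear_combination (2 * b * c) * hI - (2 * d) * k1 + (2 * c * I) * k2
  · linear_combination (a - c * I) * k1 + (c ^ 2 - b ^ 2) * hI - (d + b * I) * k2
  · linear_combination (2 * c) * k2 + (2 * b) * k1

theorem U3_dvd {p : ℕ} (hp : p.Prime) (hp5 : 5 ≤ p) {I a b c d : ℤ} (hI : (p : ℤ) ∣ I ^ 2 + 1)
    (h : Loc p I 1 a b c d) : (p : ℤ) ∣ (U3 a b c d).1 ∧ (p : ℤ) ∣ (U3 a b c d).2.1 ∧
      (p : ℤ) ∣ (U3 a b c d).2.2 := by
  have : NeZero p := ⟨hp.ne_zero⟩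
  have : Fact p.Prime := ⟨hp⟩
  have h2ne := two_ne hp hp5
  obtain ⟨h1, h2⟩ := h.zmod
  rw [← ZMod.intCast_zmod_eq_zero_iff_dvd] at hI
  simp only [← ZMod.intCast_zmod_eq_zero_iff_dvd, U3]
  push_cast at hI h1 h2 ⊢
  generalize (a : ZMod p) = a at *
  generalize (b : ZMod p) = b at *
  generalize (c : ZMod p) = c at *
  generalize (d : ZMod p) = d at *
  generalize (I : ZMod p) = I at *
  have k1 : a + d * I = 0 := by
    apply mul_left_cancel₀ h2ne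
    linear_combination h1 + h2
  have k2 : c + b * I = 0 := by
    apply mul_left_cancel₀ h2ne
    linear_combination h1 - h2
  refine ⟨?_, ?_, ?_⟩
  · linear_combination (2 * b * d) * hI + (2 * c) * k1 - (2 * d * I) * k2
  · linear_combination (2 * d) * k2 - (2 * b) * k1
  · linear_combination (a - d * I) * k1 + (d ^ 2 - b ^ 2) * hI - (c - b * I) * k2

end Pool.Agent.Helper799.OB
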