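import Mathlib
import Pool.Agent.Helper799.OB5

set_option autoImplicit false

namespace Pool.Agent.Helper799.OB

open Finset

theorem vec_eq {x y : ℤ × ℤ × ℤ} {D D' : ℕ} (hD : 0 < D) (hD' : 0 < D') (h : vec x D = vec y D') :
    x.1 * D' = y.1 * D ∧ x.2.1 * D' = y.2.1 * D ∧ x.2.2 * D' = y.2.2 * D := by
  have hDr : (D : ℝ) ≠ 0 := by positivity
  have hDr' : (D' : ℝ) ≠ 0 := by positivity
  have h0 := congrFun (congrArg (fun v : E3 => (v : Fin 3 → ℝ)) h) 0
  have h1 := congrFun (congrArg (fun v : E3 => (v : Fin 3 → ℝ)) h) 1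
  have h2 := congrFun (congrArg (fun v : E3 => (v : Fin 3 → ℝ)) h) 2
  simp only [vec, PiLp.toLp_apply, Matrix.cons_val_zero, Matrix.cons_val_one, Matrix.cons_val] at h0 h1 h2
  rw [div_eq_div_iff hDr hDr'] at h0 h1 h2
  exact ⟨by exact_mod_cast h0, by exact_mod_cast h1, by exact_mod_cast h2⟩

/-- the products of coordinates agree -/
structure SameProd (a b c d a' b' c' d' M M' : ℤ) : Prop where
  aa : a * a * M' = a' * a' * M
  bb : b * b * M' = b' * b' * M
  cc : c * c * M' = c' * c' * M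
  dd : d * d * M' = d' * d' * M
  ab : a * b * M' = a' * b' * M
  ac : a * c * M' = a' * c' * M
  ad : a * d * M' = a' * d' * M
  bc : b * c * M' = b' * c' * M
  bd : b * d * M' = b' * d' * M
  cd : c * d * M' = c' * d' * M

theorem sameProd {D D' : ℕ} (hD : 0 < D) (hD' : 0 < D') {a b c d a' b' c' d' : ℤ}
    (hN : a ^ 2 + b ^ 2 + c ^ 2 + d ^ 2 = (D : ℤ)) (hN' : a' ^ 2 + b' ^ 2 + c' ^ 2 + d' ^ 2 = (D' : ℤ))
    (h1 : vec (U1 a b c d) D = vec (U1 a' b' c' d') D')
    (h2 : vec (U2 a b c d) D = vec (U2 a' b' c' d') D')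
    (h3 : vec (U3 a b c d) D = vec (U3 a' b' c' d') D') :
    SameProd a b c d a' b' c' d' D D' := by
  obtain ⟨u11, u12, u13⟩ := vec_eq hD hD' h1
  obtain ⟨u21, u22, u23⟩ := vec_eq hD hD' h2
  obtain ⟨u31, u32, u33⟩ := vec_eq hD hD' h3
  simp only [U1, U2, U3] at *
  have n : (a ^ 2 + b ^ 2 + c ^ 2 + d ^ 2) * D' = (a' ^ 2 + b' ^ 2 + c' ^ 2 + d' ^ 2) * D := by
    rw [hN, hN']; ring
  have h4 : (4 : ℤ) ≠ 0 := by norm_num
  constructor <;> apply mul_left_cancel₀ h4
  · linear_combination n + u11 + u22 + u33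
  · linear_combination n + u11 - u22 - u33
  · linear_combination n - u11 + u22 - u33
  · linear_combination n - u11 - u22 + u33
  · linear_combination u23 - u32
  · linear_combination u31 - u13
  · linear_combination u12 - u21
  · linear_combination u12 + u21
  · linear_combination u31 + u13
  · linear_combination u23 + u32

theorem not_all_dvd {T : Finset ℕ} (hT : ∀ p ∈ T, p.Prime) {p : ℕ} (hp : p ∈ T) {a b c d : ℤ}
    (hN : a ^ 2 + b ^ 2 + c ^ 2 + d ^ 2 = ((∏ q ∈ T, q : ℕ) : ℤ)) :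
    ¬ ((p : ℤ) ∣ a ∧ (p : ℤ) ∣ b ∧ (p : ℤ) ∣ c ∧ (p : ℤ) ∣ d) := by
  rintro ⟨⟨a, rfl⟩, ⟨b, rfl⟩, ⟨c, rfl⟩, ⟨d, rfl⟩⟩
  apply sq_not_dvd_prod hT hp
  have : ((p ^ 2 : ℕ) : ℤ) ∣ ((∏ q ∈ T, q : ℕ) : ℤ) := by
    rw [← hN]
    refine ⟨a ^ 2 + b ^ 2 + c ^ 2 + d ^ 2, ?_⟩
    push_cast
    ring
  exact_mod_cast this

theorem T_subset {T T' : Finset ℕ} (hT : ∀ p ∈ T, p.Prime) (hT' : ∀ p ∈ T', p.Prime)
    {a b c d a' b' c' d' : ℤ}
    (hN : a ^ 2 + b ^ 2 + c ^ 2 + d ^ 2 = ((∏ q ∈ T, q : ℕ) : ℤ))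
    (h : SameProd a b c d a' b' c' d' ((∏ q ∈ T, q : ℕ) : ℤ) ((∏ q ∈ T', q : ℕ) : ℤ)) : T ⊆ T' := by
  intro p hp
  by_contra hp'
  have hpI : Prime (p : ℤ) := Nat.prime_iff_prime_int.1 (hT p hp)
  have hpT : (p : ℤ) ∣ ((∏ q ∈ T, q : ℕ) : ℤ) := by
    exact_mod_cast Finset.dvd_prod_of_mem _ hp
  have hpT' : ¬ (p : ℤ) ∣ ((∏ q ∈ T', q : ℕ) : ℤ) := by
    have := not_dvd_prod hT' (hT p hp) hp'
    exact_mod_cast this
  have key : ∀ x x' : ℤ, x * x * ((∏ q ∈ T', q : ℕ) : ℤ) = x' * x' * ((∏ q ∈ T, q : ℕ) : ℤ) →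
      (p : ℤ) ∣ x := by
    intro x x' hx
    have h1 : (p : ℤ) ∣ x * x * ((∏ q ∈ T', q : ℕ) : ℤ) := by
      rw [hx]; exact dvd_mul_of_dvd_right hpT _
    rcases hpI.dvd_mul.1 h1 with h1 | h1
    · rcases hpI.dvd_mul.1 h1 with h1 | h1 <;> exact h1
    · exact absurd h1 hpT'
  exact not_all_dvd hT hp hN ⟨key a a' h.aa, key b b' h.bb, key c c' h.cc, key d d' h.dd⟩

theorem SameProd.symm {a b c d a' b' c' d' M M' : ℤ} (h : SameProd a b c d a' b' c' d' M M') :
    SameProd a' b' c' d' a b c d M' M :=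
  ⟨h.aa.symm, h.bb.symm, h.cc.symm, h.dd.symm, h.ab.symm, h.ac.symm, h.ad.symm, h.bc.symm,
    h.bd.symm, h.cd.symm⟩

theorem loc_unique {p : ℕ} (hp : p.Prime) (hp5 : 5 ≤ p) {I s s' a b c d a' b' c' d' M : ℤ} (hM : M ≠ 0)
    (hI : (p : ℤ) ∣ I ^ 2 + 1)
    (h : SameProd a b c d a' b' c' d' M M) (hL : Loc p I s a b c d) (hL' : Loc p I s' a' b' c' d')
    (hnz : ¬ ((p : ℤ) ∣ a ∧ (p : ℤ) ∣ b ∧ (p : ℤ) ∣ c ∧ (p : ℤ) ∣ d)) : (p : ℤ) ∣ s - s' := by
  have : Fact p.Prime := ⟨hp⟩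
  have h2ne := two_ne hp hp5
  have g : ∀ x y : ℤ, x * M = y * M → x = y := fun x y hxy => mul_right_cancel₀ hM hxy
  have aa := g _ _ h.aa
  have bb := g _ _ h.bb
  have cc := g _ _ h.cc
  have dd := g _ _ h.dd
  have ab := g _ _ h.ab
  have ac := g _ _ h.ac
  have ad := g _ _ h.ad
  have bc := g _ _ h.bc
  have bd := g _ _ h.bd
  have cd := g _ _ h.cd
  obtain ⟨h1, h2⟩ := hL.zmod
  obtain ⟨h1', h2'⟩ := hL'.zmod
  have c' : ∀ x y : ℤ, x = y → (x : ZMod p) = (y : ZMod p) := fun x y h => by rw [h]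
  replace aa := c' _ _ aa
  replace bb := c' _ _ bb
  replace cc := c' _ _ cc
  replace dd := c' _ _ dd
  replace ab := c' _ _ ab
  replace ac := c' _ _ ac
  replace ad := c' _ _ ad
  replace bc := c' _ _ bc
  replace bd := c' _ _ bd
  replace cd := c' _ _ cd
  simp only [← ZMod.intCast_zmod_eq_zero_iff_dvd] at hI hnz ⊢
  push_cast at *
  clear c' g h hL hL'
  generalize (a : ZMod p) = a at *
  generalize (b : ZMod p) = b at *
  generalize (c : ZMod p) = c at *
  generalize (d : ZMod p) = d at *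
  generalize (a' : ZMod p) = a' at *
  generalize (b' : ZMod p) = b' at *
  generalize (c' : ZMod p) = c' at *
  generalize (d' : ZMod p) = d' at *
  generalize (I : ZMod p) = I at *
  generalize (s : ZMod p) = s at *
  generalize (s' : ZMod p) = s' at *
  -- transfer
  have t1a : a * (a + b * I + s' * (c + d * I)) = 0 := by
    linear_combination a' * h1' + aa + I * ab + s' * ac + s' * I * ad
  have t1b : b * (a + b * I + s' * (c + d * I)) = 0 := by
    linear_combination b' * h1' + ab + I * bb + s' * bc + s' * I * bd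
  have t1c : c * (a + b * I + s' * (c + d * I)) = 0 := by
    linear_combination c' * h1' + ac + I * bc + s' * cc + s' * I * cd
  have t1d : d * (a + b * I + s' * (c + d * I)) = 0 := by
    linear_combination d' * h1' + ad + I * bd + s' * cd + s' * I * dd
  have t2a : a * (-c + d * I + s' * (a - b * I)) = 0 := by
    linear_combination a' * h2' - ac + I * ad + s' * aa - s' * I * ab
  have t2b : b * (-c + d * I + s' * (a - b * I)) = 0 := by
    linear_combination b' * h2' - bc + I * bd + s' * ab - s' * I * bb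
  have t2c : c * (-c + d * I + s' * (a - b * I)) = 0 := by
    linear_combination c' * h2' - cc + I * cd + s' * ac - s' * I * bc
  have t2d : d * (-c + d * I + s' * (a - b * I)) = 0 := by
    linear_combination d' * h2' - cd + I * dd + s' * ad - s' * I * bd
  have k1 : a + b * I + s' * (c + d * I) = 0 := by
    by_contra hne
    exact hnz ⟨(mul_eq_zero.1 t1a).resolve_right hne, (mul_eq_zero.1 t1b).resolve_right hne,
      (mul_eq_zero.1 t1c).resolve_right hne, (mul_eq_zero.1 t1d).resolve_right hne⟩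
  have k2 : -c + d * I + s' * (a - b * I) = 0 := by
    by_contra hne
    exact hnz ⟨(mul_eq_zero.1 t2a).resolve_right hne, (mul_eq_zero.1 t2b).resolve_right hne,
      (mul_eq_zero.1 t2c).resolve_right hne, (mul_eq_zero.1 t2d).resolve_right hne⟩
  by_contra hs
  have m1 : (s - s') * (c + d * I) = 0 := by linear_combination h1 - k1
  have m2 : (s - s') * (a - b * I) = 0 := by linear_combination h2 - k2
  have n1 := (mul_eq_zero.1 m1).resolve_left hs
  have n2 := (mul_eq_zero.1 m2).resolve_left hs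
  have q1 : a + b * I = 0 := by linear_combination k1 - s' * n1
  have q2 : -c + d * I = 0 := by linear_combination k2 - s' * n2
  have ha : a = 0 := by
    apply (mul_eq_zero.1 (show 2 * a = 0 by linear_combination q1 + n2)).resolve_left h2ne
  have hc : c = 0 := by
    apply (mul_eq_zero.1 (show 2 * c = 0 by linear_combination n1 - q2)).resolve_left h2ne
  have hb : b = 0 := by
    linear_combination (-I) * (q1 - ha) + b * hI
  have hd : d = 0 := by
    linear_combination (-I) * (n1 - hc) + d * hI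
  exact hnz ⟨ha, hb, hc, hd⟩

end Pool.Agent.Helper799.OB
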