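import Mathlib
import Pool.Agent.Helper799.OB6

set_option autoImplicit false

namespace Pool.Agent.Helper799.OB

open Finset

/-- orthonormal bases (unordered triples of pairwise orthogonal vectors) in a set -/
noncomputable def bases (V : Finset E3) : Finset (Finset E3) := by
  classical
  exact (V.powersetCard 3).filter (fun B => ∀ u ∈ B, ∀ v ∈ B, u ≠ v → inner ℝ u v = 0)

theorem mem_bases {V B : Finset E3} : B ∈ bases V ↔
    B ⊆ V ∧ #B = 3 ∧ ∀ u ∈ B, ∀ v ∈ B, u ≠ v → inner ℝ u v = 0 := by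
  classical
  unfold bases
  rw [Finset.mem_filter, Finset.mem_powersetCard]
  tauto

/-- the index type -/
abbrev Idx (P : Finset ℕ) : Type :=
  Σ (_ : Finset ℕ), Σ (_ : Finset ℕ), Σ (_ : Finset ℕ), Σ (_ : Finset ℕ), ((p : ℕ) → p ∈ P → ℕ)

/-- general states -/
def Gs (I : ℕ → ℕ) (p : ℕ) : Finset ℕ := (Finset.range p).filter (fun v => v ≠ 0 ∧ v ≠ 1 ∧ v ≠ I p)

/-- allowed local values -/
def loc (I : ℕ → ℕ) (S B C A : Finset ℕ) (p : ℕ) : Finset ℕ :=
  if p ∈ A then {0} else if p ∈ B then {I p} else if p ∈ C then {1} else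
    if p ∈ S then Gs I p else {p}

/-- the index set -/
def index (P : Finset ℕ) (I : ℕ → ℕ) (σ t : ℕ) : Finset (Idx P) :=
  (P.powersetCard σ).sigma fun S => (S.powersetCard t).sigma fun B =>
    ((S \ B).powersetCard t).sigma fun C => ((P \ S).powersetCard t).sigma fun A =>
      P.pi (loc I S B C A)

theorem card_Gs {I : ℕ → ℕ} {p : ℕ} (h1 : 1 < I p) (h2 : I p < p) : #(Gs I p) = p - 3 := by
  have e : Gs I p = Finset.range p \ {0, 1, I p} := by
    ext v
    simp only [Gs, Finset.mem_filter, Finset.mem_sdiff, Finset.mem_insert, Finset.mem_singleton]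
    tauto
  rw [e, Finset.card_sdiff_of_subset, Finset.card_range]
  · congr 1
    rw [Finset.card_insert_of_notMem, Finset.card_insert_of_notMem, Finset.card_singleton]
    · simp; omega
    · simp; omega
  · intro v hv
    simp only [Finset.mem_insert, Finset.mem_singleton] at hv
    rw [Finset.mem_range]
    omega

/-- data of an admissible index -/
structure Adm (P : Finset ℕ) (I : ℕ → ℕ) (σ t : ℕ) (S B C A : Finset ℕ)
    (f : (p : ℕ) → p ∈ P → ℕ) : Prop where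
  S_sub : S ⊆ P
  S_card : #S = σ
  B_sub : B ⊆ S
  B_card : #B = t
  C_sub : C ⊆ S
  C_B : Disjoint C B
  C_card : #C = t
  A_sub : A ⊆ P
  A_S : Disjoint A S
  A_card : #A = t
  hf : ∀ p (h : p ∈ P), f p h ∈ loc I S B C A p

theorem adm_of_mem {P : Finset ℕ} {I : ℕ → ℕ} {σ t : ℕ} {S B C A : Finset ℕ}
    {f : (p : ℕ) → p ∈ P → ℕ} (h : (⟨S, B, C, A, f⟩ : Idx P) ∈ index P I σ t) :
    Adm P I σ t S B C A f := by
  simp only [index, Finset.mem_sigma, Finset.mem_powersetCard, Finset.mem_pi] at h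
  obtain ⟨⟨h1, h2⟩, ⟨h3, h4⟩, ⟨h5, h6⟩, ⟨h7, h8⟩, h9⟩ := h
  exact ⟨h1, h2, h3, h4, h5.trans Finset.sdiff_subset,
    Finset.disjoint_of_subset_left h5 Finset.sdiff_disjoint, h6, h7.trans Finset.sdiff_subset,
    Finset.disjoint_of_subset_left h7 Finset.sdiff_disjoint, h8, h9⟩

section
variable {P : Finset ℕ} {I : ℕ → ℕ} {σ t : ℕ} {S B C A : Finset ℕ} {f : (p : ℕ) → p ∈ P → ℕ}

theorem Adm.zero_iff (hP : ∀ p ∈ P, p.Prime ∧ 5 ≤ p) (hI1 : ∀ p ∈ P, 1 < I p)
    (a : Adm P I σ t S B C A f) {p : ℕ} (h : p ∈ P) : p ∈ A ↔ f p h = 0 := by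
  have h1 := a.hf p h
  have h2 := hI1 p h
  have h3 := (hP p h).2
  unfold loc at h1
  split_ifs at h1 with c1 c2 c3 c4
  · simp only [Finset.mem_singleton] at h1; simp [c1, h1]
  · simp only [Finset.mem_singleton] at h1; simp only [c1, h1, false_iff]; omega
  · simp only [Finset.mem_singleton] at h1; simp only [c1, h1, false_iff]; omega
  · simp only [Gs, Finset.mem_filter] at h1; simp only [c1, false_iff]; exact h1.2.1
  · simp only [Finset.mem_singleton] at h1; simp only [c1, h1, false_iff]; omega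

theorem Adm.I_iff (hP : ∀ p ∈ P, p.Prime ∧ 5 ≤ p) (hI1 : ∀ p ∈ P, 1 < I p) (hI2 : ∀ p ∈ P, I p < p)
    (a : Adm P I σ t S B C A f) {p : ℕ} (h : p ∈ P) : p ∈ B ↔ f p h = I p := by
  have h1 := a.hf p h
  have h2 := hI1 p h
  have h2' := hI2 p h
  have h3 := (hP p h).2
  unfold loc at h1
  split_ifs at h1 with c1 c2 c3 c4
  · simp only [Finset.mem_singleton] at h1
    have : p ∉ B := fun hb => (Finset.disjoint_left.1 a.A_S c1) (a.B_sub hb)
    simp only [this, h1, false_iff]; omega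
  · simp only [Finset.mem_singleton] at h1; simp only [c2, h1]
  · simp only [Finset.mem_singleton] at h1; simp only [c2, h1, false_iff]; omega
  · simp only [Gs, Finset.mem_filter] at h1; simp only [c2, false_iff]; exact h1.2.2.2
  · simp only [Finset.mem_singleton] at h1; simp only [c2, h1, false_iff]; omega

theorem Adm.one_iff (hP : ∀ p ∈ P, p.Prime ∧ 5 ≤ p) (hI1 : ∀ p ∈ P, 1 < I p)
    (a : Adm P I σ t S B C A f) {p : ℕ} (h : p ∈ P) : p ∈ C ↔ f p h = 1 := by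
  have h1 := a.hf p h
  have h2 := hI1 p h
  have h3 := (hP p h).2
  unfold loc at h1
  split_ifs at h1 with c1 c2 c3 c4
  · simp only [Finset.mem_singleton] at h1
    have : p ∉ C := fun hb => (Finset.disjoint_left.1 a.A_S c1) (a.C_sub hb)
    simp only [this, h1, false_iff]; omega
  · simp only [Finset.mem_singleton] at h1
    have : p ∉ C := fun hb => (Finset.disjoint_left.1 a.C_B hb) c2
    simp only [this, h1, false_iff]; omega
  · simp only [Finset.mem_singleton] at h1; simp only [c3, h1]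
  · simp only [Gs, Finset.mem_filter] at h1; simp only [c3, false_iff]; exact h1.2.2.1
  · simp only [Finset.mem_singleton] at h1; simp only [c3, h1, false_iff]; omega

theorem Adm.T_iff (hP : ∀ p ∈ P, p.Prime ∧ 5 ≤ p) (hI2 : ∀ p ∈ P, I p < p)
    (a : Adm P I σ t S B C A f) {p : ℕ} (h : p ∈ P) : p ∈ S ∪ A ↔ f p h < p := by
  have h1 := a.hf p h
  have h2' := hI2 p h
  have h3 := (hP p h).2
  rw [Finset.mem_union]
  unfold loc at h1
  split_ifs at h1 with c1 c2 c3 c4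
  · simp only [Finset.mem_singleton] at h1
    simp only [c1, h1, or_true, true_iff]; omega
  · simp only [Finset.mem_singleton] at h1
    simp only [a.B_sub c2, h1, true_or, true_iff]; omega
  · simp only [Finset.mem_singleton] at h1
    simp only [a.C_sub c3, h1, true_or, true_iff]; omega
  · simp only [Gs, Finset.mem_filter, Finset.mem_range] at h1
    simp only [c4, true_or, true_iff]; exact h1.1
  · simp only [Finset.mem_singleton] at h1; simp only [c1, c4, h1]; simp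

theorem Adm.out (a : Adm P I σ t S B C A f) {p : ℕ} (h : p ∈ P) (hp : p ∉ S ∪ A) : f p h = p := by
  have h1 := a.hf p h
  rw [Finset.mem_union, not_or] at hp
  unfold loc at h1
  rw [if_neg hp.2, if_neg (fun hb => hp.1 (a.B_sub hb)), if_neg (fun hb => hp.1 (a.C_sub hb)),
    if_neg hp.1, Finset.mem_singleton] at h1
  exact h1

end

/-- the frame attached to support `T` and states `s` -/
def Fr (T : Finset ℕ) (I s : ℕ → ℤ) (w : E3 × E3 × E3) : Prop :=
  ∃ a b c d : ℤ, a ^ 2 + b ^ 2 + c ^ 2 + d ^ 2 = ((∏ p ∈ T, p : ℕ) : ℤ) ∧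
    (∀ p ∈ T, Loc p (I p) (s p) a b c d) ∧ w.1 = vec (U1 a b c d) (∏ p ∈ T, p) ∧
    w.2.1 = vec (U2 a b c d) (∏ p ∈ T, p) ∧ w.2.2 = vec (U3 a b c d) (∏ p ∈ T, p)

theorem Fr.recover {T T' : Finset ℕ} (hT : ∀ p ∈ T, p.Prime ∧ 5 ≤ p) (hT' : ∀ p ∈ T', p.Prime ∧ 5 ≤ p)
    {I s s' : ℕ → ℤ} (hI : ∀ p ∈ T, (p : ℤ) ∣ I p ^ 2 + 1) {w : E3 × E3 × E3}
    (h : Fr T I s w) (h' : Fr T' I s' w) : T = T' ∧ ∀ p ∈ T, (p : ℤ) ∣ s p - s' p := by
  obtain ⟨a, b, c, d, hN, hL, h1, h2, h3⟩ := h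
  obtain ⟨a', b', c', d', hN', hL', h1', h2', h3'⟩ := h'
  have hTp := fun p hp => (hT p hp).1
  have hTp' := fun p hp => (hT' p hp).1
  have hD : 0 < ∏ p ∈ T, p := Finset.prod_pos fun p hp => (hTp p hp).pos
  have hD' : 0 < ∏ p ∈ T', p := Finset.prod_pos fun p hp => (hTp' p hp).pos
  have sp := sameProd hD hD' hN hN' (h1.symm.trans h1') (h2.symm.trans h2') (h3.symm.trans h3')
  have hTT : T = T' := Finset.Subset.antisymm (T_subset hTp hTp' hN sp)
    (T_subset hTp' hTp hN' sp.symm)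
  refine ⟨hTT, fun p hp => ?_⟩
  subst hTT
  exact loc_unique (hT p hp).1 (hT p hp).2 (by exact_mod_cast hD.ne') (hI p hp) sp (hL p hp)
    (hL' p hp) (not_all_dvd hTp hp hN)

/-- state function from index -/
def stf {P : Finset ℕ} (f : (p : ℕ) → p ∈ P → ℕ) (p : ℕ) : ℤ := if h : p ∈ P then (f p h : ℤ) else 0

theorem Fr.dot {T : Finset ℕ} (hT : ∀ p ∈ T, p.Prime) {I s : ℕ → ℤ} {w : E3 × E3 × E3}
    (h : Fr T I s w) : ‖w.1‖ = 1 ∧ ‖w.2.1‖ = 1 ∧ ‖w.2.2‖ = 1 ∧ inner ℝ w.1 w.2.1 = 0 ∧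
      inner ℝ w.1 w.2.2 = 0 ∧ inner ℝ w.2.1 w.2.2 = 0 := by
  obtain ⟨a, b, c, d, hN, hL, h1, h2, h3⟩ := h
  have hD : 0 < ∏ p ∈ T, p := Finset.prod_pos fun p hp => (hT p hp).pos
  rw [h1, h2, h3]
  refine ⟨norm_vec hD (U1_mem _ _ _ _ _ hN), norm_vec hD (U2_mem _ _ _ _ _ hN),
    norm_vec hD (U3_mem _ _ _ _ _ hN), ?_, ?_, ?_⟩
  · rw [inner_vec]
    have : (U1 a b c d).1 * (U2 a b c d).1 + (U1 a b c d).2.1 * (U2 a b c d).2.1 +
      (U1 a b c d).2.2 * (U2 a b c d).2.2 = 0 := by unfold U1 U2; ring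
    rw [this]; simp
  · rw [inner_vec]
    have : (U1 a b c d).1 * (U3 a b c d).1 + (U1 a b c d).2.1 * (U3 a b c d).2.1 +
      (U1 a b c d).2.2 * (U3 a b c d).2.2 = 0 := by unfold U1 U3; ring
    rw [this]; simp
  · rw [inner_vec]
    have : (U2 a b c d).1 * (U3 a b c d).1 + (U2 a b c d).2.1 * (U3 a b c d).2.1 +
      (U2 a b c d).2.2 * (U3 a b c d).2.2 = 0 := by unfold U2 U3; ring
    rw [this]; simp

theorem exists_frame {P : Finset ℕ} {I : ℕ → ℕ} (hP : ∀ p ∈ P, p.Prime ∧ 5 ≤ p)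
    (hI : ∀ p ∈ P, (p : ℤ) ∣ (I p : ℤ) ^ 2 + 1) (hI1 : ∀ p ∈ P, 1 < I p) (hI2 : ∀ p ∈ P, I p < p)
    {σ t : ℕ} (hσ : 0 < σ)
    {S B C A : Finset ℕ} {f : (p : ℕ) → p ∈ P → ℕ} (a : Adm P I σ t S B C A f) :
    ∃ w : E3 × E3 × E3, Fr (S ∪ A) (fun p => I p) (stf f) w ∧
      w.1 ∈ VV P σ ∧ w.2.1 ∈ VV P σ ∧ w.2.2 ∈ VV P σ := by
  classical
  have hTP : S ∪ A ⊆ P := Finset.union_subset a.S_sub a.A_sub
  have hne : (S ∪ A).Nonempty := by
    have : S.Nonempty := by rw [← Finset.card_pos, a.S_card]; exact hσ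
    exact this.mono Finset.subset_union_left
  obtain ⟨α, β, γ, δ, hN, hL⟩ := exists_alpha (S ∪ A) (fun p hp => hP p (hTP hp)) hne
    (fun p => (I p : ℤ)) (stf f) (fun p hp => hI p (hTP hp))
  refine ⟨(vec (U1 α β γ δ) (∏ p ∈ S ∪ A, p), vec (U2 α β γ δ) (∏ p ∈ S ∪ A, p),
    vec (U3 α β γ δ) (∏ p ∈ S ∪ A, p)), ⟨α, β, γ, δ, hN, hL, rfl, rfl, rfl⟩, ?_, ?_, ?_⟩
  · refine vec_mem hP hTP (Z := A) Finset.subset_union_right ?_ (U1_mem _ _ _ _ _ hN) ?_
    · rw [Finset.union_sdiff_right, Finset.sdiff_eq_self_of_disjoint a.A_S.symm, a.S_card]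
    · intro p hp
      have hpP := a.A_sub hp
      have h0 : stf f p = 0 := by
        unfold stf; rw [dif_pos hpP, (a.zero_iff hP hI1 hpP).1 hp]; simp
      have := hL p (Finset.mem_union_right _ hp)
      rw [h0] at this
      exact U1_dvd (hP p hpP).1 (hI p hpP) this
  · refine vec_mem hP hTP (Z := B) (a.B_sub.trans Finset.subset_union_left) ?_
      (U2_mem _ _ _ _ _ hN) ?_
    · rw [Finset.card_sdiff_of_subset (a.B_sub.trans Finset.subset_union_left),
        Finset.card_union_of_disjoint a.A_S.symm, a.S_card, a.A_card, a.B_card]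
      omega
    · intro p hp
      have hpP := a.S_sub (a.B_sub hp)
      have h0 : stf f p = I p := by
        unfold stf; rw [dif_pos hpP, (a.I_iff hP hI1 hI2 hpP).1 hp]
      have := hL p (Finset.mem_union_left _ (a.B_sub hp))
      rw [h0] at this
      exact U2_dvd (hP p hpP).1 (hP p hpP).2 (hI p hpP) this
  · refine vec_mem hP hTP (Z := C) (a.C_sub.trans Finset.subset_union_left) ?_
      (U3_mem _ _ _ _ _ hN) ?_
    · rw [Finset.card_sdiff_of_subset (a.C_sub.trans Finset.subset_union_left),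
        Finset.card_union_of_disjoint a.A_S.symm, a.S_card, a.A_card, a.C_card]
      omega
    · intro p hp
      have hpP := a.S_sub (a.C_sub hp)
      have h0 : stf f p = 1 := by
        unfold stf; rw [dif_pos hpP, (a.one_iff hP hI1 hpP).1 hp]; simp
      have := hL p (Finset.mem_union_left _ (a.C_sub hp))
      rw [h0] at this
      exact U3_dvd (hP p hpP).1 (hP p hpP).2 (hI p hpP) this

end Pool.Agent.Helper799.OB
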