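import Mathlib
import Pool.Agent.Helper799.OB7

set_option autoImplicit false

namespace Pool.Agent.Helper799.OB

open Finset

theorem exists_axis (V W : Finset E3) (hV : ∀ v ∈ V, ‖v‖ = 1) :
    ∃ φ : E3 ≃ₗᵢ[ℝ] E3, ∀ v ∈ V, φ v ∉ W := by
  classical
  let s : Finset (Submodule ℝ E3) :=
    {⊥} ∪ (V.image fun v => (Submodule.span ℝ {v})ᗮ) ∪
      ((V ×ˢ W).image fun x => Submodule.span ℝ {x.1 + x.2})
  have hfr : Module.finrank ℝ E3 = 3 := by simp
  have hline : ∀ u : E3, Submodule.span ℝ {u} ≠ ⊤ := by
    intro u hu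
    have h1 : Module.finrank ℝ (Submodule.span ℝ {u}) ≤ 1 := by
      have := finrank_span_le_card (R := ℝ) ({u} : Set E3)
      simpa using this
    rw [hu, finrank_top, hfr] at h1
    omega
  have hs : ⊤ ∉ s := by
    intro h
    simp only [s, Finset.mem_union, Finset.mem_singleton, Finset.mem_image, Finset.mem_product] at h
    rcases h with (h | ⟨v, hv, h⟩) | ⟨x, hx, h⟩
    · have := hline 0
      rw [Submodule.span_zero_singleton] at this
      exact this h.symm
    · have h1 : v ∈ (Submodule.span ℝ {v})ᗮ := by rw [h]; trivial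
      rw [Submodule.mem_orthogonal_singleton_iff_inner_right, real_inner_self_eq_norm_sq, hV v hv] at h1
      norm_num at h1
    · exact hline _ h
  have hne := Subspace.biUnion_ne_univ_of_top_notMem hs
  obtain ⟨a, ha⟩ := (Set.ne_univ_iff_exists_notMem _).1 hne
  simp only [Set.mem_iUnion, not_exists, SetLike.mem_coe] at ha
  have ha0 : a ≠ 0 := by
    rintro rfl
    exact ha ⊥ (by simp [s]) (by simp)
  refine ⟨Submodule.reflection (Submodule.span ℝ {a}), fun v hv hw => ?_⟩
  set w := Submodule.reflection (Submodule.span ℝ {a}) v with hwdef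
  have hw' := hwdef
  rw [Submodule.reflection_singleton_apply] at hw'
  set k : ℝ := (inner ℝ a v / ((‖a‖ : ℝ)) ^ 2) with hk
  have hsum : v + w = (2 * k) • a := by
    rw [hw', mul_smul, two_smul ℝ (k • a), two_smul ℕ]
    simp only [hk]
    abel_nf
    simp
  by_cases hz : v + w = 0
  · have hk0 : inner ℝ a v = 0 := by
      rw [hz] at hsum
      have h2k := (smul_eq_zero.1 hsum.symm).resolve_right ha0
      have hk0 : k = 0 := by linarith
      rw [hk, div_eq_zero_iff] at hk0
      rcases hk0 with h | h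
      · exact h
      · exfalso
        have : ‖a‖ = 0 := by simpa using h
        exact ha0 (norm_eq_zero.1 this)
    refine ha ((Submodule.span ℝ {v})ᗮ) ?_ ?_
    · simp only [s, Finset.mem_union, Finset.mem_image]
      exact Or.inl (Or.inr ⟨v, hv, rfl⟩)
    · rw [Submodule.mem_orthogonal_singleton_iff_inner_left]
      exact hk0
  · have h2k : 2 * k ≠ 0 := by
      intro h; rw [h, zero_smul] at hsum; exact hz hsum
    refine ha (Submodule.span ℝ {v + w}) ?_ ?_
    · simp only [s, Finset.mem_union, Finset.mem_image, Finset.mem_product]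
      exact Or.inr ⟨(v, w), ⟨hv, hw⟩, rfl⟩
    · rw [Submodule.mem_span_singleton]
      exact ⟨(2 * k)⁻¹, by rw [hsum, smul_smul, inv_mul_cancel₀ h2k, one_smul]⟩

/-- there are `n` unit vectors with at least `b` bases -/
def Good (n b : ℕ) : Prop := ∃ V : Finset E3, #V = n ∧ (∀ v ∈ V, ‖v‖ = 1) ∧ b ≤ #(bases V)

theorem bases_mono {V W : Finset E3} (h : V ⊆ W) : bases V ⊆ bases W := by
  intro B hB
  rw [mem_bases] at hB ⊢
  exact ⟨hB.1.trans h, hB.2⟩

theorem bases_image (V : Finset E3) (φ : E3 ≃ₗᵢ[ℝ] E3) [DecidableEq E3] :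
    #(bases V) ≤ #(bases (V.image φ)) := by
  refine Finset.card_le_card_of_injOn (fun B => B.image φ) ?_ ?_
  · intro B hB
    rw [Finset.mem_coe, mem_bases] at hB ⊢
    refine ⟨Finset.image_subset_image hB.1, ?_, ?_⟩
    · rw [Finset.card_image_of_injective _ φ.injective, hB.2.1]
    · intro u hu v hv huv
      rw [Finset.mem_image] at hu hv
      obtain ⟨u, hu, rfl⟩ := hu
      obtain ⟨v, hv, rfl⟩ := hv
      rw [LinearIsometryEquiv.inner_map_map]
      exact hB.2.2 u hu v hv (fun h => huv (by rw [h]))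
  · intro B _ B' _ h
    exact Finset.image_injective φ.injective h

theorem good_add {n b n' b' : ℕ} (h : Good n b) (h' : Good n' b') : Good (n + n') (b + b') := by
  classical
  obtain ⟨V, hVc, hV, hVb⟩ := h
  obtain ⟨W, hWc, hW, hWb⟩ := h'
  obtain ⟨φ, hφ⟩ := exists_axis V W hV
  have hdisj : Disjoint (V.image φ) W := by
    rw [Finset.disjoint_left]
    intro x hx
    rw [Finset.mem_image] at hx
    obtain ⟨v, hv, rfl⟩ := hx
    exact hφ v hv
  refine ⟨V.image φ ∪ W, ?_, ?_, ?_⟩
  · rw [Finset.card_union_of_disjoint hdisj, Finset.card_image_of_injective _ φ.injective, hVc, hWc]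
  · intro x hx
    rw [Finset.mem_union, Finset.mem_image] at hx
    rcases hx with ⟨v, hv, rfl⟩ | hx
    · rw [φ.norm_map, hV v hv]
    · exact hW x hx
  · have hb : Disjoint (bases (V.image φ)) (bases W) := by
      rw [Finset.disjoint_left]
      intro B hB hB'
      rw [mem_bases] at hB hB'
      have hne : B.Nonempty := by rw [← Finset.card_pos, hB.2.1]; norm_num
      obtain ⟨x, hx⟩ := hne
      exact Finset.disjoint_left.1 hdisj (hB.1 hx) (hB'.1 hx)
    calc b + b' ≤ #(bases (V.image φ)) + #(bases W) :=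
          add_le_add (hVb.trans (bases_image V φ)) hWb
      _ = #(bases (V.image φ) ∪ bases W) := (Finset.card_union_of_disjoint hb).symm
      _ ≤ _ := Finset.card_le_card (Finset.union_subset (bases_mono Finset.subset_union_left)
        (bases_mono Finset.subset_union_right))

theorem good_zero : Good 0 0 := ⟨∅, by simp, by simp, by simp⟩

theorem good_one : Good 1 0 :=
  ⟨{EuclideanSpace.single 0 1}, by simp, by simp, by simp⟩

theorem good_pad (m : ℕ) : Good m 0 := by
  induction m with
  | zero => exact good_zero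
  | succ m ih => exact good_add ih good_one

theorem good_mul {n b : ℕ} (h : Good n b) (q : ℕ) : Good (q * n) (q * b) := by
  induction q with
  | zero => simpa using good_zero
  | succ q ih => rw [Nat.succ_mul, Nat.succ_mul]; exact good_add ih h

/-- the maximum number of orthonormal bases among `n` unit vectors of `ℝ³` -/
noncomputable def maxBases (n : ℕ) : ℕ :=
  sSup {b : ℕ | ∃ V : Finset E3, #V = n ∧ (∀ v ∈ V, ‖v‖ = 1) ∧ b = #(bases V)}

theorem card_bases_le (V : Finset E3) : #(bases V) ≤ (#V).choose 3 := by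
  classical
  unfold bases
  exact (Finset.card_filter_le _ _).trans (by rw [Finset.card_powersetCard])

theorem Good.le {n b : ℕ} (h : Good n b) : b ≤ maxBases n := by
  obtain ⟨V, hVc, hV, hVb⟩ := h
  refine hVb.trans (le_csSup ?_ ⟨V, hVc, hV, rfl⟩)
  refine ⟨n.choose 3, ?_⟩
  rintro b ⟨V, hVc, _, rfl⟩
  rw [← hVc]
  exact card_bases_le V

end Pool.Agent.Helper799.OB
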