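import Mathlib
import Pool.Agent.Helper799.OB7

set_option autoImplicit false

namespace Pool.Agent.Helper799.OB

open Finset

theorem index_inj {P : Finset ℕ} {I : ℕ → ℕ} (hP : ∀ p ∈ P, p.Prime ∧ 5 ≤ p)
    (hI : ∀ p ∈ P, (p : ℤ) ∣ (I p : ℤ) ^ 2 + 1) (hI1 : ∀ p ∈ P, 1 < I p) (hI2 : ∀ p ∈ P, I p < p)
    {σ t : ℕ} {S B C A S' B' C' A' : Finset ℕ} {f f' : (p : ℕ) → p ∈ P → ℕ}
    (a : Adm P I σ t S B C A f) (a' : Adm P I σ t S' B' C' A' f') {w : E3 × E3 × E3}
    (h : Fr (S ∪ A) (fun p => I p) (stf f) w) (h' : Fr (S' ∪ A') (fun p => I p) (stf f') w) :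
    S = S' ∧ B = B' ∧ C = C' ∧ A = A' ∧ f = f' := by
  classical
  have hTP : S ∪ A ⊆ P := Finset.union_subset a.S_sub a.A_sub
  have hTP' : S' ∪ A' ⊆ P := Finset.union_subset a'.S_sub a'.A_sub
  obtain ⟨hT, hs⟩ := Fr.recover (fun p hp => hP p (hTP hp)) (fun p hp => hP p (hTP' hp))
    (fun p hp => hI p (hTP hp)) h h'
  have hf : f = f' := by
    funext p hp
    by_cases hpT : p ∈ S ∪ A
    · have hpT' : p ∈ S' ∪ A' := hT ▸ hpT
      have l1 := (a.T_iff hP hI2 hp).1 hpT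
      have l2 := (a'.T_iff hP hI2 hp).1 hpT'
      have hd := hs p hpT
      unfold stf at hd
      rw [dif_pos hp, dif_pos hp] at hd
      have := Int.eq_zero_of_abs_lt_dvd hd (by rw [abs_lt]; constructor <;> omega)
      omega
    · have hpT' : p ∉ S' ∪ A' := hT ▸ hpT
      rw [a.out hp hpT, a'.out hp hpT']
  subst hf
  have hA : A = A' := by
    ext p
    constructor
    · intro hp
      exact (a'.zero_iff hP hI1 (a.A_sub hp)).2 ((a.zero_iff hP hI1 (a.A_sub hp)).1 hp)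
    · intro hp
      exact (a.zero_iff hP hI1 (a'.A_sub hp)).2 ((a'.zero_iff hP hI1 (a'.A_sub hp)).1 hp)
  have hB : B = B' := by
    ext p
    constructor
    · intro hp
      have hpP := a.S_sub (a.B_sub hp)
      exact (a'.I_iff hP hI1 hI2 hpP).2 ((a.I_iff hP hI1 hI2 hpP).1 hp)
    · intro hp
      have hpP := a'.S_sub (a'.B_sub hp)
      exact (a.I_iff hP hI1 hI2 hpP).2 ((a'.I_iff hP hI1 hI2 hpP).1 hp)
  have hC : C = C' := by
    ext p
    constructor
    · intro hp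
      have hpP := a.S_sub (a.C_sub hp)
      exact (a'.one_iff hP hI1 hpP).2 ((a.one_iff hP hI1 hpP).1 hp)
    · intro hp
      have hpP := a'.S_sub (a'.C_sub hp)
      exact (a.one_iff hP hI1 hpP).2 ((a'.one_iff hP hI1 hpP).1 hp)
  have hS : S = S' := by
    have e1 : S = (S ∪ A) \ A := by
      rw [Finset.union_sdiff_right, Finset.sdiff_eq_self_of_disjoint a.A_S.symm]
    have e2 : S' = (S' ∪ A') \ A' := by
      rw [Finset.union_sdiff_right, Finset.sdiff_eq_self_of_disjoint a'.A_S.symm]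
    rw [e1, e2, hT, hA]
  exact ⟨hS, hB, hC, hA, rfl⟩

theorem index_le_bases {P : Finset ℕ} {I : ℕ → ℕ} (hP : ∀ p ∈ P, p.Prime ∧ 5 ≤ p)
    (hI : ∀ p ∈ P, (p : ℤ) ∣ (I p : ℤ) ^ 2 + 1) (hI1 : ∀ p ∈ P, 1 < I p) (hI2 : ∀ p ∈ P, I p < p)
    {σ t : ℕ} (hσ : 0 < σ) : #(index P I σ t) ≤ 27 * #(bases (VV P σ)) := by
  classical
  have hex : ∀ i : Idx P, ∃ w : E3 × E3 × E3, i ∈ index P I σ t →
      Fr (i.1 ∪ i.2.2.2.1) (fun p => I p) (stf i.2.2.2.2) w ∧
      w.1 ∈ VV P σ ∧ w.2.1 ∈ VV P σ ∧ w.2.2 ∈ VV P σ := by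
    intro i
    by_cases h : i ∈ index P I σ t
    · obtain ⟨w, hw⟩ := exists_frame hP hI hI1 hI2 hσ (adm_of_mem (S := i.1) (B := i.2.1)
        (C := i.2.2.1) (A := i.2.2.2.1) (f := i.2.2.2.2) h)
      exact ⟨w, fun _ => hw⟩
    · exact ⟨(0, 0, 0), fun h' => absurd h' h⟩
  choose g hg using hex
  let G : Idx P → Finset E3 := fun i => {(g i).1, (g i).2.1, (g i).2.2}
  have hTp : ∀ i ∈ index P I σ t, ∀ p ∈ i.1 ∪ i.2.2.2.1, p.Prime := by
    intro i hi p hp
    have a := adm_of_mem (S := i.1) (B := i.2.1)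
        (C := i.2.2.1) (A := i.2.2.2.1) (f := i.2.2.2.2) hi
    exact (hP p ((Finset.union_subset a.S_sub a.A_sub) hp)).1
  have ne_of : ∀ u v : E3, ‖u‖ = 1 → inner ℝ u v = 0 → u ≠ v := by
    rintro u v h1 h2 rfl
    rw [real_inner_self_eq_norm_sq, h1] at h2
    norm_num at h2
  have hG3 : ∀ i ∈ index P I σ t, #(G i) = 3 := by
    intro i hi
    obtain ⟨n1, n2, n3, i12, i13, i23⟩ := (hg i hi).1.dot (hTp i hi)
    have d12 := ne_of _ _ n1 i12
    have d13 := ne_of _ _ n1 i13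
    have d23 := ne_of _ _ n2 i23
    simp only [G]
    rw [Finset.card_insert_of_notMem, Finset.card_insert_of_notMem, Finset.card_singleton]
    · simpa using d23
    · simp only [Finset.mem_insert, Finset.mem_singleton, not_or]; exact ⟨d12, d13⟩
  have hGb : (index P I σ t).image G ⊆ bases (VV P σ) := by
    intro B hB
    rw [Finset.mem_image] at hB
    obtain ⟨i, hi, rfl⟩ := hB
    obtain ⟨n1, n2, n3, i12, i13, i23⟩ := (hg i hi).1.dot (hTp i hi)
    obtain ⟨m1, m2, m3⟩ := (hg i hi).2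
    rw [mem_bases]
    refine ⟨?_, hG3 i hi, ?_⟩
    · intro v hv
      simp only [G, Finset.mem_insert, Finset.mem_singleton] at hv
      rcases hv with rfl | rfl | rfl <;> assumption
    · intro u hu v hv huv
      simp only [G, Finset.mem_insert, Finset.mem_singleton] at hu hv
      rcases hu with rfl | rfl | rfl <;> rcases hv with rfl | rfl | rfl <;>
        first
          | exact absurd rfl huv
          | assumption
          | (rw [real_inner_comm]; assumption)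
  have hfib : ∀ b ∈ (index P I σ t).image G, #{i ∈ index P I σ t | G i = b} ≤ 27 := by
    intro b hb
    rw [Finset.mem_image] at hb
    obtain ⟨i0, hi0, rfl⟩ := hb
    have hc : #(G i0 ×ˢ G i0 ×ˢ G i0) = 27 := by
      rw [Finset.card_product, Finset.card_product, hG3 i0 hi0]
    rw [← hc]
    refine Finset.card_le_card_of_injOn g ?_ ?_
    · intro i hi
      rw [Finset.mem_coe, Finset.mem_filter] at hi
      rw [Finset.mem_coe, Finset.mem_product, Finset.mem_product, ← hi.2]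
      simp [G]
    · intro i hi j hj hij
      rw [Finset.mem_coe, Finset.mem_filter] at hi hj
      have ai := adm_of_mem (S := i.1) (B := i.2.1)
        (C := i.2.2.1) (A := i.2.2.2.1) (f := i.2.2.2.2) hi.1
      have aj := adm_of_mem (S := j.1) (B := j.2.1)
        (C := j.2.2.1) (A := j.2.2.2.1) (f := j.2.2.2.2) hj.1
      obtain ⟨h1, h2, h3, h4, h5⟩ := index_inj hP hI hI1 hI2 ai aj (hg i hi.1).1
        (hij ▸ (hg j hj.1).1)
      obtain ⟨S, B, C, A, f⟩ := i
      obtain ⟨S', B', C', A', f'⟩ := j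
      simp only at h1 h2 h3 h4 h5
      subst h1 h2 h3 h4 h5
      rfl
  calc #(index P I σ t) ≤ 27 * #((index P I σ t).image G) :=
        Finset.card_le_mul_card_image _ _ hfib
    _ ≤ 27 * #(bases (VV P σ)) := Nat.mul_le_mul_left _ (Finset.card_le_card hGb)

end Pool.Agent.Helper799.OB
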