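import Mathlib
import Pool.Agent.Helper799.OB8

set_option autoImplicit false

namespace Pool.Agent.Helper799.OB

open Finset

theorem prod_loc {P : Finset ℕ} {I : ℕ → ℕ} (hI1 : ∀ p ∈ P, 1 < I p) (hI2 : ∀ p ∈ P, I p < p)
    {S B C A : Finset ℕ} (hS : S ⊆ P) (hAS : Disjoint A S) :
    ∏ p ∈ P, #(loc I S B C A p) = ∏ p ∈ S \ (B ∪ C), (p - 3) := by
  classical
  have h1 : ∀ p ∈ P, #(loc I S B C A p) = if p ∈ S \ (B ∪ C) then (p - 3) else 1 := by
    intro p hp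
    unfold loc
    by_cases c1 : p ∈ A
    · have : p ∉ S := Finset.disjoint_left.1 hAS c1
      have h' : p ∉ S \ (B ∪ C) := fun h => this (Finset.mem_sdiff.1 h).1
      rw [if_pos c1, if_neg h', Finset.card_singleton]
    by_cases c2 : p ∈ B
    · have h' : p ∉ S \ (B ∪ C) := fun h => (Finset.mem_sdiff.1 h).2 (Finset.mem_union_left _ c2)
      rw [if_neg c1, if_pos c2, if_neg h', Finset.card_singleton]
    by_cases c3 : p ∈ C
    · have h' : p ∉ S \ (B ∪ C) := fun h => (Finset.mem_sdiff.1 h).2 (Finset.mem_union_right _ c3)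
      rw [if_neg c1, if_neg c2, if_pos c3, if_neg h', Finset.card_singleton]
    by_cases c4 : p ∈ S
    · have h' : p ∈ S \ (B ∪ C) := Finset.mem_sdiff.2 ⟨c4, fun h => (Finset.mem_union.1 h).elim c2 c3⟩
      rw [if_neg c1, if_neg c2, if_neg c3, if_pos c4, if_pos h', card_Gs (hI1 p hp) (hI2 p hp)]
    · have h' : p ∉ S \ (B ∪ C) := fun h => c4 (Finset.mem_sdiff.1 h).1
      rw [if_neg c1, if_neg c2, if_neg c3, if_neg c4, if_neg h', Finset.card_singleton]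
  rw [Finset.prod_congr rfl h1, Finset.prod_ite_mem,
    Finset.inter_eq_right.2 (Finset.sdiff_subset.trans hS)]

theorem card_index {P : Finset ℕ} {I : ℕ → ℕ} (hI1 : ∀ p ∈ P, 1 < I p) (hI2 : ∀ p ∈ P, I p < p)
    {σ t M : ℕ} (hM : ∀ p ∈ P, p + 2 ≤ M)
    (hK : ∀ S' ⊆ P, #S' ≤ σ → ∏ p ∈ S', (p + 2) ≤ 3 * ∏ p ∈ S', (p - 3)) :
    (σ.choose t * (σ - t).choose t * (#P - σ).choose t) * ∑ S ∈ P.powersetCard σ, ∏ p ∈ S, (p + 2)
      ≤ 3 * M ^ (2 * t) * #(index P I σ t) := by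
  classical
  unfold index
  rw [Finset.card_sigma, Finset.mul_sum, Finset.mul_sum]
  refine Finset.sum_le_sum fun S hS => ?_
  rw [Finset.mem_powersetCard] at hS
  rw [Finset.card_sigma, Finset.mul_sum]
  have e : σ.choose t * (σ - t).choose t * (#P - σ).choose t * ∏ p ∈ S, (p + 2) =
      ∑ B ∈ S.powersetCard t, ((σ - t).choose t * (#P - σ).choose t * ∏ p ∈ S, (p + 2)) := by
    rw [Finset.sum_const, Finset.card_powersetCard, hS.2, smul_eq_mul]; ring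
  rw [e]
  refine Finset.sum_le_sum fun B hB => ?_
  rw [Finset.mem_powersetCard] at hB
  rw [Finset.card_sigma, Finset.mul_sum]
  have e : (σ - t).choose t * (#P - σ).choose t * ∏ p ∈ S, (p + 2) =
      ∑ C ∈ (S \ B).powersetCard t, ((#P - σ).choose t * ∏ p ∈ S, (p + 2)) := by
    rw [Finset.sum_const, Finset.card_powersetCard, Finset.card_sdiff_of_subset hB.1, hS.2, hB.2,
      smul_eq_mul]; ring
  rw [e]
  refine Finset.sum_le_sum fun C hC => ?_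
  rw [Finset.mem_powersetCard] at hC
  rw [Finset.card_sigma, Finset.mul_sum]
  have e : (#P - σ).choose t * ∏ p ∈ S, (p + 2) =
      ∑ A ∈ (P \ S).powersetCard t, ∏ p ∈ S, (p + 2) := by
    rw [Finset.sum_const, Finset.card_powersetCard, Finset.card_sdiff_of_subset hS.1, hS.2,
      smul_eq_mul]
  rw [e]
  refine Finset.sum_le_sum fun A hA => ?_
  rw [Finset.mem_powersetCard] at hA
  have hCS : C ⊆ S := hC.1.trans Finset.sdiff_subset
  have hBC : B ∪ C ⊆ S := Finset.union_subset hB.1 hCS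
  rw [Finset.card_pi, prod_loc hI1 hI2 hS.1
    (Finset.disjoint_of_subset_left hA.1 Finset.sdiff_disjoint)]
  rw [← Finset.prod_sdiff hBC]
  have h1 : ∏ p ∈ S \ (B ∪ C), (p + 2) ≤ 3 * ∏ p ∈ S \ (B ∪ C), (p - 3) := by
    refine hK _ (Finset.sdiff_subset.trans hS.1) ?_
    rw [← hS.2]
    exact Finset.card_le_card Finset.sdiff_subset
  have h2 : ∏ p ∈ B ∪ C, (p + 2) ≤ M ^ (2 * t) := by
    have hc : #(B ∪ C) = 2 * t := by
      rw [Finset.card_union_of_disjoint (Finset.disjoint_of_subset_left hC.1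
        Finset.sdiff_disjoint).symm, hB.2, hC.2]; ring
    rw [← hc]
    exact Finset.prod_le_pow_card _ _ _ fun p hp => hM p (hS.1 (hBC hp))
  calc (∏ p ∈ S \ (B ∪ C), (p + 2)) * ∏ p ∈ B ∪ C, (p + 2)
      ≤ (3 * ∏ p ∈ S \ (B ∪ C), (p - 3)) * M ^ (2 * t) := Nat.mul_le_mul h1 h2
    _ = _ := by ring

/-- the combinatorial inequality -/
theorem many_bases {P : Finset ℕ} {I : ℕ → ℕ} (hP : ∀ p ∈ P, p.Prime ∧ 5 ≤ p)
    (hI : ∀ p ∈ P, (p : ℤ) ∣ (I p : ℤ) ^ 2 + 1) (hI1 : ∀ p ∈ P, 1 < I p) (hI2 : ∀ p ∈ P, I p < p)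
    {σ t M : ℕ} (hσ : 0 < σ) (hM : ∀ p ∈ P, p + 2 ≤ M)
    (hK : ∀ S' ⊆ P, #S' ≤ σ → ∏ p ∈ S', (p + 2) ≤ 3 * ∏ p ∈ S', (p - 3)) :
    (σ.choose t * (σ - t).choose t * (#P - σ).choose t) * #(VV P σ) ≤
      2187 * M ^ (2 * t) * #(bases (VV P σ)) := by
  have h1 := card_VV hP (fun p => (I p : ℤ)) hI σ
  have h2 := card_index hI1 hI2 hM hK (t := t)
  have h3 := index_le_bases hP hI hI1 hI2 hσ (t := t)
  calc _ ≤ (σ.choose t * (σ - t).choose t * (#P - σ).choose t) *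
        (27 * ∑ S ∈ P.powersetCard σ, ∏ p ∈ S, (p + 2)) := Nat.mul_le_mul_left _ h1
    _ = 27 * ((σ.choose t * (σ - t).choose t * (#P - σ).choose t) *
        ∑ S ∈ P.powersetCard σ, ∏ p ∈ S, (p + 2)) := by ring
    _ ≤ 27 * (3 * M ^ (2 * t) * #(index P I σ t)) := Nat.mul_le_mul_left _ h2
    _ ≤ 27 * (3 * M ^ (2 * t) * (27 * #(bases (VV P σ)))) := by gcongr
    _ = _ := by ring

theorem exists_I {p : ℕ} (hp : p.Prime) (h4 : p % 4 = 1) :
    ∃ i : ℕ, (p : ℤ) ∣ (i : ℤ) ^ 2 + 1 ∧ 1 < i ∧ i < p := by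
  have : Fact p.Prime := ⟨hp⟩
  have : NeZero p := ⟨hp.ne_zero⟩
  have h := (ZMod.exists_sq_eq_neg_one_iff (p := p)).2 (by omega)
  obtain ⟨y, hy⟩ := h
  have hd : (p : ℤ) ∣ (y.val : ℤ) ^ 2 + 1 := by
    rw [← ZMod.intCast_zmod_eq_zero_iff_dvd]
    push_cast
    rw [ZMod.natCast_zmod_val]
    linear_combination -hy
  have hp2 := hp.two_le
  refine ⟨y.val, hd, ?_, ZMod.val_lt y⟩
  by_contra hle
  have hle : y.val = 0 ∨ y.val = 1 := by omega
  rcases hle with h | h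
  · rw [h] at hd
    norm_num at hd
    have := Int.le_of_dvd one_pos hd
    omega
  · rw [h] at hd
    norm_num at hd
    have := Int.le_of_dvd two_pos hd
    omega

theorem exp_bound {Y : ℕ} (hY : 24 ≤ Y) {P : Finset ℕ} (hP : ∀ p ∈ P, Y < p) {σ : ℕ} (hσ : 12 * σ ≤ Y) :
    ∀ S' ⊆ P, #S' ≤ σ → ∏ p ∈ S', (p + 2) ≤ 3 * ∏ p ∈ S', (p - 3) := by
  intro S' hS' hc
  have hYr : (24 : ℝ) ≤ Y := by exact_mod_cast hY
  have h1 : ∏ p ∈ S', ((p : ℝ) + 2) ≤ ∏ p ∈ S', (((p : ℝ) - 3) * Real.exp (6 / Y)) := by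
    refine Finset.prod_le_prod (fun p _ => by positivity) fun p hp => ?_
    have hpY : (Y : ℝ) + 1 ≤ p := by exact_mod_cast hP p (hS' hp)
    have he : 1 + 6 / (Y : ℝ) ≤ Real.exp (6 / Y) := by
      have := Real.add_one_le_exp (6 / (Y : ℝ)); linarith
    have h3 : (0 : ℝ) ≤ (p : ℝ) - 3 := by linarith
    refine le_trans ?_ (mul_le_mul_of_nonneg_left he h3)
    have : 5 ≤ ((p : ℝ) - 3) * (6 / Y) := by
      rw [mul_div_assoc', le_div_iff₀ (by linarith)]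
      nlinarith
    linarith
  rw [Finset.prod_mul_distrib, Finset.prod_const, ← Real.exp_nat_mul] at h1
  have h2 : Real.exp (#S' * (6 / Y)) ≤ 3 := by
    have : (#S' : ℝ) * (6 / Y) ≤ 1 := by
      rw [mul_div_assoc', div_le_one (by linarith)]
      have h5 : (#S' : ℝ) ≤ σ := by exact_mod_cast hc
      have h6 : 12 * (σ : ℝ) ≤ Y := by exact_mod_cast hσ
      linarith
    exact (Real.exp_le_exp.2 this).trans (by linarith [Real.exp_one_lt_d9])
  have hcast : ((∏ p ∈ S', (p - 3) : ℕ) : ℝ) = ∏ p ∈ S', ((p : ℝ) - 3) := by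
    push_cast
    refine Finset.prod_congr rfl fun p hp => ?_
    have hpY := hP p (hS' hp)
    rw [Nat.cast_sub (by omega)]
    norm_num
  have h3 : (0 : ℝ) ≤ ∏ p ∈ S', ((p : ℝ) - 3) := by rw [← hcast]; positivity
  have h4 : ((∏ p ∈ S', (p + 2) : ℕ) : ℝ) ≤ ((3 * ∏ p ∈ S', (p - 3) : ℕ) : ℝ) := by
    rw [Nat.cast_mul, hcast]
    push_cast
    nlinarith
  exact_mod_cast h4

end Pool.Agent.Helper799.OB
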