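import Mathlib
import Pool.Agent.Helper799.OB1
import Pool.Agent.Helper799.OB9
import Pool.Agent.Helper799.OB10

set_option autoImplicit false

namespace Pool.Agent.Helper799.OB

open Finset Filter Topology

theorem pow_le_mul_choose (r n : ℕ) : (n + 1 - r) ^ r ≤ r.factorial * n.choose r := by
  have h := Nat.pow_le_choose (α := ℝ) r n
  rw [div_le_iff₀ (by positivity)] at h
  have h2 : (((n + 1 - r) ^ r : ℕ) : ℝ) ≤ ((r.factorial * n.choose r : ℕ) : ℝ) := by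
    push_cast
    rw [mul_comm]
    exact h
  exact_mod_cast h2

theorem choose_bound {κ t : ℕ} (h : 2 * t ≤ κ) :
    κ ^ (3 * t) ≤ 2 ^ t * t ^ (3 * t) *
      ((2 * κ).choose t * (2 * κ - t).choose t * (3 * κ - 2 * κ).choose t) := by
  have h1 : κ ^ t ≤ t.factorial * (2 * κ).choose t := by
    have := pow_le_mul_choose t (2 * κ)
    exact (Nat.pow_le_pow_left (by omega) t).trans this
  have h2 : κ ^ t ≤ t.factorial * (2 * κ - t).choose t := by
    have := pow_le_mul_choose t (2 * κ - t)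
    exact (Nat.pow_le_pow_left (by omega) t).trans this
  have h3 : κ ^ t ≤ 2 ^ t * (t.factorial * (3 * κ - 2 * κ).choose t) := by
    have := pow_le_mul_choose t (3 * κ - 2 * κ)
    calc κ ^ t ≤ (2 * (3 * κ - 2 * κ + 1 - t)) ^ t := Nat.pow_le_pow_left (by omega) t
      _ = 2 ^ t * (3 * κ - 2 * κ + 1 - t) ^ t := by rw [mul_pow]
      _ ≤ _ := Nat.mul_le_mul_left _ this
  have h4 : t.factorial ≤ t ^ t := Nat.factorial_le_pow t
  calc κ ^ (3 * t) = κ ^ t * κ ^ t * κ ^ t := by rw [← pow_add, ← pow_add]; congr 1; ring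
    _ ≤ (t.factorial * (2 * κ).choose t) * (t.factorial * (2 * κ - t).choose t) *
        (2 ^ t * (t.factorial * (3 * κ - 2 * κ).choose t)) :=
        Nat.mul_le_mul (Nat.mul_le_mul h1 h2) h3
    _ = 2 ^ t * (t.factorial * t.factorial * t.factorial) *
        ((2 * κ).choose t * (2 * κ - t).choose t * (3 * κ - 2 * κ).choose t) := by ring
    _ ≤ 2 ^ t * (t ^ t * t ^ t * t ^ t) *
        ((2 * κ).choose t * (2 * κ - t).choose t * (3 * κ - 2 * κ).choose t) := by gcongr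
    _ = _ := by
      rw [← pow_add, ← pow_add]
      have : t + t + t = 3 * t := by ring
      rw [this]

theorem nonempty_VV {P : Finset ℕ} {σ : ℕ} (h : σ ≤ #P) : 0 < #(VV P σ) := by
  rw [Finset.card_pos]
  obtain ⟨S, hS, hc⟩ := Finset.exists_subset_card_eq h
  refine ⟨vec (((∏ p ∈ S, p : ℕ) : ℤ), 0, 0) (∏ p ∈ S, p), ?_⟩
  rw [mem_VV]
  exact ⟨S, hS, hc, _, by rw [mem_W]; ring, rfl⟩

theorem core {Y κ t : ℕ} (hY : 24 ≤ Y) (hκ : 0 < κ) (hκY : 24 * κ ≤ Y) (ht : 2 * t ≤ κ)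
    (htt : 54 * t ^ 3 * Y ^ 2 ≤ κ ^ 3) (hcard : 3 * κ ≤ #(PW Y)) :
    ∃ n b : ℕ, Good n b ∧ 0 < n ∧ n ≤ 27 * (2 ^ (3 * κ) * (3 * Y) ^ (2 * κ)) ∧
      3 ^ t * n ≤ 2187 * b := by
  classical
  obtain ⟨P, hPW, hPc⟩ := Finset.exists_subset_card_eq hcard
  have hPmem : ∀ p ∈ P, Y < p ∧ p ≤ 2 * Y ∧ p.Prime ∧ p % 4 = 1 := by
    intro p hp
    have := hPW hp
    unfold PW at this
    rw [Finset.mem_filter, Finset.mem_Ioc] at this
    exact ⟨this.1.1, this.1.2, this.2.1, this.2.2⟩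
  have hP : ∀ p ∈ P, p.Prime ∧ 5 ≤ p := fun p hp => ⟨(hPmem p hp).2.2.1, by
    have := (hPmem p hp).1; omega⟩
  have hex : ∀ p : ℕ, ∃ i : ℕ, p ∈ P → (p : ℤ) ∣ (i : ℤ) ^ 2 + 1 ∧ 1 < i ∧ i < p := by
    intro p
    by_cases hp : p ∈ P
    · obtain ⟨i, hi⟩ := exists_I (hPmem p hp).2.2.1 (hPmem p hp).2.2.2
      exact ⟨i, fun _ => hi⟩
    · exact ⟨0, fun h => absurd h hp⟩
  choose I hI using hex
  have hM : ∀ p ∈ P, p + 2 ≤ 3 * Y := by
    intro p hp
    have := (hPmem p hp).2.1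
    omega
  have hmain := many_bases hP (fun p hp => (hI p hp).1) (fun p hp => (hI p hp).2.1)
    (fun p hp => (hI p hp).2.2) (σ := 2 * κ) (t := t) (M := 3 * Y) (by omega) hM
    (exp_bound hY (fun p hp => (hPmem p hp).1) (by omega))
  rw [hPc] at hmain
  refine ⟨#(VV P (2 * κ)), #(bases (VV P (2 * κ))),
    ⟨VV P (2 * κ), rfl, fun v hv => norm_VV hP hv, le_rfl⟩, nonempty_VV (by omega), ?_, ?_⟩
  · refine (card_VV hP (fun p => (I p : ℤ)) (fun p hp => (hI p hp).1) (2 * κ)).trans ?_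
    refine Nat.mul_le_mul_left _ ?_
    calc ∑ S ∈ P.powersetCard (2 * κ), ∏ p ∈ S, (p + 2)
        ≤ ∑ S ∈ P.powersetCard (2 * κ), (3 * Y) ^ (2 * κ) := by
          refine Finset.sum_le_sum fun S hS => ?_
          rw [Finset.mem_powersetCard] at hS
          rw [← hS.2]
          exact Finset.prod_le_pow_card _ _ _ fun p hp => hM p (hS.1 hp)
      _ = (3 * κ).choose (2 * κ) * (3 * Y) ^ (2 * κ) := by
          rw [Finset.sum_const, Finset.card_powersetCard, hPc, smul_eq_mul]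
      _ ≤ 2 ^ (3 * κ) * (3 * Y) ^ (2 * κ) := Nat.mul_le_mul_right _ (Nat.choose_le_two_pow _ _)
  · have h1 := choose_bound ht
    set n := #(VV P (2 * κ)) with hn
    set b := #(bases (VV P (2 * κ))) with hb
    set CC := (2 * κ).choose t * (2 * κ - t).choose t * (3 * κ - 2 * κ).choose t with hCC
    have h2 : κ ^ (3 * t) * n ≤ 2187 * (18 * t ^ 3 * Y ^ 2) ^ t * b := by
      calc κ ^ (3 * t) * n ≤ (2 ^ t * t ^ (3 * t) * CC) * n := Nat.mul_le_mul_right _ h1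
        _ = 2 ^ t * t ^ (3 * t) * (CC * n) := by ring
        _ ≤ 2 ^ t * t ^ (3 * t) * (2187 * (3 * Y) ^ (2 * t) * b) := Nat.mul_le_mul_left _ hmain
        _ = _ := by
          rw [pow_mul t 3 t, pow_mul (3 * Y) 2 t, mul_pow 3 Y 2, mul_pow (18 * t ^ 3),
            mul_pow 18, mul_pow (3 ^ 2), show (18 : ℕ) = 2 * 9 by norm_num, mul_pow 2 9]
          norm_num
          ring
    have h3 : 3 ^ t * (18 * t ^ 3 * Y ^ 2) ^ t ≤ κ ^ (3 * t) := by
      rw [pow_mul κ 3 t, ← mul_pow]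
      refine Nat.pow_le_pow_left ?_ t
      calc 3 * (18 * t ^ 3 * Y ^ 2) = 54 * t ^ 3 * Y ^ 2 := by ring
        _ ≤ _ := htt
    have hpos : 0 < (18 * t ^ 3 * Y ^ 2) ^ t := by
      rcases Nat.eq_zero_or_pos t with h0 | h0
      · rw [h0]; simp
      · have : 0 < Y := by omega
        positivity
    refine Nat.le_of_mul_le_mul_left ?_ hpos
    calc (18 * t ^ 3 * Y ^ 2) ^ t * (3 ^ t * n) = (3 ^ t * (18 * t ^ 3 * Y ^ 2) ^ t) * n := by ring
      _ ≤ κ ^ (3 * t) * n := Nat.mul_le_mul_right _ h3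
      _ ≤ _ := h2
      _ = _ := by ring

end Pool.Agent.Helper799.OB
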