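import Mathlib
import Pool.Agent.Helper799.OB11

set_option autoImplicit false

namespace Pool.Agent.Helper799.OB

open Finset Filter Topology

theorem tendsto_cube : Tendsto (fun z : ℕ => z ^ 3) atTop atTop :=
  tendsto_pow_atTop (by norm_num)

theorem size_bound {Y κ : ℕ} (hY : 72 ≤ Y) (h : (κ : ℝ) ≤ Y / (24 * Real.log (2 * Y)))
    (hl : 2 ≤ Real.log (2 * Y)) :
    ((27 * (2 ^ (3 * κ) * (3 * Y) ^ (2 * κ)) : ℕ) : ℝ) ≤ Real.exp Y := by
  have hYr : (72 : ℝ) ≤ Y := by exact_mod_cast hY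
  have h27 : (27 : ℝ) ≤ Real.exp 4 := by
    have h1 : (2.7 : ℝ) ≤ Real.exp 1 := by linarith [Real.exp_one_gt_d9]
    have h2 : Real.exp 4 = Real.exp 1 ^ 4 := by rw [← Real.exp_nat_mul]; norm_num
    rw [h2]
    calc (27 : ℝ) ≤ 2.7 ^ 4 := by norm_num
      _ ≤ _ := by gcongr
  have h2 : (2 : ℝ) ≤ Real.exp 1 := by linarith [Real.add_one_le_exp (1 : ℝ)]
  have h3Y : (3 : ℝ) * Y ≤ Real.exp (2 * Real.log (2 * Y)) := by
    have : Real.exp (2 * Real.log (2 * Y)) = (2 * (Y : ℝ)) ^ 2 := by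
      rw [two_mul (Real.log _), Real.exp_add, Real.exp_log (by linarith)]; ring
    rw [this]; nlinarith
  push_cast
  calc (27 : ℝ) * (2 ^ (3 * κ) * (3 * Y) ^ (2 * κ))
      ≤ Real.exp 4 * (Real.exp 1 ^ (3 * κ) * Real.exp (2 * Real.log (2 * Y)) ^ (2 * κ)) := by
        gcongr
    _ = Real.exp (4 + (3 * κ + 4 * κ * Real.log (2 * Y))) := by
        rw [← Real.exp_nat_mul, ← Real.exp_nat_mul, ← Real.exp_add, ← Real.exp_add]
        congr 1
        push_cast
        ring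
    _ ≤ Real.exp Y := by
        apply Real.exp_le_exp.2
        have hk0 : (0 : ℝ) ≤ κ := Nat.cast_nonneg κ
        have h5 : (κ : ℝ) * (24 * Real.log (2 * Y)) ≤ Y := by
          rwa [le_div_iff₀ (by linarith)] at h
        nlinarith

theorem stepA : ∀ᶠ z : ℕ in atTop, ∃ n b t : ℕ, Good n b ∧ 0 < n ∧ (n : ℝ) ≤ Real.exp ((z : ℝ) ^ 3) ∧
    3 ^ t * n ≤ 2187 * b ∧ (z : ℝ) / (96 * Real.log (2 * (z : ℝ) ^ 3)) - 2 ≤ t := by
  have hw := tendsto_cube.eventually card_window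
  have hlog : Tendsto (fun z : ℕ => Real.log (2 * (z : ℝ) ^ 3)) atTop atTop := by
    refine Real.tendsto_log_atTop.comp ?_
    have h1 : Tendsto (fun z : ℕ => (z : ℝ) ^ 3) atTop atTop :=
      (tendsto_pow_atTop (by norm_num)).comp tendsto_natCast_atTop_atTop
    exact h1.const_mul_atTop (by norm_num)
  have hfr : Tendsto (fun z : ℕ => Real.log (2 * (z : ℝ) ^ 3) / (2 * (z : ℝ) ^ 3)) atTop (𝓝 0) := by
    have h1 : Tendsto (fun x : ℝ => Real.log x / x) atTop (𝓝 0) :=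
      Real.isLittleO_log_id_atTop.tendsto_div_nhds_zero
    refine h1.comp (g := fun x : ℝ => Real.log x / x) (f := fun z : ℕ => (2 * (z : ℝ) ^ 3)) ?_
    have h2 : Tendsto (fun z : ℕ => (z : ℝ) ^ 3) atTop atTop :=
      (tendsto_pow_atTop (by norm_num)).comp tendsto_natCast_atTop_atTop
    exact h2.const_mul_atTop (by norm_num)
  filter_upwards [hw, hlog.eventually_ge_atTop 2, hfr.eventually_lt_const (show (0:ℝ) < 1/48 by norm_num),
    eventually_ge_atTop 5] with z a1 a2 a3 a4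
  have hz : (5 : ℝ) ≤ z := by exact_mod_cast a4
  set ℓ := Real.log (2 * (z : ℝ) ^ 3) with hℓ
  have hz3 : (0 : ℝ) < (z : ℝ) ^ 3 := by positivity
  set x : ℝ := (z : ℝ) ^ 3 / (24 * ℓ) with hx
  have hx0 : 0 ≤ x := by positivity
  set κ := ⌊x⌋₊ with hκ
  have hκx : (κ : ℝ) ≤ x := Nat.floor_le hx0
  have hxκ : x < κ + 1 := Nat.lt_floor_add_one x
  have hcastY : ((z ^ 3 : ℕ) : ℝ) = (z : ℝ) ^ 3 := by push_cast; ring
  have hY : 72 ≤ z ^ 3 := by
    calc 72 ≤ 5 ^ 3 := by norm_num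
      _ ≤ z ^ 3 := Nat.pow_le_pow_left a4 3
  have hx1 : 1 ≤ x := by
    rw [hx, one_le_div (by positivity)]
    rw [div_lt_iff₀ (by positivity)] at a3
    linarith
  have hκ0 : 0 < κ := Nat.floor_pos.2 hx1
  have hκY : 24 * κ ≤ z ^ 3 := by
    have h1 : (κ : ℝ) * (24 * ℓ) ≤ (z : ℝ) ^ 3 := by
      rw [hx, le_div_iff₀ (by positivity)] at hκx; exact hκx
    have h2 : 24 * (κ : ℝ) ≤ (z : ℝ) ^ 3 := by
      have : (0 : ℝ) ≤ κ := Nat.cast_nonneg κ
      nlinarith
    exact_mod_cast h2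
  set t := κ / (4 * z ^ 2) with ht
  have hzpos : 0 < 4 * z ^ 2 := by positivity
  have ht1 : 4 * z ^ 2 * t ≤ κ := Nat.mul_div_le κ (4 * z ^ 2)
  have ht2 : κ < 4 * z ^ 2 * (t + 1) := Nat.lt_mul_div_succ κ hzpos
  have h2t : 2 * t ≤ κ := by
    have : 2 ≤ 4 * z ^ 2 := by nlinarith
    exact (Nat.mul_le_mul_right t this).trans ht1
  have htt : 54 * t ^ 3 * (z ^ 3) ^ 2 ≤ κ ^ 3 := by
    calc 54 * t ^ 3 * (z ^ 3) ^ 2 ≤ 64 * t ^ 3 * (z ^ 3) ^ 2 := by gcongr; norm_num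
      _ = (4 * z ^ 2 * t) ^ 3 := by ring
      _ ≤ κ ^ 3 := Nat.pow_le_pow_left ht1 3
  have hcard : 3 * κ ≤ #(PW (z ^ 3)) := by
    have h1 : (3 * κ : ℝ) ≤ #(PW (z ^ 3)) := by
      refine le_trans ?_ a1
      rw [hcastY]
      calc 3 * (κ : ℝ) ≤ 3 * x := by linarith
        _ = (z : ℝ) ^ 3 / (8 * ℓ) := by rw [hx]; field_simp; norm_num
        _ ≤ (z : ℝ) ^ 3 / (4 * ℓ) := by
          apply div_le_div_of_nonneg_left hz3.le (by positivity)
          linarith
    exact_mod_cast h1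
  obtain ⟨n, b, hg, hn0, hn, hb⟩ := core (by omega) hκ0 hκY h2t htt hcard
  refine ⟨n, b, t, hg, hn0, ?_, hb, ?_⟩
  · have h1 := size_bound (Y := z ^ 3) (κ := κ) hY (by rw [hcastY]; exact hκx)
      (by rw [hcastY]; exact a2)
    rw [hcastY] at h1
    exact le_trans (by exact_mod_cast hn) h1
  · have h1 : (κ : ℝ) < 4 * (z : ℝ) ^ 2 * (t + 1) := by exact_mod_cast ht2
    have h2 : x - 1 < 4 * (z : ℝ) ^ 2 * (t + 1) := by linarith
    have h3 : (z : ℝ) / (96 * ℓ) = x / (4 * (z : ℝ) ^ 2) := by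
      rw [hx]; field_simp; norm_num
    rw [h3]
    have h4 : x / (4 * (z : ℝ) ^ 2) < t + 1 + 1 / (4 * (z : ℝ) ^ 2) := by
      rw [div_lt_iff₀ (by positivity)]
      have : (t + 1 + 1 / (4 * (z : ℝ) ^ 2)) * (4 * (z : ℝ) ^ 2) = 4 * (z : ℝ) ^ 2 * (t + 1) + 1 := by
        field_simp
      rw [this]; linarith
    have h5 : 1 / (4 * (z : ℝ) ^ 2) ≤ 1 := by
      rw [div_le_one (by positivity)]; nlinarith
    linarith

theorem stepB : ∀ᶠ n : ℕ in atTop,
    (n : ℝ) * Real.exp (Real.log n ^ (1 / 3 : ℝ) / (400 * Real.log (Real.log n))) ≤ maxBases n := by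
  have hL : Tendsto (fun n : ℕ => Real.log (n : ℝ)) atTop atTop :=
    Real.tendsto_log_atTop.comp tendsto_natCast_atTop_atTop
  have hr : Tendsto (fun n : ℕ => Real.log (n : ℝ) ^ (1 / 3 : ℝ)) atTop atTop :=
    (tendsto_rpow_atTop (by norm_num)).comp hL
  have hz : Tendsto (fun n : ℕ => ⌊Real.log (n : ℝ) ^ (1 / 3 : ℝ)⌋₊) atTop atTop :=
    tendsto_nat_floor_atTop.comp hr
  have hA := hz.eventually stepA
  have hlo : ∀ᶠ x : ℝ in atTop, Real.log x ≤ x ^ (1 / 3 : ℝ) / 6000 := by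
    have h := isLittleO_log_rpow_atTop (show (0 : ℝ) < 1 / 3 by norm_num)
    have h2 := h.bound (show (0 : ℝ) < 1 / 6000 by norm_num)
    filter_upwards [h2, eventually_ge_atTop 1] with x hx hx1
    rw [Real.norm_of_nonneg (Real.log_nonneg hx1), Real.norm_of_nonneg (by positivity)] at hx
    linarith
  filter_upwards [hA, hL.eventually hlo, hL.eventually_ge_atTop (Real.exp 2),
    hr.eventually_ge_atTop 4, eventually_gt_atTop 0] with n a1 a2 a3 a4 a5
  obtain ⟨n0, b, t, hg, hn0, hn0le, hb, ht⟩ := a1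
  set L := Real.log (n : ℝ) with hLdef
  set R := L ^ (1 / 3 : ℝ) with hR
  set z := ⌊R⌋₊ with hzdef
  have hexp2 : (3 : ℝ) ≤ Real.exp 2 := by linarith [Real.add_one_le_exp (2 : ℝ)]
  have hL3 : 3 ≤ L := hexp2.trans a3
  have hL0 : 0 < L := by linarith
  have hnr : (0 : ℝ) < n := by exact_mod_cast a5
  have hR0 : 0 ≤ R := by positivity
  have hzR : (z : ℝ) ≤ R := Nat.floor_le hR0
  have hRz : R < z + 1 := Nat.lt_floor_add_one R
  have hR3 : R ^ 3 = L := by
    rw [hR, ← Real.rpow_natCast, ← Real.rpow_mul hL0.le]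
    norm_num
  have hz0 : (0 : ℝ) ≤ z := Nat.cast_nonneg z
  have hz3L : (z : ℝ) ^ 3 ≤ L := by
    rw [← hR3]; gcongr
  have hn0n : (n0 : ℝ) ≤ n := by
    refine hn0le.trans ?_
    rw [← Real.exp_log hnr]
    exact Real.exp_le_exp.2 hz3L
  have hn0n' : n0 ≤ n := by exact_mod_cast hn0n
  -- the copies
  have hgood : Good n (n / n0 * b) := by
    have h1 := good_add (good_mul hg (n / n0)) (good_pad (n % n0))
    have h2 : n / n0 * n0 + n % n0 = n := Nat.div_add_mod' n n0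
    rw [h2, add_zero] at h1
    exact h1
  have hle := hgood.le
  have hq1 : 1 ≤ n / n0 := (Nat.one_le_div_iff hn0).2 hn0n'
  have hqn : n ≤ 2 * (n / n0 * n0) := by
    have h1 := Nat.div_add_mod' n n0
    have h2 := Nat.mod_lt n hn0
    have h3 : n0 ≤ n / n0 * n0 := Nat.le_mul_of_pos_left _ hq1
    omega
  have hkey : 3 ^ t * n ≤ 4374 * (n / n0 * b) := by
    calc 3 ^ t * n ≤ 3 ^ t * (2 * (n / n0 * n0)) := Nat.mul_le_mul_left _ hqn
      _ = 2 * (n / n0) * (3 ^ t * n0) := by ring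
      _ ≤ 2 * (n / n0) * (2187 * b) := Nat.mul_le_mul_left _ hb
      _ = _ := by ring
  have hkey' : (3 : ℝ) ^ t * n ≤ 4374 * maxBases n := by
    have h1 : ((3 ^ t * n : ℕ) : ℝ) ≤ ((4374 * maxBases n : ℕ) : ℝ) := by
      exact_mod_cast hkey.trans (Nat.mul_le_mul_left _ hle)
    push_cast at h1
    exact h1
  -- logarithms
  have hlL : 2 ≤ Real.log L := by
    rw [Real.le_log_iff_exp_le hL0]; exact a3
  have hz1 : (3 : ℝ) ≤ z := by linarith
  have hlz : Real.log (2 * (z : ℝ) ^ 3) ≤ 2 * Real.log L := by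
    have h1 : Real.log (2 * (z : ℝ) ^ 3) ≤ Real.log (L ^ 2) := by
      apply Real.log_le_log (by positivity)
      nlinarith
    rw [Real.log_pow] at h1
    exact_mod_cast h1
  have hlz0 : 0 < Real.log (2 * (z : ℝ) ^ 3) := by
    apply Real.log_pos
    have : (3 : ℝ) ^ 3 ≤ (z : ℝ) ^ 3 := by gcongr
    linarith
  have ht' : R / (192 * Real.log L) - 3 ≤ t := by
    have h1 : (z : ℝ) / (192 * Real.log L) ≤ z / (96 * Real.log (2 * (z : ℝ) ^ 3)) := by
      apply div_le_div_of_nonneg_left hz0 (by positivity)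
      linarith
    have h2 : R / (192 * Real.log L) ≤ z / (192 * Real.log L) + 1 := by
      rw [div_add_one (by positivity)]
      apply div_le_div_of_nonneg_right _ (by positivity)
      linarith
    linarith
  have hexp1 : Real.exp 1 ≤ 3 := by linarith [Real.exp_one_lt_d9]
  have h3t : Real.exp t ≤ (3 : ℝ) ^ t := by
    rw [← Real.exp_one_pow]
    gcongr
  have h4374 : (4374 : ℝ) ≤ Real.exp 9 := by
    have h1 : (2.7 : ℝ) ≤ Real.exp 1 := by linarith [Real.exp_one_gt_d9]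
    have h2 : Real.exp 9 = Real.exp 1 ^ 9 := by rw [← Real.exp_nat_mul]; norm_num
    rw [h2]
    calc (4374 : ℝ) ≤ 2.7 ^ 9 := by norm_num
      _ ≤ _ := by gcongr
  have hmain : R / (400 * Real.log L) ≤ t - 9 := by
    have h1 : 12 ≤ R / (192 * Real.log L) - R / (400 * Real.log L) := by
      have e : R / (192 * Real.log L) - R / (400 * Real.log L) = R * (208 / 76800) / Real.log L := by
        field_simp; norm_num
      rw [e, le_div_iff₀ (by linarith)]
      nlinarith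
    linarith
  have hM0 : (0 : ℝ) ≤ maxBases n := Nat.cast_nonneg _
  have hfin : (n : ℝ) * Real.exp (R / (400 * Real.log L)) * Real.exp 9 ≤ Real.exp 9 * maxBases n := by
    calc (n : ℝ) * Real.exp (R / (400 * Real.log L)) * Real.exp 9
        = n * Real.exp (R / (400 * Real.log L) + 9) := by rw [Real.exp_add]; ring
      _ ≤ n * Real.exp t := by
          apply mul_le_mul_of_nonneg_left _ hnr.le
          apply Real.exp_le_exp.2; linarith
      _ ≤ n * 3 ^ t := mul_le_mul_of_nonneg_left h3t hnr.le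
      _ = 3 ^ t * n := by ring
      _ ≤ 4374 * maxBases n := hkey'
      _ ≤ Real.exp 9 * maxBases n := mul_le_mul_of_nonneg_right h4374 hM0
  have h9 : 0 < Real.exp 9 := Real.exp_pos 9
  rw [mul_comm (Real.exp 9)] at hfin
  exact le_of_mul_le_mul_right hfin h9

end Pool.Agent.Helper799.OB
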