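import Mathlib

set_option autoImplicit false

namespace Pool.Agent.Helper799.Orient

open Finset

section
variable {V : Type*} [DecidableEq V]

/-- Fractional (blow-up) orientation by Hall's theorem. -/
lemma hall (E : Finset (V × V)) (K : ℕ) (k : V → ℕ)
    (h : ∀ U : Finset V, K * (E.filter (fun e => e.1 ∈ U ∧ e.2 ∈ U)).card ≤ ∑ x ∈ U, k x) :
    ∃ f : (↥E × Fin K) → (Σ x : V, Fin (k x)), Function.Injective f ∧
      ∀ a : ↥E × Fin K, (f a).1 = a.1.1.1 ∨ (f a).1 = a.1.1.2 := by
  classical
  let t : (↥E × Fin K) → Finset (Σ x : V, Fin (k x)) := fun a =>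
    Finset.sigma {a.1.1.1, a.1.1.2} (fun x => (Finset.univ : Finset (Fin (k x))))
  have hall := (Finset.all_card_le_biUnion_card_iff_exists_injective t).1 ?_
  · obtain ⟨f, hf, hm⟩ := hall
    refine ⟨f, hf, fun a => ?_⟩
    have := hm a
    simp only [t, Finset.mem_sigma, Finset.mem_insert, Finset.mem_singleton, Finset.mem_univ,
      and_true] at this
    exact this
  · intro s
    let U : Finset V := s.biUnion (fun a => {a.1.1.1, a.1.1.2})
    have hb : s.biUnion t = Finset.sigma U (fun x => (Finset.univ : Finset (Fin (k x)))) := by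
      ext ⟨x, j⟩
      simp [t, U]
    rw [hb, Finset.card_sigma]
    simp only [Finset.card_univ, Fintype.card_fin]
    refine le_trans ?_ (h U)
    have h1 : s ⊆ (s.image Prod.fst) ×ˢ (Finset.univ : Finset (Fin K)) := by
      intro a ha
      simp only [Finset.mem_product, Finset.mem_univ, and_true]
      exact Finset.mem_image_of_mem _ ha
    have h2 := Finset.card_le_card h1
    rw [Finset.card_product, Finset.card_univ, Fintype.card_fin] at h2
    have h3 : (s.image Prod.fst).card ≤ (E.filter (fun e => e.1 ∈ U ∧ e.2 ∈ U)).card := by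
      rw [← Finset.card_image_of_injective (s.image Prod.fst) Subtype.val_injective]
      apply Finset.card_le_card
      intro e he
      simp only [Finset.mem_image] at he
      obtain ⟨e', ⟨a, ha, rfl⟩, rfl⟩ := he
      rw [Finset.mem_filter]
      refine ⟨a.1.2, ?_, ?_⟩
      · exact Finset.mem_biUnion.2 ⟨a, ha, by simp⟩
      · exact Finset.mem_biUnion.2 ⟨a, ha, by simp⟩
    calc s.card ≤ (s.image Prod.fst).card * K := h2
      _ ≤ _ := by rw [mul_comm]; exact Nat.mul_le_mul_left _ h3

/-- the partial assignment determined by a permutation of `E ⊕ V` -/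
noncomputable def pmap (E : Finset (V × V)) (σ : Equiv.Perm (↥E ⊕ V)) (x : V) : V :=
  match σ.symm (Sum.inr x) with
  | Sum.inl e => if e.1.1 = x then e.1.2 else if e.1.2 = x then e.1.1 else x
  | Sum.inr _ => x

lemma pmap_spec (E : Finset (V × V)) (σ : Equiv.Perm (↥E ⊕ V)) (x : V) :
    pmap E σ x = x ∨ (x, pmap E σ x) ∈ E ∨ (pmap E σ x, x) ∈ E := by
  unfold pmap
  rcases σ.symm (Sum.inr x) with e | y
  · simp only
    split_ifs with h1 h2
    · right; left
      have := e.2
      rwa [← h1]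
    · right; right
      have := e.2
      rwa [← h2]
    · left; rfl
  · left; rfl

end

variable {V : Type*} [Fintype V] [DecidableEq V]

/-- A family of maps `p : V → V` and weights such that each edge is rarely uncovered. -/
theorem exists_dist (E : Finset (V × V)) (hE : ∀ e ∈ E, e.1 ≠ e.2) (κ : V → ℝ)
    (hκ : ∀ x, 1 ≤ κ x) (C : ℝ) (hC : 0 ≤ C)
    (h : ∀ U : Finset V, ((E.filter (fun e => e.1 ∈ U ∧ e.2 ∈ U)).card : ℝ)
      ≤ ∑ x ∈ U, (1 + C / κ x)) :
    ∃ w : Equiv.Perm (↥E ⊕ V) → ℝ, (∀ σ, 0 ≤ w σ) ∧ ∑ σ, w σ = 1 ∧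
      ∀ e ∈ E, ∀ r : ℝ, 0 < r → r ≤ κ e.1 → r ≤ κ e.2 →
        ∑ σ, (if pmap E σ e.1 = e.2 ∨ pmap E σ e.2 = e.1 then 0 else w σ) ≤ (C + 1) / r := by
  classical
  -- choose K
  obtain ⟨K, hK⟩ : ∃ K : ℕ, 1 ≤ K ∧ ∀ x, κ x ≤ K := by
    obtain ⟨K, hK⟩ := exists_nat_ge (1 + ∑ x, κ x)
    have hs : 0 ≤ ∑ x, κ x := Finset.sum_nonneg fun x _ => by linarith [hκ x]
    refine ⟨K, ?_, fun x => ?_⟩
    · have : (1:ℝ) ≤ K := by linarith
      exact_mod_cast this
    · have : κ x ≤ ∑ x, κ x :=
        Finset.single_le_sum (f := κ) (fun y _ => by linarith [hκ y]) (Finset.mem_univ x)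
      linarith
  obtain ⟨hK1, hKκ⟩ := hK
  have hK0 : (0:ℝ) < K := by exact_mod_cast hK1
  let k : V → ℕ := fun x => ⌈(K:ℝ) * (1 + C / κ x)⌉₊
  have hk1 : ∀ x, (K:ℝ) * (1 + C / κ x) ≤ k x := fun x => Nat.le_ceil _
  have hκ0 : ∀ x, 0 < κ x := fun x => by linarith [hκ x]
  have hk2 : ∀ x, (k x : ℝ) ≤ K * (1 + (C + 1) / κ x) := by
    intro x
    have h0 : 0 ≤ (K:ℝ) * (1 + C / κ x) := by
      have := hκ0 x; positivity
    have h1 : (k x : ℝ) < K * (1 + C / κ x) + 1 := Nat.ceil_lt_add_one h0
    have h2 : (1:ℝ) ≤ K * (1 / κ x) := by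
      rw [mul_one_div, le_div_iff₀ (hκ0 x)]; linarith [hKκ x]
    have h3 : (K:ℝ) * (1 + (C + 1) / κ x) = K * (1 + C / κ x) + K * (1 / κ x) := by
      field_simp; ring
    linarith
  have hkK : ∀ x, (K:ℝ) ≤ k x := by
    intro x
    refine le_trans ?_ (hk1 x)
    have : 0 ≤ C / κ x := div_nonneg hC (hκ0 x).le
    nlinarith
  have hk0 : ∀ x, (0:ℝ) < k x := fun x => lt_of_lt_of_le hK0 (hkK x)
  obtain ⟨f, hf, hfm⟩ := hall E K k (by
    intro U
    have h1 : (K:ℝ) * (E.filter (fun e => e.1 ∈ U ∧ e.2 ∈ U)).card ≤ ∑ x ∈ U, (k x : ℝ) := by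
      calc (K:ℝ) * (E.filter (fun e => e.1 ∈ U ∧ e.2 ∈ U)).card
          ≤ K * ∑ x ∈ U, (1 + C / κ x) := by gcongr; exact h U
        _ = ∑ x ∈ U, (K:ℝ) * (1 + C / κ x) := by rw [Finset.mul_sum]
        _ ≤ _ := Finset.sum_le_sum fun x _ => hk1 x
    exact_mod_cast h1)
  -- the fractional matching
  let cnt : ↥E → V → ℕ := fun e x => (Finset.univ.filter (fun i : Fin K => (f (e, i)).1 = x)).card
  let m : ↥E → V → ℝ := fun e x => (cnt e x : ℝ) / k x
  have m_nonneg : ∀ e x, 0 ≤ m e x := fun e x => by positivity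
  have cnt_zero : ∀ e x, x ≠ e.1.1 → x ≠ e.1.2 → cnt e x = 0 := by
    intro e x h1 h2
    simp only [cnt, Finset.card_eq_zero, Finset.filter_eq_empty_iff, Finset.mem_univ,
      forall_true_left]
    intro i hi
    rcases hfm (e, i) with h3 | h3
    · exact h1 (hi.symm.trans h3)
    · exact h2 (hi.symm.trans h3)
  have m_zero : ∀ e x, x ≠ e.1.1 → x ≠ e.1.2 → m e x = 0 := by
    intro e x h1 h2
    simp only [m, cnt_zero e x h1 h2]; simp
  have cnt_sum : ∀ e, ∑ x, cnt e x = K := by
    intro e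
    have := Finset.card_eq_sum_card_fiberwise (f := fun i : Fin K => (f (e, i)).1)
      (s := Finset.univ) (t := (Finset.univ : Finset V)) (fun i _ => Finset.mem_coe.2 (Finset.mem_univ _))
    simp only [Finset.card_univ, Fintype.card_fin] at this
    exact this.symm
  have m_row_le : ∀ e, ∑ x, m e x ≤ 1 := by
    intro e
    calc ∑ x, m e x ≤ ∑ x, (cnt e x : ℝ) / K := by
          apply Finset.sum_le_sum
          intro x _
          exact div_le_div_of_nonneg_left (by positivity) hK0 (hkK x)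
      _ = 1 := by
          rw [← Finset.sum_div, ← Nat.cast_sum, cnt_sum]
          exact div_self hK0.ne'
  have m_col_le : ∀ x, ∑ e, m e x ≤ 1 := by
    intro x
    have h1 : ∑ e, cnt e x ≤ k x := by
      have h2 : ∑ e, cnt e x
          = (Finset.univ.filter (fun a : ↥E × Fin K => (f a).1 = x)).card := by
        rw [Finset.card_filter, ← Finset.univ_product_univ, Finset.sum_product]
        apply Finset.sum_congr rfl
        intro e _
        simp only [cnt, Finset.card_filter]
      rw [h2]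
      have h3 : (Finset.univ.filter (fun a : ↥E × Fin K => (f a).1 = x)).card
          = ((Finset.univ.filter (fun a : ↥E × Fin K => (f a).1 = x)).image f).card :=
        (Finset.card_image_of_injective _ hf).symm
      rw [h3]
      have h4 : (Finset.univ.filter (fun a : ↥E × Fin K => (f a).1 = x)).image f
          ⊆ Finset.sigma {x} (fun y => (Finset.univ : Finset (Fin (k y)))) := by
        intro b hb
        rw [Finset.mem_image] at hb
        obtain ⟨a, ha, rfl⟩ := hb
        rw [Finset.mem_filter] at ha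
        simp [ha.2]
      refine (Finset.card_le_card h4).trans ?_
      rw [Finset.card_sigma]; simp
    calc ∑ e, m e x = (∑ e, (cnt e x : ℝ)) / k x := by rw [Finset.sum_div]
      _ ≤ 1 := by
          rw [div_le_one (hk0 x)]
          exact_mod_cast h1
  have m_row_ge : ∀ e : ↥E, ∀ r : ℝ, 0 < r → r ≤ κ e.1.1 → r ≤ κ e.1.2 →
      1 - (C + 1) / r ≤ ∑ x, m e x := by
    intro e r hr h1 h2
    have h3 : ∀ x, (cnt e x : ℝ) / (K * (1 + (C + 1) / r)) ≤ m e x := by
      intro x
      by_cases hx : x = e.1.1 ∨ x = e.1.2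
      · have hrx : r ≤ κ x := by rcases hx with rfl | rfl <;> assumption
        apply div_le_div_of_nonneg_left (by positivity) (hk0 x)
        refine (hk2 x).trans ?_
        gcongr
      · push Not at hx
        rw [cnt_zero e x hx.1 hx.2]; simp; exact m_nonneg e x
    calc 1 - (C + 1) / r ≤ 1 / (1 + (C + 1) / r) := by
          have hpos : 0 < 1 + (C + 1) / r := by positivity
          rw [le_div_iff₀ hpos]
          nlinarith [sq_nonneg ((C + 1) / r)]
      _ = (∑ x, (cnt e x : ℝ)) / (K * (1 + (C + 1) / r)) := by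
          rw [← Nat.cast_sum, cnt_sum]
          field_simp
      _ = ∑ x, (cnt e x : ℝ) / (K * (1 + (C + 1) / r)) := by rw [Finset.sum_div]
      _ ≤ _ := Finset.sum_le_sum fun x _ => h3 x
  -- the doubly stochastic matrix
  let M : Matrix (↥E ⊕ V) (↥E ⊕ V) ℝ := fun a b =>
    match a, b with
    | Sum.inl e, Sum.inl e' => if e = e' then 1 - ∑ x, m e x else 0
    | Sum.inl e, Sum.inr x => m e x
    | Sum.inr x, Sum.inl e => m e x
    | Sum.inr x, Sum.inr x' => if x = x' then 1 - ∑ e, m e x else 0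
  have hM : M ∈ doublyStochastic ℝ (↥E ⊕ V) := by
    rw [mem_doublyStochastic_iff_sum]
    refine ⟨?_, ?_, ?_⟩
    · rintro (e | x) (e' | x')
      · simp only [M]; split_ifs
        · linarith [m_row_le e]
        · exact le_refl _
      · exact m_nonneg e x'
      · exact m_nonneg e' x
      · simp only [M]; split_ifs
        · linarith [m_col_le x]
        · exact le_refl _
    · rintro (e | x)
      · rw [Fintype.sum_sum_type]
        simp [M]
      · rw [Fintype.sum_sum_type]
        simp [M]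
    · rintro (e | x)
      · rw [Fintype.sum_sum_type]
        simp [M]
      · rw [Fintype.sum_sum_type]
        simp [M]
  obtain ⟨w, hw0, hw1, hw2⟩ := exists_eq_sum_perm_of_mem_doublyStochastic hM
  refine ⟨w, hw0, hw1, ?_⟩
  have hentry : ∀ a b, M a b = ∑ σ : Equiv.Perm (↥E ⊕ V), if σ a = b then w σ else 0 := by
    intro a b
    rw [← hw2, Matrix.sum_apply]
    apply Finset.sum_congr rfl
    intro σ _
    rw [Matrix.smul_apply, Equiv.Perm.permMatrix, PEquiv.toMatrix_apply]
    simp [Equiv.toPEquiv_apply, eq_comm]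
  intro e he r hr hr1 hr2
  have hle : ∀ σ : Equiv.Perm (↥E ⊕ V),
      (if pmap E σ e.1 = e.2 ∨ pmap E σ e.2 = e.1 then 0 else w σ)
        ≤ ∑ e' : ↥E, if σ (Sum.inl ⟨e, he⟩) = Sum.inl e' then w σ else 0 := by
    intro σ
    have hnn : 0 ≤ ∑ e' : ↥E, if σ (Sum.inl ⟨e, he⟩) = Sum.inl e' then w σ else 0 :=
      Finset.sum_nonneg fun e' _ => by split_ifs; exacts [hw0 σ, le_refl _]
    split_ifs with hcov
    · exact hnn
    · rcases hσ : σ (Sum.inl ⟨e, he⟩) with e' | x
      · rw [Finset.sum_eq_single e']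
        · simp
        · intro b _ hb
          rw [if_neg]
          intro h'
          exact hb (Sum.inl.inj h').symm
        · intro h'; exact absurd (Finset.mem_univ _) h'
      · -- then `x` is not an endpoint of `e`, hence `w σ = 0`
        have hsymm : σ.symm (Sum.inr x) = Sum.inl ⟨e, he⟩ := by
          rw [← hσ, Equiv.symm_apply_apply]
        have hx1 : x ≠ e.1 := by
          intro hx
          apply hcov; left
          subst hx
          unfold pmap
          rw [hsymm]; simp
        have hx2 : x ≠ e.2 := by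
          intro hx
          apply hcov; right
          subst hx
          unfold pmap
          rw [hsymm]
          simp [hE e he]
        have hz : m ⟨e, he⟩ x = 0 := m_zero ⟨e, he⟩ x hx1 hx2
        have hz2 : (∑ τ : Equiv.Perm (↥E ⊕ V),
            if τ (Sum.inl ⟨e, he⟩) = Sum.inr x then w τ else 0) = 0 :=
          (hentry (Sum.inl ⟨e, he⟩) (Sum.inr x)).symm.trans hz
        rw [Finset.sum_eq_zero_iff_of_nonneg
          (fun τ _ => by split_ifs; exacts [hw0 τ, le_refl _])] at hz2
        have := hz2 σ (Finset.mem_univ _)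
        rw [if_pos hσ] at this
        rw [this]
        exact Finset.sum_nonneg fun _ _ => by split_ifs <;> simp
  calc ∑ σ, (if pmap E σ e.1 = e.2 ∨ pmap E σ e.2 = e.1 then 0 else w σ)
      ≤ ∑ σ : Equiv.Perm (↥E ⊕ V), ∑ e' : ↥E,
          if σ (Sum.inl ⟨e, he⟩) = Sum.inl e' then w σ else 0 :=
        Finset.sum_le_sum fun σ _ => hle σ
    _ = ∑ e' : ↥E, M (Sum.inl ⟨e, he⟩) (Sum.inl e') := by
        rw [Finset.sum_comm]
        exact Finset.sum_congr rfl fun e' _ => (hentry _ _).symm
    _ = 1 - ∑ x, m ⟨e, he⟩ x := by simp [M]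
    _ ≤ (C + 1) / r := by
        have := m_row_ge ⟨e, he⟩ r hr hr1 hr2
        linarith

end Pool.Agent.Helper799.Orient
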