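import Mathlib

set_option autoImplicit false

namespace Pool.Agent.Helper799.PermCount

open Finset Equiv

variable {V : Type*} [Fintype V] [DecidableEq V]

/-- Number of permutations fixing `X` pointwise. -/
lemma card_fix (X : Finset V) :
    (Finset.univ.filter (fun τ : Perm V => ∀ x ∈ X, τ x = x)).card
      = Nat.factorial (Fintype.card V - X.card) := by
  have h1 := Fintype.card_congr (Equiv.Perm.subtypeEquivSubtypePerm (fun a : V => a ∉ X))
  have h2 : Fintype.card {f : Perm V // ∀ a, ¬ (a ∉ X) → f a = a}
      = (Finset.univ.filter (fun τ : Perm V => ∀ x ∈ X, τ x = x)).card := by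
    rw [Fintype.card_subtype]
    congr 1
    ext τ
    simp
  rw [← h2, ← h1, Fintype.card_perm]
  congr 1
  rw [Fintype.card_subtype_compl (fun a : V => a ∈ X)]
  simp

/-- Number of permutations agreeing with a given function on `X`. -/
lemma card_agree (X : Finset V) (g : V → V) :
    (Finset.univ.filter (fun τ : Perm V => ∀ x ∈ X, τ x = g x)).card
      ≤ Nat.factorial (Fintype.card V - X.card) := by
  rcases (Finset.univ.filter (fun τ : Perm V => ∀ x ∈ X, τ x = g x)).eq_empty_or_nonempty
    with h | ⟨σ, hσ⟩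
  · rw [h]; simp
  · rw [← card_fix X]
    rw [Finset.mem_filter] at hσ
    apply Finset.card_le_card_of_injOn (fun τ => σ⁻¹ * τ)
    · intro τ hτ
      simp only [Finset.coe_filter, Finset.mem_univ, true_and, Set.mem_ofPred_eq] at hτ ⊢
      intro x hx
      rw [Perm.mul_apply, hτ x hx, ← hσ.2 x hx]
      simp
    · intro τ _ τ' _ h
      exact mul_left_cancel h

/-- Permutations satisfying a finset of constraints `σ x = y`. -/
lemma card_constr (P : Finset (V × V)) :
    (Finset.univ.filter (fun τ : Perm V => ∀ e ∈ P, τ e.1 = e.2)).card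
      ≤ Nat.factorial (Fintype.card V - P.card) := by
  rcases (Finset.univ.filter (fun τ : Perm V => ∀ e ∈ P, τ e.1 = e.2)).eq_empty_or_nonempty
    with h | ⟨σ, hσ⟩
  · rw [h]; simp
  · rw [Finset.mem_filter] at hσ
    have hinj : Set.InjOn Prod.fst (P : Set (V × V)) := by
      intro a ha b hb hab
      have h1 := hσ.2 a ha
      have h2 := hσ.2 b hb
      have : a.2 = b.2 := by rw [← h1, ← h2, hab]
      exact Prod.ext hab this
    have hcard : (P.image Prod.fst).card = P.card := Finset.card_image_of_injOn hinj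
    rw [← hcard]
    refine le_trans (Finset.card_le_card ?_) (card_agree (P.image Prod.fst) σ)
    intro τ hτ
    rw [Finset.mem_filter] at hτ ⊢
    refine ⟨Finset.mem_univ _, ?_⟩
    intro x hx
    rw [Finset.mem_image] at hx
    obtain ⟨e, he, rfl⟩ := hx
    rw [hτ.2 e he, hσ.2 e he]

/-- Permutations mapping `S` into `T`. -/
lemma card_into (S T : Finset V) :
    (Finset.univ.filter (fun τ : Perm V => ∀ x ∈ S, τ x ∈ T)).card
      ≤ T.card.descFactorial S.card * Nat.factorial (Fintype.card V - S.card) := by
  classical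
  let G : (↥S ↪ ↥T) → (V → V) := fun ι x => if h : x ∈ S then (ι ⟨x, h⟩ : V) else x
  have hsub : Finset.univ.filter (fun τ : Perm V => ∀ x ∈ S, τ x ∈ T)
      ⊆ (Finset.univ : Finset (↥S ↪ ↥T)).biUnion
        (fun ι => Finset.univ.filter (fun τ : Perm V => ∀ x ∈ S, τ x = G ι x)) := by
    intro τ hτ
    rw [Finset.mem_filter] at hτ
    rw [Finset.mem_biUnion]
    refine ⟨⟨fun x => ⟨τ x, hτ.2 x x.2⟩, ?_⟩, Finset.mem_univ _, ?_⟩
    · intro a b hab
      have : τ a = τ b := by simpa using hab
      exact Subtype.ext (τ.injective this)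
    · rw [Finset.mem_filter]
      refine ⟨Finset.mem_univ _, ?_⟩
      intro x hx
      simp only [G, hx, dif_pos]
      rfl
  calc (Finset.univ.filter (fun τ : Perm V => ∀ x ∈ S, τ x ∈ T)).card
      ≤ _ := Finset.card_le_card hsub
    _ ≤ ∑ ι : (↥S ↪ ↥T), (Finset.univ.filter (fun τ : Perm V => ∀ x ∈ S, τ x = G ι x)).card :=
        Finset.card_biUnion_le
    _ ≤ ∑ _ι : (↥S ↪ ↥T), Nat.factorial (Fintype.card V - S.card) :=
        Finset.sum_le_sum fun ι _ => card_agree S (G ι)
    _ = _ := by
        rw [Finset.sum_const, Finset.card_univ, Fintype.card_embedding_eq]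
        simp

lemma descFactorial_ratio (t n s : ℕ) (htn : t ≤ n) :
    t.descFactorial s * n ^ s ≤ t ^ s * n.descFactorial s := by
  induction s with
  | zero => simp
  | succ s ih =>
    rw [Nat.descFactorial_succ, Nat.descFactorial_succ, pow_succ, pow_succ]
    have h1 : (t - s) * n ≤ t * (n - s) := by
      rcases le_total t s with h | h
      · simp [Nat.sub_eq_zero_of_le h]
      · zify [h, h.trans htn]
        have h2 : (s:ℤ) * t ≤ s * n := by
          have : (t:ℤ) ≤ n := by exact_mod_cast htn
          exact mul_le_mul_of_nonneg_left this (by positivity)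
        nlinarith
    calc (t - s) * t.descFactorial s * (n ^ s * n)
        = ((t - s) * n) * (t.descFactorial s * n ^ s) := by ring
      _ ≤ (t * (n - s)) * (t ^ s * n.descFactorial s) := Nat.mul_le_mul h1 ih
      _ = _ := by ring

/-- `P(σ S ⊆ T) ≤ (t/N)^s` -/
lemma prob_into (S T : Finset V) (hV : 0 < Fintype.card V) :
    ((Finset.univ.filter (fun τ : Perm V => ∀ x ∈ S, τ x ∈ T)).card : ℝ)
      ≤ ((T.card : ℝ) / Fintype.card V) ^ S.card * Nat.factorial (Fintype.card V) := by
  have h1 := card_into S T
  have hT : T.card ≤ Fintype.card V := Finset.card_le_univ T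
  have hS : S.card ≤ Fintype.card V := Finset.card_le_univ S
  have h2 := descFactorial_ratio T.card (Fintype.card V) S.card hT
  have h3 := Nat.factorial_mul_descFactorial hS
  have hn : (0:ℝ) < (Fintype.card V : ℝ) ^ S.card := by
    have : (0:ℝ) < Fintype.card V := by exact_mod_cast hV
    positivity
  rw [div_pow, div_mul_eq_mul_div, le_div_iff₀ hn]
  have h4 : (Finset.univ.filter (fun τ : Perm V => ∀ x ∈ S, τ x ∈ T)).card
      * Fintype.card V ^ S.card ≤ T.card ^ S.card * Nat.factorial (Fintype.card V) := by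
    calc (Finset.univ.filter (fun τ : Perm V => ∀ x ∈ S, τ x ∈ T)).card * Fintype.card V ^ S.card
        ≤ (T.card.descFactorial S.card * Nat.factorial (Fintype.card V - S.card))
            * Fintype.card V ^ S.card := Nat.mul_le_mul_right _ h1
      _ = (T.card.descFactorial S.card * Fintype.card V ^ S.card)
            * Nat.factorial (Fintype.card V - S.card) := by ring
      _ ≤ (T.card ^ S.card * (Fintype.card V).descFactorial S.card)
            * Nat.factorial (Fintype.card V - S.card) := Nat.mul_le_mul_right _ h2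
      _ = T.card ^ S.card * (Nat.factorial (Fintype.card V - S.card)
            * (Fintype.card V).descFactorial S.card) := by ring
      _ = _ := by rw [h3]
  exact_mod_cast h4

/-- `P(constraints) ≤ (2/N)^m` -/
lemma prob_constr (P : Finset (V × V)) (hV : 0 < Fintype.card V)
    (hP : 2 * P.card ≤ Fintype.card V) :
    ((Finset.univ.filter (fun τ : Perm V => ∀ e ∈ P, τ e.1 = e.2)).card : ℝ)
      ≤ (2 / (Fintype.card V : ℝ)) ^ P.card * Nat.factorial (Fintype.card V) := by
  have h1 := card_constr P
  set N := Fintype.card V with hN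
  have hPN : P.card ≤ N := by omega
  have h2 := Nat.pow_sub_le_descFactorial N P.card
  have h3 := Nat.factorial_mul_descFactorial hPN
  have hN0 : (0:ℝ) < N := by exact_mod_cast hV
  have hn : (0:ℝ) < (N : ℝ) ^ P.card := by positivity
  rw [div_pow, div_mul_eq_mul_div, le_div_iff₀ hn]
  have h5 : N ^ P.card ≤ 2 ^ P.card * N.descFactorial P.card := by
    calc N ^ P.card ≤ (2 * (N + 1 - P.card)) ^ P.card := by
          apply Nat.pow_le_pow_left; omega
      _ = 2 ^ P.card * (N + 1 - P.card) ^ P.card := by rw [mul_pow]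
      _ ≤ _ := Nat.mul_le_mul_left _ h2
  have h4 : (Finset.univ.filter (fun τ : Perm V => ∀ e ∈ P, τ e.1 = e.2)).card
      * N ^ P.card ≤ 2 ^ P.card * Nat.factorial N := by
    calc (Finset.univ.filter (fun τ : Perm V => ∀ e ∈ P, τ e.1 = e.2)).card * N ^ P.card
        ≤ Nat.factorial (N - P.card) * (2 ^ P.card * N.descFactorial P.card) :=
          Nat.mul_le_mul h1 h5
      _ = 2 ^ P.card * (Nat.factorial (N - P.card) * N.descFactorial P.card) := by ring
      _ = _ := by rw [h3]
  exact_mod_cast h4

/-- independence over `D` permutations, first event -/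
lemma prob_into_all (D : ℕ) (S T : Finset V) (hV : 0 < Fintype.card V) :
    ((Finset.univ.filter (fun σ : Fin D → Perm V => ∀ i, ∀ x ∈ S, σ i x ∈ T)).card : ℝ)
      ≤ (((T.card : ℝ) / Fintype.card V) ^ S.card) ^ D
        * (Nat.factorial (Fintype.card V) : ℝ) ^ D := by
  have h1 : Finset.univ.filter (fun σ : Fin D → Perm V => ∀ i, ∀ x ∈ S, σ i x ∈ T)
      = Fintype.piFinset (fun _ : Fin D =>
        Finset.univ.filter (fun τ : Perm V => ∀ x ∈ S, τ x ∈ T)) := by
    ext σ
    simp [Fintype.mem_piFinset]
  rw [h1, Fintype.card_piFinset]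
  simp only [Finset.prod_const, Finset.card_univ, Fintype.card_fin]
  push_cast
  rw [← mul_pow]
  exact pow_le_pow_left₀ (by positivity) (prob_into S T hV) D

/-- independence over `D` permutations, second event -/
lemma prob_constr_all (D : ℕ) (I : Finset (Fin D × V × V)) (hV : 0 < Fintype.card V)
    (hI : 2 * I.card ≤ Fintype.card V) :
    ((Finset.univ.filter (fun σ : Fin D → Perm V => ∀ a ∈ I, σ a.1 a.2.1 = a.2.2)).card : ℝ)
      ≤ (2 / (Fintype.card V : ℝ)) ^ I.card * (Nat.factorial (Fintype.card V) : ℝ) ^ D := by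
  classical
  let P : Fin D → Finset (V × V) := fun i => (I.filter (fun a => a.1 = i)).image (fun a => a.2)
  have hPcard : ∀ i, (P i).card = (I.filter (fun a => a.1 = i)).card := by
    intro i
    apply Finset.card_image_of_injOn
    intro a ha b hb hab
    simp only [Finset.coe_filter, Set.mem_ofPred_eq] at ha hb
    exact Prod.ext (ha.2.trans hb.2.symm) hab
  have hsum : ∑ i, (P i).card = I.card := by
    simp_rw [hPcard]
    rw [Finset.card_eq_sum_card_fiberwise (f := fun a : Fin D × V × V => a.1)
      (t := (Finset.univ : Finset (Fin D))) (fun a _ => Finset.mem_coe.2 (Finset.mem_univ _))]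
  have hPle : ∀ i, 2 * (P i).card ≤ Fintype.card V := by
    intro i
    have : (P i).card ≤ I.card := by
      rw [hPcard]; exact Finset.card_filter_le _ _
    omega
  have h1 : Finset.univ.filter (fun σ : Fin D → Perm V => ∀ a ∈ I, σ a.1 a.2.1 = a.2.2)
      = Fintype.piFinset (fun i : Fin D =>
        Finset.univ.filter (fun τ : Perm V => ∀ e ∈ P i, τ e.1 = e.2)) := by
    ext σ
    simp only [Finset.mem_filter, Finset.mem_univ, true_and, Fintype.mem_piFinset]
    constructor
    · intro h i e he
      simp only [P, Finset.mem_image, Finset.mem_filter] at he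
      obtain ⟨a, ⟨ha, rfl⟩, rfl⟩ := he
      exact h a ha
    · intro h a ha
      apply h a.1 a.2
      simp only [P, Finset.mem_image, Finset.mem_filter]
      exact ⟨a, ⟨ha, rfl⟩, rfl⟩
  rw [h1, Fintype.card_piFinset]
  push_cast
  calc ∏ i, ((Finset.univ.filter (fun τ : Perm V => ∀ e ∈ P i, τ e.1 = e.2)).card : ℝ)
      ≤ ∏ i, ((2 / (Fintype.card V : ℝ)) ^ (P i).card * Nat.factorial (Fintype.card V)) :=
        Finset.prod_le_prod (fun i _ => by positivity) (fun i _ => prob_constr (P i) hV (hPle i))
    _ = _ := by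
        rw [Finset.prod_mul_distrib, Finset.prod_pow_eq_pow_sum, hsum]
        simp

end Pool.Agent.Helper799.PermCount
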