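import Mathlib

set_option autoImplicit false

namespace Pool.Agent.Helper799.Pot

open Finset

variable {V : Type*} [Fintype V]

section potential

variable (R : V → V → Prop) [DecidableRel R]

/-- `w ↦ w - γ A w` -/
noncomputable def T (γ : ℝ) : (V → ℝ) →ₗ[ℝ] (V → ℝ) where
  toFun w x := w x - γ * ∑ y, if R x y then w y else 0
  map_add' w v := by
    funext x
    simp only [Pi.add_apply]
    have : ∀ y, (if R x y then (w y + v y) else 0)
        = (if R x y then w y else 0) + (if R x y then v y else 0) := by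
      intro y; split_ifs <;> simp
    simp_rw [this, Finset.sum_add_distrib]; ring
  map_smul' c w := by
    funext x
    simp only [Pi.smul_apply, smul_eq_mul, RingHom.id_apply]
    have : ∀ y, (if R x y then (c * w y) else 0) = c * (if R x y then w y else 0) := by
      intro y; split_ifs <;> simp
    simp_rw [this, ← Finset.mul_sum]; ring

lemma T_apply (γ : ℝ) (w : V → ℝ) (x : V) :
    T R γ w x = w x - γ * ∑ y, if R x y then w y else 0 := rfl

/-- double counting -/
lemma sum_sum (hsymm : ∀ x y, R x y → R y x) (w : V → ℝ) :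
    ∑ x, ∑ y, (if R x y then w y else 0)
      = ∑ y, ((Finset.univ.filter (fun x => R y x)).card : ℝ) * w y := by
  rw [Finset.sum_comm]
  apply Finset.sum_congr rfl
  intro y _
  rw [← Finset.sum_filter, Finset.sum_const, nsmul_eq_mul]
  congr 2
  congr 1
  ext x
  simp only [Finset.mem_filter, Finset.mem_univ, true_and]
  exact ⟨hsymm _ _, hsymm _ _⟩

theorem exists_pot (hsymm : ∀ x y, R x y → R y x) (Δ : ℝ) (hΔ : 1 ≤ Δ)
    (hdeg : ∀ x, ((Finset.univ.filter (fun y => R x y)).card : ℝ) ≤ Δ)
    (s : V → ℝ) (hs : ∀ x, 0 ≤ s x) :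
    ∃ w : V → ℝ, (∀ x, 0 ≤ w x) ∧ (∀ x, s x ≤ w x) ∧
      (∀ x y, R x y → w y ≤ (2 * Δ) * w x) ∧ ∑ x, w x ≤ 2 * ∑ x, s x := by
  have hΔ0 : 0 < Δ := by linarith
  set γ : ℝ := 1 / (2 * Δ) with hγ
  have hγ0 : 0 < γ := by positivity
  have hγΔ : γ * Δ = 1 / 2 := by rw [hγ]; field_simp
  have hinj : Function.Injective (T R γ) := by
    rw [← LinearMap.ker_eq_bot, LinearMap.ker_eq_bot']
    intro w hw
    have h1 : ∀ x, |w x| ≤ γ * ∑ y, if R x y then |w y| else 0 := by
      intro x
      have h2 : w x = γ * ∑ y, if R x y then w y else 0 := by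
        have := congrFun hw x
        rw [T_apply] at this
        simp only [Pi.zero_apply] at this
        linarith
      rw [h2, abs_mul, abs_of_pos hγ0]
      apply mul_le_mul_of_nonneg_left _ hγ0.le
      refine (Finset.abs_sum_le_sum_abs _ _).trans ?_
      apply Finset.sum_le_sum
      intro y _
      split_ifs <;> simp
    have h3 : ∑ x, |w x| ≤ (1 / 2) * ∑ x, |w x| := by
      calc ∑ x, |w x| ≤ ∑ x, γ * ∑ y, (if R x y then |w y| else 0) :=
            Finset.sum_le_sum fun x _ => h1 x
        _ = γ * ∑ y, ((Finset.univ.filter (fun x => R y x)).card : ℝ) * |w y| := by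
            rw [← Finset.mul_sum, sum_sum R hsymm (fun y => |w y|)]
        _ ≤ γ * ∑ y, Δ * |w y| := by
            apply mul_le_mul_of_nonneg_left _ hγ0.le
            exact Finset.sum_le_sum fun y _ =>
              mul_le_mul_of_nonneg_right (hdeg y) (abs_nonneg _)
        _ = (1 / 2) * ∑ x, |w x| := by rw [← Finset.mul_sum, ← mul_assoc, hγΔ]
    have h4 : 0 ≤ ∑ x, |w x| := Finset.sum_nonneg fun _ _ => abs_nonneg _
    have h0 : ∑ z, |w z| = 0 := by linarith
    rw [Finset.sum_eq_zero_iff_of_nonneg (fun _ _ => abs_nonneg _)] at h0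
    funext z
    simpa using h0 z (Finset.mem_univ z)
  have hsurj : Function.Surjective (T R γ) := LinearMap.injective_iff_surjective.1 hinj
  obtain ⟨w, hw⟩ := hsurj s
  have heq : ∀ x, w x = s x + γ * ∑ y, if R x y then w y else 0 := by
    intro x
    have := congrFun hw x
    rw [T_apply] at this
    linarith
  have hw0 : ∀ x, 0 ≤ w x := by
    by_contra hcon
    push Not at hcon
    obtain ⟨x1, hx1⟩ := hcon
    have : Nonempty V := ⟨x1⟩
    obtain ⟨x0, hx0⟩ := Finite.exists_min w
    have hneg : w x0 < 0 := lt_of_le_of_lt (hx0 x1) hx1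
    have h1 : ∑ y, (if R x0 y then w x0 else 0) ≤ ∑ y, (if R x0 y then w y else 0) := by
      apply Finset.sum_le_sum
      intro y _
      split_ifs
      · exact hx0 y
      · exact le_refl _
    have h2 : ∑ y, (if R x0 y then w x0 else 0)
        = ((Finset.univ.filter (fun y => R x0 y)).card : ℝ) * w x0 := by
      rw [← Finset.sum_filter, Finset.sum_const, nsmul_eq_mul]
    have h3 : Δ * w x0 ≤ ((Finset.univ.filter (fun y => R x0 y)).card : ℝ) * w x0 :=
      mul_le_mul_of_nonpos_right (hdeg x0) hneg.le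
    have h4 := heq x0
    have h5 : γ * (Δ * w x0) ≤ γ * ∑ y, (if R x0 y then w y else 0) :=
      mul_le_mul_of_nonneg_left (by linarith) hγ0.le
    rw [← mul_assoc, hγΔ] at h5
    have := hs x0
    linarith
  refine ⟨w, hw0, ?_, ?_, ?_⟩
  · intro x
    rw [heq x]
    have : 0 ≤ γ * ∑ y, (if R x y then w y else 0) := by
      apply mul_nonneg hγ0.le
      exact Finset.sum_nonneg fun y _ => by split_ifs; exacts [hw0 y, le_refl _]
    linarith
  · intro x y hxy
    have h1 : w y ≤ ∑ y, (if R x y then w y else 0) := by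
      have := Finset.single_le_sum (f := fun y => if R x y then w y else 0)
        (fun y _ => by split_ifs; exacts [hw0 y, le_refl _]) (Finset.mem_univ y)
      simpa [hxy] using this
    have h2 : γ * w y ≤ w x := by
      rw [heq x]
      have := mul_le_mul_of_nonneg_left h1 hγ0.le
      linarith [hs x]
    have h3 : w y = (2 * Δ) * (γ * w y) := by rw [hγ]; field_simp
    rw [h3]
    exact mul_le_mul_of_nonneg_left h2 (by positivity)
  · have h1 : ∑ x, w x = ∑ x, s x + γ * ∑ x, ∑ y, (if R x y then w y else 0) := by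
      rw [Finset.mul_sum, ← Finset.sum_add_distrib]
      exact Finset.sum_congr rfl fun x _ => heq x
    rw [sum_sum R hsymm] at h1
    have h2 : γ * ∑ y, ((Finset.univ.filter (fun x => R y x)).card : ℝ) * w y
        ≤ (1 / 2) * ∑ y, w y := by
      calc γ * ∑ y, ((Finset.univ.filter (fun x => R y x)).card : ℝ) * w y
          ≤ γ * ∑ y, Δ * w y := by
            apply mul_le_mul_of_nonneg_left _ hγ0.le
            exact Finset.sum_le_sum fun y _ => mul_le_mul_of_nonneg_right (hdeg y) (hw0 y)
        _ = (1 / 2) * ∑ y, w y := by rw [← Finset.mul_sum, ← mul_assoc, hγΔ]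
    linarith

end potential

/-- Jensen: average of `log E` -/
lemma sum_log_le (E : V → ℝ) (hE : ∀ x, 1 ≤ E x) (A : ℝ) (hA : 0 < A) (hsum : ∑ x, E x ≤ A)
    (U : Finset V) (hU : U.Nonempty) :
    ∑ x ∈ U, Real.log (E x) ≤ U.card * Real.log (A / U.card) := by
  have hu : (0:ℝ) < U.card := by exact_mod_cast hU.card_pos
  set a := A / U.card with ha
  have ha0 : 0 < a := by positivity
  have h1 : ∀ x, Real.log (E x) ≤ E x / a - 1 + Real.log a := by
    intro x
    have hx : 0 < E x := by linarith [hE x]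
    have := Real.log_le_sub_one_of_pos (div_pos hx ha0)
    rw [Real.log_div hx.ne' ha0.ne'] at this
    linarith
  calc ∑ x ∈ U, Real.log (E x) ≤ ∑ x ∈ U, (E x / a - 1 + Real.log a) :=
        Finset.sum_le_sum fun x _ => h1 x
    _ = (∑ x ∈ U, E x) / a - U.card + U.card * Real.log a := by
        rw [Finset.sum_add_distrib, Finset.sum_sub_distrib, ← Finset.sum_div]
        simp
    _ ≤ A / a - U.card + U.card * Real.log a := by
        have : ∑ x ∈ U, E x ≤ A := by
          refine le_trans ?_ hsum
          exact Finset.sum_le_sum_of_subset_of_nonneg (Finset.subset_univ U)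
            (fun x _ _ => by linarith [hE x])
        gcongr
    _ = U.card * Real.log a := by
        have : A / a = U.card := by rw [ha]; field_simp
        rw [this]; ring

/-- Weighted sparsity from small-set sparsity. -/
theorem weighted (E : V → ℝ) (hE : ∀ x, 1 ≤ E x)
    (hsum : ∑ x, E x ≤ 3 * Fintype.card V) (b : ℝ) (hb : 0 < b) (C : ℝ) (hC : 0 ≤ C)
    (U : Finset V) (hU : U.Nonempty) (n : ℝ)
    (h : n ≤ U.card + C * U.card / (1 + Real.log (Fintype.card V / U.card))) :
    n ≤ ∑ x ∈ U, (1 + (C * (1 + 2 * b)) / (1 + b * Real.log (E x))) := by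
  have hu : (0:ℝ) < U.card := by exact_mod_cast hU.card_pos
  have hN : (U.card : ℝ) ≤ Fintype.card V := by exact_mod_cast Finset.card_le_univ U
  have hN0 : (0:ℝ) < Fintype.card V := by linarith
  have hlog0 : ∀ x, 0 ≤ Real.log (E x) := fun x => Real.log_nonneg (hE x)
  have hκ0 : ∀ x, 0 < 1 + b * Real.log (E x) := fun x => by
    have := mul_nonneg hb.le (hlog0 x); linarith
  have hL0 : 0 ≤ Real.log (Fintype.card V / U.card) :=
    Real.log_nonneg ((one_le_div hu).2 hN)
  have h1 := sum_log_le E hE (3 * Fintype.card V) (by positivity) hsum U hU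
  have h2 : Real.log (3 * Fintype.card V / U.card) = Real.log 3 + Real.log (Fintype.card V / U.card) := by
    rw [mul_div_assoc, Real.log_mul (by norm_num) (by positivity)]
  have h3 : Real.log 3 ≤ 2 := by
    have := Real.log_le_sub_one_of_pos (by norm_num : (0:ℝ) < 3)
    linarith
  have h4 : ∑ x ∈ U, (1 + b * Real.log (E x))
      ≤ U.card * ((1 + 2 * b) * (1 + Real.log (Fintype.card V / U.card))) := by
    rw [Finset.sum_add_distrib, ← Finset.mul_sum]
    simp only [Finset.sum_const, nsmul_eq_mul, mul_one]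
    have h5 : b * ∑ x ∈ U, Real.log (E x)
        ≤ b * (U.card * (2 + Real.log (Fintype.card V / U.card))) := by
      apply mul_le_mul_of_nonneg_left _ hb.le
      refine h1.trans ?_
      rw [h2]
      gcongr
    nlinarith [mul_nonneg hu.le hL0, mul_nonneg (mul_nonneg hb.le hu.le) hL0]
  have h6 : (U.card : ℝ) / ((1 + 2 * b) * (1 + Real.log (Fintype.card V / U.card)))
      ≤ ∑ x ∈ U, 1 / (1 + b * Real.log (E x)) := by
    have h7 := Finset.sq_sum_div_le_sum_sq_div U (fun _ : V => (1:ℝ))
      (g := fun x => 1 + b * Real.log (E x)) (fun x _ => hκ0 x)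
    simp only [Finset.sum_const, nsmul_eq_mul, mul_one, one_pow] at h7
    refine le_trans ?_ h7
    have h8 : 0 < ∑ x ∈ U, (1 + b * Real.log (E x)) :=
      Finset.sum_pos (fun x _ => hκ0 x) hU
    rw [div_le_div_iff₀ (by positivity) h8]
    nlinarith
  rw [Finset.sum_add_distrib]
  simp only [Finset.sum_const, nsmul_eq_mul, mul_one]
  have h9 : ∑ x ∈ U, (C * (1 + 2 * b)) / (1 + b * Real.log (E x))
      = (C * (1 + 2 * b)) * ∑ x ∈ U, 1 / (1 + b * Real.log (E x)) := by
    rw [Finset.mul_sum]
    exact Finset.sum_congr rfl fun x _ => by rw [mul_one_div]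
  rw [h9]
  have h10 : C * U.card / (1 + Real.log (Fintype.card V / U.card))
      = (C * (1 + 2 * b)) * ((U.card : ℝ) / ((1 + 2 * b) * (1 + Real.log (Fintype.card V / U.card)))) := by
    field_simp
  rw [h10] at h
  have h11 : (C * (1 + 2 * b)) * ((U.card : ℝ) / ((1 + 2 * b) * (1 + Real.log (Fintype.card V / U.card))))
      ≤ (C * (1 + 2 * b)) * ∑ x ∈ U, 1 / (1 + b * Real.log (E x)) :=
    mul_le_mul_of_nonneg_left h6 (by positivity)
  linarith

end Pool.Agent.Helper799.Pot
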