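import Pool.Agent.Helper799.Khin
import Pool.Agent.Helper799.Disc
import Pool.Agent.Helper799.Orient
import Pool.Agent.Helper799.Pot
import Pool.Agent.Helper799.Conc

set_option autoImplicit false

namespace Pool.Agent.Helper799.Single

open Finset
open Pool.Agent.Helper799.Khin

/-- truncation -/
noncomputable def clamp (a l : ℝ) : ℝ := max (-l) (min a l)

lemma clamp_lip {a a' l l' B : ℝ} (hl : 0 ≤ l) (hl' : 0 ≤ l') (h1 : |a - a'| ≤ B)
    (h2 : |l - l'| ≤ B) : |clamp a l - clamp a' l'| ≤ B := by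
  rw [abs_le] at h1 h2
  unfold clamp
  simp only [max_def, min_def]
  split_ifs <;> (rw [abs_le]; constructor <;> linarith)

lemma clamp_abs {a l : ℝ} (hl : 0 ≤ l) : |clamp a l| ≤ l := by
  unfold clamp
  simp only [max_def, min_def]
  split_ifs <;> (rw [abs_le]; constructor <;> linarith)

lemma clamp_eq {a l : ℝ} (h : |a| ≤ l) : clamp a l = a := by
  rw [abs_le] at h
  unfold clamp
  simp only [max_def, min_def]
  split_ifs <;> linarith

lemma clamp_sub {a l : ℝ} (hl : 0 ≤ l) : |a - clamp a l| ≤ |a| := by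
  unfold clamp
  simp only [max_def, min_def]
  rcases abs_cases a with ⟨h, h'⟩ | ⟨h, h'⟩ <;> rw [h] <;>
  split_ifs <;> (rw [abs_le]; constructor <;> linarith)

/-- The truncation estimate. -/
lemma trunc {V : Type*} [Fintype V] (R : V → V → Prop) (κ : V → ℝ) (hκ1 : ∀ x, 1 ≤ κ x)
    (hκ2 : ∀ x y, R x y → |κ x - κ y| ≤ 1 / 2) (b B lam C1 M N : ℝ) (hb : 0 < b) (hB : 1 ≤ B)
    (hlam : 1 / (b * B) ≤ lam) (hM : 0 ≤ M)
    (φ : V → ℝ) (hφ : ∀ x y, R x y → |φ x - φ y| ≤ 1)
    (hmom : ∑ x, φ x ^ 2 * Real.exp (lam * |φ x|) ≤ C1 * N)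
    (f : V → ℝ) (hf : ∀ x, |f x| ≤ M * Real.exp ((κ x - 1) / b)) :
    ∃ ψ : V → ℝ, (∀ x y, R x y → |ψ x - ψ y| ≤ 1) ∧ (∀ x, |ψ x| ≤ κ x) ∧
      ∑ x, f x * φ x ≤ B * (∑ x, f x * ψ x) + Real.sqrt ((∑ x, |f x|) * (C1 * (M * N))) := by
  have hB0 : 0 < B := by linarith
  set τ : V → ℝ := fun x => clamp (φ x) (B * κ x) with hτ
  have hBκ : ∀ x, 0 ≤ B * κ x := fun x => by have := hκ1 x; positivity
  refine ⟨fun x => τ x / B, ?_, ?_, ?_⟩
  · intro x y hxy
    rw [← sub_div, abs_div, abs_of_pos hB0, div_le_one hB0]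
    apply clamp_lip (hBκ x) (hBκ y) ((hφ x y hxy).trans hB)
    rw [← mul_sub, abs_mul, abs_of_pos hB0]
    have := hκ2 x y hxy
    nlinarith
  · intro x
    rw [abs_div, abs_of_pos hB0, div_le_iff₀ hB0]
    have := clamp_abs (a := φ x) (hBκ x)
    rw [mul_comm]; exact this
  · have h1 : B * (∑ x, f x * (τ x / B)) = ∑ x, f x * τ x := by
      rw [Finset.mul_sum]
      apply Finset.sum_congr rfl
      intro x _
      field_simp
    rw [h1]
    have h2 : ∑ x, f x * φ x = ∑ x, f x * τ x + ∑ x, f x * (φ x - τ x) := by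
      rw [← Finset.sum_add_distrib]
      exact Finset.sum_congr rfl fun x _ => by ring
    rw [h2]
    have hptw : ∀ x, |f x| * (φ x - τ x) ^ 2 ≤ M * (φ x ^ 2 * Real.exp (lam * |φ x|)) := by
      intro x
      by_cases hx : |φ x| ≤ B * κ x
      · have : τ x = φ x := clamp_eq hx
        rw [this]
        have h0 : 0 ≤ M * (φ x ^ 2 * Real.exp (lam * |φ x|)) := by positivity
        simpa using h0
      · push Not at hx
        have h3 : (φ x - τ x) ^ 2 ≤ φ x ^ 2 := by
          rw [← sq_abs, ← sq_abs (φ x)]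
          have := clamp_sub (a := φ x) (hBκ x)
          gcongr
        have h4 : Real.exp ((κ x - 1) / b) ≤ Real.exp (lam * |φ x|) := by
          apply Real.exp_le_exp.2
          calc (κ x - 1) / b ≤ κ x / b := by gcongr; linarith
            _ = (1 / (b * B)) * (B * κ x) := by field_simp
            _ ≤ (1 / (b * B)) * |φ x| := by gcongr
            _ ≤ lam * |φ x| := by gcongr
        calc |f x| * (φ x - τ x) ^ 2
            ≤ (M * Real.exp ((κ x - 1) / b)) * φ x ^ 2 := by
              gcongr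
              exact hf x
          _ ≤ (M * Real.exp (lam * |φ x|)) * φ x ^ 2 := by gcongr
          _ = _ := by ring
    have h5 : ∑ x, |f x| * (φ x - τ x) ^ 2 ≤ C1 * (M * N) := by
      calc ∑ x, |f x| * (φ x - τ x) ^ 2
          ≤ ∑ x, M * (φ x ^ 2 * Real.exp (lam * |φ x|)) := Finset.sum_le_sum fun x _ => hptw x
        _ = M * ∑ x, (φ x ^ 2 * Real.exp (lam * |φ x|)) := by rw [Finset.mul_sum]
        _ ≤ M * (C1 * N) := by gcongr
        _ = _ := by ring
    have h6 : ∑ x, f x * (φ x - τ x)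
        ≤ Real.sqrt (∑ x, |f x|) * Real.sqrt (∑ x, |f x| * (φ x - τ x) ^ 2) := by
      calc ∑ x, f x * (φ x - τ x) ≤ ∑ x, Real.sqrt |f x| * (Real.sqrt |f x| * |φ x - τ x|) := by
            apply Finset.sum_le_sum
            intro x _
            rw [← mul_assoc, Real.mul_self_sqrt (abs_nonneg _), ← abs_mul]
            exact le_abs_self _
        _ ≤ Real.sqrt (∑ x, Real.sqrt |f x| ^ 2)
            * Real.sqrt (∑ x, (Real.sqrt |f x| * |φ x - τ x|) ^ 2) :=
          Real.sum_mul_le_sqrt_mul_sqrt _ _ _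
        _ = _ := by
          congr 2
          · exact Finset.sum_congr rfl fun x _ => Real.sq_sqrt (abs_nonneg _)
          · apply Finset.sum_congr rfl
            intro x _
            rw [mul_pow, Real.sq_sqrt (abs_nonneg _), sq_abs]
    have h7 : Real.sqrt (∑ x, |f x|) * Real.sqrt (∑ x, |f x| * (φ x - τ x) ^ 2)
        ≤ Real.sqrt ((∑ x, |f x|) * (C1 * (M * N))) := by
      rw [Real.sqrt_mul (Finset.sum_nonneg fun _ _ => abs_nonneg _)]
      gcongr
    linarith


section dual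
variable {V Ω : Type*} [Fintype V] [DecidableEq V] [Fintype Ω]

/-- An explicit `L_1` seminorm that is small on edges is dominated by the transport norm. -/
lemma norm_le_nu (R : V → V → Prop) (w : Ω → ℝ) (hw : ∀ σ, 0 ≤ w σ)
    (L : Ω → (V → ℝ) →ₗ[ℝ] (V → ℝ)) (C2 : ℝ) (hC2 : 0 < C2)
    (hedge : ∀ x y, R x y →
      ∑ σ, w σ * ∑ z, |L σ (Pi.single x 1 - Pi.single y 1) z| ≤ C2)
    (ν : (V → ℝ) → ℝ)
    (hν1 : ∀ f g : V → ℝ, ∑ v, f v = 0 → (∀ x y, R x y → |g x - g y| ≤ 1) →
      ∑ v, f v * g v ≤ ν f)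
    (f : V → ℝ) (hf : ∑ v, f v = 0) :
    ∑ σ, w σ * ∑ z, |L σ f z| ≤ C2 * ν f := by
  classical
  let s : Ω → V → ℝ := fun σ z => if 0 ≤ L σ f z then 1 else -1
  have hs1 : ∀ σ z, |s σ z| = 1 := by
    intro σ z; simp only [s]; split_ifs <;> simp
  have hs2 : ∀ σ z, s σ z * L σ f z = |L σ f z| := by
    intro σ z; simp only [s]; split_ifs with h
    · rw [abs_of_nonneg h]; ring
    · rw [abs_of_neg (not_le.1 h)]; ring
  let ℓ : (V → ℝ) →ₗ[ℝ] ℝ :=
    { toFun := fun g => ∑ σ, w σ * ∑ z, s σ z * L σ g z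
      map_add' := by
        intro g g'
        rw [← Finset.sum_add_distrib]
        apply Finset.sum_congr rfl
        intro σ _
        rw [← mul_add, ← Finset.sum_add_distrib]
        congr 1
        apply Finset.sum_congr rfl
        intro z _
        rw [map_add, Pi.add_apply, mul_add]
      map_smul' := by
        intro c g
        rw [RingHom.id_apply, smul_eq_mul, Finset.mul_sum]
        apply Finset.sum_congr rfl
        intro σ _
        rw [mul_left_comm, Finset.mul_sum _ _ c]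
        congr 1
        apply Finset.sum_congr rfl
        intro z _
        rw [map_smul, Pi.smul_apply, smul_eq_mul]; ring }
  have hℓ : ∀ g, ℓ g = ∑ σ, w σ * ∑ z, s σ z * L σ g z := fun g => rfl
  have hℓabs : ∀ g, |ℓ g| ≤ ∑ σ, w σ * ∑ z, |L σ g z| := by
    intro g
    rw [hℓ]
    refine (Finset.abs_sum_le_sum_abs _ _).trans ?_
    apply Finset.sum_le_sum
    intro σ _
    rw [abs_mul, abs_of_nonneg (hw σ)]
    apply mul_le_mul_of_nonneg_left _ (hw σ)
    refine (Finset.abs_sum_le_sum_abs _ _).trans ?_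
    apply Finset.sum_le_sum
    intro z _
    rw [abs_mul, hs1, one_mul]
  have hℓf : ℓ f = ∑ σ, w σ * ∑ z, |L σ f z| := by
    rw [hℓ]
    apply Finset.sum_congr rfl
    intro σ _
    congr 1
    exact Finset.sum_congr rfl fun z _ => hs2 σ z
  have hexpand : ℓ f = ∑ x, f x * ℓ (Pi.single x 1) := by
    conv_lhs => rw [← Finset.univ_sum_single f]
    rw [map_sum]
    apply Finset.sum_congr rfl
    intro x _
    rw [← smul_eq_mul, ← map_smul]
    congr 1
    rw [← Pi.single_smul]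
    simp
  have h1 := hν1 f (fun x => ℓ (Pi.single x 1) / C2) hf (by
    intro x y hxy
    rw [← sub_div, abs_div, abs_of_pos hC2, div_le_one hC2, ← map_sub]
    exact (hℓabs _).trans (hedge x y hxy))
  have h2 : ∑ v, f v * (ℓ (Pi.single v 1) / C2) = ℓ f / C2 := by
    rw [hexpand, Finset.sum_div]
    exact Finset.sum_congr rfl fun x _ => by ring
  rw [h2, div_le_iff₀ hC2] at h1
  rw [← hℓf]; linarith

/-- Khintchine and Minkowski for a linear image. -/
lemma khin_lin {m : ℕ} (L : (V → ℝ) →ₗ[ℝ] (V → ℝ)) (x : Fin m → V → ℝ) :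
    (9 / 16) * (2 ^ m * Real.sqrt (∑ i, (∑ z, |L (x i) z|) ^ 2))
      ≤ ∑ s : Finset (Fin m), ∑ z, |L (fun v => ∑ i, sg s i * x i v) z| := by
  have h1 : ∀ s : Finset (Fin m), L (fun v => ∑ i, sg s i * x i v)
      = fun z => ∑ i, sg s i * L (x i) z := by
    intro s
    have : (fun v => ∑ i, sg s i * x i v) = ∑ i, sg s i • x i := by
      funext v
      simp [Finset.sum_apply]
    rw [this, map_sum]
    funext z
    simp [Finset.sum_apply]
  simp_rw [h1]
  rw [Finset.sum_comm]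
  have h2 : ∀ z, (9 / 16) * (2 ^ m * Real.sqrt (∑ i, L (x i) z ^ 2))
      ≤ ∑ s : Finset (Fin m), |∑ i, sg s i * L (x i) z| := by
    intro z
    have := khintchine (Finset.univ : Finset (Fin m)) (fun i => L (x i) z)
    simpa using this
  calc (9 / 16) * (2 ^ m * Real.sqrt (∑ i, (∑ z, |L (x i) z|) ^ 2))
      ≤ (9 / 16) * (2 ^ m * ∑ z, Real.sqrt (∑ i, L (x i) z ^ 2)) := by
        have := minkowski (Finset.univ : Finset (Fin m)) (Finset.univ : Finset V)
          (fun i z => L (x i) z)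
        gcongr
    _ = ∑ z, (9 / 16) * (2 ^ m * Real.sqrt (∑ i, L (x i) z ^ 2)) := by
        rw [Finset.mul_sum, Finset.mul_sum]
    _ ≤ _ := Finset.sum_le_sum fun z _ => h2 z

end dual

end Pool.Agent.Helper799.Single
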