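import Mathlib

set_option autoImplicit false

namespace Pool.Helper799.Te

/-- `n`-dimensional Euclidean space over `𝕜` (`𝕜` is `ℝ` or `ℂ`). -/
abbrev Euc (𝕜 : Type) [RCLike 𝕜] (n : ℕ) : Type := EuclideanSpace 𝕜 (Fin n)

/-- Type (E): `X` is an infinite-dimensional Banach space and there are bounded operators
`A n : ℓ_n^2 → X` and `B n : X → ℓ_n^2` with `B n ∘ A n = id` for every `n` and
`liminf n^{-1/2} ‖A n‖ ‖B n‖ = 0` (the lower limit is taken in `[0, ∞]`). -/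
def TypeE (𝕜 X : Type) [RCLike 𝕜] [NormedAddCommGroup X] [NormedSpace 𝕜 X] : Prop :=
  CompleteSpace X ∧ ¬ FiniteDimensional 𝕜 X ∧
  ∃ (A : ∀ n : ℕ, Euc 𝕜 n →L[𝕜] X) (B : ∀ n : ℕ, X →L[𝕜] Euc 𝕜 n),
    (∀ n, (B n).comp (A n) = ContinuousLinearMap.id 𝕜 (Euc 𝕜 n)) ∧
    Filter.liminf (fun n : ℕ => ENNReal.ofReal (‖A n‖ * ‖B n‖ / Real.sqrt n)) Filter.atTop = 0

/-- The relative projection constant `λ(E, X)`: the infimum of the norms of the bounded linear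
projections of `X` onto `E`. -/
noncomputable def projConst {𝕜 X : Type} [RCLike 𝕜] [NormedAddCommGroup X] [NormedSpace 𝕜 X]
    (E : Submodule 𝕜 X) : ℝ :=
  sInf {c | ∃ P : X →L[𝕜] X, (∀ x, P x ∈ E) ∧ (∀ x ∈ E, P x = x) ∧ ‖P‖ = c}

/-- The Banach–Mazur distance `d(E, ℓ_n^2)`: the infimum of `‖T‖ ‖T⁻¹‖` over the linear
isomorphisms `T : E → ℓ_n^2`. -/
noncomputable def distEuc {𝕜 X : Type} [RCLike 𝕜] [NormedAddCommGroup X] [NormedSpace 𝕜 X]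
    (n : ℕ) (E : Submodule 𝕜 X) : ℝ :=
  sInf {c | ∃ T : E ≃L[𝕜] Euc 𝕜 n,
    ‖(T : E →L[𝕜] Euc 𝕜 n)‖ * ‖(T.symm : Euc 𝕜 n →L[𝕜] E)‖ = c}

/-- `(E n)` is a sequence of subspaces with `dim (E n) = n`. -/
def DimSeq {𝕜 X : Type} [RCLike 𝕜] [NormedAddCommGroup X] [NormedSpace 𝕜 X]
    (E : ℕ → Submodule 𝕜 X) : Prop :=
  ∀ n, FiniteDimensional 𝕜 (E n) ∧ Module.finrank 𝕜 (E n) = n

/-- Property (a): `sup_n λ(E n, X) < ∞` and `d(E n, ℓ_n^2) = o(√n)`. -/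
def PropA {𝕜 X : Type} [RCLike 𝕜] [NormedAddCommGroup X] [NormedSpace 𝕜 X]
    (E : ℕ → Submodule 𝕜 X) : Prop :=
  (∃ C : ℝ, ∀ n, 1 ≤ n → projConst (E n) ≤ C) ∧
  (fun n : ℕ => distEuc n (E n)) =o[Filter.atTop] (fun n : ℕ => Real.sqrt n)

/-- Property (b): `sup_n d(E n, ℓ_n^2) < ∞` and `λ(E n, X) = o(√n)`. -/
def PropB {𝕜 X : Type} [RCLike 𝕜] [NormedAddCommGroup X] [NormedSpace 𝕜 X]
    (E : ℕ → Submodule 𝕜 X) : Prop :=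
  (∃ C : ℝ, ∀ n, 1 ≤ n → distEuc n (E n) ≤ C) ∧
  (fun n : ℕ => projConst (E n)) =o[Filter.atTop] (fun n : ℕ => Real.sqrt n)

end Pool.Helper799.Te
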