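import Mathlib
import Pool.Agent.Helper799.TeUp2
import Pool.Agent.Helper799.TeDefs

set_option autoImplicit false

namespace Pool.Helper799.Te

open Finset

section params

variable (𝕜 : Type) [RCLike 𝕜]

/-- a chosen net -/
noncomputable def net (m : ℕ) : Finset (EuclideanSpace 𝕜 (Fin m)) := (exists_net 𝕜 m).choose

theorem net_spec (m : ℕ) : (∀ y ∈ net 𝕜 m, ‖y‖ ≤ 1) ∧
    ∀ b : EuclideanSpace 𝕜 (Fin m), ∃ y ∈ net 𝕜 m, ‖b‖ ≤ 2 * ‖inner 𝕜 y b‖ :=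
  (exists_net 𝕜 m).choose_spec

/-- net sizes up to `m` -/
noncomputable def nu (m : ℕ) : ℕ := ∑ i ∈ Finset.range (m + 1), (net 𝕜 i).card

theorem nu_mono {m m' : ℕ} (h : m ≤ m') : nu 𝕜 m ≤ nu 𝕜 m' := by
  unfold nu
  apply Finset.sum_le_sum_of_subset
  intro i hi
  rw [Finset.mem_range] at hi ⊢
  omega

theorem card_net_le {i m : ℕ} (h : i ≤ m) : (net 𝕜 i).card ≤ nu 𝕜 m := by
  unfold nu
  exact Finset.single_le_sum (f := fun i => (net 𝕜 i).card) (fun _ _ => Nat.zero_le _)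
    (Finset.mem_range.2 (by omega))

/-- dimension of the good Euclidean space at step `j` when the total dimension so far is `D` -/
noncomputable def nf (j D : ℕ) : ℕ := ⌈((j : ℝ) + 1) ^ 2 * cU (nu 𝕜 (2 * D + j)) ^ 2⌉₊ + 1

/-- total dimension -/
noncomputable def Dt : ℕ → ℕ
  | 0 => 0
  | j + 1 => Dt j + 2 ^ nf 𝕜 j (Dt j)

/-- scale of bad behaviour -/
noncomputable def mj (j : ℕ) : ℕ := 2 * Dt 𝕜 j + j
/-- exponent parameter -/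
noncomputable def kj (j : ℕ) : ℕ := nu 𝕜 (mj 𝕜 j)
/-- good dimension -/
noncomputable def nj (j : ℕ) : ℕ := nf 𝕜 j (Dt 𝕜 j)

theorem Dt_eq (j : ℕ) : Dt 𝕜 j = ∑ i ∈ Finset.range j, 2 ^ nj 𝕜 i := by
  induction j with
  | zero => simp [Dt]
  | succ j ih =>
    rw [Finset.sum_range_succ, ← ih]
    rfl

theorem Dt_mono {i j : ℕ} (h : i ≤ j) : Dt 𝕜 i ≤ Dt 𝕜 j := by
  rw [Dt_eq, Dt_eq]
  apply Finset.sum_le_sum_of_subset
  intro l hl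
  rw [Finset.mem_range] at hl ⊢
  omega

theorem mj_mono {i j : ℕ} (h : i ≤ j) : mj 𝕜 i ≤ mj 𝕜 j := by
  unfold mj
  have := Dt_mono 𝕜 h
  omega

theorem cost_nj (j : ℕ) : ((j : ℝ) + 1) * cU (kj 𝕜 j) ≤ Real.sqrt (nj 𝕜 j) := by
  apply Real.le_sqrt_of_sq_le
  unfold nj nf
  rw [mul_pow]
  push_cast
  have := Nat.le_ceil (((j : ℝ) + 1) ^ 2 * cU (nu 𝕜 (2 * Dt 𝕜 j + j)) ^ 2)
  have e : kj 𝕜 j = nu 𝕜 (2 * Dt 𝕜 j + j) := rfl
  rw [e]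
  linarith

end params

/-- the space -/
abbrev TheX (𝕜 : Type) [RCLike 𝕜] : Type := XX 𝕜 (kj 𝕜) (fun j => Fin (nj 𝕜 j) → Bool)

variable (𝕜 : Type) [RCLike 𝕜]

theorem bad_scale (j : ℕ) (A : Euc 𝕜 (mj 𝕜 j) →L[𝕜] TheX 𝕜) (B : TheX 𝕜 →L[𝕜] Euc 𝕜 (mj 𝕜 j))
    (hBA : ∀ x, B (A x) = x) : Real.sqrt (mj 𝕜 j) ≤ 21 * (‖A‖ * ‖B‖) := by
  apply low (kj 𝕜) (fun j => Fin (nj 𝕜 j) → Bool) (mj 𝕜 j) j finrank_euclideanSpace_fin _ _ A B hBA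
  · have : ∑ i ∈ Finset.range j, Fintype.card (Fin (nj 𝕜 i) → Bool) = Dt 𝕜 j := by
      rw [Dt_eq]
      apply Finset.sum_congr rfl
      intro i _
      simp
    rw [this]
    unfold mj
    omega
  · intro m' hm'
    refine ⟨net 𝕜 m', (net_spec 𝕜 m').1, (net_spec 𝕜 m').2, ?_⟩
    intro i hi
    have h1 : (net 𝕜 m').card ≤ nu 𝕜 (mj 𝕜 j) := card_net_le 𝕜 hm'
    have h2 : nu 𝕜 (mj 𝕜 j) ≤ nu 𝕜 (mj 𝕜 i) := nu_mono 𝕜 (mj_mono 𝕜 hi)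
    have h3 : nu 𝕜 (mj 𝕜 i) = kj 𝕜 i := rfl
    have h4 : kj 𝕜 i < 2 ^ (kj 𝕜 i) := Nat.lt_two_pow_self
    have h5 : 2 ^ (kj 𝕜 i) ≤ 2 ^ (2 * kj 𝕜 i + 2) := Nat.pow_le_pow_right (by norm_num) (by omega)
    omega

theorem nj_ge (j : ℕ) : j ≤ nj 𝕜 j := by
  have h1 := cost_nj 𝕜 j
  have h2 : (1 : ℝ) ≤ cU (kj 𝕜 j) := by
    unfold cU
    have : (1 : ℝ) ≤ (2 * kj 𝕜 j + 2).factorial := by
      exact_mod_cast Nat.one_le_iff_ne_zero.2 (Nat.factorial_ne_zero _)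
    linarith
  have h3 : (j : ℝ) + 1 ≤ Real.sqrt (nj 𝕜 j) := by nlinarith
  have h4 : ((j : ℝ) + 1) ^ 2 ≤ nj 𝕜 j := by
    have h5 := Real.sq_sqrt (Nat.cast_nonneg (α := ℝ) (nj 𝕜 j))
    have h6 : (0 : ℝ) ≤ (j : ℝ) + 1 := by positivity
    nlinarith
  have h7 : (j : ℝ) ≤ nj 𝕜 j := by nlinarith [Nat.cast_nonneg (α := ℝ) j]
  exact_mod_cast h7

/-- inclusion of a smaller Euclidean space -/
theorem euc_incl {n N : ℕ} (h : n ≤ N) : ∃ (i : Euc 𝕜 n →L[𝕜] Euc 𝕜 N) (p : Euc 𝕜 N →L[𝕜] Euc 𝕜 n),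
    ∀ x, p (i x) = x := by
  let i0 : Euc 𝕜 n →ₗ[𝕜] Euc 𝕜 N :=
    { toFun := fun x => WithLp.toLp 2 (fun l => if hl : (l : ℕ) < n then x ⟨l, hl⟩ else 0)
      map_add' := by
        intro x y; ext l
        simp only [PiLp.add_apply]
        split_ifs <;> simp
      map_smul' := by
        intro c x; ext l
        simp only [PiLp.smul_apply, RingHom.id_apply]
        split_ifs <;> simp }
  let p0 : Euc 𝕜 N →ₗ[𝕜] Euc 𝕜 n :=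
    { toFun := fun x => WithLp.toLp 2 (fun l => x (Fin.castLE h l))
      map_add' := by intro x y; ext l; simp
      map_smul' := by intro c x; ext l; simp }
  refine ⟨LinearMap.toContinuousLinearMap i0, LinearMap.toContinuousLinearMap p0, ?_⟩
  intro x
  ext l
  simp [i0, p0]

theorem exists_AB (n : ℕ) : ∃ (A : Euc 𝕜 n →L[𝕜] TheX 𝕜) (B : TheX 𝕜 →L[𝕜] Euc 𝕜 n),
    (∀ x, B (A x) = x) ∧ ∀ (A' : Euc 𝕜 n →L[𝕜] TheX 𝕜) (B' : TheX 𝕜 →L[𝕜] Euc 𝕜 n),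
      (∀ x, B' (A' x) = x) → ‖A‖ * ‖B‖ ≤ ‖A'‖ * ‖B'‖ + 1 := by
  let S : Set ℝ := {c | ∃ (A : Euc 𝕜 n →L[𝕜] TheX 𝕜) (B : TheX 𝕜 →L[𝕜] Euc 𝕜 n),
    (∀ x, B (A x) = x) ∧ c = ‖A‖ * ‖B‖}
  have hne : S.Nonempty := by
    obtain ⟨A, B, h1, _⟩ := exists_good 𝕜 (kj 𝕜) (nj 𝕜) n
    obtain ⟨i, p, hip⟩ := euc_incl 𝕜 (nj_ge 𝕜 n)
    refine ⟨_, A.comp i, p.comp B, ?_, rfl⟩
    intro x
    simp only [ContinuousLinearMap.comp_apply]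
    rw [h1, hip]
  have hbdd : BddBelow S := ⟨0, by
    rintro c ⟨A, B, _, rfl⟩
    positivity⟩
  obtain ⟨c, ⟨A, B, h1, h2⟩, h3⟩ := exists_lt_of_csInf_lt hne (lt_add_one (sInf S))
  refine ⟨A, B, h1, ?_⟩
  intro A' B' h4
  have h5 : sInf S ≤ ‖A'‖ * ‖B'‖ := csInf_le hbdd ⟨A', B', h4, rfl⟩
  linarith

theorem theX_infinite : ¬ FiniteDimensional 𝕜 (TheX 𝕜) := by
  intro hfin
  -- Euclidean spaces of every dimension embed
  obtain ⟨A, B, h1, _⟩ := exists_AB 𝕜 (Module.finrank 𝕜 (TheX 𝕜) + 1)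
  have hinj : Function.Injective A.toLinearMap := by
    intro x y hxy
    have : A x = A y := hxy
    rw [← h1 x, ← h1 y, this]
  have := LinearMap.finrank_le_finrank_of_injective hinj
  rw [finrank_euclideanSpace_fin] at this
  omega

theorem theX_typeE : TypeE 𝕜 (TheX 𝕜) := by
  refine ⟨inferInstance, theX_infinite 𝕜, ?_⟩
  choose A B hAB hmin using exists_AB 𝕜
  refine ⟨A, B, ?_, ?_⟩
  · intro n
    ext1 x
    exact hAB n x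
  · rw [← le_zero_iff]
    apply le_of_forall_gt
    intro ε hε
    -- a real number between
    obtain ⟨δ, hδ0, hδ⟩ : ∃ δ : ℝ, 0 < δ ∧ ENNReal.ofReal δ < ε := by
      obtain ⟨r, hr1, hr2⟩ := ENNReal.lt_iff_exists_nnreal_btwn.1 hε
      refine ⟨r, by exact_mod_cast hr1, ?_⟩
      rwa [ENNReal.ofReal_coe_nnreal]
    refine lt_of_le_of_lt ?_ hδ
    apply Filter.liminf_le_of_frequently_le'
    rw [Filter.frequently_atTop]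
    intro N
    -- choose `j` large
    obtain ⟨j0, hj0⟩ := exists_nat_gt (2 / δ)
    set j := j0 + N with hj
    refine ⟨nj 𝕜 j, le_trans (by omega) (nj_ge 𝕜 j), ?_⟩
    apply ENNReal.ofReal_le_ofReal
    obtain ⟨A', B', h1, h2⟩ := exists_good 𝕜 (kj 𝕜) (nj 𝕜) j
    have h3 := hmin (nj 𝕜 j) A' B' h1
    have h4 := cost_nj 𝕜 j
    have h5 : (1 : ℝ) ≤ cU (kj 𝕜 j) := by
      unfold cU
      have : (1 : ℝ) ≤ (2 * kj 𝕜 j + 2).factorial := by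
        exact_mod_cast Nat.one_le_iff_ne_zero.2 (Nat.factorial_ne_zero _)
      linarith
    have h6 : ‖A (nj 𝕜 j)‖ * ‖B (nj 𝕜 j)‖ ≤ 2 * cU (kj 𝕜 j) := by linarith
    have hj1 : (0 : ℝ) < (j : ℝ) + 1 := by positivity
    have hs : 0 < Real.sqrt (nj 𝕜 j) := by nlinarith
    rw [div_le_iff₀ hs]
    have h7 : 2 < δ * ((j : ℝ) + 1) := by
      have e1 : (j0 : ℝ) ≤ j := by rw [hj]; push_cast; linarith [Nat.cast_nonneg (α := ℝ) N]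
      have e2 : 2 / δ * δ = 2 := by field_simp
      nlinarith
    calc ‖A (nj 𝕜 j)‖ * ‖B (nj 𝕜 j)‖ ≤ 2 * cU (kj 𝕜 j) := h6
      _ ≤ (δ * ((j : ℝ) + 1)) * cU (kj 𝕜 j) := by
          apply mul_le_mul_of_nonneg_right h7.le; linarith
      _ = δ * (((j : ℝ) + 1) * cU (kj 𝕜 j)) := by ring
      _ ≤ δ * Real.sqrt (nj 𝕜 j) := by gcongr

end Pool.Helper799.Te
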