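import Mathlib
import Pool.Agent.Helper799.TeCounter

set_option autoImplicit false

namespace Pool.Helper799.Te

open Finset

section general

variable {𝕜 X : Type} [RCLike 𝕜] [NormedAddCommGroup X] [NormedSpace 𝕜 X]

theorem projSet_nonempty (E : Submodule 𝕜 X) [FiniteDimensional 𝕜 E] :
    {c | ∃ P : X →L[𝕜] X, (∀ x, P x ∈ E) ∧ (∀ x ∈ E, P x = x) ∧ ‖P‖ = c}.Nonempty := by
  obtain ⟨f, hf⟩ := Submodule.ClosedComplemented.of_finiteDimensional E
  refine ⟨_, E.subtypeL.comp f, ?_, ?_, rfl⟩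
  · intro x
    exact (f x).2
  · intro x hx
    have := hf ⟨x, hx⟩
    simp only [ContinuousLinearMap.comp_apply, Submodule.subtypeL_apply]
    rw [this]

theorem distSet_nonempty (n : ℕ) (E : Submodule 𝕜 X) [FiniteDimensional 𝕜 E]
    (hn : Module.finrank 𝕜 E = n) :
    {c | ∃ T : E ≃L[𝕜] Euc 𝕜 n,
      ‖(T : E →L[𝕜] Euc 𝕜 n)‖ * ‖(T.symm : Euc 𝕜 n →L[𝕜] E)‖ = c}.Nonempty := by
  have h : Module.finrank 𝕜 E = Module.finrank 𝕜 (Euc 𝕜 n) := by
    rw [hn, finrank_euclideanSpace_fin]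
  exact ⟨_, ContinuousLinearEquiv.ofFinrankEq h, rfl⟩

theorem projConst_nonneg (E : Submodule 𝕜 X) : 0 ≤ projConst E := by
  apply Real.sInf_nonneg
  rintro c ⟨P, _, _, rfl⟩
  exact norm_nonneg _

theorem distEuc_nonneg (n : ℕ) (E : Submodule 𝕜 X) : 0 ≤ distEuc n E := by
  apply Real.sInf_nonneg
  rintro c ⟨T, rfl⟩
  positivity

/-- factorization obtained from a subspace -/
theorem exists_factor (n : ℕ) (E : Submodule 𝕜 X) [FiniteDimensional 𝕜 E]
    (hn : Module.finrank 𝕜 E = n) :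
    ∃ (A : Euc 𝕜 n →L[𝕜] X) (B : X →L[𝕜] Euc 𝕜 n), (∀ x, B (A x) = x) ∧
      ‖A‖ * ‖B‖ ≤ (distEuc n E + 1) * (projConst E + 1) := by
  obtain ⟨c, ⟨P, hP1, hP2, hP3⟩, hc⟩ := exists_lt_of_csInf_lt (projSet_nonempty E)
    (lt_add_one (projConst E))
  obtain ⟨d, ⟨T, hT⟩, hd⟩ := exists_lt_of_csInf_lt (distSet_nonempty n E hn)
    (lt_add_one (distEuc n E))
  let P' : X →L[𝕜] E := P.codRestrict E hP1
  refine ⟨E.subtypeL.comp (T.symm : Euc 𝕜 n →L[𝕜] E), (T : E →L[𝕜] Euc 𝕜 n).comp P', ?_, ?_⟩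
  · intro x
    simp only [ContinuousLinearMap.comp_apply, Submodule.subtypeL_apply]
    have h1 : P' ((T.symm : Euc 𝕜 n →L[𝕜] E) x : X) = (T.symm : Euc 𝕜 n →L[𝕜] E) x := by
      apply Subtype.ext
      exact hP2 _ ((T.symm : Euc 𝕜 n →L[𝕜] E) x).2
    rw [h1]
    simp
  · have h1 : ‖E.subtypeL.comp (T.symm : Euc 𝕜 n →L[𝕜] E)‖ ≤ ‖(T.symm : Euc 𝕜 n →L[𝕜] E)‖ := by
      apply ContinuousLinearMap.opNorm_le_bound _ (norm_nonneg _)
      intro x
      simp only [ContinuousLinearMap.comp_apply, Submodule.subtypeL_apply]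
      exact (T.symm : Euc 𝕜 n →L[𝕜] E).le_opNorm x
    have h2 : ‖P'‖ ≤ ‖P‖ := by
      apply ContinuousLinearMap.opNorm_le_bound _ (norm_nonneg _)
      intro x
      exact P.le_opNorm x
    have h3 : ‖(T : E →L[𝕜] Euc 𝕜 n).comp P'‖ ≤ ‖(T : E →L[𝕜] Euc 𝕜 n)‖ * ‖P‖ := by
      refine (ContinuousLinearMap.opNorm_comp_le _ _).trans ?_
      gcongr
    calc ‖E.subtypeL.comp (T.symm : Euc 𝕜 n →L[𝕜] E)‖ * ‖(T : E →L[𝕜] Euc 𝕜 n).comp P'‖
        ≤ ‖(T.symm : Euc 𝕜 n →L[𝕜] E)‖ * (‖(T : E →L[𝕜] Euc 𝕜 n)‖ * ‖P‖) := by gcongr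
      _ = (‖(T : E →L[𝕜] Euc 𝕜 n)‖ * ‖(T.symm : Euc 𝕜 n →L[𝕜] E)‖) * ‖P‖ := by ring
      _ = d * c := by rw [hT, hP3]
      _ ≤ (distEuc n E + 1) * (projConst E + 1) := by
          have hd0 : 0 ≤ d := by rw [← hT]; positivity
          have hc0 : 0 ≤ c := by rw [← hP3]; positivity
          have := projConst_nonneg E
          have := distEuc_nonneg n E
          apply mul_le_mul hd.le hc.le hc0
          linarith

end general

/-- the asymptotic contradiction -/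
theorem asym (f g : ℕ → ℝ) (m : ℕ → ℕ) (hm : ∀ j, j ≤ m j) (C : ℝ) (hC : 0 ≤ C)
    (hf0 : ∀ n, 0 ≤ f n) (hg0 : ∀ n, 0 ≤ g n)
    (hf : ∀ n, 1 ≤ n → f n ≤ C) (hg : g =o[Filter.atTop] (fun n : ℕ => Real.sqrt n))
    (h : ∀ j, Real.sqrt (m j) ≤ 21 * ((f (m j) + 1) * (g (m j) + 1))) : False := by
  have h1 := hg.def (show (0 : ℝ) < 1 / (42 * (C + 1)) by positivity)
  rw [Filter.eventually_atTop] at h1
  obtain ⟨N, hN⟩ := h1
  obtain ⟨M, hM⟩ := exists_nat_gt ((42 * (C + 1)) ^ 2)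
  set j := N + M + 1 with hj
  have h2 := hN (m j) (by have := hm j; omega)
  rw [Real.norm_of_nonneg (hg0 _), Real.norm_of_nonneg (Real.sqrt_nonneg _)] at h2
  have h3 := h j
  have h4 := hf (m j) (by have := hm j; omega)
  have h5 : 42 * (C + 1) < Real.sqrt (m j) := by
    apply Real.lt_sqrt_of_sq_lt
    refine hM.trans_le ?_
    have : M ≤ m j := by have := hm j; omega
    exact_mod_cast this
  set s := Real.sqrt (m j) with hs
  have h6 : (f (m j) + 1) * (g (m j) + 1) ≤ (C + 1) * (1 / (42 * (C + 1)) * s + 1) := by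
    apply mul_le_mul
    · linarith
    · linarith
    · have := hg0 (m j); linarith
    · linarith
  have h7 : (C + 1) * (1 / (42 * (C + 1)) * s + 1) = s / 42 + (C + 1) := by
    field_simp
  rw [h7] at h6
  linarith

/-- the literal negative answer -/
theorem theX_fails (𝕜 : Type) [RCLike 𝕜] (E : ℕ → Submodule 𝕜 (TheX 𝕜)) (hE : DimSeq E) :
    ¬ PropA E ∧ ¬ PropB E := by
  have key : ∀ j, Real.sqrt (mj 𝕜 j) ≤ 21 * ((distEuc (mj 𝕜 j) (E (mj 𝕜 j)) + 1) *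
      (projConst (E (mj 𝕜 j)) + 1)) := by
    intro j
    haveI := (hE (mj 𝕜 j)).1
    obtain ⟨A, B, h1, h2⟩ := exists_factor (mj 𝕜 j) (E (mj 𝕜 j)) (hE (mj 𝕜 j)).2
    have h3 := bad_scale 𝕜 j A B h1
    refine h3.trans ?_
    gcongr
  have hm : ∀ j, j ≤ mj 𝕜 j := by
    intro j; unfold mj; omega
  constructor
  · rintro ⟨⟨C, hC⟩, h2⟩
    apply asym (fun n => projConst (E n)) (fun n => distEuc n (E n)) (mj 𝕜) hm (max C 0)
      (le_max_right _ _) (fun n => projConst_nonneg _) (fun n => distEuc_nonneg _ _)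
      (fun n hn => (hC n hn).trans (le_max_left _ _)) h2
    intro j
    rw [mul_comm (projConst _ + 1)]
    exact key j
  · rintro ⟨⟨C, hC⟩, h2⟩
    exact asym (fun n => distEuc n (E n)) (fun n => projConst (E n)) (mj 𝕜) hm (max C 0)
      (le_max_right _ _) (fun n => distEuc_nonneg _ _) (fun n => projConst_nonneg _)
      (fun n hn => (hC n hn).trans (le_max_left _ _)) h2 key

end Pool.Helper799.Te
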