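import Mathlib
import Pool.Agent.Helper799.TeNeg
import Pool.Agent.Helper799.DvMain

set_option autoImplicit false

namespace Pool.Helper799.Te

open Finset

variable {𝕜 X : Type} [RCLike 𝕜] [NormedAddCommGroup X] [NormedSpace 𝕜 X]

/-- kernels of finite rank operators on infinite-dimensional spaces are infinite-dimensional -/
theorem ker_infinite (hX : ¬ FiniteDimensional 𝕜 X) (n : ℕ) (B : X →L[𝕜] Euc 𝕜 n) :
    ¬ FiniteDimensional 𝕜 (LinearMap.ker B.toLinearMap) := by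
  intro h
  apply hX
  have h1 : FiniteDimensional 𝕜 (X ⧸ LinearMap.ker B.toLinearMap) :=
    LinearEquiv.finiteDimensional (LinearMap.quotKerEquivRange B.toLinearMap).symm
  exact Module.Finite.of_submodule_quotient (LinearMap.ker B.toLinearMap)

theorem distEuc_le (n : ℕ) (E : Submodule 𝕜 X) (T : E ≃L[𝕜] Euc 𝕜 n) :
    distEuc n E ≤ ‖(T : E →L[𝕜] Euc 𝕜 n)‖ * ‖(T.symm : Euc 𝕜 n →L[𝕜] E)‖ := by
  apply csInf_le
  · refine ⟨0, ?_⟩
    rintro c ⟨T, rfl⟩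
    positivity
  · exact ⟨T, rfl⟩

theorem projConst_le (E : Submodule 𝕜 X) (P : X →L[𝕜] X) (h1 : ∀ x, P x ∈ E)
    (h2 : ∀ x ∈ E, P x = x) : projConst E ≤ ‖P‖ := by
  apply csInf_le
  · refine ⟨0, ?_⟩
    rintro c ⟨P, _, _, rfl⟩
    exact norm_nonneg _
  · exact ⟨P, h1, h2, rfl⟩

/-- A factorization of the identity of `ℓ_2^n` through `X` of cost `‖A‖ ‖B‖` yields an
`n`-dimensional `45`-Euclidean subspace which is `45 ‖A‖ ‖B‖`-complemented. -/
theorem exists_good_subspace (hX : ¬ FiniteDimensional 𝕜 X) (n : ℕ) (hn : 1 ≤ n)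
    (A : Euc 𝕜 n →L[𝕜] X) (B : X →L[𝕜] Euc 𝕜 n) (hBA : ∀ x, B (A x) = x) :
    ∃ E : Submodule 𝕜 X, FiniteDimensional 𝕜 E ∧ Module.finrank 𝕜 E = n ∧
      distEuc n E ≤ 45 ∧ projConst E ≤ 45 * (‖A‖ * ‖B‖) := by
  classical
  obtain ⟨j, hj⟩ := dvoretzky (ker_infinite hX n B) n
  -- `A ≠ 0`
  have hA : 0 < ‖A‖ := by
    rw [norm_pos_iff]
    intro h
    let e : Euc 𝕜 n := EuclideanSpace.single ⟨0, by omega⟩ (1 : 𝕜)
    have h1 := hBA e
    rw [h, ContinuousLinearMap.zero_apply, map_zero] at h1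
    have h2 : ‖e‖ = 1 := by simp [e]
    rw [← h1, norm_zero] at h2
    norm_num at h2
  set c := ‖A‖ with hc
  let A' : Euc 𝕜 n →L[𝕜] X := ((c⁻¹ : ℝ) : 𝕜) • A +
    ((2 : ℝ) : 𝕜) • ((LinearMap.ker B.toLinearMap).subtypeL.comp j)
  have hA'x : ∀ x, A' x = ((c⁻¹ : ℝ) : 𝕜) • A x + ((2 : ℝ) : 𝕜) • (j x : X) := fun x => rfl
  have hAx : ∀ x, ‖((c⁻¹ : ℝ) : 𝕜) • A x‖ ≤ ‖x‖ := by
    intro x
    rw [norm_smul, RCLike.norm_ofReal, abs_of_pos (by positivity)]
    calc c⁻¹ * ‖A x‖ ≤ c⁻¹ * (c * ‖x‖) := by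
          gcongr
          exact A.le_opNorm x
      _ = ‖x‖ := by rw [← mul_assoc, inv_mul_cancel₀ hA.ne', one_mul]
  have hjx : ∀ x, ‖((2 : ℝ) : 𝕜) • (j x : X)‖ = 2 * ‖j x‖ := by
    intro x
    rw [norm_smul, RCLike.norm_ofReal, abs_of_pos (by norm_num)]
    rfl
  have hlow : ∀ x, ‖x‖ ≤ ‖A' x‖ := by
    intro x
    have h1 := hAx x
    have h2 := (hj x).1
    have h3 := hjx x
    have h4 : ‖((2 : ℝ) : 𝕜) • (j x : X)‖ ≤ ‖A' x‖ + ‖((c⁻¹ : ℝ) : 𝕜) • A x‖ := by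
      have : ((2 : ℝ) : 𝕜) • (j x : X) = A' x - ((c⁻¹ : ℝ) : 𝕜) • A x := by
        rw [hA'x]; abel
      rw [this]
      exact norm_sub_le _ _
    linarith
  have hup : ∀ x, ‖A' x‖ ≤ 45 * ‖x‖ := by
    intro x
    rw [hA'x]
    have h1 := hAx x
    have h2 := (hj x).2
    have h3 := hjx x
    refine (norm_add_le _ _).trans ?_
    linarith
  have hBA' : ∀ x, (((c : ℝ) : 𝕜) • B) (A' x) = x := by
    intro x
    change ((c : ℝ) : 𝕜) • B (A' x) = x
    rw [hA'x, map_add, map_smul, map_smul, hBA]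
    have h1 : B (j x : X) = 0 := (j x).2
    rw [h1, smul_zero, add_zero, smul_smul, ← RCLike.ofReal_mul, mul_inv_cancel₀ hA.ne',
      RCLike.ofReal_one, one_smul]
  have hinj : Function.Injective A'.toLinearMap := by
    intro x y hxy
    have h1 : A' x = A' y := hxy
    rw [← hBA' x, ← hBA' y, h1]
  let E : Submodule 𝕜 X := LinearMap.range A'.toLinearMap
  let T0 : Euc 𝕜 n ≃ₗ[𝕜] E := LinearEquiv.ofInjective A'.toLinearMap hinj
  have hEfin : FiniteDimensional 𝕜 E := T0.finiteDimensional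
  let T : E ≃L[𝕜] Euc 𝕜 n := T0.symm.toContinuousLinearEquiv
  have hTs : ∀ x, ((T.symm x : E) : X) = A' x := by
    intro x
    exact LinearEquiv.ofInjective_apply A'.toLinearMap (h := hinj) x
  refine ⟨E, hEfin, ?_, ?_, ?_⟩
  · rw [← T0.finrank_eq, finrank_euclideanSpace_fin]
  · have h1 : ‖(T.symm : Euc 𝕜 n →L[𝕜] E)‖ ≤ 45 := by
      apply ContinuousLinearMap.opNorm_le_bound _ (by norm_num)
      intro x
      have := hup x
      rw [← hTs] at this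
      exact this
    have h2 : ‖(T : E →L[𝕜] Euc 𝕜 n)‖ ≤ 1 := by
      apply ContinuousLinearMap.opNorm_le_bound _ (by norm_num)
      intro z
      have := hlow (T z)
      rw [← hTs, T.symm_apply_apply] at this
      rw [one_mul]
      exact this
    refine (distEuc_le n E T).trans ?_
    calc ‖(T : E →L[𝕜] Euc 𝕜 n)‖ * ‖(T.symm : Euc 𝕜 n →L[𝕜] E)‖ ≤ 1 * 45 := by gcongr
      _ = 45 := by norm_num
  · let P : X →L[𝕜] X := A'.comp (((c : ℝ) : 𝕜) • B)
    have hP : ‖P‖ ≤ 45 * (c * ‖B‖) := by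
      apply ContinuousLinearMap.opNorm_le_bound _ (by positivity)
      intro x
      refine (hup _).trans ?_
      have : ‖(((c : ℝ) : 𝕜) • B) x‖ ≤ c * ‖B‖ * ‖x‖ := by
        change ‖((c : ℝ) : 𝕜) • B x‖ ≤ _
        rw [norm_smul, RCLike.norm_ofReal, abs_of_pos hA, mul_assoc]
        gcongr
        exact B.le_opNorm x
      calc 45 * ‖(((c : ℝ) : 𝕜) • B) x‖ ≤ 45 * (c * ‖B‖ * ‖x‖) := by gcongr
        _ = _ := by ring
    refine (projConst_le E P ?_ ?_).trans hP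
    · intro x
      exact ⟨_, rfl⟩
    · rintro x ⟨z, rfl⟩
      change A' ((((c : ℝ) : 𝕜) • B) (A' z)) = A' z
      rw [hBA']

/-- type (E) implies property (b) along a sequence of dimensions -/
theorem typeE_subseq (hE : TypeE 𝕜 X) :
    ∃ (n : ℕ → ℕ) (E : ℕ → Submodule 𝕜 X), StrictMono n ∧
      (∀ k, FiniteDimensional 𝕜 (E k) ∧ Module.finrank 𝕜 (E k) = n k) ∧
      (∀ k, distEuc (n k) (E k) ≤ 45) ∧
      Filter.Tendsto (fun k => projConst (E k) / Real.sqrt (n k)) Filter.atTop (nhds 0) := by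
  obtain ⟨_, hX, A, B, hAB, hlim⟩ := hE
  have hfreq : ∀ (δ : ℝ), 0 < δ → ∀ N : ℕ, ∃ n, N ≤ n ∧ 1 ≤ n ∧ ‖A n‖ * ‖B n‖ ≤ δ * Real.sqrt n := by
    intro δ hδ N
    have h1 : Filter.liminf (fun n : ℕ => ENNReal.ofReal (‖A n‖ * ‖B n‖ / Real.sqrt n))
        Filter.atTop < ENNReal.ofReal δ := by
      rw [hlim]
      exact ENNReal.ofReal_pos.2 hδ
    have h2 := Filter.frequently_lt_of_liminf_lt (by isBoundedDefault) h1
    rw [Filter.frequently_atTop] at h2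
    obtain ⟨n, hn1, hn2⟩ := h2 (N + 1)
    refine ⟨n, by omega, by omega, ?_⟩
    have h3 := (ENNReal.ofReal_lt_ofReal_iff hδ).1 hn2
    have h4 : 0 < Real.sqrt n := Real.sqrt_pos.2 (by exact_mod_cast (by omega : 0 < n))
    rw [div_lt_iff₀ h4] at h3
    exact h3.le
  -- choose dimensions
  choose f hf1 hf2 hf3 using hfreq
  let g : ℕ → ℕ → ℕ := fun k N => f (1 / ((k : ℝ) + 1)) (by positivity) (N + 1)
  obtain ⟨n, hn0, hns⟩ : ∃ n : ℕ → ℕ, n 0 = g 0 0 ∧ ∀ k, n (k + 1) = g (k + 1) (n k) :=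
    ⟨fun k => Nat.rec (motive := fun _ => ℕ) (g 0 0) (fun k N => g (k + 1) N) k, rfl, fun _ => rfl⟩
  have hmono : StrictMono n := by
    apply strictMono_nat_of_lt_succ
    intro k
    rw [hns]
    have := hf1 (1 / (((k + 1 : ℕ) : ℝ) + 1)) (by positivity) (n k + 1)
    simp only [g]
    omega
  have hn1 : ∀ k, 1 ≤ n k := by
    intro k
    cases k with
    | zero => rw [hn0]; exact hf2 _ _ _
    | succ k => rw [hns]; exact hf2 _ _ _
  have hcost : ∀ k, ‖A (n k)‖ * ‖B (n k)‖ ≤ 1 / ((k : ℝ) + 1) * Real.sqrt (n k) := by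
    intro k
    cases k with
    | zero => rw [hn0]; exact hf3 _ _ _
    | succ k => rw [hns]; exact hf3 _ _ _
  have hBA : ∀ n x, B n (A n x) = x := by
    intro n x
    have := hAB n
    exact congrArg (fun T => T x) this
  choose E hE1 hE2 hE3 hE4 using fun k => exists_good_subspace hX (n k) (hn1 k) (A (n k)) (B (n k))
    (hBA (n k))
  refine ⟨n, E, hmono, fun k => ⟨hE1 k, hE2 k⟩, hE3, ?_⟩
  have hb : ∀ k, projConst (E k) / Real.sqrt (n k) ≤ 45 * (1 / ((k : ℝ) + 1)) := by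
    intro k
    have h4 : 0 < Real.sqrt (n k) := Real.sqrt_pos.2 (by exact_mod_cast hn1 k)
    rw [div_le_iff₀ h4]
    calc projConst (E k) ≤ 45 * (‖A (n k)‖ * ‖B (n k)‖) := hE4 k
      _ ≤ 45 * (1 / ((k : ℝ) + 1) * Real.sqrt (n k)) := by
          have := hcost k
          gcongr
      _ = _ := by ring
  have ht : Filter.Tendsto (fun k : ℕ => 45 * (1 / ((k : ℝ) + 1))) Filter.atTop (nhds 0) := by
    have := tendsto_one_div_add_atTop_nhds_zero_nat (𝕜 := ℝ)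
    simpa using this.const_mul 45
  apply squeeze_zero _ hb ht
  intro k
  exact div_nonneg (projConst_nonneg _) (Real.sqrt_nonneg _)

/-- with `lim` in place of `liminf`, property (b) holds for the full sequence of dimensions -/
theorem typeE_lim (hX : ¬ FiniteDimensional 𝕜 X)
    (A : ∀ n : ℕ, Euc 𝕜 n →L[𝕜] X) (B : ∀ n : ℕ, X →L[𝕜] Euc 𝕜 n)
    (hAB : ∀ n, (B n).comp (A n) = ContinuousLinearMap.id 𝕜 (Euc 𝕜 n))
    (hlim : (fun n : ℕ => ‖A n‖ * ‖B n‖) =o[Filter.atTop] (fun n : ℕ => Real.sqrt n)) :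
    ∃ E : ℕ → Submodule 𝕜 X, DimSeq E ∧ PropB E := by
  classical
  have hBA : ∀ n x, B n (A n x) = x := by
    intro n x
    have := hAB n
    exact congrArg (fun T => T x) this
  have hex : ∀ n : ℕ, ∃ E : Submodule 𝕜 X, (FiniteDimensional 𝕜 E ∧ Module.finrank 𝕜 E = n) ∧
      (1 ≤ n → distEuc n E ≤ 45 ∧ projConst E ≤ 45 * (‖A n‖ * ‖B n‖)) := by
    intro n
    by_cases hn : 1 ≤ n
    · obtain ⟨E, h1, h2, h3, h4⟩ := exists_good_subspace hX n hn (A n) (B n) (hBA n)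
      exact ⟨E, ⟨h1, h2⟩, fun _ => ⟨h3, h4⟩⟩
    · have : n = 0 := by omega
      subst this
      exact ⟨⊥, ⟨inferInstance, finrank_bot 𝕜 X⟩, fun h => absurd h hn⟩
  choose E hE1 hE2 using hex
  refine ⟨E, hE1, ⟨45, fun n hn => (hE2 n hn).1⟩, ?_⟩
  have h1 : (fun n : ℕ => projConst (E n)) =O[Filter.atTop] (fun n : ℕ => ‖A n‖ * ‖B n‖) := by
    apply Asymptotics.IsBigO.of_bound 45
    filter_upwards [Filter.eventually_ge_atTop 1] with n hn
    rw [Real.norm_of_nonneg (projConst_nonneg _), Real.norm_of_nonneg (by positivity)]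
    exact (hE2 n hn).2
  exact h1.trans_isLittleO hlim

end Pool.Helper799.Te
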