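import Pool.Agent.Helper799.PermCount

set_option autoImplicit false

namespace Pool.Agent.Helper799.Union

open Finset Equiv

lemma pow_div_fact (s : ℕ) : (s : ℝ) ^ s ≤ Nat.factorial s * Real.exp s := by
  have h := Real.pow_div_factorial_le_exp (x := (s:ℝ)) (by positivity) s
  rw [div_le_iff₀ (by positivity)] at h
  linarith

/-- `C(N,s) ≤ (e N / s)^s` -/
lemma choose_bound (N s : ℕ) (hs : 1 ≤ s) :
    (N.choose s : ℝ) ≤ (Real.exp 1 * N / s) ^ s := by
  have hs0 : (0:ℝ) < s := by exact_mod_cast hs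
  have h1 : (N.choose s : ℝ) ≤ (N:ℝ) ^ s / Nat.factorial s := Nat.choose_le_pow_div s N
  have h2 := pow_div_fact s
  have h3 : (N:ℝ) ^ s / Nat.factorial s ≤ (Real.exp 1 * N / s) ^ s := by
    rw [div_pow, mul_pow, ← Real.exp_nat_mul, mul_one, div_le_div_iff₀ (by positivity) (by positivity)]
    calc (N:ℝ) ^ s * (s:ℝ) ^ s ≤ (N:ℝ) ^ s * (Nat.factorial s * Real.exp s) := by gcongr
      _ = _ := by ring
  exact h1.trans h3

lemma term1 (N s : ℕ) (hs : 1 ≤ s) (hsN : 2 * s ≤ N) :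
    (N.choose s : ℝ) * ((N.choose (3 * s / 2) : ℝ) * (((((3 * s / 2 : ℕ) : ℝ)) / N) ^ s) ^ 24)
      ≤ (1 / 8) ^ s := by
  set t := 3 * s / 2 with ht
  have hst : s ≤ t := by omega
  have ht1 : 1 ≤ t := by omega
  have h2t : 2 * t ≤ 3 * s := by omega
  have hN0 : 0 < N := by omega
  have hs0 : (0:ℝ) < s := by exact_mod_cast hs
  have ht0 : (0:ℝ) < t := by exact_mod_cast ht1
  have hNr : (0:ℝ) < N := by exact_mod_cast hN0
  have h2t' : (2:ℝ) * t ≤ 3 * s := by exact_mod_cast h2t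
  have hsN' : (2:ℝ) * s ≤ N := by exact_mod_cast hsN
  set ρ : ℝ := (t:ℝ) / N with hρ
  have hρ0 : 0 < ρ := by positivity
  have hρ1 : ρ ≤ 3 / 4 := by
    rw [hρ, div_le_iff₀ hNr]; linarith
  have he : (1:ℝ) ≤ Real.exp 1 := Real.one_le_exp (by norm_num)
  have hc1 : (N.choose s : ℝ) ≤ (3 / 2 * Real.exp 1 / ρ) ^ s := by
    refine (choose_bound N s hs).trans ?_
    apply pow_le_pow_left₀ (by positivity)
    rw [div_le_div_iff₀ hs0 hρ0, hρ]
    rw [mul_div_assoc', div_le_iff₀ hNr]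
    have : 0 ≤ Real.exp 1 * N := by positivity
    nlinarith
  have hc2 : (N.choose t : ℝ) ≤ (Real.exp 1 / ρ) ^ (2 * s) := by
    refine (choose_bound N t ht1).trans ?_
    have h3 : Real.exp 1 * N / t = Real.exp 1 / ρ := by rw [hρ]; field_simp
    rw [h3]
    apply pow_le_pow_right₀
    · rw [one_le_div hρ0]; linarith
    · omega
  calc (N.choose s : ℝ) * ((N.choose t : ℝ) * (ρ ^ s) ^ 24)
      ≤ (3 / 2 * Real.exp 1 / ρ) ^ s * ((Real.exp 1 / ρ) ^ (2 * s) * (ρ ^ s) ^ 24) := by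
        gcongr
    _ = (3 / 2 * Real.exp 1 ^ 3 * ρ ^ 21) ^ s := by
        rw [pow_mul (Real.exp 1 / ρ) 2 s, ← pow_mul ρ s 24, mul_comm s 24, pow_mul ρ 24 s,
          ← mul_pow, ← mul_pow]
        congr 1
        field_simp
    _ ≤ (1 / 8) ^ s := by
        apply pow_le_pow_left₀ (by positivity)
        have he2 : Real.exp 1 ≤ 2.7183 := by
          have := Real.exp_one_lt_d9
          linarith
        calc 3 / 2 * Real.exp 1 ^ 3 * ρ ^ 21 ≤ 3 / 2 * 2.7183 ^ 3 * (3 / 4) ^ 21 := by gcongr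
          _ ≤ 1 / 8 := by norm_num

/-- number of constraints -/
noncomputable def mm (N u : ℕ) : ℕ := ⌊(u:ℝ) + 1000 * u / (1 + Real.log ((N:ℝ) / u))⌋₊ + 1

lemma mm_gt (N u : ℕ) : (u:ℝ) + 1000 * u / (1 + Real.log ((N:ℝ) / u)) < mm N u := by
  unfold mm
  push_cast
  exact Nat.lt_floor_add_one _

lemma log_ge (N u : ℕ) (hu : 1 ≤ u) (h : 17161 * u ≤ N) :
    2 * Real.log 131 ≤ Real.log ((N:ℝ) / u) := by
  have hu0 : (0:ℝ) < u := by exact_mod_cast hu
  have h' : (17161:ℝ) * u ≤ N := by exact_mod_cast h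
  have h1 : (131:ℝ) ^ 2 ≤ (N:ℝ) / u := by
    rw [le_div_iff₀ hu0]; norm_num; exact h'
  have h2 := Real.log_le_log (by norm_num) h1
  rw [Real.log_pow] at h2
  push_cast at h2
  exact h2

lemma log131 : (1:ℝ) ≤ Real.log 131 := by
  rw [Real.le_log_iff_exp_le (by norm_num)]
  have := Real.exp_one_lt_d9
  linarith

lemma mm_le (N u : ℕ) (hu : 1 ≤ u) (h : 17161 * u ≤ N) : mm N u ≤ 1002 * u := by
  have hl := log_ge N u hu h
  have hl' := log131
  have hu0 : (0:ℝ) < u := by exact_mod_cast hu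
  have h1 : (u:ℝ) + 1000 * u / (1 + Real.log ((N:ℝ) / u)) ≤ 1001 * u := by
    have : 1000 * (u:ℝ) / (1 + Real.log ((N:ℝ) / u)) ≤ 1000 * u := by
      apply div_le_self (by positivity)
      linarith
    linarith
  have h2 : ⌊(u:ℝ) + 1000 * u / (1 + Real.log ((N:ℝ) / u))⌋₊ ≤ 1001 * u := by
    apply Nat.floor_le_of_le
    push_cast
    exact h1
  unfold mm
  omega

lemma mm_ge (N u : ℕ) (hu : 1 ≤ u) (h : 17161 * u ≤ N) : u ≤ mm N u := by
  have h1 := mm_gt N u
  have hl := log_ge N u hu h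
  have hl' := log131
  have hu0 : (0:ℝ) < u := by exact_mod_cast hu
  have h2 : 0 ≤ 1000 * (u:ℝ) / (1 + Real.log ((N:ℝ) / u)) := by
    apply div_nonneg (by positivity); linarith
  have : (u:ℝ) < mm N u := by linarith
  exact_mod_cast this.le

lemma term2 (N u : ℕ) (hu : 1 ≤ u) (h : 17161 * u ≤ N) :
    (N.choose u : ℝ) * (((24 * u ^ 2).choose (mm N u) : ℝ) * (2 / (N:ℝ)) ^ (mm N u))
      ≤ (1 / 4) ^ u := by
  set m := mm N u with hm
  have hum : u ≤ m := mm_ge N u hu h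
  have hm1 : 1 ≤ m := hu.trans hum
  have hu0 : (0:ℝ) < u := by exact_mod_cast hu
  have hm0 : (0:ℝ) < m := by exact_mod_cast hm1
  have hum' : (u:ℝ) ≤ m := by exact_mod_cast hum
  have hN0 : 0 < N := by omega
  have hNr : (0:ℝ) < N := by exact_mod_cast hN0
  have hl := log_ge N u hu h
  have hl' := log131
  set ℓ := Real.log ((N:ℝ) / u) with hℓ
  set z : ℝ := (u:ℝ) / N with hz
  have hz0 : 0 < z := by positivity
  have hlogz : Real.log z = -ℓ := by
    rw [hz, hℓ, Real.log_div hu0.ne' hNr.ne', Real.log_div hNr.ne' hu0.ne']; ring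
  set q : ℝ := 48 * Real.exp 1 * z with hq
  have hq0 : 0 < q := by positivity
  have he131 : 48 * Real.exp 1 ≤ 131 := by
    have := Real.exp_one_lt_d9
    linarith
  have hlogq : Real.log q ≤ -(1 + ℓ) / 4 := by
    rw [hq, Real.log_mul (by positivity) hz0.ne', hlogz]
    have h1 : Real.log (48 * Real.exp 1) ≤ Real.log 131 :=
      Real.log_le_log (by positivity) he131
    linarith
  have hc1 : (N.choose u : ℝ) ≤ (Real.exp 1 / z) ^ u := by
    refine (choose_bound N u hu).trans (le_of_eq ?_)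
    rw [hz]; congr 1; field_simp
  have hc2 : ((24 * u ^ 2).choose m : ℝ) ≤ (24 * Real.exp 1 * u) ^ m := by
    refine (choose_bound _ m hm1).trans ?_
    apply pow_le_pow_left₀ (by positivity)
    push_cast
    rw [div_le_iff₀ hm0]
    have : 0 ≤ 24 * Real.exp 1 * (u:ℝ) := by positivity
    nlinarith
  have hmu : (m:ℝ) - u = ((m - u : ℕ) : ℝ) := by rw [Nat.cast_sub hum]
  have hgap : 1000 * (u:ℝ) / (1 + ℓ) ≤ (m:ℝ) - u := by
    have := mm_gt N u
    rw [← hm, ← hℓ] at this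
    linarith
  have hqpow : q ^ (m - u) ≤ Real.exp (-(250 * (u:ℝ))) := by
    rw [← Real.exp_log hq0, ← Real.exp_nat_mul, ← hmu]
    apply Real.exp_le_exp.2
    have h1 : 0 ≤ (m:ℝ) - u := by linarith
    have hl1 : 0 < 1 + ℓ := by linarith
    calc ((m:ℝ) - u) * Real.log q ≤ ((m:ℝ) - u) * (-(1 + ℓ) / 4) :=
          mul_le_mul_of_nonneg_left hlogq h1
      _ = -(((m:ℝ) - u) * ((1 + ℓ) / 4)) := by ring
      _ ≤ -((1000 * (u:ℝ) / (1 + ℓ)) * ((1 + ℓ) / 4)) := by
          have := mul_le_mul_of_nonneg_right hgap (by linarith : 0 ≤ (1 + ℓ) / 4)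
          linarith
      _ = -(250 * (u:ℝ)) := by field_simp; ring
  calc (N.choose u : ℝ) * (((24 * u ^ 2).choose m : ℝ) * (2 / (N:ℝ)) ^ m)
      ≤ (Real.exp 1 / z) ^ u * ((24 * Real.exp 1 * u) ^ m * (2 / (N:ℝ)) ^ m) := by gcongr
    _ = (Real.exp 1 / z) ^ u * q ^ m := by
        rw [← mul_pow]
        congr 2
        rw [hq, hz]; field_simp; ring
    _ = (Real.exp 1 / z * q) ^ u * q ^ (m - u) := by
        rw [mul_pow (Real.exp 1 / z) q u, mul_assoc, ← pow_add, Nat.add_sub_cancel' hum]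
    _ = (48 * Real.exp 1 ^ 2) ^ u * q ^ (m - u) := by
        congr 2
        rw [hq]; field_simp
    _ ≤ (48 * Real.exp 1 ^ 2) ^ u * Real.exp (-(250 * (u:ℝ))) := by gcongr
    _ = (48 * Real.exp 1 ^ 2 * Real.exp (-250)) ^ u := by
        rw [mul_pow (48 * Real.exp 1 ^ 2), ← Real.exp_nat_mul (-250) u]
        congr 2; ring
    _ ≤ (1 / 4) ^ u := by
        apply pow_le_pow_left₀ (by positivity)
        have h1 : Real.exp 1 ^ 2 * Real.exp (-250) = Real.exp (-248) := by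
          rw [← Real.exp_nat_mul, ← Real.exp_add]; norm_num
        rw [mul_assoc, h1, Real.exp_neg]
        have h2 : (249:ℝ) ≤ Real.exp 248 := by
          have := Real.add_one_le_exp (248:ℝ)
          linarith
        have h3 : (Real.exp 248)⁻¹ ≤ (249:ℝ)⁻¹ := inv_anti₀ (by norm_num) h2
        calc 48 * (Real.exp 248)⁻¹ ≤ 48 * (249:ℝ)⁻¹ := by gcongr
          _ ≤ 1 / 4 := by norm_num

lemma geom_bound (r : ℝ) (hr0 : 0 ≤ r) (hr1 : r < 1) (n : ℕ) :
    ∑ s ∈ Finset.range n, (if s = 0 then 0 else r ^ s) ≤ r / (1 - r) := by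
  have h1 : ∑ s ∈ Finset.range n, (if s = 0 then 0 else r ^ s)
      ≤ ∑ s ∈ Finset.range n, r * r ^ (s - 1) * (if s = 0 then 0 else 1) := by
    apply Finset.sum_le_sum
    intro s _
    split_ifs with h
    · simp
    · rw [← pow_succ', Nat.sub_add_cancel (Nat.one_le_iff_ne_zero.2 h)]; simp
  refine h1.trans ?_
  cases n with
  | zero => simp; exact div_nonneg hr0 (by linarith)
  | succ n =>
    rw [Finset.sum_range_succ']
    simp only [Nat.add_sub_cancel, Nat.succ_ne_zero, if_false, mul_one, if_true, mul_zero, add_zero]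
    rw [← Finset.mul_sum, div_eq_mul_inv]
    apply mul_le_mul_of_nonneg_left _ hr0
    have := (summable_geometric_of_lt_one hr0 hr1).sum_le_tsum (Finset.range n)
      (fun i _ => pow_nonneg hr0 i)
    rwa [tsum_geometric_of_lt_one hr0 hr1] at this

end Pool.Agent.Helper799.Union
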